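import Pool.Agent.H742F.Stm2
import Pool.Agent.helper987_SE.D3a

/-!
# Project FS (helper742): assembly
-/

set_option autoImplicit false
set_option maxHeartbeats 1000000

open Filter Topology Finset

namespace Pool.Agent.H742F.Asm2

open Helper418 Pool.Agent.helper987_SE Pool.Agent.Helper702_TH
open Matrix (SpecialLinearGroup)

theorem third_fin (k : ℕ) (hk : 3 ≤ k) : Third (Fin k) := by
  intro i j
  by_contra hcon
  push Not at hcon
  have h1 : (Finset.univ : Finset (Fin k)) ⊆ {i, j} := by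
    intro x _
    by_cases hx : x = i
    · simp [hx]
    · simp [hcon x hx]
  have h2 := (Finset.card_le_card h1).trans (Finset.card_le_two)
  simp at h2
  omega

theorem El_neg {k : ℕ} (e0 : E0P) {R : Type} [CommRing R] (i j : Fin k) (h : i ≠ j) (a : R) :
    El i j (-a) = (El i j a)⁻¹ := by
  obtain ⟨P, hP, -⟩ := e0 (Fin k) R
  have h1 := P.add i j h (-a) a
  rw [neg_add_cancel, hP] at h1
  have h0 := P.add i j h 0 0
  rw [add_zero, hP] at h0
  have h0' : (El i j (0 : R)) = 1 := left_eq_mul.mp h0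
  rw [h0'] at h1
  exact eq_inv_of_mul_eq_one_left h1.symm

theorem El_nsmul {k : ℕ} (e0 : E0P) {R : Type} [CommRing R] (i j : Fin k) (h : i ≠ j) (n : ℕ) :
    El i j ((n : ℕ) : R) = (El i j (1 : R)) ^ n := by
  obtain ⟨P, hP, -⟩ := e0 (Fin k) R
  induction n with
  | zero =>
    have h0 := P.add i j h 0 0
    rw [add_zero, hP] at h0
    have h0' : (El i j (0 : R)) = 1 := left_eq_mul.mp h0
    rw [Nat.cast_zero, pow_zero, h0']
  | succ n ih =>
    have h1 := P.add i j h (n : R) 1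
    rw [hP] at h1
    rw [Nat.cast_succ, h1, ih, pow_succ]

theorem closure_one {k : ℕ} (e0 : E0P) (e1 : E1P) (r1 : Herm ℤ) :
    Subgroup.closure {g : SpecialLinearGroup (Fin k) ℤ | ∃ i j, i ≠ j ∧ g = El i j 1} = ⊤ := by
  rw [eq_top_iff, ← e1 (Fin k) ℤ r1, Subgroup.closure_le]
  rintro g ⟨i, j, a, hij, rfl⟩
  have h1 : (El i j (1 : ℤ)) ∈
      Subgroup.closure {g : SpecialLinearGroup (Fin k) ℤ | ∃ i j, i ≠ j ∧ g = El i j 1} :=
    Subgroup.subset_closure ⟨i, j, hij, rfl⟩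
  obtain ⟨n, rfl | rfl⟩ := a.eq_nat_or_neg
  · show El i j ((n : ℕ) : ℤ) ∈ _
    rw [El_nsmul e0 i j hij]
    exact Subgroup.pow_mem _ h1 n
  · show El i j (-((n : ℕ) : ℤ)) ∈ _
    rw [El_neg e0 i j hij, El_nsmul e0 i j hij]
    exact Subgroup.inv_mem _ (Subgroup.pow_mem _ h1 n)

/-- matrices over a product ring from matrices over the factors -/
noncomputable def asm {ι : Type} [Fintype ι] [DecidableEq ι] {Q : ℕ → Type} [∀ n, CommRing (Q n)]
    (g : ∀ n, SpecialLinearGroup ι (Q n)) : SpecialLinearGroup ι (∀ n, Q n) :=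
  ⟨fun i j n => (g n).1 i j, by
    funext n
    have h := (Pi.evalRingHom Q n).map_det
      (Matrix.of (fun i j n => (g n).1 i j) : Matrix ι ι (∀ n, Q n))
    have h2 : (Pi.evalRingHom Q n).mapMatrix
      (Matrix.of (fun i j n => (g n).1 i j) : Matrix ι ι (∀ n, Q n)) = (g n).1 := by
      ext i j
      rfl
    rw [h2, (g n).2] at h
    exact h⟩

theorem cmp_asm {ι : Type} [Fintype ι] [DecidableEq ι] {Q : ℕ → Type} [∀ n, CommRing (Q n)]
    (g : ∀ n, SpecialLinearGroup ι (Q n)) (n : ℕ) : cmp n (asm g) = g n := by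
  ext i j
  rfl

theorem El_coe {ι R : Type} [Fintype ι] [DecidableEq ι] [CommRing R] {i j : ι} (h : i ≠ j)
    (a : R) : (El i j a).1 = Matrix.transvection i j a := by
  have : El i j a = ⟨Matrix.transvection i j a, Matrix.det_transvection_of_ne i j h a⟩ :=
    dif_neg h
  rw [this]

theorem El_self {ι R : Type} [Fintype ι] [DecidableEq ι] [CommRing R] (i : ι) (a : R) :
    El i i a = 1 := dif_pos rfl

theorem map_El {ι R R' : Type} [Fintype ι] [DecidableEq ι] [CommRing R] [CommRing R']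
    (f : R →+* R') {i j : ι} (h : i ≠ j) (a : R) :
    SpecialLinearGroup.map f (El i j a) = El i j (f a) := by
  ext x y
  show f ((El i j a).1 x y) = (El i j (f a)).1 x y
  rw [El_coe h, El_coe h]
  unfold Matrix.transvection
  simp only [Matrix.add_apply, map_add, Matrix.one_apply, Matrix.single_apply]
  congr 1
  · split_ifs <;> simp
  · split_ifs <;> simp

/-- the reduction of an integral matrix -/
noncomputable def red (N : ℕ → ℕ) (k : ℕ) :
    SpecialLinearGroup (Fin k) ℤ →* SpecialLinearGroup (Fin k) (∀ n, ZMod (N n)) :=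
  SpecialLinearGroup.map (Int.castRingHom _)

theorem cmp_red (N : ℕ → ℕ) (k : ℕ) (n : ℕ) (γ : SpecialLinearGroup (Fin k) ℤ) :
    cmp n (red N k γ) = SpecialLinearGroup.map (Int.castRingHom (ZMod (N n))) γ := by
  ext i j
  simp [cmp, red]

theorem finModel (s : SPR) (t : TP) (n6 : N6P) (k4 : K4Q) (e0 : E0P) (e1 : E1P) (r1 : R1P)
    (r2 : R2P) (u : UP) (k : ℕ) (hk : 6 ≤ k) : FinModel (SpecialLinearGroup (Fin k) ℤ) := by
  intro A _ _ α
  obtain ⟨P, hP1, hP2⟩ := s A k hk α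
  obtain ⟨N, hN, P', hI, hP'⟩ := t A k (by omega) P hP1
  have h3 := third_fin k (by omega)
  have x1 : ∀ i j, i ≠ j → P'.x i j 1 = α (El i j 1) := by
    intro i j h
    have := hP' i j h (fun _ => 1)
    rw [hP2 i j h] at this
    rw [← this]
    congr 1
    funext n
    simp
  have xm : ∀ i j, i ≠ j → P'.x i j (-1) = α (El i j (-1)) := by
    intro i j h
    have h1 := P'.add i j h (-1) 1
    rw [neg_add_cancel] at h1
    have h0 := P'.add i j h 0 0
    rw [add_zero] at h0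
    have h0' : P'.x i j 0 = 1 := left_eq_mul.mp h0
    rw [h0'] at h1
    rw [eq_inv_of_mul_eq_one_left h1.symm, x1 i j h, El_neg e0 i j h, map_inv]
  have hc : ∀ i j, i ≠ j → P'.c i j (-1) (-1) = 1 := by
    intro i j h
    obtain ⟨Q, hQ, hM⟩ := e0 (Fin k) ℤ
    have hw : P'.W i j (-1) (-1) = α (Q.W i j (-1) (-1)) := by
      unfold StRel.W
      rw [hQ, map_mul, map_mul, xm i j h, neg_neg, neg_neg, x1 j i h.symm]
    have hw1 : P'.W i j 1 1 = α (Q.W i j 1 1) := by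
      unfold StRel.W
      rw [hQ, map_mul, map_mul, x1 i j h, xm j i h.symm]
    have hh : P'.h i j (-1) = α (Q.h i j (-1)) := by
      unfold StRel.h
      have e1 : (((-1 : (∀ n, ZMod (N n))ˣ)⁻¹ : (∀ n, ZMod (N n))ˣ) : ∀ n, ZMod (N n)) = -1 := by
        rw [inv_neg, inv_one, Units.val_neg, Units.val_one]
      have e2 : (((-1 : ℤˣ)⁻¹ : ℤˣ) : ℤ) = -1 := by
        rw [inv_neg, inv_one, Units.val_neg, Units.val_one]
      rw [e1, e2, Units.val_neg, Units.val_one, Units.val_neg, Units.val_one, hw, map_mul]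
    have hh1 : P'.h i j 1 = α (Q.h i j 1) := by
      unfold StRel.h
      have e1 : (((1 : (∀ n, ZMod (N n))ˣ)⁻¹ : (∀ n, ZMod (N n))ˣ) : ∀ n, ZMod (N n)) = 1 := by
        rw [inv_one, Units.val_one]
      have e2 : (((1 : ℤˣ)⁻¹ : ℤˣ) : ℤ) = 1 := by
        rw [inv_one, Units.val_one]
      rw [e1, e2, Units.val_one, Units.val_one, hw, hw1, map_mul]
    unfold StRel.c
    have e3 : (-1 : (∀ n, ZMod (N n))ˣ) * (-1) = 1 := by rw [neg_mul_neg, one_mul]
    have e4 := hM i j h (-1) (-1)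
    rw [neg_mul_neg, one_mul] at e4
    rw [e3, hh, hh1, ← map_mul, e4, mul_inv_cancel]
  have hM : P'.MulR := n6 A N (Fin k) P' h3 hN hI hc
  have hherm : Herm (∀ n, ZMod (N n)) := r1.2 N hN
  obtain ⟨Φ, hΦ⟩ := k4 (Fin k) (∀ n, ZMod (N n)) (SS A) P' h3 (r2 N hN) hherm hM
  have : ∀ n, NeZero (N n) := fun n => ⟨(hN n).ne'⟩
  obtain ⟨F, hF⟩ := u A (Fin k) (fun n => ZMod (N n)) Φ (e1 (Fin k) _ hherm) (by
    intro i j h
    have : (fun a => Φ (El i j a)) = P'.x i j := by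
      funext a
      exact hΦ i j h a
    rw [this]
    exact hI i j h)
  refine ⟨fun n => SpecialLinearGroup (Fin k) (ZMod (N n)), fun n => inferInstance,
    fun n => inferInstance, fun n => SpecialLinearGroup.map (Int.castRingHom (ZMod (N n))), F,
    ?_, ?_⟩
  · intro g h
    have e1 := hF (asm g)
    have e2 := hF (asm h)
    have e3 := hF (asm g * asm h)
    rw [map_mul, e1, e2] at e3
    have e4 : ∀ n, cmp n (asm g * asm h) = g n * h n := by
      intro n
      rw [map_mul, cmp_asm, cmp_asm]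
    simp only [e4, cmp_asm] at e3
    exact e3.symm
  · intro γ
    have hβ : α = Φ.comp (red N k) := by
      have hle : (⊤ : Subgroup (SpecialLinearGroup (Fin k) ℤ)) ≤ α.eqLocus (Φ.comp (red N k)) := by
        rw [← closure_one e0 e1 r1.1, Subgroup.closure_le]
        rintro g ⟨i, j, h, rfl⟩
        show α (El i j 1) = Φ (red N k (El i j 1))
        unfold red
        rw [map_El _ h, hΦ i j h, map_one, x1 i j h]
      ext1 g
      exact hle (Subgroup.mem_top g)
    rw [hβ]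
    show Φ (red N k γ) = _
    rw [hF]
    rfl

/-- the main theorem from the parts -/
theorem main (a2 : A2P) (a3 : A3P) (pw : PWP) (k1' : K1P)
    (s1 : A2P → PWP → E0P → S1R) (s4 : A2P → S4R) (s3 : E0P → A2P → PWP → S4R → S3R)
    (s2 : A2P → S1R → S3R → SPR) (t : A3P → TP)
    (c0 : C0Q) (c1 : C1P) (c2 : C1P → C2P) (c3 : C1P → C2P → C3P) (c4 : C0Q → C1P → C4Q)
    (c5 : C0Q → C1P → C5Q) (c6 : C0Q → C1P → C2P → C3P → C4Q → C5Q → C6Q)
    (c7 : C1P → C2P → C3P → C5Q → C6Q → C7Q) (c8 : C0Q → C8Q)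
    (k1 : C0Q → C2P → C5Q → K1Q) (k2 : C0Q → C1P → C2P → K1Q → K2Q) (k3 : C2P → K3Q)
    (e0 : E0P) (e1 : E1P) (k4 : E0P → E1P → C2P → K2Q → K3Q → K4Q) (r1 : R1P) (r2 : R2P)
    (n1 : K1P → N1P) (n2 : N2P) (n3 : N3P) (n4 : C3P → C4Q → C6Q → N1P → N4P)
    (n5 : C3P → C6Q → C7Q → N1P → N3P → N5P)
    (n6 : C3P → C4Q → C8Q → N2P → N4P → N5P → N6P) (u : UP) (f1 : F1Q) (f2 : F1Q → F2Q) :
    ZR := by
  have C2 := c2 c1
  have C3 := c3 c1 C2
  have C4 := c4 c0 c1
  have C5 := c5 c0 c1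
  have C6 := c6 c0 c1 C2 C3 C4 C5
  have C7 := c7 c1 C2 C3 C5 C6
  have C8 := c8 c0
  have K1 := k1 c0 C2 C5
  have K2 := k2 c0 c1 C2 K1
  have K3 := k3 C2
  have K4 := k4 e0 e1 C2 K2 K3
  have N1 := n1 k1'
  have N4 := n4 C3 C4 C6 N1
  have N5 := n5 C3 C6 C7 N1 n3
  have N6 := n6 C3 C4 C8 n2 N4 N5
  intro k hk
  exact f2 f1 _ (finModel (s2 a2 (s1 a2 pw e0) (s3 e0 a2 pw (s4 a2))) (t a3) N6 K4 e0 e1 r1 r2 u
    k hk)

end Pool.Agent.H742F.Asm2
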