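import Pool.Agent.H742F.Stm

set_option autoImplicit false
set_option maxHeartbeats 400000

open Filter Topology Finset

namespace Pool.Agent.H742F.C0

open Helper418 Pool.Agent.helper987_SE Pool.Agent.Helper702_TH
open Matrix (SpecialLinearGroup)

theorem x_zero {ι R X : Type} [CommRing R] [Group X] (P : StRel ι R X) {i j : ι} (h : i ≠ j) :
    P.x i j 0 = 1 := by
  have := P.add i j h 0 0
  rw [add_zero] at this
  exact left_eq_mul.mp this

theorem x_neg {ι R X : Type} [CommRing R] [Group X] (P : StRel ι R X) {i j : ι} (h : i ≠ j)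
    (a : R) : P.x i j a * P.x i j (-a) = 1 := by
  rw [← P.add i j h, add_neg_cancel, x_zero P h]

theorem same {ι R X : Type} [CommRing R] [Group X] (P : StRel ι R X) {i j : ι} (h : i ≠ j)
    (a b : R) : Commute (P.x i j a) (P.x i j b) := by
  change _ * _ = _ * _
  rw [← P.add i j h, ← P.add i j h, add_comm]

theorem orth {ι R X : Type} [CommRing R] [Group X] (P : StRel ι R X) (h3 : Third ι)
    {i j : ι} (hij : i ≠ j) {e a b : R} (ha : e * a = a) (hb : e * b = 0) :
    Commute (P.x i j a) (P.x j i b) := by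
  obtain ⟨k, hki, hkj⟩ := h3 i j
  have hba : b * a = 0 := by rw [← ha, ← mul_assoc, mul_comm b e, hb, zero_mul]
  have hae : a * e = a := by rw [mul_comm, ha]
  have c1 : Commute (P.x i k a) (P.x j i b) := by
    have := P.mul j i k hij.symm hki.symm hkj.symm b a
    rw [hba, x_zero P hkj.symm, one_mul] at this
    exact this.symm
  have c2 : Commute (P.x k j e) (P.x j i b) := by
    have := P.mul k j i hkj hij.symm hki e b
    rw [hb, x_zero P hki, one_mul] at this
    exact this
  have c3 : P.x i j a = P.x i k a * P.x k j e * (P.x i k a)⁻¹ * (P.x k j e)⁻¹ := by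
    have := P.mul i k j hki.symm hkj hij a e
    rw [hae] at this
    rw [this]
    group
  rw [c3]
  exact ((c1.mul_left c2).mul_left c1.inv_left).mul_left c2.inv_left

theorem arr {X : Type} [Group X] {p p' q q' r r' : X}
    (h1 : Commute p' q) (h2 : Commute p' r) (h3 : Commute q' r) :
    (p * p') * (q * q') * (r * r') = (p * q * r) * (p' * q' * r') := by
  calc (p * p') * (q * q') * (r * r') = p * (p' * q) * (q' * r) * r' := by group
    _ = p * (q * p') * (r * q') * r' := by rw [h1.eq, h3.eq]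
    _ = p * q * (p' * r) * q' * r' := by group
    _ = p * q * (r * p') * q' * r' := by rw [h2.eq]
    _ = (p * q * r) * (p' * q' * r') := by group

-- BEGIN TARGET
theorem main : C0Q := by
  intro ι R X _ _ P h3 i j hij e he
  refine ⟨fun a b ha hb => orth P h3 hij ha hb, ?_⟩
  intro U hU
  have hji : j ≠ i := hij.symm
  -- an element of `e R` and an element of `(1 - e) R`
  have key1 : ∀ a b : R, e * a = a → e * b = 0 → Commute (P.x i j b) (P.x j i a) := by
    intro a b ha hb
    exact (orth P h3 hji ha hb).symm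
  have hsplit : ∀ i j : ι, i ≠ j → ∀ a b : R, P.x i j (a + b) = P.x i j a * P.x i j b :=
    fun i j h a b => P.add i j h a b
  -- general splitting of `W`
  have hW : ∀ s s' t t' : R, e * s = s → e * s' = s' → e * t = 0 → e * t' = 0 →
      P.W i j (s + t) (s' + t') = P.W i j s s' * P.W i j t t' := by
    intro s s' t t' hs hs' ht ht'
    unfold StRel.W
    rw [neg_add, hsplit i j hij, hsplit j i hji]
    apply arr
    · exact key1 (-s') t (by rw [mul_neg, hs']) ht
    · exact same P hij _ _
    · exact (orth P h3 hij hs (by rw [mul_neg, ht', neg_zero])).symm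
  have ef : e * (1 - e) = 0 := by rw [mul_sub, mul_one, he, sub_self]
  have hU1 : (U : R) = e * U + (1 - e) := by
    have : (1 - e) * (U : R) = 1 - e := by
      have h := hU
      rw [mul_sub, mul_one, sub_eq_zero] at h
      exact h
    linear_combination this
  have hU2 : ((U⁻¹ : Rˣ) : R) = e * (U⁻¹ : Rˣ) + (1 - e) := by
    have h1 : (1 - e) * (U : R) = 1 - e := by
      have h := hU
      rw [mul_sub, mul_one, sub_eq_zero] at h
      exact h
    have h2 : (1 - e) * ((U⁻¹ : Rˣ) : R) = 1 - e := by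
      calc (1 - e) * ((U⁻¹ : Rˣ) : R) = ((1 - e) * (U : R)) * ((U⁻¹ : Rˣ) : R) := by rw [h1]
        _ = 1 - e := by rw [mul_assoc, Units.mul_inv, mul_one]
    linear_combination h2
  have hm1 : (-1 : R) = -e + -(1 - e) := by ring
  unfold StRel.h
  have e1 : P.W i j (U : R) ((U⁻¹ : Rˣ) : R) =
      P.W i j (e * U) (e * (U⁻¹ : Rˣ)) * P.W i j (1 - e) (1 - e) := by
    conv_lhs => rw [hU1, hU2]
    exact hW _ _ _ _ (by rw [← mul_assoc, he]) (by rw [← mul_assoc, he]) ef ef
  have e2 : P.W i j (-1) (-1) = P.W i j (-e) (-e) * P.W i j (-(1 - e)) (-(1 - e)) := by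
    conv_lhs => rw [hm1]
    exact hW _ _ _ _ (by rw [mul_neg, he]) (by rw [mul_neg, he])
      (by rw [mul_neg, ef, neg_zero]) (by rw [mul_neg, ef, neg_zero])
  have e3 : P.W i j (1 - e) (1 - e) * P.W i j (-(1 - e)) (-(1 - e)) = 1 := by
    unfold StRel.W
    have h1 := x_neg P hij (1 - e)
    have h2 := x_neg P hji (-(1 - e))
    calc P.x i j (1 - e) * P.x j i (-(1 - e)) * P.x i j (1 - e) *
          (P.x i j (-(1 - e)) * P.x j i (- -(1 - e)) * P.x i j (-(1 - e)))
        = P.x i j (1 - e) * P.x j i (-(1 - e)) * (P.x i j (1 - e) *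
          P.x i j (-(1 - e))) * P.x j i (- -(1 - e)) * P.x i j (-(1 - e)) := by group
      _ = P.x i j (1 - e) * (P.x j i (-(1 - e)) * P.x j i (- -(1 - e))) *
          P.x i j (-(1 - e)) := by rw [h1]; group
      _ = 1 := by rw [h2, mul_one, h1]
  -- the `e`-part commutes with the `(1 - e)`-part
  have e4 : Commute (P.W i j (1 - e) (1 - e)) (P.W i j (-e) (-e)) := by
    have c1 : Commute (P.x i j (1 - e)) (P.x i j (-e)) := same P hij _ _
    have c2 : Commute (P.x i j (1 - e)) (P.x j i (- -e)) :=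
      key1 (- -e) (1 - e) (by rw [neg_neg, he]) ef
    have c3 : Commute (P.x j i (-(1 - e))) (P.x i j (-e)) :=
      (orth P h3 hij (by rw [mul_neg, he]) (by rw [mul_neg, ef, neg_zero])).symm
    have c4 : Commute (P.x j i (-(1 - e))) (P.x j i (- -e)) := same P hji _ _
    unfold StRel.W
    have d1 : Commute (P.x i j (1 - e)) (P.x i j (-e) * P.x j i (- -e) * P.x i j (-e)) :=
      (c1.mul_right c2).mul_right c1
    have d2 : Commute (P.x j i (-(1 - e))) (P.x i j (-e) * P.x j i (- -e) * P.x i j (-e)) :=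
      (c3.mul_right c4).mul_right c3
    exact (d1.mul_left d2).mul_left d1
  rw [e1, e2]
  calc P.W i j (e * U) (e * (U⁻¹ : Rˣ)) * P.W i j (1 - e) (1 - e) *
        (P.W i j (-e) (-e) * P.W i j (-(1 - e)) (-(1 - e)))
      = P.W i j (e * U) (e * (U⁻¹ : Rˣ)) * (P.W i j (1 - e) (1 - e) * P.W i j (-e) (-e)) *
          P.W i j (-(1 - e)) (-(1 - e)) := by group
    _ = P.W i j (e * U) (e * (U⁻¹ : Rˣ)) * P.W i j (-e) (-e) *
          (P.W i j (1 - e) (1 - e) * P.W i j (-(1 - e)) (-(1 - e))) := by rw [e4.eq]; group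
    _ = _ := by rw [e3, mul_one]
-- END TARGET

end Pool.Agent.H742F.C0
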