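import Pool.Agent.H742F.Defs

/-!
# Project FS (helper742): statements of the parts
Every part proves `theorem main ... : XxxP` in its own file.
-/

set_option autoImplicit false
set_option maxHeartbeats 400000

open Filter Topology Finset
open scoped Classical

namespace Pool.Agent.H742F

open Helper418 Pool.Agent.helper987_SE Pool.Agent.Helper702_TH
open Matrix (SpecialLinearGroup)

noncomputable section

/-! ## Part S: exact powers give the Steinberg relations over sequences of integers -/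

/-- S1: existence of the exact powers. -/
def S1P : Prop := ∀ (A : ℕ → Type) [∀ n, Fintype (A n)] [∀ n, Nonempty (A n)] (k : ℕ), 7 ≤ k →
  ∀ α : SpecialLinearGroup (Fin k) ℤ →* SS A, Nonempty (EPow k α)

/-- S2: for `k ≥ 7`. -/
def SP : Prop := ∀ (A : ℕ → Type) [∀ n, Fintype (A n)] [∀ n, Nonempty (A n)] (k : ℕ), 7 ≤ k →
  ∀ α : SpecialLinearGroup (Fin k) ℤ →* SS A,
    ∃ P : StRel (Fin k) (ℕ → ℤ) (SS A), (∀ i j, i ≠ j → IsI (P.x i j)) ∧
      ∀ i j, i ≠ j → P.x i j (fun _ => 1) = α (El i j 1)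

/-- T: torsion. -/
def TP : Prop := ∀ (A : ℕ → Type) [∀ n, Fintype (A n)] (k : ℕ), 3 ≤ k →
  ∀ P : StRel (Fin k) (ℕ → ℤ) (SS A), (∀ i j, i ≠ j → IsI (P.x i j)) →
    ∃ N : ℕ → ℕ, (∀ n, 0 < N n) ∧ ∃ P' : StRel (Fin k) (∀ n, ZMod (N n)) (SS A), P'.Int ∧
      ∀ i j, i ≠ j → ∀ m : ℕ → ℤ, P'.x i j (fun n => (m n : ZMod (N n))) = P.x i j m

/-! ## Part C: calculus in Steinberg groups -/

/-- C0: parts. -/
def C0Q : Prop := ∀ (ι R X : Type) [CommRing R] [Group X] (P : StRel ι R X), Third ι →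
  ∀ i j, i ≠ j → ∀ e : R, e * e = e →
    (∀ a b, e * a = a → e * b = 0 → Commute (P.x i j a) (P.x j i b)) ∧
    (∀ U : Rˣ, (1 - e) * ((U : R) - 1) = 0 →
      P.h i j U = P.W i j (e * U) (e * (U⁻¹ : Rˣ)) * P.W i j (-e) (-e))

/-- C1: the elements `W`. -/
def C1P : Prop := ∀ (ι R X : Type) [CommRing R] [Group X] (P : StRel ι R X), Third ι →
  ∀ i j, i ≠ j → ∀ t t' : R, t * t' * t = t → t' * t * t' = t' →
    P.W i j t t' * P.W i j (-t) (-t') = 1 ∧
    P.W i j t t' = P.W j i (-t') (-t) ∧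
    (∀ a, t * t' * a = a →
      P.W i j t t' * P.x i j a = P.x j i (-(t' * t' * a)) * P.W i j t t' ∧
      P.W i j t t' * P.x j i a = P.x i j (-(t * t * a)) * P.W i j t t') ∧
    (∀ k, k ≠ i → k ≠ j → ∀ a,
      P.W i j t t' * P.x j k a =
        P.x j k ((1 - t * t') * a) * P.x i k (t * a) * P.W i j t t' ∧
      P.W i j t t' * P.x i k a =
        P.x i k ((1 - t * t') * a) * P.x j k (-(t' * a)) * P.W i j t t' ∧
      P.W i j t t' * P.x k j a =
        P.x k j ((1 - t * t') * a) * P.x k i (t' * a) * P.W i j t t' ∧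
      P.W i j t t' * P.x k i a =
        P.x k i ((1 - t * t') * a) * P.x k j (-(t * a)) * P.W i j t t')

/-- C2: conjugation by `h`. -/
def C2P : Prop := ∀ (ι R X : Type) [CommRing R] [Group X] (P : StRel ι R X), Third ι →
  ∀ i j, i ≠ j → ∀ u : Rˣ,
    (∀ a, P.h i j u * P.x i j a = P.x i j (u * u * a) * P.h i j u ∧
      P.h i j u * P.x j i a = P.x j i ((u⁻¹ : Rˣ) * (u⁻¹ : Rˣ) * a) * P.h i j u) ∧
    (∀ k, k ≠ i → k ≠ j → ∀ a,
      P.h i j u * P.x i k a = P.x i k (u * a) * P.h i j u ∧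
      P.h i j u * P.x j k a = P.x j k ((u⁻¹ : Rˣ) * a) * P.h i j u ∧
      P.h i j u * P.x k i a = P.x k i ((u⁻¹ : Rˣ) * a) * P.h i j u ∧
      P.h i j u * P.x k j a = P.x k j (u * a) * P.h i j u) ∧
    (∀ k l, k ≠ i → k ≠ j → l ≠ i → l ≠ j → k ≠ l → ∀ a, Commute (P.h i j u) (P.x k l a)) ∧
    P.h j i u * P.h i j u = 1 ∧ P.h i j 1 = 1 ∧
    P.W i j 1 1 * P.h i j u = P.h i j u⁻¹ * P.W i j 1 1

/-- C3: the symbols are central, bimultiplicative and skew. -/
def C3P : Prop := ∀ (ι R X : Type) [CommRing R] [Group X] (P : StRel ι R X), Third ι →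
  ∀ i j, i ≠ j →
    (∀ u v a b, a ≠ b → ∀ r, Commute (P.c i j u v) (P.x a b r)) ∧
    (∀ u v k l, k ≠ l → P.c i j u v = P.c k l u v) ∧
    (∀ u u' v, P.c i j (u * u') v = P.c i j u v * P.c i j u' v) ∧
    (∀ u v v', P.c i j u (v * v') = P.c i j u v * P.c i j u v') ∧
    (∀ u v, P.c i j u v * P.c i j v u = 1) ∧
    (∀ u v k, k ≠ i → k ≠ j → P.h i j u * P.h i k v = P.c i j u v * P.h i k v * P.h i j u)

/-- C4: the symbols of elements living on different parts are trivial. -/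
def C4Q : Prop := ∀ (ι R X : Type) [CommRing R] [Group X] (P : StRel ι R X), Third ι →
  ∀ i j, i ≠ j → ∀ (e : R) (u v : Rˣ), e * e = e → (1 - e) * ((u : R) - 1) = 0 →
    e * ((v : R) - 1) = 0 → P.c i j u v = 1

/-- C5: the basic relation in rank two, for a generalised invertible `s`. -/
def C5Q : Prop := ∀ (ι R X : Type) [CommRing R] [Group X] (P : StRel ι R X), Third ι →
  ∀ i j, i ≠ j → ∀ (s s' b : R) (v S : Rˣ), s * s' * s = s → s' * s * s' = s' →
    (v : R) = 1 + s * b → (S : R) = s + (1 - s * s') →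
    P.x i j s * P.x j i b = P.x j i (b * (v⁻¹ : Rˣ)) *
      (P.h i j S * (P.h i j (S * v⁻¹))⁻¹) * P.x i j (s * (v⁻¹ : Rˣ))

/-- C6: the Steinberg relation and `c(u,-u) = 1` on the part of an idempotent. -/
def C6Q : Prop := ∀ (ι R X : Type) [CommRing R] [Group X] (P : StRel ι R X), Third ι →
  ∀ i j, i ≠ j → ∀ (e : R) (u u' : Rˣ), e * e = e → (1 - e) * ((u : R) - 1) = 0 →
    (1 - e) * ((u' : R) - 1) = 0 → (e * u' = e * (1 - u) ∨ e * u' = - (e * u)) →
    P.c i j u u' = 1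

/-- C7: the symbol `c(5,-1)` is a square. -/
def C7Q : Prop := ∀ (ι R X : Type) [CommRing R] [Group X] (P : StRel ι R X), Third ι →
  ∀ i j, i ≠ j → ∀ (three five : Rˣ), (three : R) = 3 → (five : R) = 5 →
    (∀ u v, P.c i j u v * P.c i j u v = 1) → P.c i j five (-1) = 1

/-- C8: symbols in a part. -/
def C8Q : Prop := ∀ (ι R R' X : Type) [CommRing R] [CommRing R'] [Group X] (P : StRel ι R X)
  (φ : R' →ₙ+* R), Third ι → ∀ i j, i ≠ j →
    (∀ (u : R'ˣ) (U : Rˣ), (U : R) = φ u + (1 - φ 1) → (P.comap φ).h i j u = P.h i j U)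

/-! ## Part K: there are no other relations -/

/-- K1: the basic relation in rank two. -/
def K1Q : Prop := ∀ (ι R X : Type) [CommRing R] [Group X] (P : StRel ι R X), Third ι →
  Split R → P.MulR → ∀ i j, i ≠ j → ∀ (a b : R) (v : Rˣ), (v : R) = 1 + a * b →
    P.x i j a * P.x j i b =
      P.x j i (b * (v⁻¹ : Rˣ)) * P.h i j v * P.x i j (a * (v⁻¹ : Rˣ))

/-- K2: rank two. -/
def K2Q : Prop := ∀ (ι R X : Type) [CommRing R] [Group X] (P : StRel ι R X), Third ι →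
  Split R → P.MulR → ∀ i j, i ≠ j → ∀ a b c : R, ∃ (p q : R) (u : Rˣ) (r : R),
    P.x i j a * P.x j i b * P.x i j c = P.x j i p * P.x i j q * P.h i j u * P.x j i r

/-- K3: induction on the rank. -/
def K3Q : Prop := ∀ (ι R X : Type) [Fintype ι] [DecidableEq ι] [CommRing R] [Group X]
  (P : StRel ι R X) (π : X →* SpecialLinearGroup ι R), Third ι → Herm R → P.MulR →
  (∀ i j, i ≠ j → ∀ a, π (P.x i j a) = El i j a) →
  (∀ i j, i ≠ j → ∀ a b c : R, ∃ (p q : R) (u : Rˣ) (r : R),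
    P.x i j a * P.x j i b * P.x i j c = P.x j i p * P.x i j q * P.h i j u * P.x j i r) →
  ∀ y ∈ Subgroup.closure {y : X | ∃ i j a, i ≠ j ∧ y = P.x i j a}, π y = 1 → y = 1

/-- E0: the Steinberg relations for matrices. -/
def E0P : Prop := ∀ (ι R : Type) [Fintype ι] [DecidableEq ι] [CommRing R],
  ∃ P : StRel ι R (SpecialLinearGroup ι R), P.x = El ∧ P.MulR

/-- E1: generation by elementary matrices. -/
def E1P : Prop := ∀ (ι R : Type) [Fintype ι] [DecidableEq ι] [CommRing R], Herm R →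
  Subgroup.closure (Els ι R) = ⊤

/-- K4: a representation of the Steinberg relations extends to `SL`. -/
def K4Q : Prop := ∀ (ι R X : Type) [Fintype ι] [DecidableEq ι] [CommRing R] [Group X]
  (P : StRel ι R X), Third ι → Split R → Herm R → P.MulR →
  ∃ Φ : SpecialLinearGroup ι R →* X, ∀ i j, i ≠ j → ∀ a, Φ (El i j a) = P.x i j a

/-- R1: `ℤ` is Hermite, and so is `∏ ℤ/N`. -/
def R1P : Prop := Herm ℤ ∧ ∀ N : ℕ → ℕ, (∀ n, 0 < N n) → Herm (∀ n, ZMod (N n))

/-- R2: splitting in `∏ ℤ/N`. -/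
def R2P : Prop := ∀ N : ℕ → ℕ, (∀ n, 0 < N n) → Split (∀ n, ZMod (N n))

/-! ## Part N: the symbols are trivial -/

/-- N1: internal homomorphisms on products of cyclic groups. -/
def N1P : Prop := ∀ (A : ℕ → Type) [∀ n, Fintype (A n)] [∀ n, Nonempty (A n)] (S : ℕ → Type)
  [∀ n, Finite (S n)] (V : ∀ n, S n → Type) [∀ n p, CommGroup (V n p)] [∀ n p, Finite (V n p)]
  (g : ∀ n p, V n p) (r : (∀ n, ∀ p, V n p) → SS A),
  (∀ n p v, v ∈ Subgroup.zpowers (g n p)) → Itn r → (∀ a b, r (a * b) = r a * r b) →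
  (∀ X : ∀ n, Set (S n), r (fun n p => if p ∈ X n then g n p else 1) = 1) → ∀ a, r a = 1

/-- N2: odd prime powers. -/
def N2P : Prop := ∀ p e : ℕ, p.Prime → p ≠ 2 → KindOdd (ZMod (p ^ e))

/-- N3: powers of two. -/
def N3P : Prop := ∀ e : ℕ, ∀ five : (ZMod (2 ^ e))ˣ, (five : ZMod (2 ^ e)) = 5 →
  ∀ u : (ZMod (2 ^ e))ˣ, ∃ a b : ℕ, u = five ^ a * (-1) ^ b

/-- N4: symbols over products of rings of odd kind. -/
def N4P : Prop := ∀ (A : ℕ → Type) [∀ n, Fintype (A n)] [∀ n, Nonempty (A n)] (S : ℕ → Type)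
  [∀ n, Finite (S n)] (B : ∀ n, S n → Type) [∀ n p, CommRing (B n p)] [∀ n p, Finite (B n p)]
  (ι : Type) (P : StRel ι (∀ n, ∀ p, B n p) (SS A)), Third ι →
  (∀ n p, KindOdd (B n p)) → P.Int → P.MulR

/-- N5: symbols over `∏ ℤ/2^e`. -/
def N5P : Prop := ∀ (A : ℕ → Type) [∀ n, Fintype (A n)] [∀ n, Nonempty (A n)] (e : ℕ → ℕ)
  (ι : Type) (P : StRel ι (∀ n, ZMod (2 ^ (e n))) (SS A)), Third ι → P.Int →
  (∀ i j, i ≠ j → P.c i j (-1) (-1) = 1) → P.MulR

/-- N6: symbols over `∏ ℤ/N`. -/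
def N6P : Prop := ∀ (A : ℕ → Type) [∀ n, Fintype (A n)] [∀ n, Nonempty (A n)] (N : ℕ → ℕ)
  (ι : Type) (P : StRel ι (∀ n, ZMod (N n)) (SS A)), Third ι → (∀ n, 0 < N n) → P.Int →
  (∀ i j, i ≠ j → P.c i j (-1) (-1) = 1) → P.MulR

/-! ## Part U: internality -/

/-- U: homomorphisms of `SL` over a product ring are internal. -/
def UP : Prop := ∀ (A : ℕ → Type) [∀ n, Fintype (A n)] (ι : Type) [Fintype ι] [DecidableEq ι]
  (Q : ℕ → Type) [∀ n, CommRing (Q n)] [∀ n, Finite (Q n)]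
  (Φ : SpecialLinearGroup ι (∀ n, Q n) →* SS A),
  Subgroup.closure (Els ι (∀ n, Q n)) = ⊤ →
  (∀ i j, i ≠ j → Itn (fun a => Φ (El i j a))) →
  ∃ F : ∀ n, SpecialLinearGroup ι (Q n) → Equiv.Perm (A n),
    ∀ g, Φ g = cls fun n => F n (cmp n g)

/-! ## Part F: near actions of finite groups -/

/-- F1: near actions of finite groups are near actions. -/
def F1Q : Prop := ∀ η : ℝ, 0 < η → ∃ δ : ℝ, 0 < δ ∧
  ∀ (G : Type) [Group G] [Finite G] (A : Type) [Fintype A] [Nonempty A]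
    (F : G → Equiv.Perm A),
    (∀ g h, ((univ.filter fun x => F (g * h) x ≠ F g (F h x)).card : ℝ) ≤
      δ * Fintype.card A) →
    ∃ (B : Type) (_ : Fintype B) (ρ : G →* Equiv.Perm B) (j : A → B), Function.Injective j ∧
      (Fintype.card B : ℝ) ≤ (1 + η) * Fintype.card A ∧
      ∀ g, ((univ.filter fun x => j (F g x) ≠ ρ g (j x)).card : ℝ) ≤ η * Fintype.card A

/-- F2: flexible stability. -/
def F2Q : Prop := ∀ (Γ : Type) [Group Γ], FinModel Γ → FlexStable Γ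

/-- Z: the main theorem. -/
def ZP : Prop := ∀ k : ℕ, 7 ≤ k → FlexStable (SpecialLinearGroup (Fin k) ℤ)

end

end Pool.Agent.H742F
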