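/- FS job C1 (MP_d45256_al, flexible stability of SL_k(Z), owner helper742): the elements `W`. By helper521. -/
import Pool.Agent.H742F.Stm

set_option autoImplicit false
set_option maxHeartbeats 400000

open Filter Topology Finset

namespace Pool.Agent.H742F.C1

open Helper418 Pool.Agent.helper987_SE Pool.Agent.Helper702_TH
open Matrix (SpecialLinearGroup)

section aux

variable {ι R X : Type} [CommRing R] [Group X] (P : StRel ι R X)

theorem x_zero (i j : ι) (h : i ≠ j) : P.x i j 0 = 1 := by
  have h1 := P.add i j h 0 0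
  rw [add_zero] at h1
  exact left_eq_mul.mp h1

theorem x_neg (i j : ι) (h : i ≠ j) (a : R) : P.x i j (-a) = (P.x i j a)⁻¹ := by
  have h1 := P.add i j h (-a) a
  rw [neg_add_cancel, x_zero P i j h] at h1
  exact eq_inv_of_mul_eq_one_left h1.symm

/-- `x_ij` and `x_jk` -/
theorem s1 {i j k : ι} (hij : i ≠ j) (hjk : j ≠ k) (hik : i ≠ k) (a b : R) :
    SemiconjBy (P.x i j a) (P.x j k b) (P.x i k (a * b) * P.x j k b) :=
  P.mul i j k hij hjk hik a b

/-- `x_ij` and `x_ik` -/
theorem s2 {i j k : ι} (hij : i ≠ j) (hik : i ≠ k) (a b : R) :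
    SemiconjBy (P.x i j a) (P.x i k b) (P.x i k b) :=
  P.comm i j i k hij hik hij.symm hik a b

/-- `x_ij` and `x_ki` -/
theorem s3 {i j k : ι} (hij : i ≠ j) (hki : k ≠ i) (hkj : k ≠ j) (a b : R) :
    SemiconjBy (P.x i j a) (P.x k i b) (P.x k j (-(a * b)) * P.x k i b) := by
  have h1 := P.mul k i j hki hij hkj b a
  unfold SemiconjBy
  rw [x_neg P k j hkj, mul_comm a b, mul_assoc, h1]
  group

/-- `x_ij` and `x_kj` -/
theorem s4 {i j k : ι} (hij : i ≠ j) (hkj : k ≠ j) (a b : R) :
    SemiconjBy (P.x i j a) (P.x k j b) (P.x k j b) :=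
  P.comm i j k j hij hkj hkj.symm hij a b

theorem W_semi {i j : ι} (t t' : R) {y y1 y2 y3 : X} (h1 : SemiconjBy (P.x i j t) y y1)
    (h2 : SemiconjBy (P.x j i (-t')) y1 y2) (h3 : SemiconjBy (P.x i j t) y2 y3) :
    SemiconjBy (P.W i j t t') y y3 :=
  (h3.mul_left h2).mul_left h1

theorem w_jk {i j k : ι} (hij : i ≠ j) (hjk : j ≠ k) (hik : i ≠ k) (t t' : R)
    (ht : t * t' * t = t) (a : R) : SemiconjBy (P.W i j t t') (P.x j k a)
      (P.x j k ((1 - t * t') * a) * P.x i k (t * a)) := by
  have c : ∀ u v, Commute (P.x i k u) (P.x j k v) := fun u v =>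
    P.comm i k j k hik hjk hjk.symm hik u v
  have h := W_semi P t t' (s1 P hij hjk hik t a)
    ((s1 P hij.symm hik hjk (-t') (t * a)).mul_right (s2 P hij.symm hjk (-t') a))
    (((s1 P hij hjk hik t (-t' * (t * a))).mul_right (s2 P hij hik t (t * a))).mul_right
      (s1 P hij hjk hik t a))
  have e : P.x i k (t * (-t' * (t * a))) * P.x j k (-t' * (t * a)) * P.x i k (t * a) *
      (P.x i k (t * a) * P.x j k a) = P.x j k ((1 - t * t') * a) * P.x i k (t * a) := by
    have e1 : (1 - t * t') * a = -t' * (t * a) + a := by ring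
    have e2 : t * (-t' * (t * a)) = -(t * a) := by
      have : t * (-t' * (t * a)) = -((t * t' * t) * a) := by ring
      rw [this, ht]
    rw [e1, P.add j k hjk, e2, x_neg P i k hik]
    have c1 := (c (t * a) (-t' * (t * a))).inv_left.eq
    have c2 := (c (t * a) a).eq
    rw [c1, c2]
    group
  rw [e] at h
  exact h

theorem w_ik {i j k : ι} (hij : i ≠ j) (hjk : j ≠ k) (hik : i ≠ k) (t t' : R) (a : R) :
    SemiconjBy (P.W i j t t') (P.x i k a)
      (P.x i k ((1 - t * t') * a) * P.x j k (-(t' * a))) := by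
  have c : ∀ u v, Commute (P.x i k u) (P.x j k v) := fun u v =>
    P.comm i k j k hik hjk hjk.symm hik u v
  have h := W_semi P t t' (s2 P hij hik t a) (s1 P hij.symm hik hjk (-t') a)
    ((s1 P hij hjk hik t (-t' * a)).mul_right (s2 P hij hik t a))
  have e : P.x i k (t * (-t' * a)) * P.x j k (-t' * a) * P.x i k a =
      P.x i k ((1 - t * t') * a) * P.x j k (-(t' * a)) := by
    have e1 : (1 - t * t') * a = t * (-t' * a) + a := by ring
    have e2 : -(t' * a) = -t' * a := by ring
    rw [e1, P.add i k hik, e2]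
    have c1 := (c a (-t' * a)).eq
    rw [mul_assoc, mul_assoc, c1]
  rw [e] at h
  exact h

theorem w_kj {i j k : ι} (hij : i ≠ j) (hkj : k ≠ j) (hki : k ≠ i) (t t' : R) (a : R) :
    SemiconjBy (P.W i j t t') (P.x k j a)
      (P.x k j ((1 - t * t') * a) * P.x k i (t' * a)) := by
  have c : ∀ u v, Commute (P.x k i u) (P.x k j v) := fun u v =>
    P.comm k i k j hki hkj hki.symm hkj u v
  have h := W_semi P t t' (s4 P hij hkj t a) (s3 P hij.symm hkj hki (-t') a)
    ((s3 P hij hki hkj t (-(-t' * a))).mul_right (s4 P hij hkj t a))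
  have e : P.x k j (-(t * (-(-t' * a)))) * P.x k i (-(-t' * a)) * P.x k j a =
      P.x k j ((1 - t * t') * a) * P.x k i (t' * a) := by
    have e1 : (1 - t * t') * a = -(t * (-(-t' * a))) + a := by ring
    have e2 : t' * a = -(-t' * a) := by ring
    rw [e1, P.add k j hkj, e2]
    have c1 := (c (-(-t' * a)) a).eq
    rw [mul_assoc, mul_assoc, c1]
  rw [e] at h
  exact h

theorem w_ki {i j k : ι} (hij : i ≠ j) (hkj : k ≠ j) (hki : k ≠ i) (t t' : R)
    (ht : t * t' * t = t) (a : R) : SemiconjBy (P.W i j t t') (P.x k i a)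
      (P.x k i ((1 - t * t') * a) * P.x k j (-(t * a))) := by
  have c : ∀ u v, Commute (P.x k i u) (P.x k j v) := fun u v =>
    P.comm k i k j hki hkj hki.symm hkj u v
  have h := W_semi P t t' (s3 P hij hki hkj t a)
    ((s3 P hij.symm hkj hki (-t') (-(t * a))).mul_right (s4 P hij.symm hki (-t') a))
    (((s3 P hij hki hkj t (-(-t' * -(t * a)))).mul_right
      (s4 P hij hkj t (-(t * a)))).mul_right (s3 P hij hki hkj t a))
  have e : P.x k j (-(t * (-(-t' * -(t * a))))) * P.x k i (-(-t' * -(t * a))) *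
      P.x k j (-(t * a)) * (P.x k j (-(t * a)) * P.x k i a) =
      P.x k i ((1 - t * t') * a) * P.x k j (-(t * a)) := by
    have e1 : (1 - t * t') * a = -(-t' * -(t * a)) + a := by ring
    have e2 : -(t * (-(-t' * -(t * a)))) = t * a := by
      have : -(t * (-(-t' * -(t * a)))) = (t * t' * t) * a := by ring
      rw [this, ht]
    rw [e1, P.add k i hki, e2, x_neg P k j hkj]
    have c1 := (c (-(-t' * -(t * a))) (t * a)).eq
    have c2 := (c a (t * a)).inv_right.eq
    rw [← c1, ← c2]
    group
  rw [e] at h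
  exact h

end aux

-- BEGIN TARGET
theorem main : C1P := by
  intro ι R X _ _ P hT i j hij t t' ht ht'
  have h3 : ∀ a, t * t' * a = a →
      P.W i j t t' * P.x i j a = P.x j i (-(t' * t' * a)) * P.W i j t t' ∧
      P.W i j t t' * P.x j i a = P.x i j (-(t * t * a)) * P.W i j t t' := by
    intro a ha
    obtain ⟨k, hki, hkj⟩ := hT i j
    have ed : (1 - t * t') * (t * t') = 0 := by
      have : (1 - t * t') * (t * t') = t' * (t - t * t' * t) := by ring
      rw [this, ht, sub_self, mul_zero]
    have ea : (1 - t * t') * a = 0 := by rw [sub_mul, ha, one_mul, sub_self]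
    constructor
    · have m := P.mul i k j hki.symm hkj hij (t * t') a
      have hx : P.x i j a = P.x i k (t * t') * P.x k j a * (P.x i k (t * t'))⁻¹ *
          (P.x k j a)⁻¹ := by
        rw [m, ha]
        group
      have g1 := w_ik P hij hkj.symm hki.symm t t' (t * t')
      have g2 := w_kj P hij hkj hki t t' a
      rw [ed, x_zero P i k hki.symm, one_mul] at g1
      rw [ea, x_zero P k j hkj, one_mul] at g2
      have g3 := ((g1.mul_right g2).mul_right g1.inv_right).mul_right g2.inv_right
      rw [← hx] at g3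
      have m2 := P.mul j k i hkj.symm hki hij.symm (-(t' * (t * t'))) (t' * a)
      have e4 : -(t' * (t * t')) * (t' * a) = -(t' * t' * a) := by
        have : -(t' * (t * t')) * (t' * a) = -((t' * t * t') * (t' * a)) := by ring
        rw [this, ht']
        ring
      rw [e4] at m2
      have e5 : P.x j k (-(t' * (t * t'))) * P.x k i (t' * a) *
          (P.x j k (-(t' * (t * t'))))⁻¹ * (P.x k i (t' * a))⁻¹ = P.x j i (-(t' * t' * a)) := by
        rw [m2]
        group
      rw [e5] at g3
      exact g3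
    · have m := P.mul j k i hkj.symm hki hij.symm (t * t') a
      have hx : P.x j i a = P.x j k (t * t') * P.x k i a * (P.x j k (t * t'))⁻¹ *
          (P.x k i a)⁻¹ := by
        rw [m, ha]
        group
      have g1 := w_jk P hij hkj.symm hki.symm t t' ht (t * t')
      have g2 := w_ki P hij hkj hki t t' ht a
      rw [ed, x_zero P j k hkj.symm, one_mul] at g1
      rw [ea, x_zero P k i hki, one_mul] at g2
      have g3 := ((g1.mul_right g2).mul_right g1.inv_right).mul_right g2.inv_right
      rw [← hx] at g3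
      have m2 := P.mul i k j hki.symm hkj hij (t * (t * t')) (-(t * a))
      have e4 : t * (t * t') * (-(t * a)) = -(t * t * a) := by
        have : t * (t * t') * (-(t * a)) = -((t * t' * t) * (t * a)) := by ring
        rw [this, ht]
        ring
      rw [e4] at m2
      have e5 : P.x i k (t * (t * t')) * P.x k j (-(t * a)) *
          (P.x i k (t * (t * t')))⁻¹ * (P.x k j (-(t * a)))⁻¹ = P.x i j (-(t * t * a)) := by
        rw [m2]
        group
      rw [e5] at g3
      exact g3
  refine ⟨?_, ?_, h3, ?_⟩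
  · unfold StRel.W
    rw [neg_neg, x_neg P i j hij, x_neg P j i hij.symm]
    group
  · have a1 := (h3 t ht).1
    have a2 := (h3 (-t') (by rw [mul_neg, show t * t' * t' = t' * t * t' by ring, ht'])).2
    have e1 : t' * t' * t = t' := by rw [show t' * t' * t = t' * t * t' by ring, ht']
    have e2 : -(t * t * -t') = t := by rw [show -(t * t * -t') = t * t' * t by ring, ht]
    rw [e1] at a1
    rw [e2] at a2
    have s : SemiconjBy (P.W i j t t') (P.x i j t * P.x j i (-t') * P.x i j t)
        (P.x j i (-t') * P.x i j t * P.x j i (-t')) :=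
      (SemiconjBy.mul_right (SemiconjBy.mul_right a1 a2) a1)
    have s2 : P.W i j t t' * P.W i j t t' =
        (P.x j i (-t') * P.x i j t * P.x j i (-t')) * P.W i j t t' := s
    have s3 := mul_right_cancel s2
    rw [s3]
    unfold StRel.W
    rw [neg_neg]
  · intro k hki hkj a
    refine ⟨?_, ?_, ?_, ?_⟩
    · exact w_jk P hij hkj.symm hki.symm t t' ht a
    · exact w_ik P hij hkj.symm hki.symm t t' a
    · exact w_kj P hij hkj hki t t' a
    · exact w_ki P hij hkj hki t t' ht a
-- END TARGET

end Pool.Agent.H742F.C1
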