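/- FS job C2 (MP_d45256_al, flexible stability of SL_k(Z), owner helper742). Prove C2P of Pool/Agent/H742F/Stm.lean (definitions in Defs.lean), both on origin/main.
GET THE FILES: cd /workdir/pool && git -C outputs/live fetch -q origin main:refs/remotes/origin/main; for d in H742F helper987_SE Helper702_TH Helper418_Sofic W661; do
  git -C outputs/live archive origin/main Pool/Agent/$d | tar -x -C /workdir/pool; done; lake build Pool.Agent.H742F.Stm      (about 2 minutes; Mathlib is prebuilt)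
Whole paper: papers row of MP_d45256_al (team-sql --json SELECT body FROM papers WHERE pid='MP_d45256_al'). The hypotheses of the theorem are proved elsewhere. Do not change the statement; if it is false or
unusable tell helper742 at once (insert into messages). You may add any other ...P / ...Q proposition of Stm.lean as a hypothesis if that is not circular. Auxiliary lemmas in the namespace below. No sorry, standard axioms.
DELIVER: land the file as Pool/Agent/H742F/C2.lean (bash ~/land.sh or git land), then UPDATE jobs SET status='done', result='landed', done_at=now() WHERE id=<this id>;  (or paste the whole file as result).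

STATEMENT (for reference)
/-- C2: conjugation by `h`. -/
def C2P : Prop := ∀ (ι R X : Type) [CommRing R] [Group X] (P : StRel ι R X), Third ι →
  ∀ i j, i ≠ j → ∀ u : Rˣ,
    (∀ a, P.h i j u * P.x i j a = P.x i j (u * u * a) * P.h i j u ∧
      P.h i j u * P.x j i a = P.x j i ((u⁻¹ : Rˣ) * (u⁻¹ : Rˣ) * a) * P.h i j u) ∧
    (∀ k, k ≠ i → k ≠ j → ∀ a,
      P.h i j u * P.x i k a = P.x i k (u * a) * P.h i j u ∧
      P.h i j u * P.x j k a = P.x j k ((u⁻¹ : Rˣ) * a) * P.h i j u ∧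
      P.h i j u * P.x k i a = P.x k i ((u⁻¹ : Rˣ) * a) * P.h i j u ∧
      P.h i j u * P.x k j a = P.x k j (u * a) * P.h i j u) ∧
    (∀ k l, k ≠ i → k ≠ j → l ≠ i → l ≠ j → k ≠ l → ∀ a, Commute (P.h i j u) (P.x k l a)) ∧
    P.h j i u * P.h i j u = 1 ∧ P.h i j 1 = 1 ∧
    P.W i j 1 1 * P.h i j u = P.h i j u⁻¹ * P.W i j 1 1

PROOF
h = W(u,u^-1) W(-1,-1); apply C1 twice with t = u, t' = u^-1 and t = t' = -1 (so 1-tt' = 0 and the first factors are x(0) = 1). k,l outside: x_kl commutes with x_ij, x_ji. h_ij(1) = W(1,1)W(-1,-1) = 1 (C1).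
h_ji(u): W_ji(u,u^-1) = W_ij(-u^-1,-u), W_ji(-1,-1) = W_ij(1,1) (C1). So h_ji(u) = W_ij(-u^-1,-u) W_ij(1,1); and W_ij(1,1) W_ij(-u,-u^-1) W_ij(1,1)^-1 = x_ji(u)x_ij(-u^-1)x_ji(u) = W_ji(u,u^-1) = W_ij(-u^-1,-u), so
h_ji(u) = W_ij(1,1)W_ij(-u,-u^-1) = (W_ij(u,u^-1)W_ij(-1,-1))^-1 = h_ij(u)^-1. Last: W(1,1) W(u,u^-1) W(1,1)^-1 = W_ji(-u,-u^-1) = W_ij(u^-1,u), W(1,1) commutes with W(-1,-1) = W(1,1)^-1. So W(1,1) h(u) W(1,1)^-1 = W(u^-1,u)W(-1,-1) = h(u^-1).
-/
import Pool.Agent.H742F.Stm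

set_option autoImplicit false
set_option maxHeartbeats 400000

open Filter Topology Finset

namespace Pool.Agent.H742F.C2

open Helper418 Pool.Agent.helper987_SE Pool.Agent.Helper702_TH
open Matrix (SpecialLinearGroup)

variable {ι R X : Type} [CommRing R] [Group X] (P : StRel ι R X)

theorem c2_zero (i j : ι) (hij : i ≠ j) : P.x i j 0 = 1 := by
  have := P.add i j hij 0 0
  rw [add_zero] at this
  exact (left_eq_mul.mp this)

/-- C1 for a pair of inverse units -/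
theorem c2_unit (c1 : C1P) (h3 : Third ι) (i j : ι) (hij : i ≠ j) (t t' : R) (ht : t * t' = 1) :
    P.W i j t t' * P.W i j (-t) (-t') = 1 ∧
    P.W i j t t' = P.W j i (-t') (-t) ∧
    (∀ a, P.W i j t t' * P.x i j a = P.x j i (-(t' * t' * a)) * P.W i j t t' ∧
      P.W i j t t' * P.x j i a = P.x i j (-(t * t * a)) * P.W i j t t') ∧
    (∀ k, k ≠ i → k ≠ j → ∀ a,
      P.W i j t t' * P.x j k a = P.x i k (t * a) * P.W i j t t' ∧
      P.W i j t t' * P.x i k a = P.x j k (-(t' * a)) * P.W i j t t' ∧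
      P.W i j t t' * P.x k j a = P.x k i (t' * a) * P.W i j t t' ∧
      P.W i j t t' * P.x k i a = P.x k j (-(t * a)) * P.W i j t t') := by
  have ht2 : t' * t = 1 := by rw [mul_comm]; exact ht
  obtain ⟨h1, h2, h4, h5⟩ := c1 ι R X P h3 i j hij t t' (by rw [ht, one_mul]) (by rw [ht2, one_mul])
  refine ⟨h1, h2, fun a => h4 a (by rw [ht, one_mul]), fun k hki hkj a => ?_⟩
  obtain ⟨e1, e2, e3, e4⟩ := h5 k hki hkj a
  rw [ht, sub_self, zero_mul, c2_zero P _ _ hkj.symm, one_mul] at e1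
  rw [ht, sub_self, zero_mul, c2_zero P _ _ hki.symm, one_mul] at e2
  rw [ht, sub_self, zero_mul, c2_zero P _ _ hkj, one_mul] at e3
  rw [ht, sub_self, zero_mul, c2_zero P _ _ hki, one_mul] at e4
  exact ⟨e1, e2, e3, e4⟩

/-- conjugation of `W` by `W 1 1` -/
theorem c2_conj (c1 : C1P) (h3 : Third ι) (i j : ι) (hij : i ≠ j) (t t' : R) :
    P.W i j 1 1 * P.W i j t t' = P.W j i (-t) (-t') * P.W i j 1 1 := by
  obtain ⟨-, -, hc, -⟩ := c2_unit P c1 h3 i j hij 1 1 (one_mul 1)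
  have e1 : ∀ a, P.W i j 1 1 * P.x i j a = P.x j i (-a) * P.W i j 1 1 := by
    intro a
    have := (hc a).1
    rwa [one_mul, one_mul] at this
  have e2 : ∀ a, P.W i j 1 1 * P.x j i a = P.x i j (-a) * P.W i j 1 1 := by
    intro a
    have := (hc a).2
    rwa [one_mul, one_mul] at this
  have e3 : P.W i j t t' = P.x i j t * P.x j i (-t') * P.x i j t := rfl
  have e4 : P.W j i (-t) (-t') = P.x j i (-t) * P.x i j (-(-t')) * P.x j i (-t) := rfl
  rw [e3, e4, ← mul_assoc, ← mul_assoc, e1, mul_assoc (P.x j i (-t)), e2, ← mul_assoc,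
    mul_assoc _ _ (P.x i j t), e1]
  simp only [mul_assoc]

-- BEGIN TARGET
theorem main (c1 : C1P) : C2P := by
  intro ι R X _ _ P h3 i j hij u
  have hu : (u : R) * ((u⁻¹ : Rˣ) : R) = 1 := Units.mul_inv u
  have hu' : ((u⁻¹ : Rˣ) : R) * (u : R) = 1 := Units.inv_mul u
  obtain ⟨a1, a2, a3, a4⟩ := c2_unit P c1 h3 i j hij (u : R) ((u⁻¹ : Rˣ) : R) hu
  obtain ⟨b1, b2, b3, b4⟩ := c2_unit P c1 h3 i j hij (-1 : R) (-1) (by ring)
  obtain ⟨d1, d2, d3, d4⟩ := c2_unit P c1 h3 i j hij (1 : R) 1 (by ring)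
  rw [neg_neg] at b1 b2
  have hh : P.h i j u = P.W i j (u : R) ((u⁻¹ : Rˣ) : R) * P.W i j (-1) (-1) := rfl
  refine ⟨fun a => ⟨?_, ?_⟩, fun k hki hkj a => ⟨?_, ?_, ?_, ?_⟩, ?_, ?_, ?_, ?_⟩
  · rw [hh, mul_assoc, (b3 a).1, ← mul_assoc, (a3 _).2, mul_assoc]
    congr 2
    ring
  · rw [hh, mul_assoc, (b3 a).2, ← mul_assoc, (a3 _).1, mul_assoc]
    congr 2
    ring
  · rw [hh, mul_assoc, (b4 k hki hkj a).2.1, ← mul_assoc, (a4 k hki hkj _).1, mul_assoc]
    congr 2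
    ring
  · rw [hh, mul_assoc, (b4 k hki hkj a).1, ← mul_assoc, (a4 k hki hkj _).2.1, mul_assoc]
    congr 2
    ring
  · rw [hh, mul_assoc, (b4 k hki hkj a).2.2.2, ← mul_assoc, (a4 k hki hkj _).2.2.1, mul_assoc]
    congr 2
    ring
  · rw [hh, mul_assoc, (b4 k hki hkj a).2.2.1, ← mul_assoc, (a4 k hki hkj _).2.2.2, mul_assoc]
    congr 2
    ring
  · intro k l hki hkj hli hlj hkl a
    have cW : ∀ t t' : R, Commute (P.W i j t t') (P.x k l a) := by
      intro t t'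
      have c1 : ∀ b, Commute (P.x i j b) (P.x k l a) := fun b =>
        P.comm i j k l hij hkl hkj.symm hli.symm b a
      have c2 : ∀ b, Commute (P.x j i b) (P.x k l a) := fun b =>
        P.comm j i k l hij.symm hkl hki.symm hlj.symm b a
      exact ((c1 t).mul_left (c2 _)).mul_left (c1 t)
    exact (cW _ _).mul_left (cW _ _)
  · have hji : P.h j i u = P.W j i (u : R) ((u⁻¹ : Rˣ) : R) * P.W j i (-1) (-1) := rfl
    have e1 := c2_conj P c1 h3 i j hij (-(u : R)) (-((u⁻¹ : Rˣ) : R))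
    rw [neg_neg, neg_neg] at e1
    have e2 : P.W i j (-(u : R)) (-((u⁻¹ : Rˣ) : R)) * P.W i j (u : R) ((u⁻¹ : Rˣ) : R) = 1 := by
      have := (c2_unit P c1 h3 i j hij (-(u : R)) (-((u⁻¹ : Rˣ) : R)) (by rw [neg_mul_neg, hu])).1
      rwa [neg_neg, neg_neg] at this
    rw [hji, hh, ← d2, ← e1]
    calc P.W i j 1 1 * P.W i j (-(u : R)) (-((u⁻¹ : Rˣ) : R)) *
          (P.W i j (u : R) ((u⁻¹ : Rˣ) : R) * P.W i j (-1) (-1))
        = P.W i j 1 1 * (P.W i j (-(u : R)) (-((u⁻¹ : Rˣ) : R)) *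
          P.W i j (u : R) ((u⁻¹ : Rˣ) : R)) * P.W i j (-1) (-1) := by simp only [mul_assoc]
      _ = 1 := by rw [e2, mul_one, d1]
  · have h1 : P.h i j 1 = P.W i j 1 1 * P.W i j (-1) (-1) := by
      show P.W i j ((1 : Rˣ) : R) (((1 : Rˣ)⁻¹ : Rˣ) : R) * P.W i j (-1) (-1) = _
      rw [inv_one, Units.val_one]
    rw [h1, d1]
  · have hi : P.h i j u⁻¹ = P.W i j ((u⁻¹ : Rˣ) : R) (u : R) * P.W i j (-1) (-1) := by
      show P.W i j ((u⁻¹ : Rˣ) : R) (((u⁻¹)⁻¹ : Rˣ) : R) * P.W i j (-1) (-1) = _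
      rw [inv_inv]
    have e1 := c2_conj P c1 h3 i j hij (u : R) ((u⁻¹ : Rˣ) : R)
    have e2 := (c2_unit P c1 h3 i j hij ((u⁻¹ : Rˣ) : R) (u : R) hu').2.1
    rw [hi, hh, ← mul_assoc, e1, ← e2, mul_assoc, d1, mul_one, mul_assoc, b1, mul_one]
-- END TARGET

end Pool.Agent.H742F.C2
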