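/- FS job C3 (MP_d45256_al, flexible stability of SL_k(Z), owner helper742): the Steinberg symbols are
central, bimultiplicative and skew.  Proved by helper324. -/
import Pool.Agent.H742F.Stm

set_option autoImplicit false
set_option maxHeartbeats 400000

open Filter Topology Finset

namespace Pool.Agent.H742F.C3

open Helper418 Pool.Agent.helper987_SE Pool.Agent.Helper702_TH
open Matrix (SpecialLinearGroup)

section
variable {ι R X : Type} [CommRing R] [Group X] (P : StRel ι R X)

theorem x_zero {i j : ι} (h : i ≠ j) : P.x i j 0 = 1 := by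
  have := P.add i j h 0 0
  rw [add_zero] at this
  exact (left_eq_mul.mp this)

/-- commutation of the symbol with an element on which `h` acts through a character -/
theorem comm_of_char {i j : ι} (x : R → X) (χ : Rˣ →* Rˣ)
    (hx : ∀ u r, P.h i j u * x r = x ((χ u : Rˣ) * r) * P.h i j u) (u v : Rˣ) (r : R) :
    Commute (P.c i j u v) (x r) := by
  have h3 : P.h i j (u * v) * x (((χ (u * v))⁻¹ : Rˣ) * r) = x r * P.h i j (u * v) := by
    rw [hx, ← mul_assoc, Units.mul_inv, one_mul]
  have h4 : P.h i j u * (P.h i j v * x (((χ (u * v))⁻¹ : Rˣ) * r)) =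
      x r * (P.h i j u * P.h i j v) := by
    rw [hx, ← mul_assoc, hx, mul_assoc (x _)]
    congr 2
    rw [← mul_assoc, ← mul_assoc, map_mul, ← Units.val_mul, ← Units.val_mul, mul_inv_cancel,
      Units.val_one, one_mul]
  show P.c i j u v * x r = x r * P.c i j u v
  unfold StRel.c
  have h5 : (P.h i j (u * v))⁻¹ * x r = x (((χ (u * v))⁻¹ : Rˣ) * r) * (P.h i j (u * v))⁻¹ := by
    rw [inv_mul_eq_iff_eq_mul, ← mul_assoc, h3, mul_assoc, mul_inv_cancel, mul_one]
  calc P.h i j u * P.h i j v * (P.h i j (u * v))⁻¹ * x r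
      = P.h i j u * P.h i j v * ((P.h i j (u * v))⁻¹ * x r) := by rw [mul_assoc]
    _ = (P.h i j u * (P.h i j v * x (((χ (u * v))⁻¹ : Rˣ) * r))) * (P.h i j (u * v))⁻¹ := by
        rw [h5]; simp only [mul_assoc]
    _ = x r * (P.h i j u * P.h i j v * (P.h i j (u * v))⁻¹) := by
        rw [h4]; simp only [mul_assoc]

/-- the power homomorphisms of the units -/
def powU (n : ℤ) : Rˣ →* Rˣ where
  toFun u := u ^ n
  map_one' := one_zpow n
  map_mul' u v := mul_zpow u v n

theorem central (c2 : C2P) (h3 : Third ι) {i j : ι} (hij : i ≠ j) (u v : Rˣ) {a b : ι}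
    (hab : a ≠ b) (r : R) : Commute (P.c i j u v) (P.x a b r) := by
  have C2 := fun w => c2 ι R X P h3 i j hij w
  by_cases hai : a = i
  · subst hai
    by_cases hbj : b = j
    · subst hbj
      refine comm_of_char P _ (powU 2) (fun w s => ?_) u v r
      rw [((C2 w).1 s).1]
      congr 2
      show _ = ((w ^ (2 : ℤ) : Rˣ) : R) * s
      rw [zpow_ofNat, sq, Units.val_mul]
    · refine comm_of_char P _ (powU 1) (fun w s => ?_) u v r
      rw [((C2 w).2.1 b hab.symm hbj s).1]
      congr 2
      show _ = ((w ^ (1 : ℤ) : Rˣ) : R) * s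
      rw [zpow_one]
  · by_cases haj : a = j
    · subst haj
      by_cases hbi : b = i
      · subst hbi
        refine comm_of_char P _ (powU (-2)) (fun w s => ?_) u v r
        rw [((C2 w).1 s).2]
        congr 2
        show _ = ((w ^ (-2 : ℤ) : Rˣ) : R) * s
        rw [zpow_neg, zpow_ofNat, sq, mul_inv, Units.val_mul]
      · refine comm_of_char P _ (powU (-1)) (fun w s => ?_) u v r
        rw [((C2 w).2.1 b hbi hab.symm s).2.1]
        congr 2
        show _ = ((w ^ (-1 : ℤ) : Rˣ) : R) * s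
        rw [zpow_neg, zpow_one]
    · by_cases hbi : b = i
      · subst hbi
        refine comm_of_char P _ (powU (-1)) (fun w s => ?_) u v r
        rw [((C2 w).2.1 a hai haj s).2.2.1]
        congr 2
        show _ = ((w ^ (-1 : ℤ) : Rˣ) : R) * s
        rw [zpow_neg, zpow_one]
      · by_cases hbj : b = j
        · subst hbj
          refine comm_of_char P _ (powU 1) (fun w s => ?_) u v r
          rw [((C2 w).2.1 a hai haj s).2.2.2]
          congr 2
          show _ = ((w ^ (1 : ℤ) : Rˣ) : R) * s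
          rw [zpow_one]
        · refine comm_of_char P _ (powU 0) (fun w s => ?_) u v r
          rw [((C2 w).2.2.1 a b hai haj hbi hbj hab s).eq]
          congr 2
          show _ = ((w ^ (0 : ℤ) : Rˣ) : R) * s
          rw [zpow_zero, Units.val_one, one_mul]

theorem cen_W (c2 : C2P) (h3 : Third ι) {i j : ι} (hij : i ≠ j) (u v : Rˣ) {a b : ι}
    (hab : a ≠ b) (t t' : R) : Commute (P.c i j u v) (P.W a b t t') := by
  have h1 := fun r => central P c2 h3 hij u v hab r
  have h2 := fun r => central P c2 h3 hij u v hab.symm r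
  exact ((h1 t).mul_right (h2 (-t'))).mul_right (h1 t)

theorem cen_h (c2 : C2P) (h3 : Third ι) {i j : ι} (hij : i ≠ j) (u v : Rˣ) {a b : ι}
    (hab : a ≠ b) (w : Rˣ) : Commute (P.c i j u v) (P.h a b w) :=
  (cen_W P c2 h3 hij u v hab _ _).mul_right (cen_W P c2 h3 hij u v hab _ _)

theorem cen_c (c2 : C2P) (h3 : Third ι) {i j : ι} (hij : i ≠ j) (u v : Rˣ) {a b : ι}
    (hab : a ≠ b) (w z : Rˣ) : Commute (P.c i j u v) (P.c a b w z) :=
  ((cen_h P c2 h3 hij u v hab w).mul_right (cen_h P c2 h3 hij u v hab z)).mul_right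
    (cen_h P c2 h3 hij u v hab (w * z)).inv_right

/-- an element which carries `x_ij` to `x_kl` carries the symbols -/
theorem carry (c2 : C2P) (h3 : Third ι) {i j k l p q : ι} (hij : i ≠ j) (hpq : p ≠ q) (t t' : R)
    (h1 : ∀ a, P.W p q t t' * P.x i j a = P.x k l a * P.W p q t t')
    (h2 : ∀ a, P.W p q t t' * P.x j i a = P.x l k a * P.W p q t t') (u v : Rˣ) :
    P.c i j u v = P.c k l u v := by
  set w := P.W p q t t' with hw
  have e1 : ∀ a, w * P.x i j a * w⁻¹ = P.x k l a := fun a => by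
    rw [h1, mul_assoc, mul_inv_cancel, mul_one]
  have e2 : ∀ a, w * P.x j i a * w⁻¹ = P.x l k a := fun a => by
    rw [h2, mul_assoc, mul_inv_cancel, mul_one]
  have eW : ∀ a b, w * P.W i j a b * w⁻¹ = P.W k l a b := fun a b => by
    unfold StRel.W
    rw [← e1 a, ← e2 (-b)]
    group
  have eh : ∀ z, w * P.h i j z * w⁻¹ = P.h k l z := fun z => by
    unfold StRel.h
    rw [← eW, ← eW]
    group
  have ec : w * P.c i j u v * w⁻¹ = P.c k l u v := by
    unfold StRel.c
    rw [← eh, ← eh, ← eh]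
    group
  rw [← ec]
  have h5 := cen_W P c2 h3 hij u v hpq t t'
  rw [← hw] at h5
  rw [← h5.eq, mul_assoc, mul_inv_cancel, mul_one]

theorem move_right (c1 : C1P) (c2 : C2P) (h3 : Third ι) {i j k : ι} (hij : i ≠ j) (hki : k ≠ i)
    (hkj : k ≠ j) (u v : Rˣ) : P.c i j u v = P.c i k u v := by
  have h := (c1 ι R X P h3 j k hkj.symm (-1) (-1) (by ring) (by ring)).2.2.2 i hij hki.symm
  refine carry P c2 h3 hij hkj.symm (-1) (-1) (fun a => ?_) (fun a => ?_) u v
  · have h1 := (h a).2.2.2
    rw [show (1 - (-1 : R) * -1) * a = 0 by ring, x_zero P hij, one_mul,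
      show -((-1 : R) * a) = a by ring] at h1
    exact h1
  · have h1 := (h a).2.1
    rw [show (1 - (-1 : R) * -1) * a = 0 by ring, x_zero P hij.symm, one_mul,
      show -((-1 : R) * a) = a by ring] at h1
    exact h1

theorem move_left (c1 : C1P) (c2 : C2P) (h3 : Third ι) {i j k : ι} (hij : i ≠ j) (hki : k ≠ i)
    (hkj : k ≠ j) (u v : Rˣ) : P.c i j u v = P.c k j u v := by
  have h := (c1 ι R X P h3 i k hki.symm (-1) (-1) (by ring) (by ring)).2.2.2 j hij.symm hkj.symm
  refine carry P c2 h3 hij hki.symm (-1) (-1) (fun a => ?_) (fun a => ?_) u v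
  · have h1 := (h a).2.1
    rw [show (1 - (-1 : R) * -1) * a = 0 by ring, x_zero P hij, one_mul,
      show -((-1 : R) * a) = a by ring] at h1
    exact h1
  · have h1 := (h a).2.2.2
    rw [show (1 - (-1 : R) * -1) * a = 0 by ring, x_zero P hij.symm, one_mul,
      show -((-1 : R) * a) = a by ring] at h1
    exact h1

theorem all_eq (c1 : C1P) (c2 : C2P) (h3 : Third ι) {i j k l : ι} (hij : i ≠ j) (hkl : k ≠ l)
    (u v : Rˣ) : P.c i j u v = P.c k l u v := by
  -- first when `k ≠ j`
  have key : ∀ {i j k l : ι}, i ≠ j → k ≠ l → k ≠ j → P.c i j u v = P.c k l u v := by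
    intro i j k l hij hkl hkj
    have e1 : P.c i j u v = P.c k j u v := by
      by_cases hki : k = i
      · rw [hki]
      · exact move_left P c1 c2 h3 hij hki hkj u v
    have e2 : P.c k j u v = P.c k l u v := by
      by_cases hlj : l = j
      · rw [hlj]
      · exact move_right P c1 c2 h3 hkj hkl.symm hlj u v
    exact e1.trans e2
  by_cases hkj : k = j
  · obtain ⟨m, hmi, hmj⟩ := h3 i j
    have e1 : P.c i j u v = P.c i m u v := move_right P c1 c2 h3 hij hmi hmj u v
    have e2 : P.c i m u v = P.c k l u v := key hmi.symm hkl (by rw [hkj]; exact hmj.symm)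
    exact e1.trans e2
  · exact key hij hkl hkj

theorem conj_h (c1 : C1P) (c2 : C2P) (h3 : Third ι) {i j k : ι} (hij : i ≠ j) (hki : k ≠ i)
    (hkj : k ≠ j) (u v : Rˣ) :
    P.h i j u * P.h i k v = (P.c i k v u)⁻¹ * P.h i k v * P.h i j u := by
  set H := P.h i j u with hH
  have C2 := (c2 ι R X P h3 i j hij u).2.1 k hki hkj
  have e1 : ∀ a, H * P.x i k a * H⁻¹ = P.x i k (u * a) := fun a => by
    rw [(C2 a).1, mul_assoc, mul_inv_cancel, mul_one]
  have e2 : ∀ a, H * P.x k i a * H⁻¹ = P.x k i ((u⁻¹ : Rˣ) * a) := fun a => by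
    rw [(C2 a).2.2.1, mul_assoc, mul_inv_cancel, mul_one]
  have eW : ∀ t t', H * P.W i k t t' * H⁻¹ = P.W i k (u * t) ((u⁻¹ : Rˣ) * t') := fun t t' => by
    unfold StRel.W
    rw [← e1 t, show -(((u⁻¹ : Rˣ) : R) * t') = ((u⁻¹ : Rˣ) : R) * -t' by ring, ← e2 (-t')]
    group
  have e3 : P.W i k (u : R) ((u⁻¹ : Rˣ) : R) * P.W i k (-(u : R)) (-((u⁻¹ : Rˣ) : R)) = 1 :=
    (c1 ι R X P h3 i k hki.symm (u : R) ((u⁻¹ : Rˣ) : R)
      (by rw [Units.mul_inv, one_mul]) (by rw [Units.inv_mul, one_mul])).1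
  have e4 : P.W i k (-(u : R)) (-((u⁻¹ : Rˣ) : R)) = (P.W i k (u : R) ((u⁻¹ : Rˣ) : R))⁻¹ :=
    (inv_eq_of_mul_eq_one_right e3).symm
  have e5 : H * P.h i k v * H⁻¹ = P.h i k (u * v) * (P.h i k u)⁻¹ := by
    have e6 : H * P.h i k v * H⁻¹ =
        (H * P.W i k (v : R) ((v⁻¹ : Rˣ) : R) * H⁻¹) * (H * P.W i k (-1) (-1) * H⁻¹) := by
      unfold StRel.h
      group
    rw [e6, eW, eW, show (u : R) * -1 = -(u : R) by ring,
      show ((u⁻¹ : Rˣ) : R) * -1 = -((u⁻¹ : Rˣ) : R) by ring, e4]
    unfold StRel.h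
    rw [show (((u * v)⁻¹ : Rˣ) : R) = ((u⁻¹ : Rˣ) : R) * ((v⁻¹ : Rˣ) : R) by
      rw [mul_inv, Units.val_mul], Units.val_mul]
    group
  have e7 : H * P.h i k v = P.h i k (u * v) * (P.h i k u)⁻¹ * H := by
    rw [← e5]; group
  rw [e7]
  unfold StRel.c
  rw [mul_comm u v]
  group

end

theorem main (c1 : C1P) (c2 : C2P) : C3P := by
  intro ι R X _ _ P h3 i j hij
  -- the commutator formula
  have six : ∀ {i j : ι}, i ≠ j → ∀ u v k, k ≠ i → k ≠ j →
      P.h i j u * P.h i k v = P.c i j u v * P.h i k v * P.h i j u := by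
    intro i j hij u v k hki hkj
    have h := conj_h P c1 c2 h3 hki.symm hij.symm hkj.symm v u
    rw [mul_assoc, h]
    group
  have skew : ∀ u v, P.c i j u v * P.c i j v u = 1 := by
    intro u v
    obtain ⟨k, hki, hkj⟩ := h3 i j
    have h1 := conj_h P c1 c2 h3 hij hki hkj u v
    have h2 := six hij u v k hki hkj
    rw [h1] at h2
    have h4 : (P.c i k v u)⁻¹ = P.c i j u v := mul_right_cancel (mul_right_cancel h2)
    rw [← h4, all_eq P c1 c2 h3 hij hki.symm v u, inv_mul_cancel]
  have bi : ∀ u u' v, P.c i j (u * u') v = P.c i j u v * P.c i j u' v := by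
    intro u u' v
    obtain ⟨k, hki, hkj⟩ := h3 i j
    have h1 := six hij u v k hki hkj
    have h2 := six hij u' v k hki hkj
    have h4 := six hij (u * u') v k hki hkj
    have h5 : P.h i j u * P.h i j u' = P.c i j u u' * P.h i j (u * u') := by
      unfold StRel.c
      group
    have k1 := (cen_h P c2 h3 hij u' v hij u).eq
    have k2 := (cen_h P c2 h3 hij u u' hki.symm v).eq
    have k3 := (cen_c P c2 h3 hij u' v hij u v).eq
    have k4 := (cen_c P c2 h3 hij u u' hij (u * u') v).eq
    have k5 := (cen_c P c2 h3 hij u' v hij u u').eq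
    have k6 := (cen_c P c2 h3 hij u v hij u u').eq
    have k7 := (cen_c P c2 h3 hij u' v hij u v).eq
    -- two ways to compute `h(u) h(u') h_ik(v)`
    have L : P.h i j u * P.h i j u' * P.h i k v =
        P.c i j u u' * P.c i j (u * u') v * P.h i k v * P.h i j (u * u') := by
      rw [h5, mul_assoc, h4]
      simp only [mul_assoc]
    have Rr : P.h i j u * P.h i j u' * P.h i k v =
        P.c i j u u' * (P.c i j u v * P.c i j u' v) * P.h i k v * P.h i j (u * u') := by
      calc P.h i j u * P.h i j u' * P.h i k v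
          = P.h i j u * (P.c i j u' v * P.h i k v * P.h i j u') := by rw [mul_assoc, h2]
        _ = (P.h i j u * P.c i j u' v) * P.h i k v * P.h i j u' := by simp only [mul_assoc]
        _ = P.c i j u' v * (P.h i j u * P.h i k v) * P.h i j u' := by
            rw [← k1]; simp only [mul_assoc]
        _ = P.c i j u' v * P.c i j u v * P.h i k v * (P.h i j u * P.h i j u') := by
            rw [h1]; simp only [mul_assoc]
        _ = P.c i j u' v * P.c i j u v * (P.h i k v * P.c i j u u') * P.h i j (u * u') := by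
            rw [h5]; simp only [mul_assoc]
        _ = P.c i j u' v * (P.c i j u v * P.c i j u u') * P.h i k v * P.h i j (u * u') := by
            rw [← k2]; simp only [mul_assoc]
        _ = (P.c i j u' v * P.c i j u u') * P.c i j u v * P.h i k v * P.h i j (u * u') := by
            rw [k6]; simp only [mul_assoc]
        _ = P.c i j u u' * (P.c i j u' v * P.c i j u v) * P.h i k v * P.h i j (u * u') := by
            rw [k5]; simp only [mul_assoc]
        _ = _ := by rw [k7]
    rw [L] at Rr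
    have e1 := mul_right_cancel (mul_right_cancel Rr)
    exact mul_left_cancel e1
  refine ⟨fun u v a b hab r => central P c2 h3 hij u v hab r,
    fun u v k l hkl => all_eq P c1 c2 h3 hij hkl u v, bi, ?_, skew,
    fun u v k hki hkj => six hij u v k hki hkj⟩
  intro u v v'
  have s1 : P.c i j u (v * v') = (P.c i j (v * v') u)⁻¹ := eq_inv_of_mul_eq_one_left (skew _ _)
  have s2 : P.c i j u v = (P.c i j v u)⁻¹ := eq_inv_of_mul_eq_one_left (skew _ _)
  have s3 : P.c i j u v' = (P.c i j v' u)⁻¹ := eq_inv_of_mul_eq_one_left (skew _ _)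
  rw [s1, s2, s3, bi, ← mul_inv_rev, (cen_c P c2 h3 hij v u hij v' u).eq]

end Pool.Agent.H742F.C3
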