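/- FS job C4 (MP_d45256_al, flexible stability of SL_k(Z), owner helper742). Prove C4Q of Pool/Agent/H742F/Stm.lean (definitions in Defs.lean), both on origin/main.
GET THE FILES: cd /workdir/pool && git -C outputs/live fetch -q origin main:refs/remotes/origin/main; for d in H742F helper987_SE Helper702_TH Helper418_Sofic W661; do
  git -C outputs/live archive origin/main Pool/Agent/$d | tar -x -C /workdir/pool; done; lake build Pool.Agent.H742F.Stm      (about 2 minutes; Mathlib is prebuilt)
Whole paper: papers row of MP_d45256_al (team-sql --json SELECT body FROM papers WHERE pid='MP_d45256_al'). The hypotheses of the theorem are proved elsewhere. Do not change the statement; if it is false or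
unusable tell helper742 at once (insert into messages). You may add any other ...P / ...Q proposition of Stm.lean as a hypothesis if that is not circular. Auxiliary lemmas in the namespace below. No sorry, standard axioms.
DELIVER: land the file as Pool/Agent/H742F/C4.lean (bash ~/land.sh or git land), then UPDATE jobs SET status='done', result='landed', done_at=now() WHERE id=<this id>;  (or paste the whole file as result).

STATEMENT (for reference)
/-- C4: the symbols of elements living on different parts are trivial. -/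
def C4Q : Prop := ∀ (ι R X : Type) [CommRing R] [Group X] (P : StRel ι R X), Third ι →
  ∀ i j, i ≠ j → ∀ (e : R) (u v : Rˣ), e * e = e → (1 - e) * ((u : R) - 1) = 0 →
    e * ((v : R) - 1) = 0 → P.c i j u v = 1

PROOF
f := 1-e. u = eu + f, v = e + fv. By C0 (with e and with f): h(u) = W(eu,eu^-1)W(-e,-e), h(v) = W(fv,fv^-1)W(-f,-f). h(uv): uv = eu + fv; x_ij(uv) = x_ij(eu)x_ij(fv), and e-parts commute with f-parts, so W(uv,..) = W(eu,eu^-1)W(fv,fv^-1), W(-1,-1) = W(-e,-e)W(-f,-f).
So h(uv) = h(u)h(v).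
-/
import Pool.Agent.H742F.Stm

set_option autoImplicit false
set_option maxHeartbeats 400000

open Filter Topology Finset

namespace Pool.Agent.H742F.C4

open Helper418 Pool.Agent.helper987_SE Pool.Agent.Helper702_TH
open Matrix (SpecialLinearGroup)

theorem part_W {ι R X : Type} [CommRing R] [Group X] (P : StRel ι R X) {i j : ι}
    (hij : i ≠ j) (e : R)
    (cA : ∀ a b, e * a = a → e * b = 0 → Commute (P.x i j a) (P.x j i b))
    (dA : ∀ a b, (1 - e) * a = a → (1 - e) * b = 0 → Commute (P.x i j a) (P.x j i b))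
    (t1 t1' t2 t2' : R) (h1 : e * t1 = t1) (h1' : e * t1' = t1') (h2 : e * t2 = 0)
    (h2' : e * t2' = 0) :
    P.W i j (t1 + t2) (t1' + t2') = P.W i j t1 t1' * P.W i j t2 t2' ∧
      Commute (P.W i j t1 t1') (P.W i j t2 t2') := by
  have hxx : ∀ a b, Commute (P.x i j a) (P.x i j b) := by
    intro a b
    show P.x i j a * P.x i j b = P.x i j b * P.x i j a
    rw [← P.add i j hij, ← P.add i j hij, add_comm]
  have hyy : ∀ a b, Commute (P.x j i a) (P.x j i b) := by
    intro a b
    show P.x j i a * P.x j i b = P.x j i b * P.x j i a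
    rw [← P.add j i hij.symm, ← P.add j i hij.symm, add_comm]
  have k1 : Commute (P.x i j t1) (P.x i j t2) := hxx _ _
  have k2 : Commute (P.x j i (-t1')) (P.x j i (-t2')) := hyy _ _
  have k3 : Commute (P.x i j t1) (P.x j i (-t2')) :=
    cA _ _ h1 (by rw [mul_neg, h2', neg_zero])
  have k4 : Commute (P.x i j t2) (P.x j i (-t1')) :=
    dA _ _ (by rw [sub_mul, one_mul, h2, sub_zero])
      (by rw [mul_neg, sub_mul, one_mul, h1', sub_self, neg_zero])
  constructor
  · unfold StRel.W
    rw [neg_add, P.add i j hij, P.add j i hij.symm]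
    generalize P.x i j t1 = A1 at *
    generalize P.x i j t2 = A2 at *
    generalize P.x j i (-t1') = B1 at *
    generalize P.x j i (-t2') = B2 at *
    calc A1 * A2 * (B1 * B2) * (A1 * A2) = A1 * (A2 * B1) * B2 * (A1 * A2) := by
          simp only [mul_assoc]
      _ = A1 * (B1 * A2) * B2 * (A1 * A2) := by rw [k4.eq]
      _ = A1 * B1 * A2 * (B2 * A1) * A2 := by simp only [mul_assoc]
      _ = A1 * B1 * A2 * (A1 * B2) * A2 := by rw [k3.eq]
      _ = A1 * B1 * (A2 * A1) * B2 * A2 := by simp only [mul_assoc]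
      _ = A1 * B1 * (A1 * A2) * B2 * A2 := by rw [k1.eq]
      _ = A1 * B1 * A1 * (A2 * B2 * A2) := by simp only [mul_assoc]
  · unfold StRel.W
    have m1 : Commute (P.x i j t1) (P.x i j t2 * P.x j i (-t2') * P.x i j t2) :=
      (k1.mul_right k3).mul_right k1
    have m2 : Commute (P.x j i (-t1')) (P.x i j t2 * P.x j i (-t2') * P.x i j t2) :=
      (k4.symm.mul_right k2).mul_right k4.symm
    exact (m1.mul_left m2).mul_left m1

-- BEGIN TARGET
theorem main (c0 : C0Q) (c1 : C1P) : C4Q := by
  intro ι R X _ _ P h3 i j hij e u v he hu hv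
  have hf : (1 - e) * (1 - e) = 1 - e := by linear_combination he
  obtain ⟨cA, cB⟩ := c0 ι R X P h3 i j hij e he
  obtain ⟨dA, dB⟩ := c0 ι R X P h3 i j hij (1 - e) hf
  have hv' : (1 - (1 - e)) * ((v : R) - 1) = 0 := by rw [sub_sub_cancel]; exact hv
  have hU := cB u hu
  have hV := dB v hv'
  have iu : (u : R) * ((u⁻¹ : Rˣ) : R) = 1 := Units.mul_inv u
  have iv : (v : R) * ((v⁻¹ : Rˣ) : R) = 1 := Units.mul_inv v
  have fui : (1 - e) * (((u⁻¹ : Rˣ) : R) - 1) = 0 := by
    linear_combination (-((u⁻¹ : Rˣ) : R)) * hu + (1 - e) * iu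
  have evi : e * (((v⁻¹ : Rˣ) : R) - 1) = 0 := by
    linear_combination (-((v⁻¹ : Rˣ) : R)) * hv + e * iv
  have huv : ((u * v : Rˣ) : R) = e * u + (1 - e) * v := by
    rw [Units.val_mul]
    linear_combination (u : R) * hv + (v : R) * hu
  have huvi : (((u * v)⁻¹ : Rˣ) : R) = e * ((u⁻¹ : Rˣ) : R) + (1 - e) * ((v⁻¹ : Rˣ) : R) := by
    rw [mul_inv, Units.val_mul]
    linear_combination ((u⁻¹ : Rˣ) : R) * evi + ((v⁻¹ : Rˣ) : R) * fui
  have e1 : ∀ a : R, e * (e * a) = e * a := fun a => by rw [← mul_assoc, he]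
  have e2 : ∀ a : R, e * ((1 - e) * a) = 0 := fun a => by linear_combination (-a) * he
  have w1 := part_W P hij e cA dA (e * u) (e * ((u⁻¹ : Rˣ) : R)) ((1 - e) * v)
    ((1 - e) * ((v⁻¹ : Rˣ) : R)) (e1 _) (e1 _) (e2 _) (e2 _)
  have w2 := part_W P hij e cA dA (-e) (-e) (-(1 - e)) (-(1 - e))
    (by rw [mul_neg, he]) (by rw [mul_neg, he]) (by linear_combination he)
    (by linear_combination he)
  have w3 := part_W P hij e cA dA (-e) (-e) ((1 - e) * v) ((1 - e) * ((v⁻¹ : Rˣ) : R))
    (by rw [mul_neg, he]) (by rw [mul_neg, he]) (e2 _) (e2 _)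
  have hm : (-e : R) + -(1 - e) = -1 := by ring
  rw [hm] at w2
  have hprod : P.h i j (u * v) = P.h i j u * P.h i j v := by
    have h0 : P.h i j (u * v) = P.W i j ((u * v : Rˣ) : R) (((u * v)⁻¹ : Rˣ) : R) *
      P.W i j (-1) (-1) := rfl
    rw [h0, huv, huvi, w1.1, w2.1, hU, hV]
    have k := w3.2.eq
    generalize P.W i j (e * u) (e * ((u⁻¹ : Rˣ) : R)) = a at *
    generalize P.W i j ((1 - e) * v) ((1 - e) * ((v⁻¹ : Rˣ) : R)) = b at *
    generalize P.W i j (-e) (-e) = c at *
    generalize P.W i j (-(1 - e)) (-(1 - e)) = d at *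
    calc a * b * (c * d) = a * (b * c) * d := by simp only [mul_assoc]
      _ = a * (c * b) * d := by rw [k]
      _ = a * c * (b * d) := by simp only [mul_assoc]
  show P.h i j u * P.h i j v * (P.h i j (u * v))⁻¹ = 1
  rw [hprod, mul_inv_cancel]
-- END TARGET

end Pool.Agent.H742F.C4
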