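/- FS job C5 (MP_d45256_al, flexible stability of SL_k(Z), owner helper742). -/
import Pool.Agent.H742F.Stm

set_option autoImplicit false
set_option maxHeartbeats 400000

open Filter Topology Finset

namespace Pool.Agent.H742F.C5

open Helper418 Pool.Agent.helper987_SE Pool.Agent.Helper702_TH
open Matrix (SpecialLinearGroup)

section aux

variable {ι R X : Type} [CommRing R] [Group X] (P : StRel ι R X)

theorem x_zero {i j : ι} (hij : i ≠ j) : P.x i j 0 = 1 := by
  have h := P.add i j hij 0 0
  rw [add_zero] at h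
  exact left_eq_mul.mp h

theorem x_neg {i j : ι} (hij : i ≠ j) (a : R) : P.x i j (-a) = (P.x i j a)⁻¹ := by
  have h := P.add i j hij (-a) a
  rw [neg_add_cancel, x_zero P hij] at h
  exact eq_inv_of_mul_eq_one_left h.symm

theorem x_comm {i j : ι} (hij : i ≠ j) (a b : R) : Commute (P.x i j a) (P.x i j b) := by
  show P.x i j a * P.x i j b = P.x i j b * P.x i j a
  rw [← P.add i j hij, ← P.add i j hij, add_comm]

theorem W_comm {i j : ι} (hij : i ≠ j) (t t' c : R)
    (h : Commute (P.x i j t) (P.x j i c)) : Commute (P.W i j t t') (P.x j i c) := by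
  unfold StRel.W
  exact (h.mul_left (x_comm P hij.symm _ _)).mul_left h

/-- the computation in the group -/
theorem grp {i j : ι} (hij : i ≠ j) (s s' b1 w d : R) (v : R)
    (hb : s' + b1 = s' * v)
    (h1 : P.W i j s s' * P.x i j (-s + s * w) = P.x j i d * P.W i j s s') :
    P.x i j s * P.x j i b1 =
      P.x j i d * (P.W i j s s' * P.W i j (-(s * w)) (-(s' * v))) * P.x i j (s * w) := by
  have e1 : P.x i j s * P.x j i b1 = P.W i j s s' * (P.x i j (-s) * P.x j i (s' * v)) := by
    rw [← hb, P.add j i hij.symm]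
    unfold StRel.W
    rw [x_neg P hij, x_neg P hij.symm]
    group
  have e2 : P.x i j (-s) * P.x j i (s' * v) =
      P.x i j (-s + s * w) * P.W i j (-(s * w)) (-(s' * v)) * P.x i j (s * w) := by
    rw [P.add i j hij]
    unfold StRel.W
    rw [neg_neg, x_neg P hij, x_neg P hij (s * w)]
    group
  rw [e1, e2, ← mul_assoc, ← mul_assoc, h1]
  simp only [mul_assoc]

end aux

-- BEGIN TARGET
theorem main (c0 : C0Q) (c1 : C1P) : C5Q := by
  intro ι R X _ _ P hT i j hij s s' b v S hs hs' hv hS
  obtain ⟨e, he⟩ : ∃ e, e = s * s' := ⟨_, rfl⟩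
  obtain ⟨w, hw⟩ : ∃ w : R, w = ((v⁻¹ : Rˣ) : R) := ⟨_, rfl⟩
  have hes : e * s = s := by rw [he]; exact hs
  have hes' : e * s' = s' := by rw [he]; linear_combination hs'
  have hee : e * e = e := by
    calc e * e = (e * s) * s' := by rw [he]; ring
      _ = s * s' := by rw [hes]
      _ = e := he.symm
  have hvw : (v : R) * w = 1 := by rw [hw]; exact Units.mul_inv v
  have h1v : (1 - e) * (v : R) = 1 - e := by
    rw [hv]; linear_combination (-b) * hes
  have h1w : (1 - e) * w = 1 - e := by
    calc (1 - e) * w = ((1 - e) * (v : R)) * w := by rw [h1v]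
      _ = (1 - e) * ((v : R) * w) := by ring
      _ = 1 - e := by rw [hvw, mul_one]
  have hSe : (S : R) = s + (1 - e) := by rw [he]; exact hS
  have hSi : ((S⁻¹ : Rˣ) : R) = s' + (1 - e) := by
    apply Units.inv_eq_of_mul_eq_one_right
    rw [hSe]
    have : s * s' = e := he.symm
    linear_combination this - hes - hes' + hee
  -- the two elements h
  obtain ⟨hO, hU⟩ := c0 ι R X P hT i j hij e hee
  have hh1 : P.h i j S = P.W i j s s' * P.W i j (-e) (-e) := by
    have h := hU S (by rw [hSe]; linear_combination -hes + hee)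
    have a1 : e * (S : R) = s := by rw [hSe]; linear_combination hes - hee
    have a2 : e * ((S⁻¹ : Rˣ) : R) = s' := by rw [hSi]; linear_combination hes' - hee
    rw [a1, a2] at h
    exact h
  have hSv : ((S * v⁻¹ : Rˣ) : R) = (s + (1 - e)) * w := by
    rw [Units.val_mul, hSe, hw]
  have hSvi : (((S * v⁻¹)⁻¹ : Rˣ) : R) = (s' + (1 - e)) * v := by
    rw [mul_inv, inv_inv, Units.val_mul, hSi]
  have hh2 : P.h i j (S * v⁻¹) = P.W i j (s * w) (s' * v) * P.W i j (-e) (-e) := by
    have h := hU (S * v⁻¹) (by
      rw [hSv]; linear_combination -w * hes + h1w + w * hee)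
    have a1 : e * ((S * v⁻¹ : Rˣ) : R) = s * w := by
      rw [hSv]; linear_combination w * hes - w * hee
    have a2 : e * (((S * v⁻¹)⁻¹ : Rˣ) : R) = s' * v := by
      rw [hSvi]; linear_combination (v : R) * hes' - (v : R) * hee
    rw [a1, a2] at h
    exact h
  -- the inverse of W
  have hWi : P.W i j (s * w) (s' * v) * P.W i j (-(s * w)) (-(s' * v)) = 1 := by
    refine (c1 ι R X P hT i j hij (s * w) (s' * v) ?_ ?_).1
    · calc s * w * (s' * v) * (s * w) = (s * s' * s) * ((v : R) * w) * w := by ring
        _ = s * w := by rw [hs, hvw, mul_one]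
    · calc s' * v * (s * w) * (s' * v) = (s' * s * s') * ((v : R) * w) * v := by ring
        _ = s' * v := by rw [hs', hvw, mul_one]
  have hWh : P.W i j s s' * P.W i j (-(s * w)) (-(s' * v)) =
      P.h i j S * (P.h i j (S * v⁻¹))⁻¹ := by
    rw [hh1, hh2, eq_inv_of_mul_eq_one_right hWi]
    group
  -- moving W
  have hmv : P.W i j s s' * P.x i j (-s + s * w) = P.x j i (e * b * w) * P.W i j s s' := by
    have h := ((c1 ι R X P hT i j hij s s' hs hs').2.2.1 (-s + s * w)
      (by rw [← he]; linear_combination (-1 + w) * hes)).1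
    have a1 : -(s' * s' * (-s + s * w)) = e * b * w := by
      have b1 : s' * (v : R) * w = s' := by rw [mul_assoc, hvw, mul_one]
      have b2 : s' * s * s' = s' := hs'
      have b3 : s * s' = e := he.symm
      rw [hv] at b1
      linear_combination (1 - w) * b2 + b * w * b3 - b1
    rw [a1] at h
    exact h
  have key := grp P hij s s' (e * b) w (e * b * w) (v : R)
    (by rw [hv]; have b3 : s * s' = e := he.symm; linear_combination (-b) * b3) hmv
  rw [hWh] at key
  -- the complementary part
  have hc1 : Commute (P.x i j (s * w)) (P.x j i ((1 - e) * b)) :=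
    hO _ _ (by linear_combination w * hes) (by linear_combination (-b) * hee)
  have hc2 : ∀ t t' : R, e * t = t → Commute (P.W i j t t') (P.x j i ((1 - e) * b)) := by
    intro t t' ht
    exact W_comm P hij t t' _ (hO _ _ ht (by linear_combination (-b) * hee))
  have hc3 : Commute (P.h i j S * (P.h i j (S * v⁻¹))⁻¹) (P.x j i ((1 - e) * b)) := by
    rw [← hWh]
    exact (hc2 s s' hes).mul_left (hc2 _ _ (by linear_combination (-w) * hes))
  have hb : b = e * b + (1 - e) * b := by ring
  have hbw : b * ((v⁻¹ : Rˣ) : R) = e * b * w + (1 - e) * b := by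
    rw [← hw]; linear_combination b * h1w
  have hfin : P.x i j s * P.x j i b = P.x j i (e * b * w) *
      (P.h i j S * (P.h i j (S * v⁻¹))⁻¹) * P.x i j (s * w) * P.x j i ((1 - e) * b) := by
    rw [← key, mul_assoc, ← P.add j i hij.symm, ← hb]
  rw [hfin, hbw, P.add j i hij.symm, ← hw]
  have g1 := hc1.eq
  have g3 := hc3.eq
  rw [mul_assoc _ (P.x i j (s * w)), g1, ← mul_assoc, mul_assoc (P.x j i (e * b * w)), g3]
  simp only [mul_assoc]
-- END TARGET

end Pool.Agent.H742F.C5
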