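import Pool.Agent.H742F.Stm

/-!
# Project FS (helper742), part C6: the Steinberg relation and `c(u,-u) = 1` on the part of an
idempotent (proved by helper937)
-/

set_option autoImplicit false
set_option maxHeartbeats 400000

open Filter Topology Finset

namespace Pool.Agent.H742F.C6

open Helper418 Pool.Agent.helper987_SE Pool.Agent.Helper702_TH
open Matrix (SpecialLinearGroup)

section aux

variable {ι R X : Type} [CommRing R] [Group X] (P : StRel ι R X)

theorem x_zero (i j : ι) (h : i ≠ j) : P.x i j 0 = 1 := by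
  have := P.add i j h 0 0
  rw [add_zero] at this
  exact left_eq_mul.mp this

theorem x_neg (i j : ι) (h : i ≠ j) (a : R) : P.x i j (-a) = (P.x i j a)⁻¹ := by
  rw [eq_inv_iff_mul_eq_one, ← P.add i j h, neg_add_cancel, x_zero P i j h]

theorem comm_W (i j : ι) (h : i ≠ j) (c : X) (hc : ∀ a b, a ≠ b → ∀ r, Commute c (P.x a b r))
    (t t' : R) : Commute c (P.W i j t t') :=
  ((hc i j h t).mul_right (hc j i h.symm _)).mul_right (hc i j h t)

theorem comm_h (i j : ι) (h : i ≠ j) (c : X) (hc : ∀ a b, a ≠ b → ∀ r, Commute c (P.x a b r))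
    (u : Rˣ) : Commute c (P.h i j u) :=
  (comm_W P i j h c hc _ _).mul_right (comm_W P i j h c hc _ _)

/-- the case `u' = -u` -/
theorem neg (c0 : C0Q) (c1 : C1P) (T : Third ι) (i j : ι) (hij : i ≠ j) (e : R) (u u' : Rˣ)
    (he : e * e = e) (hu : (1 - e) * ((u : R) - 1) = 0) (hu' : (1 - e) * ((u' : R) - 1) = 0)
    (h : e * u' = - (e * u)) : P.c i j u u' = 1 := by
  obtain ⟨_, C0⟩ := c0 ι R X P T i j hij e he
  set t : R := e * u with ht
  set t' : R := e * ((u⁻¹ : Rˣ) : R) with ht'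
  have uu : (u : R) * ((u⁻¹ : Rˣ) : R) = 1 := u.mul_inv
  have uu' : (u' : R) * ((u'⁻¹ : Rˣ) : R) = 1 := u'.mul_inv
  have e1 : t * t' = e := by
    calc t * t' = e * e * ((u : R) * ((u⁻¹ : Rˣ) : R)) := by rw [ht, ht']; ring
      _ = e := by rw [uu, he, mul_one]
  have et : e * t = t := by rw [ht, ← mul_assoc, he]
  have et' : e * t' = t' := by rw [ht', ← mul_assoc, he]
  have s1 : t * t' * t = t := by rw [e1, et]
  have s2 : t' * t * t' = t' := by rw [mul_comm t' t, e1, et']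
  obtain ⟨A1, _, A3, _⟩ := c1 ι R X P T i j hij t t' s1 s2
  have e2 : e * ((u'⁻¹ : Rˣ) : R) = -t' := by
    have h1 : e * ((u'⁻¹ : Rˣ) : R) = (e * ((u'⁻¹ : Rˣ) : R)) * ((u : R) * ((u⁻¹ : Rˣ) : R)) := by
      rw [uu, mul_one]
    have h2 : (e * ((u'⁻¹ : Rˣ) : R)) * ((u : R) * ((u⁻¹ : Rˣ) : R)) =
        (e * u) * ((u'⁻¹ : Rˣ) : R) * ((u⁻¹ : Rˣ) : R) := by ring
    have h3 : e * (u : R) = -(e * u') := by rw [h, neg_neg]
    rw [h1, h2, h3]
    have h4 : -(e * (u' : R)) * ((u'⁻¹ : Rˣ) : R) * ((u⁻¹ : Rˣ) : R) =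
        -(e * ((u' : R) * ((u'⁻¹ : Rˣ) : R)) * ((u⁻¹ : Rˣ) : R)) := by ring
    rw [h4, uu', mul_one]
  have e3 : e * ((u * u' : Rˣ) : R) = -(t * t) := by
    rw [Units.val_mul]
    calc e * ((u : R) * u') = (e * u') * u := by ring
      _ = -(e * u * u) := by rw [h]; ring
      _ = -(t * t) := by rw [ht]; linear_combination (u : R) * u * he
  have e4 : e * (((u * u')⁻¹ : Rˣ) : R) = -(t' * t') := by
    rw [mul_inv, Units.val_mul]
    calc e * (((u⁻¹ : Rˣ) : R) * ((u'⁻¹ : Rˣ) : R)) = (e * ((u'⁻¹ : Rˣ) : R)) * ((u⁻¹ : Rˣ) : R) := by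
          ring
      _ = -(t' * ((u⁻¹ : Rˣ) : R)) := by rw [e2]; ring
      _ = -(t' * t') := by
        rw [ht']
        linear_combination ((u⁻¹ : Rˣ) : R) * ((u⁻¹ : Rˣ) : R) * he
  have huu : (1 - e) * (((u * u' : Rˣ) : R) - 1) = 0 := by
    rw [Units.val_mul]
    linear_combination (u' : R) * hu + hu'
  have h1 : P.h i j u = P.W i j t t' * P.W i j (-e) (-e) := C0 u hu
  have h2 : P.h i j u' = P.W i j (-t) (-t') * P.W i j (-e) (-e) := by
    rw [C0 u' hu', h, e2]
  have h3 : P.h i j (u * u') = P.W i j (-(t * t)) (-(t' * t')) * P.W i j (-e) (-e) := by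
    rw [C0 (u * u') huu, e3, e4]
  have r1 : (-(t * t)) * (-(t' * t')) = e := by
    linear_combination (t * t' + e) * e1 + he
  have A2 := (c1 ι R X P T i j hij (-(t * t)) (-(t' * t'))
    (by rw [r1]; linear_combination (-t) * et)
    (by rw [mul_comm (-(t' * t')), r1]; linear_combination (-t') * et')).2.1
  rw [neg_neg, neg_neg] at A2
  have w : P.W i j t t' * P.W i j (-e) (-e) = P.W i j (-(t * t)) (-(t' * t')) * P.W i j t t' := by
    have a1 : P.W i j t t' * P.x i j (-e) = P.x j i (t' * t') * P.W i j t t' := by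
      have := (A3 (-e) (by rw [e1]; linear_combination -he)).1
      rw [this]
      congr 2
      linear_combination t' * et'
    have a2 : P.W i j t t' * P.x j i e = P.x i j (-(t * t)) * P.W i j t t' := by
      have := (A3 e (by rw [e1, he])).2
      rw [this]
      congr 2
      linear_combination -t * et
    have w1 : P.W i j (-e) (-e) = P.x i j (-e) * P.x j i e * P.x i j (-e) := by
      unfold StRel.W
      rw [neg_neg]
    have w2 : P.W i j (-(t * t)) (-(t' * t')) =
        P.x j i (t' * t') * P.x i j (-(t * t)) * P.x j i (t' * t') := by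
      rw [A2]
      rfl
    rw [w1, w2, ← mul_assoc, ← mul_assoc, a1, mul_assoc _ (P.W i j t t'), a2, ← mul_assoc,
      mul_assoc _ (P.W i j t t'), a1]
    simp only [mul_assoc]
  unfold StRel.c
  rw [mul_inv_eq_one, h1, h2, h3, w, mul_assoc, ← mul_assoc (P.W i j t t'), A1, one_mul]

/-- the case `u' = 1 - u` -/
theorem st (c2 : C2P) (c3 : C3P) (c4 : C4Q) (c5 : C5Q) (T : Third ι) (i j : ι)
    (hij : i ≠ j) (e : R) (u v : Rˣ)
    (he : e * e = e) (hu : (1 - e) * ((u : R) - 1) = 0) (hv : (v : R) = 1 - e * u) :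
    P.c i j u v = 1 := by
  obtain ⟨k, hki, hkj⟩ := T i j
  have uu : (u : R) * ((u⁻¹ : Rˣ) : R) = 1 := u.mul_inv
  obtain ⟨cc, cind, cm1, cm2, cs, ck⟩ := c3 ι R X P T i j hij
  -- the unit `S`
  have hS : (-(e * (u : R)) + (1 - e)) * (-(e * ((u⁻¹ : Rˣ) : R)) + (1 - e)) = 1 := by
    linear_combination e * uu + ((u : R) * ((u⁻¹ : Rˣ) : R) + (u : R) + ((u⁻¹ : Rˣ) : R) + 1) * he
  set S : Rˣ := ⟨-(e * (u : R)) + (1 - e), -(e * ((u⁻¹ : Rˣ) : R)) + (1 - e), hS,
    by rw [mul_comm]; exact hS⟩ with hSdef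
  have hSv : (S : R) = -(e * (u : R)) + (1 - e) := rfl
  have hz : (e - (1 - e)) * (e - (1 - e)) = 1 := by linear_combination 4 * he
  set z : Rˣ := ⟨e - (1 - e), e - (1 - e), hz, hz⟩ with hzdef
  have hzv : (z : R) = e - (1 - e) := rfl
  have hSz : -1 * S = u * z := by
    apply Units.ext
    rw [Units.val_mul, Units.val_mul, hSv, hzv, Units.val_neg, Units.val_one]
    linear_combination hu
  -- (I)
  obtain ⟨_, _, _, hji, h1, _⟩ := c2 ι R X P T i j hij v
  have h1' : P.h i j (1 : Rˣ) = 1 := h1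
  have I0 := c5 ι R X P T i j hij e e (-(e * u)) v 1 (by rw [he, he]) (by rw [he, he])
    (by rw [hv]; linear_combination (u : R) * he) (by rw [Units.val_one]; linear_combination he)
  rw [h1', one_mul, one_mul] at I0
  set y : Rˣ := v⁻¹ with hy
  obtain ⟨_, Hk, _⟩ := c2 ι R X P T i k hki.symm (-1)
  have Hij := fun a => (Hk j hij.symm (Ne.symm hkj) a).1
  have Hji := fun a => (Hk j hij.symm (Ne.symm hkj) a).2.2.1
  set H : X := P.h i k (-1) with hH
  have Hij' : ∀ a, H * P.x i j a = P.x i j (-a) * H := by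
    intro a
    rw [Hij a]
    congr 2
    rw [Units.val_neg, Units.val_one]
    ring
  have Hji' : ∀ a, H * P.x j i a = P.x j i (-a) * H := by
    intro a
    rw [Hji a]
    congr 2
    rw [inv_neg, inv_one, Units.val_neg, Units.val_one]
    ring
  have I1 : P.x i j (-e) * P.x j i (e * u) =
      P.x j i (e * u * (y : R)) * (H * (P.h i j y)⁻¹ * H⁻¹) * P.x i j (-(e * (y : R))) := by
    have a1 : H * (P.x i j e * P.x j i (-(e * u))) = P.x i j (-e) * P.x j i (e * u) * H := by
      rw [← mul_assoc, Hij', mul_assoc, Hji', neg_neg, mul_assoc]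
    have a2 : H * (P.x j i (-(e * ↑u) * ↑y) * (P.h i j y)⁻¹ * P.x i j (e * ↑y)) =
        P.x j i (e * u * (y : R)) * (H * (P.h i j y)⁻¹ * H⁻¹) * P.x i j (-(e * (y : R))) * H := by
      rw [← mul_assoc, ← mul_assoc, Hji', mul_assoc _ (P.x i j (-(e * (y : R)))) H, ← Hij']
      have : -(-(e * (u : R)) * (y : R)) = e * u * y := by ring
      rw [this]
      group
    have a3 : P.x i j (-e) * P.x j i (e * u) * H =
      P.x j i (e * u * (y : R)) * (H * (P.h i j y)⁻¹ * H⁻¹) * P.x i j (-(e * (y : R))) * H := by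
      rw [← a1, ← a2, I0]
    exact mul_right_cancel a3
  -- (II)
  have II0 := c5 ι R X P T j i hij.symm (-(e * (u : R))) (-(e * ((u⁻¹ : Rˣ) : R))) e v S
    (by linear_combination (-(u : R) * (u : R) * ((u⁻¹ : Rˣ) : R) * (e + 1)) * he - e * u * uu)
    (by linear_combination (-((u⁻¹ : Rˣ) : R) * (u : R) * ((u⁻¹ : Rˣ) : R) * (e + 1)) * he -
          e * ((u⁻¹ : Rˣ) : R) * uu)
    (by rw [hv]; linear_combination (u : R) * he)
    (by rw [hSv]; linear_combination e * e * uu + he)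
  have II1 : P.x i j (-e) * P.x j i (e * u) =
      P.x j i (e * u * (y : R)) * (P.h j i (S * y) * (P.h j i S)⁻¹) * P.x i j (-(e * (y : R))) := by
    have a1 : P.x i j (-e) * P.x j i (e * u) = (P.x j i (-(e * u)) * P.x i j e)⁻¹ := by
      rw [mul_inv_rev, ← x_neg P i j hij, ← x_neg P j i hij.symm, neg_neg]
    rw [a1, II0, mul_inv_rev, mul_inv_rev, mul_inv_rev, inv_inv, ← x_neg P i j hij,
      ← x_neg P j i hij.symm]
    have : -(-(e * (u : R)) * (y : R)) = e * u * y := by ring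
    rw [this, hy]
    simp only [mul_assoc]
  have K : P.h j i (S * y) * (P.h j i S)⁻¹ = H * (P.h i j y)⁻¹ * H⁻¹ := by
    rw [I1] at II1
    exact (mul_left_cancel (mul_right_cancel II1)).symm
  -- conjugation by `H`
  have Hc : H * P.h i j y = P.c i j (-1) y * P.h i j y * H := by
    obtain ⟨_, _, _, _, _, ck'⟩ := c3 ι R X P T i k hki.symm
    rw [cind (-1) y i k hki.symm]
    exact ck' (-1) y j hij.symm hkj.symm
  have Hc' : H * (P.h i j y)⁻¹ * H⁻¹ = (P.h i j y)⁻¹ * (P.c i j (-1) y)⁻¹ := by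
    have : H * P.h i j y * H⁻¹ = P.c i j (-1) y * P.h i j y := by
      rw [Hc]; group
    calc H * (P.h i j y)⁻¹ * H⁻¹ = (H * P.h i j y * H⁻¹)⁻¹ := by group
      _ = _ := by rw [this, mul_inv_rev]
  -- left side
  have hh : ∀ w : Rˣ, P.h j i w = (P.h i j w)⁻¹ := by
    intro w
    obtain ⟨_, _, _, h2, _, _⟩ := c2 ι R X P T i j hij w
    exact eq_inv_of_mul_eq_one_left h2
  have L : P.h j i (S * y) * (P.h j i S)⁻¹ = (P.h i j y)⁻¹ * P.c i j S y := by
    rw [hh, hh, inv_inv]
    have a1 : P.h i j (S * y) = (P.c i j S y)⁻¹ * (P.h i j S * P.h i j y) := by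
      unfold StRel.c
      group
    rw [a1, mul_inv_rev, inv_inv, mul_inv_rev, mul_assoc, mul_assoc]
    congr 1
    rw [(comm_h P i j hij _ (cc S y) S).eq]
    group
  have F : P.c i j S y * P.c i j (-1) y = 1 := by
    rw [L, Hc'] at K
    have := mul_left_cancel K
    rw [this]
    group
  have c1y : P.c i j (-1 * S) y = 1 := by
    have : P.c i j (-1) y = (P.c i j S y)⁻¹ := eq_inv_of_mul_eq_one_right F
    rw [cm1, this, inv_mul_cancel]
  have c1v : P.c i j (-1 * S) v = 1 := by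
    have b1 : P.c i j (-1 * S) (1 : Rˣ) = 1 := by
      have := cm2 (-1 * S) 1 1
      rw [mul_one] at this
      exact left_eq_mul.mp this
    have b2 := cm2 (-1 * S) y v
    rw [c1y, one_mul, hy, inv_mul_cancel, b1] at b2
    exact b2.symm
  have d1 : P.c i j v z = 1 := by
    refine c4 ι R X P T i j hij e v z he ?_ ?_
    · rw [hv]; linear_combination (u : R) * he
    · rw [hzv]; linear_combination 2 * he
  have d2 : P.c i j z v = 1 := by
    have := cs z v
    rwa [d1, mul_one] at this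
  rw [hSz, cm1, d2, mul_one] at c1v
  exact c1v

end aux

-- BEGIN TARGET
theorem main (c0 : C0Q) (c1 : C1P) (c2 : C2P) (c3 : C3P) (c4 : C4Q) (c5 : C5Q) : C6Q := by
  intro ι R X _ _ P T i j hij e u u' he hu hu' h
  rcases h with h | h
  · refine st P c2 c3 c4 c5 T i j hij e u u' he hu ?_
    linear_combination hu' + h
  · exact neg P c0 c1 T i j hij e u u' he hu hu' h
-- END TARGET

end Pool.Agent.H742F.C6
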