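import Pool.Agent.H742F.Stm

set_option autoImplicit false
set_option maxHeartbeats 400000

open Filter Topology Finset

namespace Pool.Agent.H742F.C7

open Helper418 Pool.Agent.helper987_SE Pool.Agent.Helper702_TH
open Matrix (SpecialLinearGroup)

section aux

variable {ι R X : Type} [CommRing R] [Group X] (P : StRel ι R X)

theorem x_zero {i j : ι} (hij : i ≠ j) : P.x i j 0 = 1 := by
  have := P.add i j hij 0 0
  rw [add_zero] at this
  exact (left_eq_mul.mp this)

theorem x_neg {i j : ι} (hij : i ≠ j) (a : R) : P.x i j (-a) = (P.x i j a)⁻¹ := by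
  have h1 := P.add i j hij a (-a)
  rw [add_neg_cancel, x_zero P hij] at h1
  exact (inv_eq_of_mul_eq_one_right h1.symm).symm

theorem comm_W {i j : ι} (hij : i ≠ j) {z : X}
    (hz : ∀ a b, a ≠ b → ∀ r, Commute z (P.x a b r)) (t t' : R) : Commute z (P.W i j t t') := by
  unfold StRel.W
  exact ((hz i j hij t).mul_right (hz j i hij.symm (-t'))).mul_right (hz i j hij t)

theorem comm_h {i j : ι} (hij : i ≠ j) {z : X}
    (hz : ∀ a b, a ≠ b → ∀ r, Commute z (P.x a b r)) (u : Rˣ) : Commute z (P.h i j u) := by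
  unfold StRel.h
  exact (comm_W P hij hz _ _).mul_right (comm_W P hij hz _ _)

theorem c_mul_h (i j : ι) (u v : Rˣ) : P.c i j u v * P.h i j (u * v) = P.h i j u * P.h i j v := by
  unfold StRel.c
  rw [inv_mul_cancel_right]

end aux

-- BEGIN TARGET
theorem main (c1 : C1P) (c2 : C2P) (c3 : C3P) (c5 : C5Q) (c6 : C6Q) : C7Q := by
  intro ι R X _ _ P hT i j hij three five h3 h5 hsq
  obtain ⟨cen, -, mulL, mulR, skew, -⟩ := c3 ι R X P hT i j hij
  -- basic facts on symbols
  have cinv : ∀ u v, (P.c i j u v)⁻¹ = P.c i j u v := fun u v =>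
    inv_eq_of_mul_eq_one_right (hsq u v)
  have csymm : ∀ u v, P.c i j v u = P.c i j u v := by
    intro u v
    have h1 : (P.c i j u v)⁻¹ = P.c i j v u := inv_eq_of_mul_eq_one_right (skew u v)
    rw [← h1, cinv]
  have hcomm : ∀ u v, P.h i j u * P.h i j v = P.h i j v * P.h i j u := by
    intro u v
    rw [← c_mul_h, ← c_mul_h, csymm u v, mul_comm u v]
  have h1one : P.h i j 1 = 1 := (c2 ι R X P hT i j hij 1).2.2.2.2.1
  have c1l : ∀ u, P.c i j u 1 = 1 := by
    intro u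
    have := mulR u 1 1
    rw [mul_one] at this
    exact (left_eq_mul.mp this)
  have cRinv : ∀ u v, P.c i j u v⁻¹ = P.c i j u v := by
    intro u v
    have := mulR u v v⁻¹
    rw [mul_inv_cancel, c1l] at this
    rw [← inv_eq_of_mul_eq_one_right this.symm, cinv]
  have cneg : ∀ u, P.c i j u (-u) = 1 := by
    intro u
    refine c6 ι R X P hT i j hij 1 u (-u) (by ring) (by ring) (by ring) (Or.inr ?_)
    push_cast
    ring
  have cyy : ∀ u, P.c i j u u = P.c i j u (-1) := by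
    intro u
    have e : (-u : Rˣ) = (-1) * u := by simp
    have h1 := cneg u
    rw [e, mulR] at h1
    have h2 : (P.c i j u (-1))⁻¹ = P.c i j u u := inv_eq_of_mul_eq_one_right h1
    rw [← h2, cinv]
  have hxji : ∀ u a, P.h i j u * P.x j i a = P.x j i ((u⁻¹ : Rˣ) * (u⁻¹ : Rˣ) * a) * P.h i j u :=
    fun u a => ((c2 ι R X P hT i j hij u).1 a).2
  have hinv : ∀ u, P.h j i u = (P.h i j u)⁻¹ := fun u =>
    (eq_inv_of_mul_eq_one_left (c2 ι R X P hT i j hij u).2.2.2.1)
  -- the basic relation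
  have key : ∀ (a : R) (v : Rˣ), (v : R) = 1 + a →
      P.x i j a * P.x j i 1 = P.x j i (v⁻¹ : Rˣ) * P.h i j v * P.x i j (a * (v⁻¹ : Rˣ)) := by
    intro a v hv
    have h := c5 ι R X P hT j i hij.symm (-1) (-1) (-a) v (-1) (by ring) (by ring)
      (by rw [hv]; ring) (by push_cast; ring)
    have h' := congrArg (fun y => y⁻¹) h
    simp only [mul_inv_rev, inv_inv] at h'
    rw [← x_neg P hij, ← x_neg P hij.symm, ← x_neg P hij, ← x_neg P hij.symm, neg_neg, neg_neg,
      hinv, hinv, inv_inv] at h'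
    have e1 : (-(-a * ((v⁻¹ : Rˣ) : R))) = a * (v⁻¹ : Rˣ) := by ring
    have e2 : (-(-1 * ((v⁻¹ : Rˣ) : R))) = (v⁻¹ : Rˣ) := by ring
    rw [e1, e2] at h'
    have e3 : (P.h i j (-1 * v⁻¹))⁻¹ * P.h i j (-1) = P.h i j v := by
      have h4 := c_mul_h P i j v (-1 * v⁻¹)
      have e4 : v * (-1 * v⁻¹) = -1 := by simp
      rw [e4, mulR, cRinv, cyy, hsq, one_mul, hcomm] at h4
      rw [h4, inv_mul_cancel_left]
    rw [h', ← mul_assoc, ← e3]
  -- apply it twice
  have hcase : ∃ w : Rˣ, three * w = five := ⟨three⁻¹ * five, by rw [mul_inv_cancel_left]⟩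
  obtain ⟨w, hw⟩ := hcase
  set z := P.c i j three w with hz
  have zc : ∀ a b, a ≠ b → ∀ r, Commute z (P.x a b r) := fun a b hab r => cen three w a b hab r
  have zz : z * z = 1 := hsq three w
  have hw' : (3 : R) * (w : R) = 5 := by rw [← h3, ← h5, ← hw]; push_cast; ring
  have h3i : (3 : R) * ((three⁻¹ : Rˣ) : R) = 1 := by rw [← h3, Units.mul_inv]
  have h5i : (5 : R) * ((five⁻¹ : Rˣ) : R) = 1 := by rw [← h5, Units.mul_inv]
  have hwi : (w : R) * ((w⁻¹ : Rˣ) : R) = 1 := by rw [Units.mul_inv]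
  have wval : (w : R) = 5 * ((three⁻¹ : Rˣ) : R) := by
    linear_combination ((three⁻¹ : Rˣ) : R) * hw' - (w : R) * h3i
  have wival : ((w⁻¹ : Rˣ) : R) = 3 * ((five⁻¹ : Rˣ) : R) := by
    linear_combination (-(((w⁻¹ : Rˣ) : R))) * h5i + ((five⁻¹ : Rˣ) : R) * 3 * hwi
      - ((five⁻¹ : Rˣ) : R) * ((w⁻¹ : Rˣ) : R) * hw'
  set q : R := 2 * ((five⁻¹ : Rˣ) : R) with hq
  have star : P.x i j 2 * P.x j i 2 = z * (P.x j i q * P.h i j five * P.x i j q) := by
    have e2 : P.x j i (2 : R) = P.x j i 1 * P.x j i 1 := by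
      rw [← P.add j i hij.symm]; norm_num
    have k1 := key 2 three (by rw [h3]; norm_num)
    have k2 := key (2 * ((three⁻¹ : Rˣ) : R)) w (by
      rw [wval]; linear_combination h3i)
    have e5 : P.h i j three * P.x j i ((w⁻¹ : Rˣ) : R) =
        P.x j i ((three⁻¹ : Rˣ) * (three⁻¹ : Rˣ) * ((w⁻¹ : Rˣ) : R)) * P.h i j three := hxji _ _
    have e6 : ((three⁻¹ : Rˣ) : R) + (three⁻¹ : Rˣ) * (three⁻¹ : Rˣ) * ((w⁻¹ : Rˣ) : R) = q := by
      linear_combination ((three⁻¹ : Rˣ) : R) * ((three⁻¹ : Rˣ) : R) * wival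
        + ((three⁻¹ : Rˣ) : R) * ((five⁻¹ : Rˣ) : R) * h3i - ((three⁻¹ : Rˣ) : R) * h5i
        + 2 * ((five⁻¹ : Rˣ) : R) * h3i
    have e7 : 2 * ((three⁻¹ : Rˣ) : R) * ((w⁻¹ : Rˣ) : R) = q := by
      linear_combination 2 * ((three⁻¹ : Rˣ) : R) * wival + 2 * ((five⁻¹ : Rˣ) : R) * h3i
    have e8 : P.h i j three * P.h i j w = z * P.h i j five := by
      rw [hz, ← hw, c_mul_h]
    calc P.x i j 2 * P.x j i 2 = P.x i j 2 * P.x j i 1 * P.x j i 1 := by rw [e2, mul_assoc]
      _ = P.x j i (three⁻¹ : Rˣ) * P.h i j three *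
            (P.x i j (2 * ((three⁻¹ : Rˣ) : R)) * P.x j i 1) := by rw [k1, mul_assoc]
      _ = P.x j i (three⁻¹ : Rˣ) * (P.h i j three * P.x j i ((w⁻¹ : Rˣ) : R)) * P.h i j w *
            P.x i j q := by rw [k2, e7]; simp only [mul_assoc]
      _ = (P.x j i (three⁻¹ : Rˣ) * P.x j i ((three⁻¹ : Rˣ) * (three⁻¹ : Rˣ) *
            ((w⁻¹ : Rˣ) : R))) * (P.h i j three * P.h i j w) * P.x i j q := by
          rw [e5]; simp only [mul_assoc]
      _ = P.x j i q * z * P.h i j five * P.x i j q := by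
          rw [← P.add j i hij.symm, e6, e8]; simp only [mul_assoc]
      _ = z * (P.x j i q * P.h i j five * P.x i j q) := by
          rw [← (zc j i hij.symm q).eq]; simp only [mul_assoc]
  -- conjugate by `W(1,1)`
  obtain ⟨-, -, hW, -⟩ := c1 ι R X P hT i j hij 1 1 (by ring) (by ring)
  have W1 : ∀ a, P.W i j 1 1 * P.x i j a = P.x j i (-a) * P.W i j 1 1 := by
    intro a
    have := (hW a (by ring)).1
    rwa [show -((1 : R) * 1 * a) = -a by ring] at this
  have W2 : ∀ a, P.W i j 1 1 * P.x j i a = P.x i j (-a) * P.W i j 1 1 := by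
    intro a
    have := (hW a (by ring)).2
    rwa [show -((1 : R) * 1 * a) = -a by ring] at this
  have W3 : ∀ u, P.W i j 1 1 * P.h i j u = P.h i j u⁻¹ * P.W i j 1 1 := fun u =>
    (c2 ι R X P hT i j hij u).2.2.2.2.2
  have W4 : P.W i j 1 1 * z = z * P.W i j 1 1 := (comm_W P hij zc 1 1).eq.symm
  have star2 : P.x j i (-2) * P.x i j (-2) =
      z * (P.x i j (-q) * P.h i j five⁻¹ * P.x j i (-q)) := by
    have e := congrArg (fun y => P.W i j 1 1 * y) star
    have l : P.W i j 1 1 * (P.x i j 2 * P.x j i 2) =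
        P.x j i (-2) * P.x i j (-2) * P.W i j 1 1 := by
      rw [← mul_assoc, W1, mul_assoc, W2, ← mul_assoc]
    have r : P.W i j 1 1 * (z * (P.x j i q * P.h i j five * P.x i j q)) =
        z * (P.x i j (-q) * P.h i j five⁻¹ * P.x j i (-q)) * P.W i j 1 1 := by
      rw [← mul_assoc, W4, mul_assoc, ← mul_assoc (P.W i j 1 1), ← mul_assoc (P.W i j 1 1), W2,
        mul_assoc (P.x i j (-q)), W3, ← mul_assoc (P.x i j (-q)), mul_assoc _ (P.W i j 1 1), W1]
      simp only [mul_assoc]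
    rw [l, r] at e
    exact mul_right_cancel e
  have star3 : P.x i j 2 * P.x j i 2 =
      (P.x j i q * (P.h i j five⁻¹)⁻¹ * P.x i j q) * z⁻¹ := by
    have e := congrArg (fun y => y⁻¹) star2
    simp only [mul_inv_rev] at e
    rw [← x_neg P hij, ← x_neg P hij.symm, ← x_neg P hij, ← x_neg P hij.symm, neg_neg, neg_neg]
      at e
    rw [e]
    simp only [mul_assoc]
  have zinv : z⁻¹ = z := cinv _ _
  have hfin : P.h i j five = (P.h i j five⁻¹)⁻¹ := by
    rw [star, zinv] at star3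
    have e9 : (P.x j i q * (P.h i j five⁻¹)⁻¹ * P.x i j q) * z =
        z * (P.x j i q * (P.h i j five⁻¹)⁻¹ * P.x i j q) := by
      have c9 : Commute z (P.x j i q * (P.h i j five⁻¹)⁻¹ * P.x i j q) :=
        ((zc j i hij.symm q).mul_right ((comm_h P hij zc _).inv_right)).mul_right (zc i j hij q)
      exact c9.eq.symm
    rw [e9] at star3
    exact mul_left_cancel (mul_right_cancel (mul_left_cancel star3))
  have c55 : P.c i j five five⁻¹ = 1 := by
    have := c_mul_h P i j five five⁻¹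
    rw [mul_inv_cancel, h1one, mul_one] at this
    rw [this, hfin, inv_mul_cancel]
  rw [← cyy, ← cRinv, c55]
-- END TARGET

end Pool.Agent.H742F.C7
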