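import Pool.Agent.H742F.Stm

set_option autoImplicit false
set_option maxHeartbeats 400000

open Filter Topology Finset

namespace Pool.Agent.H742F.C8

open Helper418 Pool.Agent.helper987_SE Pool.Agent.Helper702_TH
open Matrix (SpecialLinearGroup)

-- BEGIN TARGET
theorem main (c0 : C0Q) : C8Q := by
  intro ι R R' X _ _ _ P φ h3 i j hij u U hU
  have he : φ 1 * φ 1 = φ 1 := by rw [← map_mul, mul_one]
  have h1 : ∀ a : R', φ 1 * φ a = φ a := fun a => by rw [← map_mul, one_mul]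
  have hU1 : (1 - φ 1) * ((U : R) - 1) = 0 := by
    rw [hU]
    linear_combination (-1 : R) * h1 (u : R') + he
  have heU : φ 1 * (U : R) = φ (u : R') := by
    rw [hU]
    linear_combination h1 (u : R') - he
  have hui : φ (u : R') * φ ((u⁻¹ : R'ˣ) : R') = φ 1 := by rw [← map_mul, Units.mul_inv]
  have hinv : (U : R) * (φ ((u⁻¹ : R'ˣ) : R') + (1 - φ 1)) = 1 := by
    rw [hU]
    linear_combination hui - h1 (u : R') - h1 ((u⁻¹ : R'ˣ) : R') + he
  have hUi : ((U⁻¹ : Rˣ) : R) = φ ((u⁻¹ : R'ˣ) : R') + (1 - φ 1) := by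
    rw [Units.inv_eq_of_mul_eq_one_right hinv]
  have heUi : φ 1 * ((U⁻¹ : Rˣ) : R) = φ ((u⁻¹ : R'ˣ) : R') := by
    rw [hUi]
    linear_combination h1 ((u⁻¹ : R'ˣ) : R') - he
  rw [((c0 ι R X P h3 i j hij (φ 1) he).2 U hU1), heU, heUi]
  simp only [StRel.h, StRel.W, StRel.comap, map_neg, neg_neg]
-- END TARGET

end Pool.Agent.H742F.C8
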