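import Pool.Agent.Helper702_TH.Stm

/-!
# Project FS (helper742): flexible permutation stability of `SL_k(ℤ)`, `k ≥ 7`. Definitions.

Uses the exact powers of central elements of Kazhdan subgroups (projects SE of helper987 and TH of
helper702).
-/

set_option autoImplicit false
set_option maxHeartbeats 400000

open Filter Topology Finset
open scoped Classical

namespace Pool.Agent.H742F

open Helper418 Pool.Agent.helper987_SE Pool.Agent.Helper702_TH
open Matrix (SpecialLinearGroup)

noncomputable section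

/-! ## Flexible permutation stability -/

/-- the normalised Hamming distance -/
def hd {n : ℕ} (σ τ : Equiv.Perm (Fin n)) : ℝ :=
  ((univ.filter fun x => σ x ≠ τ x).card : ℝ) / n

/-- the flexible Hamming distance of `σ ∈ Sym(n)` and `τ ∈ Sym(m)`, `n ≤ m` -/
def fd {n m : ℕ} (h : n ≤ m) (σ : Equiv.Perm (Fin n)) (τ : Equiv.Perm (Fin m)) : ℝ :=
  (((univ.filter fun x : Fin n => Fin.castLE h (σ x) ≠ τ (Fin.castLE h x)).card : ℝ) +
    ((m : ℝ) - n)) / n

/-- almost-homomorphisms -/
def AHom {G : Type} [Group G] (f : ∀ n : ℕ, G → Equiv.Perm (Fin n)) : Prop :=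
  ∀ g h : G, Tendsto (fun n => hd (f n g * f n h) (f n (g * h))) atTop (𝓝 0)

/-- flexible permutation stability -/
def FlexStable (G : Type) [Group G] : Prop :=
  ∀ f : ∀ n : ℕ, G → Equiv.Perm (Fin n), AHom f →
    ∃ (m : ℕ → ℕ) (hm : ∀ n, n ≤ m n) (ρ : ∀ n, G →* Equiv.Perm (Fin (m n))),
      ∀ g, Tendsto (fun n => fd (hm n) (f n g) (ρ n g)) atTop (𝓝 0)

/-! ## Elementary matrices and the Steinberg relations -/

/-- the elementary matrix `1 + a E_ij` (`1` if `i = j`) -/
def El {ι R : Type} [Fintype ι] [DecidableEq ι] [CommRing R] (i j : ι) (a : R) :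
    SpecialLinearGroup ι R :=
  if h : i = j then 1 else ⟨Matrix.transvection i j a, Matrix.det_transvection_of_ne i j h a⟩

/-- elements of a group satisfying the Steinberg relations (only `x i j` with `i ≠ j` matters) -/
structure StRel (ι R X : Type) [CommRing R] [Group X] where
  x : ι → ι → R → X
  add : ∀ i j, i ≠ j → ∀ a b, x i j (a + b) = x i j a * x i j b
  mul : ∀ i j k, i ≠ j → j ≠ k → i ≠ k → ∀ a b,
    x i j a * x j k b = x i k (a * b) * x j k b * x i j a
  comm : ∀ i j k l, i ≠ j → k ≠ l → j ≠ k → i ≠ l → ∀ a b, Commute (x i j a) (x k l b)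

namespace StRel

variable {ι R X : Type} [CommRing R] [Group X] (P : StRel ι R X)

/-- the elements `w_ij`, for a pair `t, t'` of generalised inverses -/
def W (i j : ι) (t t' : R) : X := P.x i j t * P.x j i (-t') * P.x i j t

/-- the elements `h_ij(u)`, `u` a unit -/
def h (i j : ι) (u : Rˣ) : X := P.W i j (u : R) ((u⁻¹ : Rˣ) : R) * P.W i j (-1) (-1)

/-- the symbol -/
def c (i j : ι) (u v : Rˣ) : X := P.h i j u * P.h i j v * (P.h i j (u * v))⁻¹

/-- `h` is multiplicative, i.e. all symbols are trivial -/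
def MulR : Prop := ∀ i j, i ≠ j → ∀ u v : Rˣ, P.h i j u * P.h i j v = P.h i j (u * v)

/-- the Steinberg relations for a ring mapping to `R` (e.g. an ideal generated by an idempotent) -/
def comap {R' : Type} [CommRing R'] (φ : R' →ₙ+* R) : StRel ι R' X where
  x i j a := P.x i j (φ a)
  add i j h a b := by rw [map_add]; exact P.add i j h _ _
  mul i j k h1 h2 h3 a b := by rw [map_mul]; exact P.mul i j k h1 h2 h3 _ _
  comm i j k l h1 h2 h3 h4 a b := P.comm i j k l h1 h2 h3 h4 _ _

/-- the Steinberg relations in another group -/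
def map {Y : Type} [Group Y] (f : X →* Y) : StRel ι R Y where
  x i j a := f (P.x i j a)
  add i j h a b := by rw [P.add i j h, map_mul]
  mul i j k h1 h2 h3 a b := by
    rw [← map_mul, P.mul i j k h1 h2 h3, map_mul, map_mul]
  comm i j k l h1 h2 h3 h4 a b := (P.comm i j k l h1 h2 h3 h4 a b).map f

/-- the Steinberg relations in a product -/
def prod {Y : Type} [Group Y] (Q : StRel ι R Y) : StRel ι R (X × Y) where
  x i j a := (P.x i j a, Q.x i j a)
  add i j h a b := by rw [P.add i j h, Q.add i j h]; rfl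
  mul i j k h1 h2 h3 a b := Prod.ext (P.mul i j k h1 h2 h3 a b) (Q.mul i j k h1 h2 h3 a b)
  comm i j k l h1 h2 h3 h4 a b :=
    Prod.ext (P.comm i j k l h1 h2 h3 h4 a b) (Q.comm i j k l h1 h2 h3 h4 a b)

/-- transposition -/
def tr : StRel ι R X where
  x i j a := P.x j i (-a)
  add i j h a b := by rw [neg_add, P.add j i h.symm]
  mul i j k h1 h2 h3 a b := by
    have e := P.mul k j i h2.symm h1.symm h3.symm (-b) (-a)
    have h' := P.add k i h3.symm (-(a * b)) (a * b)
    rw [neg_add_cancel] at h'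
    have h0 : P.x k i 0 = 1 := by
      have := P.add k i h3.symm 0 0
      rw [add_zero] at this
      exact (left_eq_mul.mp this)
    rw [h0] at h'
    have e2 : P.x k i (b * a) = P.x k i (a * b) := by rw [mul_comm]
    rw [neg_mul_neg, e2] at e
    have c1 : Commute (P.x k i (-(a * b))) (P.x k j (-b)) :=
      P.comm k i k j h3.symm h2.symm h3 h2.symm _ _
    show P.x j i (-a) * P.x k j (-b) = P.x k i (-(a * b)) * P.x k j (-b) * P.x j i (-a)
    rw [mul_assoc, e, mul_assoc (P.x k i (a * b)), ← mul_assoc, ← h', one_mul]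
  comm i j k l h1 h2 h3 h4 a b := P.comm j i l k h1.symm h2.symm h4 h3 _ _

end StRel

/-- there is always a third index -/
def Third (ι : Type) : Prop := ∀ i j : ι, ∃ k, k ≠ i ∧ k ≠ j

/-- every element is a unit on the part of an idempotent and small on the rest -/
def Split (R : Type) [CommRing R] : Prop :=
  ∀ a : R, ∃ e a' : R, e * e = e ∧ a * a' = e ∧ a' * e = a' ∧ ∀ b, IsUnit (1 + (1 - e) * a * b)

/-- the pair `(a, b)` can be reduced to `(d, 0)` by elementary operations -/
inductive Red {R : Type} [CommRing R] : R → R → Prop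
  | zero (d : R) : Red d 0
  | left (a b t : R) : Red (a + t * b) b → Red a b
  | right (a b t : R) : Red a (b + t * a) → Red a b

/-- all pairs can be reduced -/
def Herm (R : Type) [CommRing R] : Prop := ∀ a b : R, Red a b

/-- all elementary matrices -/
def Els (ι R : Type) [Fintype ι] [DecidableEq ι] [CommRing R] : Set (SpecialLinearGroup ι R) :=
  {g | ∃ i j a, i ≠ j ∧ g = El i j a}

/-! ## Internal maps -/

/-- maps induced by a sequence of maps -/
def Itn {A : ℕ → Type} [∀ n, Fintype (A n)] {Q : ℕ → Type} (F : (∀ n, Q n) → SS A) : Prop :=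
  ∃ ψ : ∀ n, Q n → Equiv.Perm (A n), ∀ a, F a = cls fun n => ψ n (a n)

/-- internal Steinberg relations over a product ring -/
def StRel.Int {ι : Type} {A : ℕ → Type} [∀ n, Fintype (A n)] {Q : ℕ → Type}
    [∀ n, CommRing (Q n)] (P : StRel ι (∀ n, Q n) (SS A)) : Prop :=
  ∀ i j, i ≠ j → Itn (P.x i j)

/-- the component of a matrix over a product ring -/
def cmp {ι : Type} [Fintype ι] [DecidableEq ι] {Q : ℕ → Type} [∀ n, CommRing (Q n)] (n : ℕ) :
    SpecialLinearGroup ι (∀ n, Q n) →* SpecialLinearGroup ι (Q n) :=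
  SpecialLinearGroup.map (Pi.evalRingHom Q n)

/-- cyclic unit group, with two non-squares of sum one -/
def KindOdd (B : Type) [CommRing B] : Prop :=
  ∃ g x y s t : Bˣ, (∀ u : Bˣ, u ∈ Subgroup.zpowers g) ∧ x = g * s ^ 2 ∧ y = g * t ^ 2 ∧
    (y : B) = 1 - x

/-- exact powers of the elementary matrices -/
structure EPow {A : ℕ → Type} [∀ n, Fintype (A n)] (k : ℕ)
    (α : SpecialLinearGroup (Fin k) ℤ →* SS A) where
  e : Fin k → Fin k → (ℕ → ℤ) → SS A
  int : ∀ i j, i ≠ j → IsI (e i j)
  one : ∀ i j, i ≠ j → e i j (fun _ => 1) = α (El i j 1)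
  cen : ∀ i j a b, i ≠ j → a ≠ b → a ≠ j → b ≠ i → ∀ m, Commute (e i j m) (α (El a b 1))
  glob : ∀ i j, i ≠ j → ∀ d : Fin 3 → Fin k, Function.Injective d →
    (∀ q, d q ≠ i ∧ d q ≠ j) → ∀ s : SS A,
    (∀ p q, p ≠ q → Commute s (α (El (d p) (d q) 1))) →
    (∀ q, Commute s (α (El i (d q) 1))) → (∀ q, Commute s (α (El (d q) j 1))) →
    ∀ m, Commute (e i j m) s

/-- every homomorphism to some `SS A` comes from a sequence of near actions of finite groups -/
def FinModel (Γ : Type) [Group Γ] : Prop :=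
  ∀ (A : ℕ → Type) [∀ n, Fintype (A n)] [∀ n, Nonempty (A n)] (α : Γ →* SS A),
    ∃ (G : ℕ → Type) (_ : ∀ n, Group (G n)) (_ : ∀ n, Finite (G n)) (π : ∀ n, Γ →* G n)
      (F : ∀ n, G n → Equiv.Perm (A n)),
      (∀ g h : ∀ n, G n, (cls (fun n => F n (g n * h n)) : SS A) =
        cls (fun n => F n (g n)) * cls (fun n => F n (h n))) ∧
      ∀ γ, α γ = cls (fun n => F n (π n γ))

end

end Pool.Agent.H742F
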