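import Pool.Agent.H742F.Stm

set_option autoImplicit false
set_option maxHeartbeats 400000

open Filter Topology Finset

namespace Pool.Agent.H742F.E0

open Helper418 Pool.Agent.helper987_SE Pool.Agent.Helper702_TH
open Matrix (SpecialLinearGroup)

section
variable {ι R : Type} [Fintype ι] [DecidableEq ι] [CommRing R]

theorem El_coe {i j : ι} (h : i ≠ j) (a : R) :
    ((El i j a : SpecialLinearGroup ι R) : Matrix ι ι R) = 1 + Matrix.single i j a := by
  unfold El
  rw [dif_neg h]
  rfl

theorem El_add {i j : ι} (h : i ≠ j) (a b : R) :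
    (El i j (a + b) : SpecialLinearGroup ι R) = El i j a * El i j b := by
  apply Subtype.ext
  rw [Matrix.SpecialLinearGroup.coe_mul, El_coe h, El_coe h, El_coe h, mul_add, add_mul, one_mul,
    mul_one, add_mul, one_mul, Matrix.single_mul_single_of_ne _ _ _ _ h.symm, add_zero,
    Matrix.single_add, add_assoc]

theorem El_mul {i j k : ι} (h1 : i ≠ j) (h2 : j ≠ k) (h3 : i ≠ k) (a b : R) :
    (El i j a * El j k b : SpecialLinearGroup ι R) = El i k (a * b) * El j k b * El i j a := by
  apply Subtype.ext
  simp only [Matrix.SpecialLinearGroup.coe_mul, El_coe h1, El_coe h2, El_coe h3]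
  have e1 : Matrix.single i j a * Matrix.single j k b = Matrix.single i k (a * b) :=
    Matrix.single_mul_single_same _ _ _ _ _
  have e2 : Matrix.single i k (a * b) * Matrix.single j k b = 0 :=
    Matrix.single_mul_single_of_ne _ _ _ _ h2.symm _
  have e3 : Matrix.single i k (a * b) * Matrix.single i j a = 0 :=
    Matrix.single_mul_single_of_ne _ _ _ _ h3.symm _
  have e4 : Matrix.single j k b * Matrix.single i j a = 0 :=
    Matrix.single_mul_single_of_ne _ _ _ _ h3.symm _
  simp only [mul_add, add_mul, one_mul, mul_one, e1, e2, e3, e4, zero_mul]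
  abel

theorem El_comm {i j k l : ι} (h1 : i ≠ j) (h2 : k ≠ l) (h3 : j ≠ k) (h4 : i ≠ l) (a b : R) :
    Commute (El i j a : SpecialLinearGroup ι R) (El k l b) := by
  apply Subtype.ext
  show ((El i j a * El k l b : SpecialLinearGroup ι R) : Matrix ι ι R) =
    ((El k l b * El i j a : SpecialLinearGroup ι R) : Matrix ι ι R)
  simp only [Matrix.SpecialLinearGroup.coe_mul, El_coe h1, El_coe h2]
  have e1 : Matrix.single i j a * Matrix.single k l b = 0 :=
    Matrix.single_mul_single_of_ne _ _ _ _ h3 _
  have e2 : Matrix.single k l b * Matrix.single i j a = 0 :=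
    Matrix.single_mul_single_of_ne _ _ _ _ h4.symm _
  simp only [mul_add, add_mul, one_mul, mul_one, e1, e2]
  abel

/-- the Steinberg relations for matrices -/
def P (ι R : Type) [Fintype ι] [DecidableEq ι] [CommRing R] :
    StRel ι R (SpecialLinearGroup ι R) where
  x := El
  add _ _ h a b := El_add h a b
  mul _ _ _ h1 h2 h3 a b := El_mul h1 h2 h3 a b
  comm _ _ _ _ h1 h2 h3 h4 a b := El_comm h1 h2 h3 h4 a b

theorem W_coe {i j : ι} (h : i ≠ j) (t t' : R) (ht : t * t' = 1) :
    (((P ι R).W i j t t' : SpecialLinearGroup ι R) : Matrix ι ι R) =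
      1 - Matrix.single i i 1 - Matrix.single j j 1 + Matrix.single i j t -
        Matrix.single j i t' := by
  show ((El i j t * El j i (-t') * El i j t : SpecialLinearGroup ι R) : Matrix ι ι R) = _
  have ht' : t' * t = 1 := by rw [mul_comm]; exact ht
  simp only [Matrix.SpecialLinearGroup.coe_mul, El_coe h, El_coe h.symm]
  have e1 : Matrix.single i j t * Matrix.single j i (-t') = - Matrix.single i i (1 : R) := by
    rw [Matrix.single_mul_single_same, mul_neg, ht, Matrix.single_neg]
  have e2 : Matrix.single i j t * Matrix.single i j t = 0 :=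
    Matrix.single_mul_single_of_ne _ _ _ _ h.symm _
  have e3 : Matrix.single j i (-t') * Matrix.single i j t = - Matrix.single j j (1 : R) := by
    rw [Matrix.single_mul_single_same, neg_mul, ht', Matrix.single_neg]
  have e4 : Matrix.single i i (1 : R) * Matrix.single i j t = Matrix.single i j t := by
    rw [Matrix.single_mul_single_same, one_mul]
  have e5 : Matrix.single j i (-t') = - Matrix.single j i t' := (Matrix.single_neg _ _ _).symm
  simp only [mul_add, add_mul, one_mul, mul_one, e1, e2, e3, neg_mul, e4]
  rw [e5]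
  abel

theorem h_coe {i j : ι} (h : i ≠ j) (u : Rˣ) :
    (((P ι R).h i j u : SpecialLinearGroup ι R) : Matrix ι ι R) =
      1 - Matrix.single i i 1 - Matrix.single j j 1 + Matrix.single i i (u : R) +
        Matrix.single j j ((u⁻¹ : Rˣ) : R) := by
  show (((P ι R).W i j (u : R) ((u⁻¹ : Rˣ) : R) * (P ι R).W i j (-1) (-1) :
    SpecialLinearGroup ι R) : Matrix ι ι R) = _
  rw [Matrix.SpecialLinearGroup.coe_mul, W_coe h _ _ (Units.mul_inv u),
    W_coe h (-1 : R) (-1) (by ring)]
  simp only [← Matrix.single_neg]
  have a1 : ∀ x : R, Matrix.single i i (1 : R) * Matrix.single i j x = Matrix.single i j x :=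
    fun x => by rw [Matrix.single_mul_single_same, one_mul]
  have a2 : ∀ x : R, Matrix.single i i (1 : R) * Matrix.single j i x = 0 :=
    fun x => Matrix.single_mul_single_of_ne _ _ _ _ h _
  have a3 : ∀ x : R, Matrix.single j j (1 : R) * Matrix.single i j x = 0 :=
    fun x => Matrix.single_mul_single_of_ne _ _ _ _ h.symm _
  have a4 : ∀ x : R, Matrix.single j j (1 : R) * Matrix.single j i x = Matrix.single j i x :=
    fun x => by rw [Matrix.single_mul_single_same, one_mul]
  have b1 : ∀ x : R, Matrix.single i j x * Matrix.single i i (1 : R) = 0 :=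
    fun x => Matrix.single_mul_single_of_ne _ _ _ _ h.symm _
  have b2 : ∀ x : R, Matrix.single j i x * Matrix.single i i (1 : R) = Matrix.single j i x :=
    fun x => by rw [Matrix.single_mul_single_same, mul_one]
  have b3 : ∀ x : R, Matrix.single i j x * Matrix.single j j (1 : R) = Matrix.single i j x :=
    fun x => by rw [Matrix.single_mul_single_same, mul_one]
  have b4 : ∀ x : R, Matrix.single j i x * Matrix.single j j (1 : R) = 0 :=
    fun x => Matrix.single_mul_single_of_ne _ _ _ _ h _
  have c1 : ∀ x y : R, Matrix.single i j x * Matrix.single i j y = 0 :=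
    fun x y => Matrix.single_mul_single_of_ne _ _ _ _ h.symm _
  have c2 : ∀ x y : R, Matrix.single j i x * Matrix.single j i y = 0 :=
    fun x y => Matrix.single_mul_single_of_ne _ _ _ _ h _
  have c3 : ∀ x y : R, Matrix.single i j x * Matrix.single j i y = Matrix.single i i (x * y) :=
    fun x y => Matrix.single_mul_single_same _ _ _ _ _
  have c4 : ∀ x y : R, Matrix.single j i x * Matrix.single i j y = Matrix.single j j (x * y) :=
    fun x y => Matrix.single_mul_single_same _ _ _ _ _
  have d1 : Matrix.single i i (1 : R) * Matrix.single i i (1 : R) = Matrix.single i i 1 := by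
    rw [Matrix.single_mul_single_same, one_mul]
  have d2 : Matrix.single j j (1 : R) * Matrix.single j j (1 : R) = Matrix.single j j 1 := by
    rw [Matrix.single_mul_single_same, one_mul]
  have d3 : Matrix.single i i (1 : R) * Matrix.single j j (1 : R) = 0 :=
    Matrix.single_mul_single_of_ne _ _ _ _ h _
  have d4 : Matrix.single j j (1 : R) * Matrix.single i i (1 : R) = 0 :=
    Matrix.single_mul_single_of_ne _ _ _ _ h.symm _
  simp only [mul_add, add_mul, mul_sub, sub_mul, one_mul, mul_one, mul_neg, neg_mul, a1, a2, a3,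
    a4, b1, b2, b3, b4, c1, c2, c3, c4, d1, d2, d3, d4]
  abel

theorem mulR : (P ι R).MulR := by
  intro i j h u v
  apply Subtype.ext
  rw [Matrix.SpecialLinearGroup.coe_mul, h_coe h, h_coe h, h_coe h]
  have s : ∀ x y : R, Matrix.single i i x * Matrix.single i i y = Matrix.single i i (x * y) :=
    fun x y => Matrix.single_mul_single_same _ _ _ _ _
  have s' : ∀ x y : R, Matrix.single j j x * Matrix.single j j y = Matrix.single j j (x * y) :=
    fun x y => Matrix.single_mul_single_same _ _ _ _ _
  have t : ∀ x y : R, Matrix.single i i x * Matrix.single j j y = 0 :=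
    fun x y => Matrix.single_mul_single_of_ne _ _ _ _ h _
  have t' : ∀ x y : R, Matrix.single j j x * Matrix.single i i y = 0 :=
    fun x y => Matrix.single_mul_single_of_ne _ _ _ _ h.symm _
  have e : (((u * v)⁻¹ : Rˣ) : R) = ((u⁻¹ : Rˣ) : R) * ((v⁻¹ : Rˣ) : R) := by
    rw [mul_inv, Units.val_mul]
  rw [e, Units.val_mul]
  simp only [mul_add, add_mul, mul_sub, sub_mul, one_mul, mul_one, s, s', t, t']
  abel

end

-- BEGIN TARGET
theorem main : E0P := by
  intro ι R _ _ _
  exact ⟨P ι R, rfl, mulR⟩
-- END TARGET

end Pool.Agent.H742F.E0
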