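import Pool.Agent.H742F.Stm

set_option autoImplicit false
set_option maxHeartbeats 400000

open Filter Topology Finset

namespace Pool.Agent.H742F.E1

open Helper418 Pool.Agent.helper987_SE Pool.Agent.Helper702_TH
open Matrix (SpecialLinearGroup)

section

variable {ι R : Type} [Fintype ι] [DecidableEq ι] [CommRing R]

theorem El_mem {i j : ι} (h : i ≠ j) (a : R) :
    (El i j a : SpecialLinearGroup ι R) ∈ Subgroup.closure (Els ι R) :=
  Subgroup.subset_closure ⟨i, j, a, h, rfl⟩

theorem El_coe {i j : ι} (h : i ≠ j) (a : R) :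
    ((El i j a : SpecialLinearGroup ι R) : Matrix ι ι R) = Matrix.transvection i j a := by
  have e : (El i j a : SpecialLinearGroup ι R) =
      ⟨Matrix.transvection i j a, Matrix.det_transvection_of_ne i j h a⟩ := dif_neg h
  rw [e]

theorem El_mul_same {i j : ι} (h : i ≠ j) (t : R) (g : SpecialLinearGroup ι R) (b : ι) :
    ((El i j t * g : SpecialLinearGroup ι R) : Matrix ι ι R) i b =
      (g : Matrix ι ι R) i b + t * (g : Matrix ι ι R) j b := by
  rw [Matrix.SpecialLinearGroup.coe_mul, El_coe h, Matrix.transvection_mul_apply_same]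

theorem El_mul_ne {i j a : ι} (h : i ≠ j) (ha : a ≠ i) (t : R) (g : SpecialLinearGroup ι R)
    (b : ι) : ((El i j t * g : SpecialLinearGroup ι R) : Matrix ι ι R) a b =
      (g : Matrix ι ι R) a b := by
  rw [Matrix.SpecialLinearGroup.coe_mul, El_coe h, Matrix.transvection_mul_apply_of_ne _ _ _ _ ha]

theorem mul_El_same {i j : ι} (h : i ≠ j) (t : R) (g : SpecialLinearGroup ι R) (a : ι) :
    ((g * El i j t : SpecialLinearGroup ι R) : Matrix ι ι R) a j =
      (g : Matrix ι ι R) a j + t * (g : Matrix ι ι R) a i := by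
  rw [Matrix.SpecialLinearGroup.coe_mul, El_coe h, Matrix.mul_transvection_apply_same]

theorem mul_El_ne {i j b : ι} (h : i ≠ j) (hb : b ≠ j) (t : R) (g : SpecialLinearGroup ι R)
    (a : ι) : ((g * El i j t : SpecialLinearGroup ι R) : Matrix ι ι R) a b =
      (g : Matrix ι ι R) a b := by
  rw [Matrix.SpecialLinearGroup.coe_mul, El_coe h, Matrix.mul_transvection_apply_of_ne _ _ _ _ hb]

/-- `g` is the identity outside the block `S` -/
def Sup (S : Finset ι) (g : SpecialLinearGroup ι R) : Prop :=
  ∀ a b, ¬ (a ∈ S ∧ b ∈ S) → (g : Matrix ι ι R) a b = (1 : Matrix ι ι R) a b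

theorem Sup.row {S : Finset ι} {g : SpecialLinearGroup ι R} (hg : Sup S g) {i j : ι} (h : i ≠ j)
    (hi : i ∈ S) (hj : j ∈ S) (t : R) : Sup S (El i j t * g) := by
  intro a b hab
  by_cases ha : a = i
  · subst ha
    have hb : b ∉ S := fun hb => hab ⟨hi, hb⟩
    rw [El_mul_same h, hg a b hab, hg j b (fun hh => hb hh.2)]
    have : j ≠ b := fun e => hb (e ▸ hj)
    rw [Matrix.one_apply_ne this, mul_zero, add_zero]
  · rw [El_mul_ne h ha, hg a b hab]

theorem Sup.col {S : Finset ι} {g : SpecialLinearGroup ι R} (hg : Sup S g) {i j : ι} (h : i ≠ j)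
    (hi : i ∈ S) (hj : j ∈ S) (t : R) : Sup S (g * El i j t) := by
  intro a b hab
  by_cases hb : b = j
  · subst hb
    have ha : a ∉ S := fun ha => hab ⟨ha, hj⟩
    rw [mul_El_same h, hg a b hab, hg a i (fun hh => ha hh.1)]
    have : a ≠ i := fun e => ha (e ▸ hi)
    rw [Matrix.one_apply_ne this, mul_zero, add_zero]
  · rw [mul_El_ne h hb, hg a b hab]

theorem red_col {S : Finset ι} {n j : ι} (hn : n ∈ S) (hj : j ∈ S) (hnj : n ≠ j) {x y : R}
    (hr : Red x y) : ∀ g : SpecialLinearGroup ι R, Sup S g → (g : Matrix ι ι R) n n = x →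
      (g : Matrix ι ι R) j n = y → ∃ u ∈ Subgroup.closure (Els ι R), Sup S (u * g) ∧
        ((u * g : SpecialLinearGroup ι R) : Matrix ι ι R) j n = 0 ∧
        ∀ i, i ≠ n → i ≠ j → ((u * g : SpecialLinearGroup ι R) : Matrix ι ι R) i n =
          (g : Matrix ι ι R) i n := by
  induction hr with
  | zero d =>
    intro g hg h1 h2
    refine ⟨1, Subgroup.one_mem _, ?_, ?_, ?_⟩
    · rwa [one_mul]
    · rwa [one_mul]
    · intro i _ _
      rw [one_mul]
  | left a b t _ ih =>
    intro g hg h1 h2
    obtain ⟨u, hu, h3, h4, h5⟩ := ih (El n j t * g) (hg.row hnj hn hj t)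
      (by rw [El_mul_same hnj, h1, h2]) (by rw [El_mul_ne hnj hnj.symm, h2])
    refine ⟨u * El n j t, Subgroup.mul_mem _ hu (El_mem hnj t), ?_, ?_, ?_⟩
    · rwa [mul_assoc]
    · rwa [mul_assoc]
    · intro i hi hi'
      rw [mul_assoc, h5 i hi hi', El_mul_ne hnj hi]
  | right a b t _ ih =>
    intro g hg h1 h2
    obtain ⟨u, hu, h3, h4, h5⟩ := ih (El j n t * g) (hg.row hnj.symm hj hn t)
      (by rw [El_mul_ne hnj.symm hnj, h1]) (by rw [El_mul_same hnj.symm, h1, h2])
    refine ⟨u * El j n t, Subgroup.mul_mem _ hu (El_mem hnj.symm t), ?_, ?_, ?_⟩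
    · rwa [mul_assoc]
    · rwa [mul_assoc]
    · intro i hi hi'
      rw [mul_assoc, h5 i hi hi', El_mul_ne hnj.symm hi']

theorem clear_col (hR : Herm R) {S : Finset ι} {n : ι} (hn : n ∈ S) (T : Finset ι)
    (hT : ∀ j ∈ T, j ∈ S ∧ j ≠ n) (g : SpecialLinearGroup ι R) (hg : Sup S g) :
    ∃ u ∈ Subgroup.closure (Els ι R), Sup S (u * g) ∧
      ∀ j ∈ T, ((u * g : SpecialLinearGroup ι R) : Matrix ι ι R) j n = 0 := by
  induction T using Finset.induction_on with
  | empty => exact ⟨1, Subgroup.one_mem _, by rwa [one_mul], by simp⟩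
  | insert j T hj ih =>
    obtain ⟨u, hu, h1, h2⟩ := ih (fun i hi => hT i (Finset.mem_insert_of_mem hi))
    obtain ⟨hjS, hjn⟩ := hT j (Finset.mem_insert_self _ _)
    obtain ⟨v, hv, h3, h4, h5⟩ := red_col hn hjS hjn.symm (hR _ _) (u * g) h1 rfl rfl
    refine ⟨v * u, Subgroup.mul_mem _ hv hu, by rwa [mul_assoc], ?_⟩
    intro i hi
    rw [mul_assoc]
    rcases Finset.mem_insert.1 hi with rfl | hi'
    · exact h4
    · rw [h5 i (hT i hi).2 (fun e => hj (e ▸ hi')), h2 i hi']

theorem clear_row {S : Finset ι} {n : ι} (hn : n ∈ S) (T : Finset ι)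
    (hT : ∀ j ∈ T, j ∈ S ∧ j ≠ n) (g : SpecialLinearGroup ι R) (hg : Sup S g)
    (hc : ∀ i, (g : Matrix ι ι R) i n = (1 : Matrix ι ι R) i n) :
    ∃ u ∈ Subgroup.closure (Els ι R), Sup S (g * u) ∧
      (∀ i, ((g * u : SpecialLinearGroup ι R) : Matrix ι ι R) i n = (1 : Matrix ι ι R) i n) ∧
      ∀ j ∈ T, ((g * u : SpecialLinearGroup ι R) : Matrix ι ι R) n j = 0 := by
  induction T using Finset.induction_on with
  | empty => exact ⟨1, Subgroup.one_mem _, by rwa [mul_one], by rwa [mul_one], by simp⟩
  | insert j T hj ih =>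
    obtain ⟨u, hu, h1, h2, h3⟩ := ih (fun i hi => hT i (Finset.mem_insert_of_mem hi))
    obtain ⟨hjS, hjn⟩ := hT j (Finset.mem_insert_self _ _)
    refine ⟨u * El n j (-((g * u : SpecialLinearGroup ι R) : Matrix ι ι R) n j),
      Subgroup.mul_mem _ hu (El_mem hjn.symm _), ?_, ?_, ?_⟩
    · rw [← mul_assoc]
      exact h1.col hjn.symm hn hjS _
    · intro i
      rw [← mul_assoc, mul_El_ne hjn.symm hjn.symm, h2 i]
    · intro i hi
      rw [← mul_assoc]
      rcases Finset.mem_insert.1 hi with rfl | hi'
      · rw [mul_El_same hjn.symm, h2 n, Matrix.one_apply_eq, mul_one, add_neg_cancel]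
      · rw [mul_El_ne hjn.symm (fun e => hj (e ▸ hi')), h3 i hi']

theorem step (hR : Herm R) (S : Finset ι) : ∀ g : SpecialLinearGroup ι R, Sup S g →
    g ∈ Subgroup.closure (Els ι R) := by
  induction S using Finset.induction_on with
  | empty =>
    intro g hg
    have : g = 1 := by
      apply Subtype.ext
      funext a
      funext b
      exact hg a b (by simp)
    rw [this]
    exact Subgroup.one_mem _
  | insert n S' hn ih =>
    intro g hg
    rcases S'.eq_empty_or_nonempty with rfl | ⟨p, hp⟩
    · -- only one diagonal entry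
      have hdiag : (g : Matrix ι ι R) =
          Matrix.diagonal (Function.update 1 n ((g : Matrix ι ι R) n n)) := by
        funext a
        funext b
        by_cases hab : a = n ∧ b = n
        · obtain ⟨rfl, rfl⟩ := hab
          simp
        · rw [hg a b (by simpa using hab)]
          by_cases h : a = b
          · subst h
            have : a ≠ n := fun e => hab ⟨e, e⟩
            simp [this]
          · rw [Matrix.one_apply_ne h, Matrix.diagonal_apply_ne _ h]
      have hd : (g : Matrix ι ι R) n n = 1 := by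
        have h1 := g.2
        rw [hdiag, Matrix.det_diagonal, Finset.prod_update_of_mem (Finset.mem_univ _)] at h1
        simpa using h1
      have : g = 1 := by
        apply Subtype.ext
        rw [hdiag, hd]
        funext a
        funext b
        by_cases h : a = b
        · subst h
          by_cases h' : a = n
          · subst h'; simp
          · simp
        · rw [Matrix.diagonal_apply_ne _ h]
          exact (Matrix.one_apply_ne h).symm
      rw [this]
      exact Subgroup.one_mem _
    · have hnS : n ∈ insert n S' := Finset.mem_insert_self _ _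
      have hpS : p ∈ insert n S' := Finset.mem_insert_of_mem hp
      have hpn : p ≠ n := fun e => hn (e ▸ hp)
      have hT : ∀ j ∈ S', j ∈ insert n S' ∧ j ≠ n := fun j hj =>
        ⟨Finset.mem_insert_of_mem hj, fun e => hn (e ▸ hj)⟩
      obtain ⟨u, hu, h1, h2⟩ := clear_col hR hnS S' hT g hg
      set g1 : SpecialLinearGroup ι R := u * g with hg1
      have hcol : ∀ i, i ≠ n → (g1 : Matrix ι ι R) i n = 0 := by
        intro i hi
        by_cases hi' : i ∈ S'
        · exact h2 i hi'
        · rw [h1 i n (fun hh => by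
            rcases Finset.mem_insert.1 hh.1 with e | e
            · exact hi e
            · exact hi' e), Matrix.one_apply_ne hi]
      -- the diagonal entry is a unit
      set d : R := (g1 : Matrix ι ι R) n n with hd
      obtain ⟨d', hdd⟩ : ∃ d' : R, d' * d = 1 := by
        refine ⟨((g1⁻¹ : SpecialLinearGroup ι R) : Matrix ι ι R) n n, ?_⟩
        have h3 : ((g1⁻¹ * g1 : SpecialLinearGroup ι R) : Matrix ι ι R) n n = 1 := by
          rw [inv_mul_cancel, Matrix.SpecialLinearGroup.coe_one, Matrix.one_apply_eq]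
        rw [Matrix.SpecialLinearGroup.coe_mul, Matrix.mul_apply,
          Finset.sum_eq_single n (fun i _ hi => by rw [hcol i hi, mul_zero])
            (fun h => absurd (Finset.mem_univ _) h)] at h3
        exact h3
      set g2 : SpecialLinearGroup ι R := El p n d' * g1 with hg2
      have s2 : Sup (insert n S') g2 := h1.row hpn hpS hnS _
      set g3 : SpecialLinearGroup ι R := El n p (1 - d) * g2 with hg3
      have s3 : Sup (insert n S') g3 := s2.row hpn.symm hnS hpS _
      set g4 : SpecialLinearGroup ι R := El p n (-1) * g3 with hg4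
      have s4 : Sup (insert n S') g4 := s3.row hpn hpS hnS _
      have e2p : (g2 : Matrix ι ι R) p n = 1 := by
        rw [hg2, El_mul_same hpn, hcol p hpn, zero_add, ← hd, hdd]
      have e2n : (g2 : Matrix ι ι R) n n = d := by
        rw [hg2, El_mul_ne hpn hpn.symm, ← hd]
      have e3n : (g3 : Matrix ι ι R) n n = 1 := by
        rw [hg3, El_mul_same hpn.symm, e2n, e2p]
        ring
      have e3p : (g3 : Matrix ι ι R) p n = 1 := by
        rw [hg3, El_mul_ne hpn.symm hpn, e2p]
      have c4 : ∀ i, (g4 : Matrix ι ι R) i n = (1 : Matrix ι ι R) i n := by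
        intro i
        by_cases hi : i = n
        · subst hi
          rw [hg4, El_mul_ne hpn hpn.symm, e3n, Matrix.one_apply_eq]
        · rw [Matrix.one_apply_ne hi]
          by_cases hip : i = p
          · subst hip
            rw [hg4, El_mul_same hpn, e3p, e3n]
            ring
          · rw [hg4, El_mul_ne hpn hip, hg3, El_mul_ne hpn.symm hi, hg2, El_mul_ne hpn hip,
              hcol i hi]
      obtain ⟨v, hv, s5, c5, r5⟩ := clear_row hnS S' hT g4 s4 c4
      have hfin : g4 * v ∈ Subgroup.closure (Els ι R) := by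
        apply ih
        intro a b hab
        by_cases hb : b = n
        · subst hb
          exact c5 a
        · by_cases ha : a = n
          · subst ha
            rw [Matrix.one_apply_ne (fun e => hb e.symm)]
            by_cases hb' : b ∈ S'
            · exact r5 b hb'
            · rw [s5 a b (fun hh => by
                rcases Finset.mem_insert.1 hh.2 with e | e
                · exact hb e
                · exact hb' e), Matrix.one_apply_ne (fun e => hb e.symm)]
          · apply s5 a b
            rintro ⟨h5, h6⟩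
            rcases Finset.mem_insert.1 h5 with e | e
            · exact ha e
            · rcases Finset.mem_insert.1 h6 with e' | e'
              · exact hb e'
              · exact hab ⟨e, e'⟩
      have m4 : g4 ∈ Subgroup.closure (Els ι R) := (Subgroup.mul_mem_cancel_right _ hv).1 hfin
      have m3 : g3 ∈ Subgroup.closure (Els ι R) :=
        (Subgroup.mul_mem_cancel_left _ (El_mem hpn _)).1 m4
      have m2 : g2 ∈ Subgroup.closure (Els ι R) :=
        (Subgroup.mul_mem_cancel_left _ (El_mem hpn.symm _)).1 m3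
      have m1 : g1 ∈ Subgroup.closure (Els ι R) :=
        (Subgroup.mul_mem_cancel_left _ (El_mem hpn _)).1 m2
      exact (Subgroup.mul_mem_cancel_left _ hu).1 m1

end

-- BEGIN TARGET
theorem main : E1P := by
  intro ι R _ _ _ hR
  rw [eq_top_iff]
  intro g _
  exact step hR Finset.univ g (fun a b h => absurd ⟨Finset.mem_univ _, Finset.mem_univ _⟩ h)
-- END TARGET

end Pool.Agent.H742F.E1
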