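import Pool.Agent.H742F.Stm

set_option autoImplicit false
set_option maxHeartbeats 400000

open Filter Topology Finset
open scoped Classical

namespace Pool.Agent.H742F.F1

noncomputable section

variable {G A : Type} [Group G] [Fintype G] [Fintype A]

/-- number of agreements -/
def ag (φ ψ : G → A) : ℕ := (univ.filter fun g => φ g = ψ g).card

/-- the defect -/
def df (F : G → Equiv.Perm A) (φ : G → A) : ℕ :=
  (univ.filter fun p : G × G => φ (p.1 * p.2) ≠ F p.1 (φ p.2)).card

/-- the action -/
def tr (l : G) (φ : G → A) : G → A := fun g => φ (g * l)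

omit [Fintype A] in
lemma ag_tr (l : G) (φ ψ : G → A) : ag (tr l φ) (tr l ψ) = ag φ ψ := by
  unfold ag tr
  refine Finset.card_bij (fun g _ => g * l) ?_ ?_ ?_
  · intro g hg
    simpa using hg
  · intro a _ b _ h
    exact mul_right_cancel h
  · intro b hb
    exact ⟨b * l⁻¹, by simpa using hb, by simp⟩

omit [Fintype A] in
lemma df_tr (F : G → Equiv.Perm A) (l : G) (φ : G → A) : df F (tr l φ) = df F φ := by
  unfold df tr
  refine Finset.card_bij (fun p _ => (p.1, p.2 * l)) ?_ ?_ ?_
  · rintro ⟨g, h⟩ hg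
    simpa [mul_assoc] using hg
  · rintro ⟨a, b⟩ _ ⟨c, d⟩ _ h
    simp only [Prod.mk.injEq, mul_left_inj] at h
    exact Prod.ext h.1 h.2
  · rintro ⟨a, b⟩ hb
    exact ⟨(a, b * l⁻¹), by simpa [mul_assoc] using hb, by simp⟩

omit [Fintype A] in
lemma ag_comm (φ ψ : G → A) : ag φ ψ = ag ψ φ := by
  unfold ag
  congr 1
  ext g
  simp [eq_comm]

omit [Fintype A] in
/-- the key inequality -/
lemma key (F : G → Equiv.Perm A) (φ ψ : G → A) :
    2 * ((ag φ ψ : ℝ) * ((Fintype.card G : ℝ) - ag φ ψ)) ≤ df F φ + df F ψ := by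
  set E : Finset G := univ.filter fun g => φ g = ψ g with hE
  have hag : ag φ ψ = E.card := rfl
  have hc : ((Eᶜ).card : ℝ) = (Fintype.card G : ℝ) - E.card := by
    rw [Finset.card_compl, Nat.cast_sub (Finset.card_le_univ _)]
  have hd : Disjoint (E ×ˢ Eᶜ) (Eᶜ ×ˢ E) := by
    rw [Finset.disjoint_left]
    rintro ⟨a, b⟩ h1 h2
    simp only [Finset.mem_product, Finset.mem_compl] at h1 h2
    exact h2.1 h1.1
  have hle : ((E ×ˢ Eᶜ) ∪ (Eᶜ ×ˢ E)).card ≤
      ((univ.filter fun p : G × G => φ (p.1 * p.2) ≠ F p.1 (φ p.2)) ∪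
       (univ.filter fun p : G × G => ψ (p.1 * p.2) ≠ F p.1 (ψ p.2))).card := by
    refine Finset.card_le_card_of_injOn (fun p => (p.1 * p.2⁻¹, p.2)) ?_ ?_
    · rintro ⟨k, h⟩ hk
      simp only [Finset.coe_union, Set.mem_union, Finset.mem_coe, Finset.mem_union,
        Finset.mem_filter, Finset.mem_univ, true_and, inv_mul_cancel_right] at hk ⊢
      by_contra hcon
      push Not at hcon
      obtain ⟨h1, h2⟩ := hcon
      have hiff : φ k = ψ k ↔ φ h = ψ h := by
        rw [h1, h2]
        exact (F (k * h⁻¹)).injective.eq_iff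
      simp only [Finset.mem_product, Finset.mem_compl, hE, Finset.mem_filter, Finset.mem_univ,
        true_and] at hk
      tauto
    · rintro ⟨a, b⟩ _ ⟨c, d⟩ _ h
      simp only [Prod.mk.injEq] at h
      obtain ⟨h1, h2⟩ := h
      subst h2
      simpa using h1
  rw [Finset.card_union_of_disjoint hd, Finset.card_product, Finset.card_product] at hle
  have hle2 := hle.trans (Finset.card_union_le _ _)
  have hle3 : ((E.card : ℝ) * (Eᶜ).card + (Eᶜ).card * E.card) ≤ df F φ + df F ψ := by
    exact_mod_cast hle2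
  rw [hag, ← hc]
  linarith

lemma markov {α : Type} [Fintype α] (f : α → ℝ) (hf : ∀ x, 0 ≤ f x) (c : ℝ) :
    ((univ.filter fun x => c ≤ f x).card : ℝ) * c ≤ ∑ x, f x := by
  calc ((univ.filter fun x => c ≤ f x).card : ℝ) * c = ∑ x ∈ univ.filter (fun x => c ≤ f x), c := by
        rw [Finset.sum_const, nsmul_eq_mul]
    _ ≤ ∑ x ∈ univ.filter (fun x => c ≤ f x), f x := by
        refine Finset.sum_le_sum fun x hx => ?_
        simpa using hx
    _ ≤ ∑ x, f x := Finset.sum_le_sum_of_subset_of_nonneg (Finset.filter_subset _ _)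
        fun x _ _ => hf x

lemma dcount {α β : Type} [Fintype α] [Fintype β] (P : α → β → Prop)
    [∀ a b, Decidable (P a b)] :
    ∑ a, ((univ.filter fun b => P a b).card : ℝ) = ∑ b, ((univ.filter fun a => P a b).card : ℝ) := by
  have h1 : ∀ a, ((univ.filter fun b => P a b).card : ℝ) = ∑ b, (if P a b then (1:ℝ) else 0) := by
    intro a
    rw [Finset.sum_boole]
  have h2 : ∀ b, ((univ.filter fun a => P a b).card : ℝ) = ∑ a, (if P a b then (1:ℝ) else 0) := by
    intro b
    rw [Finset.sum_boole]
  simp only [h1, h2]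
  exact Finset.sum_comm

omit [Fintype A] in
lemma df_sum (F : G → Equiv.Perm A) (φ : G → A) :
    ∑ h : G, ((univ.filter fun g => φ (g * h) ≠ F g (φ h)).card : ℝ) = df F φ := by
  unfold df
  rw [← Finset.sum_boole]
  rw [← Finset.univ_product_univ, Finset.sum_product_right]
  refine Finset.sum_congr rfl fun h _ => ?_
  rw [Finset.sum_boole]

variable (F : G → Equiv.Perm A) (ε : ℝ)

/-- the almost equivariant functions -/
def Bp : Type := {φ : G → A // (df F φ : ℝ) ≤ ε * (Fintype.card G : ℝ) ^ 2}

omit [Fintype A] in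
lemma card_pos' : (0 : ℝ) < Fintype.card G := by
  exact_mod_cast Fintype.card_pos

omit [Fintype A] in
lemma dich (hε : ε ≤ 1 / 16) (φ ψ : Bp F ε)
    (h : (Fintype.card G : ℝ) < 2 * ag φ.1 ψ.1) :
    (Fintype.card G : ℝ) - ag φ.1 ψ.1 ≤ 2 * ε * Fintype.card G := by
  have hk := key F φ.1 ψ.1
  have h1 := φ.2
  have h2 := ψ.2
  have hN : (0 : ℝ) < Fintype.card G := card_pos'
  have hag : (ag φ.1 ψ.1 : ℝ) ≤ Fintype.card G := by
    exact_mod_cast Finset.card_le_univ _
  have h3 : (Fintype.card G : ℝ) * ((Fintype.card G : ℝ) - ag φ.1 ψ.1) ≤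
      (Fintype.card G : ℝ) * (2 * ε * Fintype.card G) := by
    nlinarith
  exact le_of_mul_le_mul_left h3 hN

/-- the equivalence relation -/
def rel (hε : ε ≤ 1 / 16) : Setoid (Bp F ε) where
  r φ ψ := (Fintype.card G : ℝ) < 2 * ag φ.1 ψ.1
  iseqv := by
    refine ⟨?_, ?_, ?_⟩
    · intro φ
      have hN : (0 : ℝ) < Fintype.card G := card_pos'
      have : ag φ.1 φ.1 = Fintype.card G := by
        unfold ag
        simp
      rw [this]
      linarith
    · intro φ ψ h
      rw [ag_comm]
      exact h
    · intro φ ψ χ h1 h2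
      have d1 := dich F ε hε φ ψ h1
      have d2 := dich F ε hε ψ χ h2
      have hN : (0 : ℝ) < Fintype.card G := card_pos'
      -- the three sets
      have hsub : (univ.filter fun g => φ.1 g = ψ.1 g) ∩ (univ.filter fun g => ψ.1 g = χ.1 g) ⊆
          (univ.filter fun g => φ.1 g = χ.1 g) := by
        intro g hg
        simp only [Finset.mem_inter, Finset.mem_filter, Finset.mem_univ, true_and] at hg ⊢
        exact hg.1.trans hg.2
      have hc := Finset.card_le_card hsub
      have hi := Finset.card_union_add_card_inter (univ.filter fun g => φ.1 g = ψ.1 g)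
        (univ.filter fun g => ψ.1 g = χ.1 g)
      have hu : ((univ.filter fun g => φ.1 g = ψ.1 g) ∪
        (univ.filter fun g => ψ.1 g = χ.1 g)).card ≤ Fintype.card G := Finset.card_le_univ _
      have h3 : ag φ.1 ψ.1 + ag ψ.1 χ.1 ≤ Fintype.card G + ag φ.1 χ.1 := by
        unfold ag
        omega
      have h4 : (ag φ.1 ψ.1 : ℝ) + ag ψ.1 χ.1 ≤ Fintype.card G + ag φ.1 χ.1 := by
        exact_mod_cast h3
      nlinarith

instance : Finite (Bp F ε) := Subtype.finite

/-- the action on almost equivariant functions -/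
def trB (l : G) (φ : Bp F ε) : Bp F ε := ⟨tr l φ.1, by rw [df_tr]; exact φ.2⟩

/-- the quotient -/
abbrev B0 (hε : ε ≤ 1 / 16) : Type := Quotient (rel F ε hε)

/-- action on the quotient -/
instance act (hε : ε ≤ 1 / 16) : MulAction G (B0 F ε hε) where
  smul l b := Quotient.map (sa := rel F ε hε) (sb := rel F ε hε) (trB F ε l) (by
    intro φ ψ h
    show (Fintype.card G : ℝ) < 2 * ag (tr l φ.1) (tr l ψ.1)
    rw [ag_tr]
    exact h) b
  one_smul b := by
    induction b using Quotient.inductionOn with
    | h φ =>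
      refine congrArg (Quotient.mk (rel F ε hε)) ?_
      apply Subtype.ext
      funext g
      show φ.1 (g * 1) = φ.1 g
      rw [mul_one]
  mul_smul l m b := by
    induction b using Quotient.inductionOn with
    | h φ =>
      refine congrArg (Quotient.mk (rel F ε hε)) ?_
      apply Subtype.ext
      funext g
      show φ.1 (g * (l * m)) = φ.1 (g * l * m)
      rw [mul_assoc]

/-- the size of the quotient -/
lemma size [Nonempty A] (hε0 : 0 < ε) (hε : ε ≤ 1 / 16) [Fintype (B0 F ε hε)] :
    (Fintype.card (B0 F ε hε) : ℝ) * (1 - 4 * ε) ≤ Fintype.card A := by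
  have hN : (0 : ℝ) < Fintype.card G := card_pos'
  set rep : B0 F ε hε → Bp F ε := Quotient.out with hrep
  -- H b h : h is a good place for b
  set H : B0 F ε hε → G → Prop := fun b h =>
    4 * ((univ.filter fun g => (rep b).1 (g * h) ≠ F g ((rep b).1 h)).card : ℝ) <
      Fintype.card G with hH
  have h1 : ∀ b, (Fintype.card G : ℝ) * (1 - 4 * ε) ≤ ((univ.filter fun h => H b h).card : ℝ) := by
    intro b
    have hm := markov (fun h : G =>
      ((univ.filter fun g => (rep b).1 (g * h) ≠ F g ((rep b).1 h)).card : ℝ))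
      (fun _ => Nat.cast_nonneg _) (Fintype.card G / 4)
    have hs := df_sum F (rep b).1
    rw [hs] at hm
    have hb := (rep b).2
    have hcompl : ((univ.filter fun h => H b h).card : ℝ) +
        ((univ.filter fun h => ¬ H b h).card : ℝ) = Fintype.card G := by
      have := Finset.card_filter_add_card_filter_not (s := (univ : Finset G)) (H b)
      rw [← Nat.cast_add, this, Finset.card_univ]
    have hfil : (univ.filter fun h => ¬ H b h) = (univ.filter fun h : G =>
        (Fintype.card G : ℝ) / 4 ≤
          ((univ.filter fun g => (rep b).1 (g * h) ≠ F g ((rep b).1 h)).card : ℝ)) := by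
      ext h
      simp only [hH, Finset.mem_filter, Finset.mem_univ, true_and, not_lt]
      constructor <;> intro h' <;> linarith
    rw [← hfil] at hm
    have h5 : ((univ.filter fun h => ¬ H b h).card : ℝ) * Fintype.card G ≤
        (4 * ε * Fintype.card G) * Fintype.card G := by
      nlinarith
    have h6 := le_of_mul_le_mul_right h5 hN
    linarith
  have h2 : (Fintype.card (B0 F ε hε) : ℝ) * ((Fintype.card G : ℝ) * (1 - 4 * ε)) ≤
      ∑ h : G, ((univ.filter fun b => H b h).card : ℝ) := by
    rw [← dcount]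
    calc (Fintype.card (B0 F ε hε) : ℝ) * ((Fintype.card G : ℝ) * (1 - 4 * ε))
        = ∑ b : B0 F ε hε, ((Fintype.card G : ℝ) * (1 - 4 * ε)) := by
          rw [Finset.sum_const, Finset.card_univ, nsmul_eq_mul]
      _ ≤ _ := Finset.sum_le_sum fun b _ => h1 b
  have h3 : ∀ h : G, ((univ.filter fun b => H b h).card : ℝ) ≤ Fintype.card A := by
    intro h
    have : (univ.filter fun b => H b h).card ≤ (univ : Finset A).card := by
      refine Finset.card_le_card_of_injOn (fun b => (rep b).1 h) (fun _ _ => by simp) ?_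
      intro b hb b' hb' hbb
      simp only [Finset.coe_filter, Finset.mem_univ, true_and, Set.mem_setOf_eq, hH] at hb hb'
      have hbb' : (rep b).1 h = (rep b').1 h := hbb
      rw [← Quotient.out_eq b, ← Quotient.out_eq b']
      refine Quotient.sound (s := rel F ε hε) ?_
      show (Fintype.card G : ℝ) < 2 * ag (rep b).1 (rep b').1
      rw [← ag_tr h]
      -- complement is covered
      have hcov : (univ : Finset G) ⊆
          (univ.filter fun g => tr h (rep b).1 g = tr h (rep b').1 g) ∪
          ((univ.filter fun g => (rep b).1 (g * h) ≠ F g ((rep b).1 h)) ∪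
           (univ.filter fun g => (rep b').1 (g * h) ≠ F g ((rep b').1 h))) := by
        intro g _
        simp only [Finset.mem_union, Finset.mem_filter, Finset.mem_univ, true_and]
        by_contra hcon
        push Not at hcon
        obtain ⟨c1, c2, c3⟩ := hcon
        apply c1
        show (rep b).1 (g * h) = (rep b').1 (g * h)
        rw [c2, c3, hbb']
      have hcc := (Finset.card_le_card hcov).trans (Finset.card_union_le _ _)
      have hcc2 := hcc.trans (Nat.add_le_add_left (Finset.card_union_le _ _) _)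
      rw [Finset.card_univ] at hcc2
      have hcc3 : (Fintype.card G : ℝ) ≤ ag (tr h (rep b).1) (tr h (rep b').1) +
          (((univ.filter fun g => (rep b).1 (g * h) ≠ F g ((rep b).1 h)).card : ℝ) +
           ((univ.filter fun g => (rep b').1 (g * h) ≠ F g ((rep b').1 h)).card : ℝ)) := by
        exact_mod_cast hcc2
      linarith
    rw [Finset.card_univ] at this
    exact_mod_cast this
  have h4 : (Fintype.card (B0 F ε hε) : ℝ) * ((Fintype.card G : ℝ) * (1 - 4 * ε)) ≤
      (Fintype.card G : ℝ) * Fintype.card A := by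
    refine h2.trans ?_
    calc ∑ h : G, ((univ.filter fun b => H b h).card : ℝ) ≤ ∑ h : G, (Fintype.card A : ℝ) :=
          Finset.sum_le_sum fun h _ => h3 h
      _ = _ := by rw [Finset.sum_const, Finset.card_univ, nsmul_eq_mul]
  have h5 : (Fintype.card G : ℝ) * ((Fintype.card (B0 F ε hε) : ℝ) * (1 - 4 * ε)) ≤
      (Fintype.card G : ℝ) * Fintype.card A := by
    linarith
  exact le_of_mul_le_mul_left h5 hN

/-- the orbit function -/
def orb (x : A) : G → A := fun g => F g x

/-- good points -/
def good (x : A) : Prop := (df F (orb F x) : ℝ) ≤ ε * (Fintype.card G : ℝ) ^ 2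

lemma bad_le (δ : ℝ) (hε0 : 0 < ε)
    (hF : ∀ g h, ((univ.filter fun x => F (g * h) x ≠ F g (F h x)).card : ℝ) ≤
      δ * Fintype.card A) :
    ((univ.filter fun x => ¬ good F ε x).card : ℝ) * ε ≤ δ * Fintype.card A := by
  have hN : (0 : ℝ) < Fintype.card G := card_pos'
  have hm := markov (fun x : A => (df F (orb F x) : ℝ)) (fun _ => Nat.cast_nonneg _)
    (ε * (Fintype.card G : ℝ) ^ 2)
  have hs : ∑ x : A, (df F (orb F x) : ℝ) ≤ (Fintype.card G : ℝ) ^ 2 * (δ * Fintype.card A) := by
    have : ∑ x : A, (df F (orb F x) : ℝ) =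
        ∑ p : G × G, ((univ.filter fun x => F (p.1 * p.2) x ≠ F p.1 (F p.2 x)).card : ℝ) := by
      exact dcount (fun (x : A) (p : G × G) => orb F x (p.1 * p.2) ≠ F p.1 (orb F x p.2))
    rw [this]
    calc _ ≤ ∑ p : G × G, (δ * Fintype.card A) := Finset.sum_le_sum fun p _ => hF p.1 p.2
      _ = _ := by
        rw [Finset.sum_const, Finset.card_univ, nsmul_eq_mul, Fintype.card_prod]
        push_cast
        ring
  have hsub : ((univ.filter fun x => ¬ good F ε x).card : ℝ) ≤
      ((univ.filter fun x : A => ε * (Fintype.card G : ℝ) ^ 2 ≤ (df F (orb F x) : ℝ)).card : ℝ) := by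
    have : (univ.filter fun x => ¬ good F ε x) ⊆
        (univ.filter fun x : A => ε * (Fintype.card G : ℝ) ^ 2 ≤ (df F (orb F x) : ℝ)) := by
      intro x hx
      simp only [good, Finset.mem_filter, Finset.mem_univ, true_and, not_le] at hx ⊢
      exact hx.le
    exact_mod_cast Finset.card_le_card this
  have hN2 : (0 : ℝ) < (Fintype.card G : ℝ) ^ 2 := by positivity
  have h5 : (Fintype.card G : ℝ) ^ 2 * (((univ.filter fun x => ¬ good F ε x).card : ℝ) * ε) ≤
      (Fintype.card G : ℝ) ^ 2 * (δ * Fintype.card A) := by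
    have h6 : ((univ.filter fun x => ¬ good F ε x).card : ℝ) * (ε * (Fintype.card G : ℝ) ^ 2) ≤
      ((univ.filter fun x : A => ε * (Fintype.card G : ℝ) ^ 2 ≤ (df F (orb F x) : ℝ)).card : ℝ) *
        (ε * (Fintype.card G : ℝ) ^ 2) := mul_le_mul_of_nonneg_right hsub (by positivity)
    linarith
  exact le_of_mul_le_mul_left h5 hN2

lemma eqv_le (δ : ℝ)
    (hF : ∀ g h, ((univ.filter fun x => F (g * h) x ≠ F g (F h x)).card : ℝ) ≤
      δ * Fintype.card A) (l : G) :
    ((univ.filter fun x => ¬ ((Fintype.card G : ℝ) <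
      2 * ag (tr l (orb F x)) (orb F (F l x)))).card : ℝ) ≤ 2 * (δ * Fintype.card A) := by
  have hN : (0 : ℝ) < Fintype.card G := card_pos'
  have hm := markov (fun x : A =>
    ((univ.filter fun g => F (g * l) x ≠ F g (F l x)).card : ℝ)) (fun _ => Nat.cast_nonneg _)
    ((Fintype.card G : ℝ) / 2)
  have hs : ∑ x : A, ((univ.filter fun g => F (g * l) x ≠ F g (F l x)).card : ℝ) ≤
      (Fintype.card G : ℝ) * (δ * Fintype.card A) := by
    rw [dcount (fun (x : A) (g : G) => F (g * l) x ≠ F g (F l x))]
    calc _ ≤ ∑ g : G, (δ * Fintype.card A) := Finset.sum_le_sum fun g _ => hF g l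
      _ = _ := by rw [Finset.sum_const, Finset.card_univ, nsmul_eq_mul]
  have hsub : ((univ.filter fun x => ¬ ((Fintype.card G : ℝ) <
      2 * ag (tr l (orb F x)) (orb F (F l x)))).card : ℝ) ≤
      ((univ.filter fun x : A => (Fintype.card G : ℝ) / 2 ≤
        ((univ.filter fun g => F (g * l) x ≠ F g (F l x)).card : ℝ)).card : ℝ) := by
    have : (univ.filter fun x => ¬ ((Fintype.card G : ℝ) <
      2 * ag (tr l (orb F x)) (orb F (F l x)))) ⊆
        (univ.filter fun x : A => (Fintype.card G : ℝ) / 2 ≤
        ((univ.filter fun g => F (g * l) x ≠ F g (F l x)).card : ℝ)) := by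
      intro x hx
      simp only [Finset.mem_filter, Finset.mem_univ, true_and, not_lt] at hx ⊢
      have hcompl := Finset.card_filter_add_card_filter_not (s := (univ : Finset G))
        (fun g => F (g * l) x = F g (F l x))
      rw [Finset.card_univ] at hcompl
      have h1 : ag (tr l (orb F x)) (orb F (F l x)) =
        (univ.filter fun g => F (g * l) x = F g (F l x)).card := rfl
      rw [h1] at hx
      have h2 : ((univ.filter fun g => F (g * l) x = F g (F l x)).card : ℝ) +
        ((univ.filter fun g => ¬ F (g * l) x = F g (F l x)).card : ℝ) = Fintype.card G := by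
        exact_mod_cast hcompl
      have h3 : ((univ.filter fun g => F (g * l) x ≠ F g (F l x)).card : ℝ) =
        ((univ.filter fun g => ¬ F (g * l) x = F g (F l x)).card : ℝ) := rfl
      rw [h3]
      linarith
    exact_mod_cast Finset.card_le_card this
  have h5 : (Fintype.card G : ℝ) * ((univ.filter fun x => ¬ ((Fintype.card G : ℝ) <
      2 * ag (tr l (orb F x)) (orb F (F l x)))).card : ℝ) ≤
      (Fintype.card G : ℝ) * (2 * (δ * Fintype.card A)) := by
    nlinarith
  exact le_of_mul_le_mul_left h5 hN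

/-- the embedding -/
def emb (hε : ε ≤ 1 / 16) (x : A) : B0 F ε hε ⊕ {x : A // ¬ good F ε x} :=
  if h : good F ε x then Sum.inl (Quotient.mk (rel F ε hε) ⟨orb F x, h⟩) else Sum.inr ⟨x, h⟩

/-- the representation -/
def rho (hε : ε ≤ 1 / 16) : G →* Equiv.Perm (B0 F ε hε ⊕ {x : A // ¬ good F ε x}) :=
  (Equiv.Perm.sumCongrHom _ _).comp
    ((MulAction.toPermHom G (B0 F ε hε)).prod (1 : G →* Equiv.Perm {x : A // ¬ good F ε x}))

lemma emb_inj (hε : ε ≤ 1 / 16) : Function.Injective (emb F ε hε) := by
  intro x y hxy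
  unfold emb at hxy
  split_ifs at hxy with h1 h2 h2
  · have h3 := Quotient.exact (s := rel F ε hε) (Sum.inl.inj hxy)
    have h4 : (Fintype.card G : ℝ) < 2 * ag (orb F x) (orb F y) := h3
    have hN : (0 : ℝ) < Fintype.card G := card_pos'
    have h5 : 0 < ag (orb F x) (orb F y) := by
      by_contra hcon
      push Not at hcon
      have : ag (orb F x) (orb F y) = 0 := by omega
      rw [this] at h4
      simp at h4
      linarith
    unfold ag at h5
    obtain ⟨g, hg⟩ := Finset.card_pos.mp h5
    simp only [Finset.mem_filter, Finset.mem_univ, true_and] at hg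
    exact (F g).injective hg
  · exact congrArg Subtype.val (Sum.inr.inj hxy)

lemma emb_eqv (hε : ε ≤ 1 / 16) (l : G) (x : A) (h1 : good F ε x) (h2 : good F ε (F l x))
    (h3 : (Fintype.card G : ℝ) < 2 * ag (tr l (orb F x)) (orb F (F l x))) :
    emb F ε hε (F l x) = rho F ε hε l (emb F ε hε x) := by
  unfold emb
  rw [dif_pos h1, dif_pos h2]
  show Sum.inl _ = Sum.inl _
  congr 1
  symm
  exact Quotient.sound (s := rel F ε hε) h3

end

theorem main : F1Q := by
  intro η0 hη0
  -- normalise
  set η : ℝ := min η0 1 with hη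
  have hη1 : 0 < η := lt_min hη0 one_pos
  have hη2 : η ≤ 1 := min_le_right _ _
  have hη3 : η ≤ η0 := min_le_left _ _
  set ε : ℝ := η / 64 with hε
  have hε0 : 0 < ε := by positivity
  have hε1 : ε ≤ 1 / 16 := by rw [hε]; linarith
  refine ⟨ε * η / 8, by positivity, ?_⟩
  intro G _ _ A _ _ F hF
  have : Fintype G := Fintype.ofFinite G
  have hA : (0 : ℝ) < Fintype.card A := by exact_mod_cast Fintype.card_pos
  let inst0 : Fintype (B0 F ε hε1) := Fintype.ofFinite _
  have hbad := bad_le F ε (ε * η / 8) hε0 hF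
  have hbad' : ((univ.filter fun x => ¬ good F ε x).card : ℝ) ≤ η / 8 * Fintype.card A := by
    have : ((univ.filter fun x => ¬ good F ε x).card : ℝ) * ε ≤
        (η / 8 * Fintype.card A) * ε := by
      refine hbad.trans (le_of_eq ?_)
      ring
    exact le_of_mul_le_mul_right this hε0
  refine ⟨B0 F ε hε1 ⊕ {x : A // ¬ good F ε x}, inferInstance, rho F ε hε1, emb F ε hε1,
    emb_inj F ε hε1, ?_, ?_⟩
  · have hs := size F ε hε0 hε1
    have hc : (Fintype.card (B0 F ε hε1 ⊕ {x : A // ¬ good F ε x}) : ℝ) =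
        Fintype.card (B0 F ε hε1) + ((univ.filter fun x => ¬ good F ε x).card : ℝ) := by
      rw [Fintype.card_sum, Fintype.card_subtype]
      push_cast
      rfl
    rw [hc]
    have h1 : (Fintype.card (B0 F ε hε1) : ℝ) ≤ (1 + η / 2) * Fintype.card A := by
      have h2 : (1 : ℝ) ≤ (1 - 4 * ε) * (1 + η / 2) := by
        rw [hε]
        nlinarith
      have hcard : (0 : ℝ) ≤ Fintype.card (B0 F ε hε1) := Nat.cast_nonneg _
      calc (Fintype.card (B0 F ε hε1) : ℝ) = (Fintype.card (B0 F ε hε1) : ℝ) * 1 := by ring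
        _ ≤ (Fintype.card (B0 F ε hε1) : ℝ) * ((1 - 4 * ε) * (1 + η / 2)) :=
            mul_le_mul_of_nonneg_left h2 hcard
        _ = ((Fintype.card (B0 F ε hε1) : ℝ) * (1 - 4 * ε)) * (1 + η / 2) := by ring
        _ ≤ (Fintype.card A : ℝ) * (1 + η / 2) :=
            mul_le_mul_of_nonneg_right hs (by linarith)
        _ = _ := by ring
    nlinarith
  · intro l
    have he := eqv_le F (ε * η / 8) hF l
    -- exceptional set
    have hsub : (univ.filter fun x => emb F ε hε1 (F l x) ≠ rho F ε hε1 l (emb F ε hε1 x)) ⊆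
        (univ.filter fun x => ¬ good F ε x) ∪ ((univ.filter fun x => ¬ good F ε (F l x)) ∪
        (univ.filter fun x => ¬ ((Fintype.card G : ℝ) <
          2 * ag (tr l (orb F x)) (orb F (F l x))))) := by
      intro x hx
      simp only [Finset.mem_union, Finset.mem_filter, Finset.mem_univ, true_and] at hx ⊢
      by_contra hcon
      push Not at hcon
      exact hx (emb_eqv F ε hε1 l x hcon.1 hcon.2.1 hcon.2.2)
    have hgl : (univ.filter fun x => ¬ good F ε (F l x)).card =
        (univ.filter fun x => ¬ good F ε x).card := by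
      refine Finset.card_bij (fun x _ => F l x) ?_ ?_ ?_
      · intro x hx
        simpa using hx
      · intro x _ y _ h
        exact (F l).injective h
      · intro y hy
        exact ⟨(F l).symm y, by simpa using hy, by simp⟩
    have hcard := (Finset.card_le_card hsub).trans (Finset.card_union_le _ _)
    have hcard2 := hcard.trans (Nat.add_le_add_left (Finset.card_union_le _ _) _)
    rw [hgl] at hcard2
    have hcard3 : ((univ.filter fun x =>
        emb F ε hε1 (F l x) ≠ rho F ε hε1 l (emb F ε hε1 x)).card : ℝ) ≤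
        ((univ.filter fun x => ¬ good F ε x).card : ℝ) +
        (((univ.filter fun x => ¬ good F ε x).card : ℝ) +
        ((univ.filter fun x => ¬ ((Fintype.card G : ℝ) <
          2 * ag (tr l (orb F x)) (orb F (F l x)))).card : ℝ)) := by
      exact_mod_cast hcard2
    refine le_trans (le_of_eq (by congr!)) (hcard3.trans ?_)
    have h7 : 2 * (ε * η / 8 * (Fintype.card A : ℝ)) ≤ η / 4 * Fintype.card A := by
      have : ε * η ≤ η := by nlinarith
      nlinarith
    nlinarith

end Pool.Agent.H742F.F1
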