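import Pool.Agent.H742F.Stm

set_option autoImplicit false
set_option maxHeartbeats 400000

open Filter Topology Finset
open scoped Classical

namespace Pool.Agent.H742F.F2

open Helper418 Pool.Agent.helper987_SE Pool.Agent.Helper702_TH
open Matrix (SpecialLinearGroup)

theorem cls_eq' {A : ℕ → Type} [∀ n, Fintype (A n)] (s t : ∀ n, Equiv.Perm (A n)) :
    cls s = cls t ↔ Tendsto (Helper418.dens (fun n a => ¬ (s n a = t n a))) atTop (𝓝 0) := by
  rw [← mem_ae (P := fun n a => s n a = t n a)]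
  unfold cls
  rw [QuotientGroup.eq]
  show Nul (s⁻¹ * t) ↔ _
  unfold Nul
  refine eventually_congr (Eventually.of_forall fun x => ?_)
  rw [Pi.mul_apply, Pi.inv_apply, Equiv.Perm.mul_apply, Equiv.Perm.inv_eq_iff_eq]
  exact eq_comm

theorem card_cg {X : Type} [Fintype X] (p q : X → Prop) (ip : DecidablePred p)
    (iq : DecidablePred q) (h : ∀ x, p x ↔ q x) :
    (@Finset.filter X p ip univ).card = (@Finset.filter X q iq univ).card := by
  congr 1
  ext x
  simp [h x]

/-- diagonal sequences -/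
theorem diag {P : ℕ → ℝ → Prop} (h : ∀ η > 0, ∀ᶠ n in atTop, P n η) :
    ∃ e : ℕ → ℝ, Tendsto e atTop (𝓝 0) ∧ (∀ n, 0 < e n) ∧ ∀ᶠ n in atTop, P n (e n) := by
  classical
  let J : ℕ → ℕ := fun n => Nat.findGreatest (fun j => P n (1 / ((j : ℝ) + 1))) n
  have hJ : ∀ k : ℕ, ∀ᶠ n in atTop, k ≤ J n ∧ P n (1 / ((J n : ℝ) + 1)) := by
    intro k
    filter_upwards [h (1 / ((k : ℝ) + 1)) (by positivity), eventually_ge_atTop k] with n hn hk
    exact ⟨Nat.le_findGreatest hk hn,
      Nat.findGreatest_spec (P := fun j => P n (1 / ((j : ℝ) + 1))) hk hn⟩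
  refine ⟨fun n => 1 / ((J n : ℝ) + 1), ?_, fun n => by positivity, (hJ 0).mono fun n h => h.2⟩
  have hJt : Tendsto J atTop atTop := by
    rw [tendsto_atTop]
    intro k
    exact (hJ k).mono fun n h => h.1
  exact tendsto_one_div_add_atTop_nhds_zero_nat.comp hJt

/-- the conclusion of `F1` with values in a symmetric group of the form `Perm (Fin m)` -/
def Q {G : Type} [Group G] (N : ℕ) (F : G → Equiv.Perm (Fin N)) (η : ℝ) : Prop :=
  ∃ (m : ℕ) (hm : N ≤ m) (ρ : G →* Equiv.Perm (Fin m)), (m : ℝ) ≤ (1 + η) * N ∧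
    ∀ g, ((univ.filter fun x : Fin N => Fin.castLE hm (F g x) ≠ ρ g (Fin.castLE hm x)).card : ℝ) ≤
      η * N

theorem exists_equiv {N : ℕ} {B : Type} [Fintype B] (j : Fin N → B) (hj : Function.Injective j) :
    ∃ (hm : N ≤ Fintype.card B) (e : B ≃ Fin (Fintype.card B)), ∀ x, e (j x) = Fin.castLE hm x := by
  classical
  have hm : N ≤ Fintype.card B := by
    have := Fintype.card_le_of_injective j hj
    rwa [Fintype.card_fin] at this
  let e0 := Fintype.equivFin B
  have h1 : Function.Injective (fun x => e0 (j x)) := e0.injective.comp hj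
  have h2 : Function.Injective (Fin.castLE hm) := Fin.castLE_injective hm
  let E : {y // y ∈ Set.range (fun x => e0 (j x))} ≃ {y // y ∈ Set.range (Fin.castLE hm)} :=
    (Equiv.ofInjective _ h1).symm.trans (Equiv.ofInjective _ h2)
  refine ⟨hm, e0.trans E.extendSubtype, fun x => ?_⟩
  rw [Equiv.trans_apply, Equiv.extendSubtype_apply_of_mem E _ ⟨x, rfl⟩]
  have h3 : (Equiv.ofInjective _ h1).symm ⟨e0 (j x), ⟨x, rfl⟩⟩ = x :=
    Equiv.ofInjective_symm_apply h1 x
  show ((Equiv.ofInjective _ h2) ((Equiv.ofInjective _ h1).symm ⟨e0 (j x), ⟨x, rfl⟩⟩)).1 = _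
  rw [h3]
  rfl

theorem Q_of {G : Type} [Group G] {N : ℕ} {F : G → Equiv.Perm (Fin N)} {η : ℝ}
    (h : ∃ (B : Type) (_ : Fintype B) (ρ : G →* Equiv.Perm B) (j : Fin N → B),
      Function.Injective j ∧ (Fintype.card B : ℝ) ≤ (1 + η) * Fintype.card (Fin N) ∧
      ∀ g, ((univ.filter fun x => j (F g x) ≠ ρ g (j x)).card : ℝ) ≤ η * Fintype.card (Fin N)) :
    Q N F η := by
  classical
  obtain ⟨B, _, ρ, j, hj, h1, h2⟩ := h
  obtain ⟨hm, e, he⟩ := exists_equiv j hj
  rw [Fintype.card_fin] at h1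
  refine ⟨Fintype.card B, hm, (e.permCongrHom.toMonoidHom).comp ρ, h1, fun g => ?_⟩
  have h3 := h2 g
  rw [Fintype.card_fin] at h3
  refine le_trans (le_of_eq ?_) h3
  congr 2
  ext x
  simp only [mem_filter, mem_univ, true_and, ne_eq]
  rw [not_iff_not]
  show Fin.castLE hm (F g x) = e (ρ g (e.symm (Fin.castLE hm x))) ↔ _
  rw [← he, ← he, Equiv.symm_apply_apply, e.injective.eq_iff]

-- BEGIN TARGET
theorem main (f1 : F1Q) : F2Q := by
  classical
  intro Γ _ FM f hf
  let A : ℕ → Type := fun n => Fin (n + 1)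
  -- the homomorphism
  let α : Γ →* SS A := MonoidHom.mk' (fun g => cls (fun n => f (n + 1) g)) (by
    intro g h
    show cls _ = cls (fun n => f (n + 1) g * f (n + 1) h)
    rw [cls_eq']
    have h1 := (tendsto_add_atTop_iff_nat 1).2 (hf g h)
    refine h1.congr fun n => ?_
    unfold hd Helper418.dens
    rw [Fintype.card_fin]
    congr 3
    ext x
    simp only [mem_filter, mem_univ, true_and, ne_eq]
    rw [not_iff_not, eq_comm])
  obtain ⟨G, _, _, π, F, hmul, hα⟩ := FM A α
  -- uniformity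
  have hunif : ∀ δ > 0, ∀ᶠ n in atTop, ∀ g h : G n,
      ((univ.filter fun x => F n (g * h) x ≠ F n g (F n h x)).card : ℝ) ≤
        δ * Fintype.card (A n) := by
    intro δ hδ
    have hmax : ∀ n, ∃ p : G n × G n, ∀ p' : G n × G n,
        (univ.filter fun x => F n (p'.1 * p'.2) x ≠ F n p'.1 (F n p'.2 x)).card ≤
          (univ.filter fun x => F n (p.1 * p.2) x ≠ F n p.1 (F n p.2 x)).card := by
      intro n
      have : Nonempty (G n × G n) := ⟨(1, 1)⟩
      exact Finite.exists_max (fun p : G n × G n =>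
        (univ.filter fun x => F n (p.1 * p.2) x ≠ F n p.1 (F n p.2 x)).card)
    choose p hp using hmax
    have h1 := hmul (fun n => (p n).1) (fun n => (p n).2)
    have h2 : cls (fun n => F n ((p n).1 * (p n).2)) =
        cls (fun n => F n (p n).1 * F n (p n).2) := h1
    rw [cls_eq'] at h2
    have h3 := (tendsto_order.1 h2).2 δ hδ
    filter_upwards [h3] with n hn g h
    have h4 := hp n (g, h)
    have h5 : (0 : ℝ) < Fintype.card (A n) := by
      exact_mod_cast Fintype.card_pos
    unfold Helper418.dens at hn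
    rw [div_lt_iff₀ h5] at hn
    refine le_trans ?_ hn.le
    rw [Nat.cast_le]
    refine h4.trans (le_of_eq ?_)
    exact card_cg _ _ _ _ fun x => Iff.rfl
  have hQ : ∀ η > 0, ∀ᶠ n in atTop, Q (n + 1) (F n) η := by
    intro η hη
    obtain ⟨δ, hδ, h1⟩ := f1 η hη
    filter_upwards [hunif δ hδ] with n hn
    exact Q_of (h1 (G n) (Fin (n + 1)) (F n) (by intro g h; convert hn g h))
  obtain ⟨e, he0, hepos, heQ⟩ := diag (P := fun n η => Q (n + 1) (F n) η) hQ
  -- the distance of `f` and `F ∘ π`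
  let D : Γ → ℕ → ℝ := fun g => Helper418.dens (A := A) (fun n a => ¬ (f (n + 1) g a = F n (π n g) a))
  have hD : ∀ g, Tendsto (D g) atTop (𝓝 0) := by
    intro g
    have := hα g
    have h2 : cls (fun n => f (n + 1) g) = (cls (fun n => F n (π n g)) : SS A) := this
    rwa [cls_eq'] at h2
  have hch : ∀ N : ℕ, ∃ (m : ℕ) (hm : N ≤ m) (ρ : Γ →* Equiv.Perm (Fin m)),
      ∀ n (hn : N = n + 1), Q (n + 1) (F n) (e n) → ∀ g, fd hm (f N g) (ρ g) ≤ D g n + 2 * e n := by
    intro N
    rcases N with _ | n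
    · exact ⟨0, le_rfl, 1, fun n hn => by omega⟩
    by_cases hq : Q (n + 1) (F n) (e n)
    · obtain ⟨m, hm, ρ, h1, h2⟩ := hq
      refine ⟨m, hm, ρ.comp (π n), ?_⟩
      intro n' hn' _ g
      obtain rfl : n = n' := by omega
      have h3 := h2 (π n g)
      have hN : (0 : ℝ) < ((n + 1 : ℕ) : ℝ) := by positivity
      unfold fd
      rw [div_le_iff₀ hN]
      have h4 : ((univ.filter fun x : Fin (n + 1) => Fin.castLE hm (f (n + 1) g x) ≠
          (ρ.comp (π n)) g (Fin.castLE hm x)).card : ℝ) ≤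
          ((univ.filter fun x : Fin (n + 1) => ¬ (f (n + 1) g x = F n (π n g) x)).card : ℝ) +
          ((univ.filter fun x : Fin (n + 1) => Fin.castLE hm (F n (π n g) x) ≠
            ρ (π n g) (Fin.castLE hm x)).card : ℝ) := by
        have : (univ.filter fun x : Fin (n + 1) => Fin.castLE hm (f (n + 1) g x) ≠
            (ρ.comp (π n)) g (Fin.castLE hm x)) ⊆
            (univ.filter fun x : Fin (n + 1) => ¬ (f (n + 1) g x = F n (π n g) x)) ∪
            (univ.filter fun x : Fin (n + 1) => Fin.castLE hm (F n (π n g) x) ≠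
              ρ (π n g) (Fin.castLE hm x)) := by
          intro x hx
          simp only [mem_filter, mem_univ, true_and, mem_union] at hx ⊢
          by_contra hcon
          push Not at hcon
          exact hx (by rw [hcon.1, hcon.2]; rfl)
        exact_mod_cast (card_le_card this).trans (card_union_le _ _)
      have h5 : ((univ.filter fun x : Fin (n + 1) => ¬ (f (n + 1) g x = F n (π n g) x)).card : ℝ) =
          D g n * ((n + 1 : ℕ) : ℝ) := by
        have h6 : D g n = ((univ.filter fun x : Fin (n + 1) =>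
            ¬ (f (n + 1) g x = F n (π n g) x)).card : ℝ) / ((n + 1 : ℕ) : ℝ) := by
          show Helper418.dens (A := A) _ n = _
          unfold Helper418.dens
          congr!
          exact Fintype.card_fin _
        rw [h6, div_mul_cancel₀ _ hN.ne']
      rw [h5] at h4
      nlinarith
    · exact ⟨n + 1, le_rfl, 1, fun n' hn' hq' => by
        obtain rfl : n = n' := by omega
        exact absurd hq' hq⟩
  choose m hm ρ hρ using hch
  refine ⟨m, hm, ρ, fun g => ?_⟩
  rw [← tendsto_add_atTop_iff_nat 1]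
  have hlim : Tendsto (fun n => D g n + 2 * e n) atTop (𝓝 0) := by
    have := (hD g).add (he0.const_mul 2)
    simpa using this
  refine squeeze_zero' (Eventually.of_forall fun n => ?_) ?_ hlim
  · unfold fd
    have : (((n + 1 : ℕ) : ℝ)) ≤ (m (n + 1) : ℝ) := by exact_mod_cast hm (n + 1)
    apply div_nonneg _ (Nat.cast_nonneg _)
    have h0 : (0 : ℝ) ≤ ((univ.filter fun x : Fin (n + 1) =>
      Fin.castLE (hm (n + 1)) (f (n + 1) g x) ≠
        ρ (n + 1) g (Fin.castLE (hm (n + 1)) x)).card : ℝ) := Nat.cast_nonneg _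
    linarith
  · filter_upwards [heQ] with n hn
    exact hρ (n + 1) n rfl hn g
-- END TARGET

end Pool.Agent.H742F.F2
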