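import Pool.Agent.H742F.Stm

set_option autoImplicit false
set_option maxHeartbeats 400000

open Filter Topology Finset

namespace Pool.Agent.H742F.K1

open Helper418 Pool.Agent.helper987_SE Pool.Agent.Helper702_TH
open Matrix (SpecialLinearGroup)

/-- the basic relation -/
def D {ι R X : Type} [CommRing R] [Group X] (P : StRel ι R X) (i j : ι) (a b : R) : Prop :=
  ∀ v : Rˣ, (v : R) = 1 + a * b →
    P.x i j a * P.x j i b =
      P.x j i (b * (v⁻¹ : Rˣ)) * P.h i j v * P.x i j (a * (v⁻¹ : Rˣ))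

variable {ι R X : Type} [CommRing R] [Group X] (P : StRel ι R X)

theorem x_zero (i j : ι) (hij : i ≠ j) : P.x i j 0 = 1 := by
  have := P.add i j hij 0 0
  rw [add_zero] at this
  exact (left_eq_mul.mp this)

theorem x_neg (i j : ι) (hij : i ≠ j) (a : R) : P.x i j (-a) = (P.x i j a)⁻¹ := by
  have := P.add i j hij (-a) a
  rw [neg_add_cancel, x_zero P i j hij] at this
  exact eq_inv_of_mul_eq_one_left this.symm

/-- (i) the first entry is regular -/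
theorem D_reg (c5 : C5Q) (hT : Third ι) (hM : P.MulR) (i j : ι) (hij : i ≠ j) (s s' b : R)
    (h1 : s * s' * s = s) (h2 : s' * s * s' = s') : D P i j s b := by
  intro v hv
  have e1 : (s + (1 - s * s')) * (s' + (1 - s * s')) = 1 := by
    linear_combination s' * h1 - h1 - h2
  have e2 : (s' + (1 - s * s')) * (s + (1 - s * s')) = 1 := by
    rw [mul_comm]; exact e1
  let S : Rˣ := ⟨s + (1 - s * s'), s' + (1 - s * s'), e1, e2⟩
  have h5 := c5 ι R X P hT i j hij s s' b v S h1 h2 hv rfl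
  have hm := hM i j hij v (S * v⁻¹)
  have e3 : v * (S * v⁻¹) = S := by
    rw [mul_comm S, mul_inv_cancel_left]
  rw [e3] at hm
  rw [h5, ← hm, mul_inv_cancel_right]

/-- duality -/
theorem D_dual (c2 : C2P) (hT : Third ι) (i j : ι) (hij : i ≠ j) (a b : R)
    (h : D P j i (-b) (-a)) : D P i j a b := by
  intro v hv
  have h1 := h v (by rw [hv]; ring)
  have h2 : P.h j i v * P.h i j v = 1 := (c2 ι R X P hT i j hij v).2.2.2.1
  have h3 := congrArg (fun y => y⁻¹) h1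
  simp only [mul_inv_rev] at h3
  rw [← x_neg P i j hij, ← x_neg P j i hij.symm, ← x_neg P i j hij, ← x_neg P j i hij.symm,
    neg_neg, neg_neg, neg_mul, neg_neg, neg_mul, neg_neg, inv_eq_of_mul_eq_one_right h2] at h3
  rw [h3, ← mul_assoc]

/-- composition -/
theorem D_comp (c2 : C2P) (hT : Third ι) (hM : P.MulR) (i j : ι) (hij : i ≠ j) (a a' b : R)
    (v : Rˣ) (hv : (v : R) = 1 + a * b) (h1 : D P i j a b)
    (h2 : D P i j a' (b * (v⁻¹ : Rˣ))) : D P i j (a' + a) b := by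
  intro w hw
  have hvv : (v : R) * (v⁻¹ : Rˣ) = 1 := Units.mul_inv v
  have hww : (w : R) * (w⁻¹ : Rˣ) = 1 := Units.mul_inv w
  have e1 := h1 v hv
  have e2 := h2 (w * v⁻¹) (by
    rw [Units.val_mul, hw]
    linear_combination (-(v⁻¹ : Rˣ) : R) * hv + hvv)
  have e3 := ((c2 ι R X P hT i j hij v).1 ((v⁻¹ : Rˣ) * (v⁻¹ : Rˣ) * (a' * ((w * v⁻¹)⁻¹ : Rˣ)))).1
  have e4 : (v : R) * v * ((v⁻¹ : Rˣ) * (v⁻¹ : Rˣ) * (a' * ((w * v⁻¹)⁻¹ : Rˣ))) =
      a' * ((w * v⁻¹)⁻¹ : Rˣ) := by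
    linear_combination (a' * ((w * v⁻¹)⁻¹ : Rˣ)) * ((v : R) * (v⁻¹ : Rˣ) + 1) * hvv
  rw [e4] at e3
  have e5 := hM i j hij (w * v⁻¹) v
  rw [inv_mul_cancel_right] at e5
  have e6 : b * (v⁻¹ : Rˣ) * ((w * v⁻¹)⁻¹ : Rˣ) = b * (w⁻¹ : Rˣ) := by
    rw [mul_inv_rev, inv_inv, Units.val_mul]
    linear_combination (b * (w⁻¹ : Rˣ)) * hvv
  have e7 : (v⁻¹ : Rˣ) * (v⁻¹ : Rˣ) * (a' * ((w * v⁻¹)⁻¹ : Rˣ)) + a * (v⁻¹ : Rˣ) =
      (a' + a) * (w⁻¹ : Rˣ) := by
    rw [mul_inv_rev, inv_inv, Units.val_mul]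
    linear_combination ((v⁻¹ : Rˣ) * (w⁻¹ : Rˣ) * a' + (a' + a) * (w⁻¹ : Rˣ)) * hvv
      - a * (v⁻¹ : Rˣ) * hww + (v⁻¹ : Rˣ) * (w⁻¹ : Rˣ) * a * hw
      - (v⁻¹ : Rˣ) * (w⁻¹ : Rˣ) * (a' + a) * hv
  have e8 := P.add i j hij ((v⁻¹ : Rˣ) * (v⁻¹ : Rˣ) * (a' * ((w * v⁻¹)⁻¹ : Rˣ))) (a * (v⁻¹ : Rˣ))
  rw [e7] at e8
  rw [e6] at e2
  calc P.x i j (a' + a) * P.x j i b
      = P.x i j a' * (P.x i j a * P.x j i b) := by rw [P.add i j hij, mul_assoc]
    _ = (P.x i j a' * P.x j i (b * (v⁻¹ : Rˣ))) * P.h i j v * P.x i j (a * (v⁻¹ : Rˣ)) := by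
        rw [e1]; simp only [mul_assoc]
    _ = P.x j i (b * (w⁻¹ : Rˣ)) * P.h i j (w * v⁻¹) *
          (P.x i j (a' * ((w * v⁻¹)⁻¹ : Rˣ)) * P.h i j v) * P.x i j (a * (v⁻¹ : Rˣ)) := by
        rw [e2]; simp only [mul_assoc]
    _ = P.x j i (b * (w⁻¹ : Rˣ)) * (P.h i j (w * v⁻¹) * P.h i j v) *
          (P.x i j ((v⁻¹ : Rˣ) * (v⁻¹ : Rˣ) * (a' * ((w * v⁻¹)⁻¹ : Rˣ))) *
            P.x i j (a * (v⁻¹ : Rˣ))) := by
        rw [← e3]; simp only [mul_assoc]
    _ = P.x j i (b * (w⁻¹ : Rˣ)) * P.h i j w * P.x i j ((a' + a) * (w⁻¹ : Rˣ)) := by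
        rw [e5, ← e8]

/-- mirrored composition -/
theorem D_comp' (c2 : C2P) (hT : Third ι) (hM : P.MulR) (i j : ι) (hij : i ≠ j) (a b b' : R)
    (v : Rˣ) (hv : (v : R) = 1 + a * b) (h1 : D P i j a b)
    (h2 : D P i j (a * (v⁻¹ : Rˣ)) b') : D P i j a (b + b') := by
  apply D_dual P c2 hT i j hij
  have e : -(b + b') = -b' + -b := by ring
  rw [e]
  refine D_comp P c2 hT hM j i hij.symm (-b) (-b') (-a) v (by rw [hv]; ring) ?_ ?_
  · apply D_dual P c2 hT j i hij.symm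
    rwa [neg_neg, neg_neg]
  · apply D_dual P c2 hT j i hij.symm
    rwa [neg_mul, neg_neg, neg_neg]

/-- (ii) the second entry is regular -/
theorem D_reg' (c2 : C2P) (c5 : C5Q) (hT : Third ι) (hM : P.MulR) (i j : ι) (hij : i ≠ j)
    (a b b' : R) (h1 : b * b' * b = b) (h2 : b' * b * b' = b') : D P i j a b := by
  apply D_dual P c2 hT i j hij
  exact D_reg P c5 hT hM j i hij.symm (-b) (-b') (-a) (by linear_combination -h1)
    (by linear_combination -h2)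

/-- both entries are small -/
theorem D_small (c2 : C2P) (c5 : C5Q) (hT : Third ι) (hM : P.MulR) (i j : ι) (hij : i ≠ j)
    (a b : R) (ha : ∀ y, IsUnit (1 + a * y)) (hb : ∀ y, IsUnit (1 + b * y)) : D P i j a b := by
  obtain ⟨v, hv⟩ := hb 1
  obtain ⟨t, ht⟩ := ha (-1)
  have htt : (t : R) * (t⁻¹ : Rˣ) = 1 := Units.mul_inv t
  have e : a = (a - 1) + 1 := by ring
  rw [e]
  refine D_comp P c2 hT hM i j hij 1 (a - 1) b v (by rw [hv]; ring) ?_ ?_
  · exact D_reg P c5 hT hM i j hij 1 1 b (by ring) (by ring)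
  · exact D_reg P c5 hT hM i j hij (a - 1) (-(t⁻¹ : Rˣ)) _
      (by
        have : a = 1 - t := by rw [ht]; ring
        rw [this]
        linear_combination (-(t : R)) * htt)
      (by
        have : a = 1 - t := by rw [ht]; ring
        rw [this]
        linear_combination (-(t⁻¹ : Rˣ) : R) * htt)

/-- the second entry is small -/
theorem D_small' (c2 : C2P) (c5 : C5Q) (hT : Third ι) (hS : Split R) (hM : P.MulR) (i j : ι)
    (hij : i ≠ j) (a b : R) (hb : ∀ y, IsUnit (1 + b * y)) : D P i j a b := by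
  obtain ⟨e, a', he, h1, h2, h3⟩ := hS a
  obtain ⟨v, hv⟩ := hb (e * a)
  have e0 : a = (1 - e) * a + e * a := by ring
  rw [e0]
  refine D_comp P c2 hT hM i j hij (e * a) ((1 - e) * a) b v (by rw [hv]; ring) ?_ ?_
  · refine D_reg P c5 hT hM i j hij (e * a) a' b ?_ ?_
    · linear_combination (e * e * a) * h1 + (e * a + a) * he
    · linear_combination (a' * e) * h1 + a' * he + h2
  · refine D_small P c2 c5 hT hM i j hij _ _ h3 fun y => ?_
    have := hb ((v⁻¹ : Rˣ) * y)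
    rwa [← mul_assoc] at this

-- BEGIN TARGET
theorem main (c0 : C0Q) (c2 : C2P) (c5 : C5Q) : K1Q := by
  intro ι R X _ _ P hT hS hM i j hij a b v hv
  suffices h : D P i j a b from h v hv
  obtain ⟨e, b', he, h1, h2, h3⟩ := hS b
  obtain ⟨w, hw⟩ := h3 (-a * (v⁻¹ : Rˣ))
  have hvv : (v : R) * (v⁻¹ : Rˣ) = 1 := Units.mul_inv v
  have e0 : b = e * b + (1 - e) * b := by ring
  rw [e0]
  refine D_comp' P c2 hT hM i j hij a (e * b) ((1 - e) * b) (v * w) ?_ ?_ ?_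
  · rw [Units.val_mul, hw]
    linear_combination hv - a * (1 - e) * b * hvv
  · refine D_reg' P c2 c5 hT hM i j hij a (e * b) b' ?_ ?_
    · linear_combination (e * e * b) * h1 + (e * b + b) * he
    · linear_combination (b' * e) * h1 + b' * he + h2
  · exact D_small' P c2 c5 hT hS hM i j hij _ _ h3
-- END TARGET

end Pool.Agent.H742F.K1
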