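import Pool.Agent.H742F.Stm

set_option autoImplicit false
set_option maxHeartbeats 400000

open Filter Topology Finset

namespace Pool.Agent.H742F.K2

open Helper418 Pool.Agent.helper987_SE Pool.Agent.Helper702_TH
open Matrix (SpecialLinearGroup)

theorem comb {G : Type} [Group G] (xe xf ye yf ze zf : G) (h1 : Commute xf ye)
    (h2 : Commute yf ze) (h3 : Commute xf ze) :
    (xe * xf) * (ye * yf) * (ze * zf) = (xe * ye * ze) * (xf * yf * zf) := by
  calc (xe * xf) * (ye * yf) * (ze * zf) = xe * (xf * ye) * (yf * ze) * zf := by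
        simp only [mul_assoc]
    _ = xe * (ye * xf) * (ze * yf) * zf := by rw [h1.eq, h2.eq]
    _ = xe * ye * (xf * ze) * yf * zf := by simp only [mul_assoc]
    _ = xe * ye * (ze * xf) * yf * zf := by rw [h3.eq]
    _ = _ := by simp only [mul_assoc]

theorem comb2 {G : Type} [Group G] (XA H1 YB Yp Xq H2 Yr : G) (c1 : Commute YB Yp)
    (c2 : Commute YB Xq) (c3 : Commute YB H2) (c4 : Commute H1 Yp) (c5 : Commute H1 Xq)
    (c6 : Commute XA Yp) :
    (XA * H1 * YB) * (Yp * Xq * H2 * Yr) = Yp * (XA * Xq) * (H1 * H2) * (YB * Yr) := by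
  have e1 : Commute YB (Yp * Xq * H2) := (c1.mul_right c2).mul_right c3
  have e2 : Commute H1 (Yp * Xq) := c4.mul_right c5
  calc (XA * H1 * YB) * (Yp * Xq * H2 * Yr) = XA * H1 * (YB * (Yp * Xq * H2)) * Yr := by
        simp only [mul_assoc]
    _ = XA * H1 * ((Yp * Xq * H2) * YB) * Yr := by rw [e1.eq]
    _ = XA * (H1 * (Yp * Xq)) * H2 * YB * Yr := by simp only [mul_assoc]
    _ = XA * ((Yp * Xq) * H1) * H2 * YB * Yr := by rw [e2.eq]
    _ = (XA * Yp) * Xq * H1 * H2 * YB * Yr := by simp only [mul_assoc]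
    _ = (Yp * XA) * Xq * H1 * H2 * YB * Yr := by rw [c6.eq]
    _ = _ := by simp only [mul_assoc]

-- BEGIN TARGET
theorem main (c0 : C0Q) (c1 : C1P) (c2 : C2P) (k1 : K1Q) : K2Q := by
  intro ι R X _ _ P hT hS hM i j hij a b c
  obtain ⟨e, y0, he, hy0, hy0e, hsm⟩ := hS (1 + b * c)
  -- basic facts
  have ax : ∀ a b, P.x i j (a + b) = P.x i j a * P.x i j b := P.add i j hij
  have ay : ∀ a b, P.x j i (a + b) = P.x j i a * P.x j i b := P.add j i hij.symm
  have cxx : ∀ a b, Commute (P.x i j a) (P.x i j b) := by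
    intro a b
    show _ = _
    rw [← ax, ← ax, add_comm]
  have cyy : ∀ a b, Commute (P.x j i a) (P.x j i b) := by
    intro a b
    show _ = _
    rw [← ay, ← ay, add_comm]
  have cXY := (c0 ι R X P hT i j hij e he).1
  have cYX := (c0 ι R X P hT j i hij.symm e he).1
  have hh1 : P.h i j 1 = 1 := (c2 ι R X P hT i j hij 1).2.2.2.2.1
  have hji : ∀ u : Rˣ, P.h j i u = P.h i j u⁻¹ := by
    intro u
    have e1 := (c2 ι R X P hT i j hij u).2.2.2.1
    have e2 : P.h i j u⁻¹ * P.h i j u = 1 := by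
      rw [hM i j hij, inv_mul_cancel, hh1]
    exact mul_right_cancel (e1.trans e2.symm)
  have hy : ∀ (u : Rˣ) (a : R), P.h i j u * P.x j i a =
      P.x j i ((u⁻¹ : Rˣ) * (u⁻¹ : Rˣ) * a) * P.h i j u := fun u a =>
    ((c2 ι R X P hT i j hij u).1 a).2
  have hx : ∀ (u : Rˣ) (a : R), P.h i j u * P.x i j a = P.x i j (u * u * a) * P.h i j u :=
    fun u a => ((c2 ι R X P hT i j hij u).1 a).1
  set f : R := 1 - e with hf
  have hef : e * f = 0 := by rw [hf, mul_sub, he]; ring
  have hfe : f * e = 0 := by rw [mul_comm]; exact hef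
  have hff : f * f = f := by
    have : f * f = f - e * f := by rw [hf]; ring
    rw [this, hef, sub_zero]
  have hef1 : e + f = 1 := by rw [hf]; ring
  -- the part of `e`
  have hE : ∃ (A' : R) (u1 : Rˣ) (B' : R),
      P.x i j (e * a) * P.x j i (e * b) * P.x i j (e * c) =
        P.x i j A' * P.h i j u1 * P.x j i B' ∧ e * A' = A' ∧ e * B' = B' ∧
        f * (u1 : R) = f := by
    have hprod : (1 + e * b * (e * c)) * (f + e * y0) = 1 := by
      have e1 : 1 + e * b * (e * c) = f + e * (1 + b * c) := by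
        have : e * b * (e * c) = e * e * (b * c) := by ring
        rw [this, he, hf]; ring
      rw [e1]
      calc (f + e * (1 + b * c)) * (f + e * y0)
          = f * f + (e * f) * y0 + (e * f) * (1 + b * c) + (e * e) * ((1 + b * c) * y0) := by ring
        _ = 1 := by rw [hff, hef, he, hy0, he]; rw [← hef1]; ring
    let v : Rˣ := ⟨1 + e * b * (e * c), f + e * y0, hprod, by rw [mul_comm]; exact hprod⟩
    have hv : (v : R) = 1 + e * b * (e * c) := rfl
    have hvi : ((v⁻¹ : Rˣ) : R) = f + e * y0 := rfl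
    have hk := k1 ι R X P hT hS hM j i hij.symm (e * b) (e * c) v hv
    refine ⟨e * a + e * c * (v⁻¹ : Rˣ), v⁻¹, e * b * (v⁻¹ : Rˣ), ?_, ?_, ?_, ?_⟩
    · rw [mul_assoc, hk, ax, hji]
      simp only [mul_assoc]
    · calc e * (e * a + e * c * (v⁻¹ : Rˣ)) = (e * e) * a + (e * e) * c * (v⁻¹ : Rˣ) := by ring
        _ = _ := by rw [he]
    · calc e * (e * b * (v⁻¹ : Rˣ)) = (e * e) * b * (v⁻¹ : Rˣ) := by ring
        _ = _ := by rw [he]
    · rw [hvi, mul_add, hff, ← mul_assoc, hfe, zero_mul, add_zero]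
  -- the part of `f`
  have hF : ∃ (p q : R) (u2 : Rˣ) (r : R),
      P.x i j (f * a) * P.x j i (f * b) * P.x i j (f * c) =
        P.x j i p * P.x i j q * P.h i j u2 * P.x j i r ∧ e * p = 0 ∧ e * q = 0 ∧
        e * (u2 : R) = e := by
    obtain ⟨w, hw⟩ := hsm (-1)
    have hw' : (w : R) = 1 - f * (1 + b * c) := by rw [hw]; ring
    have hfw : f * w = -(f * b * c) := by
      rw [hw', mul_sub, ← mul_assoc, hff]; ring
    set b1 : R := f * b with hb1
    set b1' : R := -(f * c * (w⁻¹ : Rˣ)) with hb1'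
    have hww : (w : R) * (w⁻¹ : Rˣ) = 1 := w.mul_inv
    have hbb : b1 * b1' = f := by
      calc b1 * b1' = (f * f) * -(b * c) * (w⁻¹ : Rˣ) := by rw [hb1, hb1']; ring
        _ = -(f * b * c) * (w⁻¹ : Rˣ) := by rw [hff]; ring
        _ = f * ((w : R) * (w⁻¹ : Rˣ)) := by rw [← hfw]; ring
        _ = f := by rw [hww, mul_one]
    have hfb1 : f * b1 = b1 := by rw [hb1, ← mul_assoc, hff]
    have hfb1' : f * b1' = b1' := by
      rw [hb1', mul_neg, ← mul_assoc, ← mul_assoc, hff]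
    have heb1 : e * b1 = 0 := by rw [hb1, ← mul_assoc, hef, zero_mul]
    have heb1' : e * b1' = 0 := by
      rw [hb1', mul_neg, ← mul_assoc, ← mul_assoc, hef, zero_mul, zero_mul, neg_zero]
    obtain ⟨-, hW2, hW3, -⟩ := c1 ι R X P hT i j hij (-b1') (-b1)
      (by
        calc -b1' * -b1 * -b1' = -((b1 * b1') * b1') := by ring
          _ = -b1' := by rw [hbb, hfb1'])
      (by
        calc -b1 * -b1' * -b1 = -((b1 * b1') * b1) := by ring
          _ = -b1 := by rw [hbb, hfb1])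
    set W : X := P.W i j (-b1') (-b1) with hW
    have hW1 : W = P.x i j (-b1') * P.x j i b1 * P.x i j (-b1') := by
      rw [hW, StRel.W, neg_neg b1]
    have hW2' : W = P.x j i b1 * P.x i j (-b1') * P.x j i b1 := by
      rw [hW2, StRel.W, neg_neg b1, neg_neg b1']
    set a2 : R := f * a + b1' with ha2
    set c' : R := f * c + b1' with hc'
    have hfa2 : f * a2 = a2 := by
      rw [ha2, mul_add, ← mul_assoc, hff, hfb1']
    have hfc' : f * c' = c' := by
      rw [hc', mul_add, ← mul_assoc, hff, hfb1']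
    have hc'2 : c' = -(f * (1 + b * c) * (c * (w⁻¹ : Rˣ))) := by
      calc c' = f * c * 1 - f * c * (w⁻¹ : Rˣ) := by rw [hc', hb1']; ring
        _ = f * c * ((w : R) * (w⁻¹ : Rˣ)) - f * c * (w⁻¹ : Rˣ) := by rw [hww]
        _ = f * c * ((w : R) - 1) * (w⁻¹ : Rˣ) := by ring
        _ = -((f * f) * (1 + b * c) * (c * (w⁻¹ : Rˣ))) := by rw [hw']; ring
        _ = _ := by rw [hff]
    set a3 : R := -(b1 * b1 * a2) with ha3
    have hea3 : e * a3 = 0 := by
      rw [ha3, mul_neg, mul_assoc, ← mul_assoc, heb1, zero_mul, neg_zero]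
    have hfa3 : f * a3 = a3 := by
      rw [ha3, mul_neg, mul_assoc, ← mul_assoc, hfb1]
    have hec' : e * c' = 0 := by
      rw [← hfc', ← mul_assoc, hef, zero_mul]
    obtain ⟨v2, hv2⟩ := hsm (b1 * b1 * a2 * (c * (w⁻¹ : Rˣ)))
    have hv2' : (v2 : R) = 1 + a3 * c' := by
      rw [hv2, hc'2, ha3]; ring
    have hk := k1 ι R X P hT hS hM j i hij.symm a3 c' v2 hv2'
    have htt : -b1' * -b1 = f := by rw [neg_mul_neg, mul_comm, hbb]
    have hWx := (hW3 (c' * (v2⁻¹ : Rˣ)) (by rw [htt, ← mul_assoc, hfc'])).1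
    have hWy := (hW3 a3 (by rw [htt, hfa3])).2
    have hWy' : P.x i j a2 * W = W * P.x j i a3 := by
      rw [hWy]
      congr 2
      calc a2 = f * (f * a2) := by rw [hfa2, hfa2]
        _ = (b1 * b1') * ((b1 * b1') * a2) := by rw [hbb]
        _ = _ := by rw [ha3]; ring
    have hx1 : P.x i j (f * a) = P.x i j a2 * P.x i j (-b1') := by
      rw [← ax, ha2]; congr 1; ring
    have hx2 : P.x i j (f * c) = P.x i j (-b1') * P.x i j c' := by
      rw [← ax, hc']; congr 1; ring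
    have hev : e * ((v2⁻¹ : Rˣ) : R) = e := by
      have h1 : e * (v2 : R) = e := by
        rw [hv2', mul_add, mul_one, ← mul_assoc, hea3, zero_mul, add_zero]
      calc e * ((v2⁻¹ : Rˣ) : R) = (e * (v2 : R)) * ((v2⁻¹ : Rˣ) : R) := by rw [h1]
        _ = e * ((v2 : R) * ((v2⁻¹ : Rˣ) : R)) := by ring
        _ = e := by rw [v2.mul_inv, mul_one]
    -- moving `x' b1` through `h`
    have hmv : P.x j i b1 * P.h i j v2⁻¹ =
        P.h i j v2⁻¹ * P.x j i ((v2⁻¹ : Rˣ) * (v2⁻¹ : Rˣ) * b1) := by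
      rw [hy]
      congr 2
      rw [inv_inv]
      calc b1 = ((v2 : R) * ((v2⁻¹ : Rˣ) : R)) * ((v2 : R) * ((v2⁻¹ : Rˣ) : R)) * b1 := by
            rw [v2.mul_inv]; ring
        _ = _ := by ring
    set p0 : R := -(-b1 * -b1 * (c' * (v2⁻¹ : Rˣ))) with hp0
    refine ⟨p0 + b1, -b1', v2⁻¹, (v2⁻¹ : Rˣ) * (v2⁻¹ : Rˣ) * b1 + a3 * (v2⁻¹ : Rˣ),
      ?_, ?_, ?_, hev⟩
    · calc P.x i j (f * a) * P.x j i (f * b) * P.x i j (f * c)
          = P.x i j a2 * (P.x i j (-b1') * P.x j i b1 * P.x i j (-b1')) * P.x i j c' := by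
            rw [hx1, hx2, ← hb1]; simp only [mul_assoc]
        _ = (P.x i j a2 * W) * P.x i j c' := by rw [← hW1]
        _ = W * (P.x j i a3 * P.x i j c') := by rw [hWy', mul_assoc]
        _ = (W * P.x i j (c' * (v2⁻¹ : Rˣ))) * P.h j i v2 * P.x j i (a3 * (v2⁻¹ : Rˣ)) := by
            rw [hk]; simp only [mul_assoc]
        _ = (P.x j i p0 * W) * P.h j i v2 * P.x j i (a3 * (v2⁻¹ : Rˣ)) := by rw [hWx]
        _ = P.x j i p0 * (P.x j i b1 * P.x i j (-b1') * P.x j i b1) * P.h i j v2⁻¹ *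
              P.x j i (a3 * (v2⁻¹ : Rˣ)) := by rw [hji, ← hW2']
        _ = (P.x j i p0 * P.x j i b1) * P.x i j (-b1') * (P.x j i b1 * P.h i j v2⁻¹) *
              P.x j i (a3 * (v2⁻¹ : Rˣ)) := by simp only [mul_assoc]
        _ = _ := by
            rw [hmv, ay, ay]
            simp only [mul_assoc]
    · rw [hp0, mul_add, heb1, add_zero]
      calc e * -(-b1 * -b1 * (c' * (v2⁻¹ : Rˣ))) = -((e * b1) * b1 * (c' * (v2⁻¹ : Rˣ))) := by ring
        _ = 0 := by rw [heb1]; ring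
    · rw [mul_neg, heb1', neg_zero]
  obtain ⟨A', u1, B', hE1, hA', hB', hu1⟩ := hE
  obtain ⟨p, q, u2, r, hF1, hp, hq, hu2⟩ := hF
  -- supports
  have hfp : f * p = p := by
    calc f * p = (e + f) * p - e * p := by ring
      _ = p := by rw [hef1, hp]; ring
  have hfq : f * q = q := by
    calc f * q = (e + f) * q - e * q := by ring
      _ = q := by rw [hef1, hq]; ring
  -- units acting trivially
  have inv_of : ∀ (g : R) (u : Rˣ), g * (u : R) = g → g * ((u⁻¹ : Rˣ) : R) = g := by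
    intro g u hu
    calc g * ((u⁻¹ : Rˣ) : R) = (g * (u : R)) * ((u⁻¹ : Rˣ) : R) := by rw [hu]
      _ = g * ((u : R) * ((u⁻¹ : Rˣ) : R)) := by ring
      _ = g := by rw [u.mul_inv, mul_one]
  have hcy : ∀ (g s : R) (u : Rˣ), g * (u : R) = g → g * s = s →
      Commute (P.h i j u) (P.x j i s) := by
    intro g s u hu hs
    show _ = _
    rw [hy]
    congr 2
    have h1 := inv_of g u hu
    calc ((u⁻¹ : Rˣ) : R) * (u⁻¹ : Rˣ) * s = (g * ((u⁻¹ : Rˣ) : R)) * (u⁻¹ : Rˣ) * s := by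
          conv_lhs => rw [← hs]
          ring
      _ = (g * ((u⁻¹ : Rˣ) : R)) * s := by rw [h1, h1]
      _ = s := by rw [h1, hs]
  have hcx : ∀ (g s : R) (u : Rˣ), g * (u : R) = g → g * s = s →
      Commute (P.h i j u) (P.x i j s) := by
    intro g s u hu hs
    show _ = _
    rw [hx]
    congr 2
    calc (u : R) * u * s = (g * (u : R)) * u * s := by
          conv_lhs => rw [← hs]
          ring
      _ = (g * (u : R)) * s := by rw [hu, hu]
      _ = s := by rw [hu, hs]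
  refine ⟨p, A' + q, u1 * u2, B' + r, ?_⟩
  have hsplit : ∀ s : R, s = e * s + f * s := by
    intro s
    rw [← add_mul, hef1, one_mul]
  have hee : ∀ s : R, e * (e * s) = e * s := fun s => by rw [← mul_assoc, he]
  have hef' : ∀ s : R, e * (f * s) = 0 := fun s => by rw [← mul_assoc, hef, zero_mul]
  calc P.x i j a * P.x j i b * P.x i j c
      = (P.x i j (e * a) * P.x i j (f * a)) * (P.x j i (e * b) * P.x j i (f * b)) *
          (P.x i j (e * c) * P.x i j (f * c)) := by
        rw [← ax, ← ay, ← ax, ← hsplit, ← hsplit, ← hsplit]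
    _ = (P.x i j (e * a) * P.x j i (e * b) * P.x i j (e * c)) *
          (P.x i j (f * a) * P.x j i (f * b) * P.x i j (f * c)) :=
        comb _ _ _ _ _ _ (cYX _ _ (hee b) (hef' a)).symm (cXY _ _ (hee c) (hef' b)).symm
          (cxx _ _)
    _ = (P.x i j A' * P.h i j u1 * P.x j i B') *
          (P.x j i p * P.x i j q * P.h i j u2 * P.x j i r) := by rw [hE1, hF1]
    _ = P.x j i p * (P.x i j A' * P.x i j q) * (P.h i j u1 * P.h i j u2) *
          (P.x j i B' * P.x j i r) :=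
        comb2 _ _ _ _ _ _ _ (cyy _ _) (cYX _ _ hB' hq) (hcy e B' u2 hu2 hB').symm
          (hcy f p u1 hu1 hfp) (hcx f q u1 hu1 hfq) (cXY _ _ hA' hp)
    _ = _ := by rw [← ax, ← ay, hM i j hij]
-- END TARGET

end Pool.Agent.H742F.K2
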