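import Pool.Agent.H742F.Stm

set_option autoImplicit false
set_option maxHeartbeats 400000

open Filter Topology Finset

namespace Pool.Agent.H742F.K3

open Helper418 Pool.Agent.helper987_SE Pool.Agent.Helper702_TH
open Matrix (SpecialLinearGroup)

section groups

variable {X : Type} [Group X]

lemma norm_cl {A T : Set X} (hA : ∀ a ∈ A, a⁻¹ ∈ A)
    (h : ∀ a ∈ A, ∀ t ∈ T, a * t * a⁻¹ ∈ Subgroup.closure T) :
    ∀ g ∈ Subgroup.closure A, ∀ y ∈ Subgroup.closure T, g * y * g⁻¹ ∈ Subgroup.closure T := by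
  have h1 : ∀ a ∈ A, ∀ y ∈ Subgroup.closure T, a * y * a⁻¹ ∈ Subgroup.closure T := by
    intro a ha y hy
    induction hy using Subgroup.closure_induction with
    | mem t ht => exact h a ha t ht
    | one => simp [one_mem]
    | mul y z _ _ hy hz =>
      have e : a * (y * z) * a⁻¹ = (a * y * a⁻¹) * (a * z * a⁻¹) := by group
      rw [e]; exact mul_mem hy hz
    | inv y _ hy =>
      have e : a * y⁻¹ * a⁻¹ = (a * y * a⁻¹)⁻¹ := by group
      rw [e]; exact inv_mem hy
  have h2 : ∀ g ∈ Subgroup.closure A, ∀ y ∈ Subgroup.closure T,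
      g * y * g⁻¹ ∈ Subgroup.closure T ∧ g⁻¹ * y * g ∈ Subgroup.closure T := by
    intro g hg
    induction hg using Subgroup.closure_induction with
    | mem a ha =>
      intro y hy
      refine ⟨h1 a ha y hy, ?_⟩
      have := h1 _ (hA a ha) y hy
      rwa [inv_inv] at this
    | one => intro y hy; simpa using hy
    | mul g k _ _ hg hk =>
      intro y hy
      constructor
      · have e : g * k * y * (g * k)⁻¹ = g * (k * y * k⁻¹) * g⁻¹ := by group
        rw [e]; exact (hg _ (hk y hy).1).1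
      · have e : (g * k)⁻¹ * y * (g * k) = k⁻¹ * (g⁻¹ * y * g) * k := by group
        rw [e]; exact (hk _ (hg y hy).2).2
    | inv g _ hg =>
      intro y hy
      refine ⟨?_, ?_⟩
      · have := (hg y hy).2
        rwa [inv_inv]
      · have := (hg y hy).1
        rwa [inv_inv]
  exact fun g hg y hy => (h2 g hg y hy).1

lemma comm_cl {A T : Set X} (h : ∀ a ∈ A, ∀ t ∈ T, Commute a t) :
    ∀ g ∈ Subgroup.closure A, ∀ y ∈ Subgroup.closure T, Commute g y := by
  have h1 : ∀ a ∈ A, ∀ y ∈ Subgroup.closure T, Commute a y := by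
    intro a ha y hy
    induction hy using Subgroup.closure_induction with
    | mem t ht => exact h a ha t ht
    | one => exact Commute.one_right a
    | mul y z _ _ hy hz => exact hy.mul_right hz
    | inv y _ hy => exact hy.inv_right
  intro g hg y hy
  induction hg using Subgroup.closure_induction with
  | mem a ha => exact h1 a ha y hy
  | one => exact Commute.one_left y
  | mul g k _ _ hg hk => exact hg.mul_left hk
  | inv g _ hg => exact hg.inv_left

/-- one-parameter families -/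
lemma split {ι R : Type} [DecidableEq ι] [CommRing R] (y : ι → R → X) (T : Finset ι) (j : ι)
    (hadd : ∀ a b, y j (a + b) = y j a * y j b)
    (hc : ∀ k ∈ T, ∀ a b, Commute (y k a) (y j b)) :
    ∀ d ∈ Subgroup.closure {z | ∃ k ∈ insert j T, ∃ a, z = y k a},
      ∃ d' ∈ Subgroup.closure {z | ∃ k ∈ T, ∃ a, z = y k a}, ∃ r, d = d' * y j r ∧
        Commute d' (y j r) := by
  have h0 : y j 0 = 1 := by
    have := hadd 0 0
    rw [add_zero] at this
    exact left_eq_mul.mp this
  have hcc : ∀ d ∈ Subgroup.closure {z | ∃ k ∈ T, ∃ a, z = y k a}, ∀ r, Commute d (y j r) := by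
    intro d hd r
    refine comm_cl (A := {z | ∃ k ∈ T, ∃ a, z = y k a}) (T := {y j r}) ?_ d hd (y j r)
      (Subgroup.subset_closure rfl)
    rintro _ ⟨k, hk, a, rfl⟩ _ rfl
    exact hc k hk a r
  intro d hd
  induction hd using Subgroup.closure_induction with
  | mem z hz =>
    obtain ⟨k, hk, a, rfl⟩ := hz
    rcases Finset.mem_insert.1 hk with rfl | hk
    · exact ⟨1, one_mem _, a, by rw [one_mul], Commute.one_left _⟩
    · exact ⟨y k a, Subgroup.subset_closure ⟨k, hk, a, rfl⟩, 0, by rw [h0, mul_one],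
        by rw [h0]; exact Commute.one_right _⟩
  | one => exact ⟨1, one_mem _, 0, by rw [h0, mul_one], Commute.one_left _⟩
  | mul u v _ _ hu hv =>
    obtain ⟨u', hu', r, rfl, _⟩ := hu
    obtain ⟨v', hv', s, rfl, _⟩ := hv
    refine ⟨u' * v', mul_mem hu' hv', r + s, ?_, hcc _ (mul_mem hu' hv') _⟩
    rw [hadd, mul_assoc u' (y j r), ← mul_assoc (y j r), ← (hcc v' hv' r).eq]
    group
  | inv u _ hu =>
    obtain ⟨u', hu', r, rfl, _⟩ := hu
    refine ⟨u'⁻¹, inv_mem hu', -r, ?_, hcc _ (inv_mem hu') _⟩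
    have e : y j (-r) = (y j r)⁻¹ := by
      refine eq_inv_of_mul_eq_one_left ?_
      rw [← hadd, neg_add_cancel, h0]
    rw [e, mul_inv_rev]
    exact ((hcc u' hu' r).inv_inv).symm.eq

/-- parametrisation of the group generated by commuting one-parameter families -/
lemma param {ι R : Type} [DecidableEq ι] [CommRing R] {Mt : Type} [Ring Mt] (f : X →* Mt)
    (y : ι → R → X) (E : ι → R → Mt) (T : Finset ι)
    (hadd : ∀ j ∈ T, ∀ a b, y j (a + b) = y j a * y j b)
    (hc : ∀ j ∈ T, ∀ k ∈ T, ∀ a b, Commute (y j a) (y k b))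
    (hE : ∀ j ∈ T, ∀ a, f (y j a) = 1 + E j a)
    (hEE : ∀ j ∈ T, ∀ k ∈ T, ∀ a b, E j a * E k b = 0) :
    ∃ F : (ι → R) → X, (∀ s t, F (s + t) = F s * F t) ∧
      (∀ j ∈ T, ∀ a, F (Pi.single j a) = y j a) ∧
      (∀ s, (∀ j ∈ T, s j = 0) → F s = 1) ∧
      (∀ s, F s ∈ Subgroup.closure {z | ∃ k ∈ T, ∃ a, z = y k a}) ∧
      ∀ s, f (F s) = 1 + ∑ j ∈ T, E j (s j) := by
  induction T using Finset.induction_on with
  | empty =>
    refine ⟨fun _ => 1, by simp, by simp, by simp, fun _ => one_mem _, by simp⟩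
  | insert j T hj ih =>
    obtain ⟨F, h1, h2, h3, h4, h5⟩ := ih
      (fun k hk => hadd k (Finset.mem_insert_of_mem hk))
      (fun k hk l hl => hc k (Finset.mem_insert_of_mem hk) l (Finset.mem_insert_of_mem hl))
      (fun k hk => hE k (Finset.mem_insert_of_mem hk))
      (fun k hk l hl => hEE k (Finset.mem_insert_of_mem hk) l (Finset.mem_insert_of_mem hl))
    have hj' : j ∈ insert j T := Finset.mem_insert_self j T
    have h0 : y j 0 = 1 := by
      have := hadd j hj' 0 0
      rw [add_zero] at this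
      exact left_eq_mul.mp this
    have hcc : ∀ s r, Commute (F s) (y j r) := by
      intro s r
      refine comm_cl (A := {z | ∃ k ∈ T, ∃ a, z = y k a}) (T := {y j r}) ?_ _ (h4 s) (y j r)
        (Subgroup.subset_closure rfl)
      rintro _ ⟨k, hk, a, rfl⟩ _ rfl
      exact hc k (Finset.mem_insert_of_mem hk) j hj' a r
    refine ⟨fun s => y j (s j) * F s, ?_, ?_, ?_, ?_, ?_⟩
    · intro s t
      show y j (s j + t j) * F (s + t) = y j (s j) * F s * (y j (t j) * F t)
      rw [hadd j hj', h1, mul_assoc, ← mul_assoc (y j (t j)), ← (hcc s (t j)).eq]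
      group
    · intro k hk a
      show y j ((Pi.single k a : ι → R) j) * F (Pi.single k a) = y k a
      by_cases hkj : k = j
      · subst hkj
        rw [Pi.single_eq_same, h3, mul_one]
        intro i hi
        refine Pi.single_eq_of_ne ?_ _
        rintro rfl
        exact hj hi
      · rw [Pi.single_eq_of_ne (Ne.symm hkj), h0, one_mul,
          h2 k ((Finset.mem_insert.1 hk).resolve_left hkj)]
    · intro s hs
      show y j (s j) * F s = 1
      rw [hs j hj', h0, one_mul, h3 s fun i hi => hs i (Finset.mem_insert_of_mem hi)]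
    · intro s
      refine mul_mem (Subgroup.subset_closure ⟨j, hj', _, rfl⟩) ?_
      refine Subgroup.closure_mono ?_ (h4 s)
      rintro _ ⟨k, hk, a, rfl⟩
      exact ⟨k, Finset.mem_insert_of_mem hk, a, rfl⟩
    · intro s
      show f (y j (s j) * F s) = _
      rw [map_mul, hE j hj', h5, Finset.sum_insert hj, add_mul, one_mul, mul_add, mul_one,
        Finset.mul_sum, Finset.sum_eq_zero fun k hk => hEE j hj' k
          (Finset.mem_insert_of_mem hk) (s j) (s k)]
      abel

lemma param' {ι R : Type} [DecidableEq ι] [CommRing R] {Mt : Type} [Ring Mt] (f : X →* Mt)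
    (y : ι → R → X) (E : ι → R → Mt) (T : Finset ι)
    (hadd : ∀ j ∈ T, ∀ a b, y j (a + b) = y j a * y j b)
    (hc : ∀ j ∈ T, ∀ k ∈ T, ∀ a b, Commute (y j a) (y k b))
    (hE : ∀ j ∈ T, ∀ a, f (y j a) = 1 + E j a)
    (hEE : ∀ j ∈ T, ∀ k ∈ T, ∀ a b, E j a * E k b = 0) :
    ∀ d ∈ Subgroup.closure {z | ∃ k ∈ T, ∃ a, z = y k a}, ∃ s : ι → R,
      f d = 1 + ∑ j ∈ T, E j (s j) ∧ ((∀ j ∈ T, s j = 0) → d = 1) := by
  obtain ⟨F, h1, h2, h3, -, h5⟩ := param f y E T hadd hc hE hEE
  have h0 : F 0 = 1 := h3 0 fun _ _ => rfl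
  have key : ∀ d ∈ Subgroup.closure {z | ∃ k ∈ T, ∃ a, z = y k a}, ∃ s, d = F s := by
    intro d hd
    induction hd using Subgroup.closure_induction with
    | mem z hz =>
      obtain ⟨k, hk, a, rfl⟩ := hz
      exact ⟨Pi.single k a, (h2 k hk a).symm⟩
    | one => exact ⟨0, h0.symm⟩
    | mul u v _ _ hu hv =>
      obtain ⟨s, rfl⟩ := hu
      obtain ⟨t, rfl⟩ := hv
      exact ⟨s + t, (h1 s t).symm⟩
    | inv u _ hu =>
      obtain ⟨s, rfl⟩ := hu
      refine ⟨-s, ?_⟩
      rw [inv_eq_iff_mul_eq_one, ← h1, add_neg_cancel, h0]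
  intro d hd
  obtain ⟨s, rfl⟩ := key d hd
  exact ⟨s, h5 s, fun h => h3 s h⟩

end groups


section basics

variable {ι R X : Type} [CommRing R] [Group X] (P : StRel ι R X)

lemma x0 {i j : ι} (h : i ≠ j) : P.x i j 0 = 1 := by
  have := P.add i j h 0 0
  rw [add_zero] at this
  exact left_eq_mul.mp this

lemma xneg {i j : ι} (h : i ≠ j) (a : R) : P.x i j (-a) = (P.x i j a)⁻¹ := by
  have := P.add i j h (-a) a
  rw [neg_add_cancel, x0 P h] at this
  exact eq_inv_of_mul_eq_one_left this.symm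

/-- the generators with indices in `S` -/
def gX (S : Finset ι) : Set X := {y | ∃ i ∈ S, ∃ j ∈ S, ∃ a, i ≠ j ∧ y = P.x i j a}

/-- row generators -/
def gM (n : ι) (S : Finset ι) : Set X := {y | ∃ j ∈ S, ∃ a, y = P.x n j a}

/-- column generators -/
def gP (n : ι) (S : Finset ι) : Set X := {y | ∃ j ∈ S, ∃ a, y = P.x j n a}

lemma gX_inv (S : Finset ι) : ∀ a ∈ gX P S, a⁻¹ ∈ gX P S := by
  rintro _ ⟨i, hi, j, hj, a, h, rfl⟩
  exact ⟨i, hi, j, hj, -a, h, (xneg P h a).symm⟩

lemma gM_mem {n : ι} {S : Finset ι} {j : ι} (hj : j ∈ S) (a : R) :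
    P.x n j a ∈ Subgroup.closure (gM P n S) := Subgroup.subset_closure ⟨j, hj, a, rfl⟩

lemma gP_mem {n : ι} {S : Finset ι} {j : ι} (hj : j ∈ S) (a : R) :
    P.x j n a ∈ Subgroup.closure (gP P n S) := Subgroup.subset_closure ⟨j, hj, a, rfl⟩

lemma gX_mem {S : Finset ι} {i j : ι} (hi : i ∈ S) (hj : j ∈ S) (h : i ≠ j) (a : R) :
    P.x i j a ∈ Subgroup.closure (gX P S) := Subgroup.subset_closure ⟨i, hi, j, hj, a, h, rfl⟩

lemma normM {n : ι} {S : Finset ι} (hn : n ∉ S) : ∀ g ∈ Subgroup.closure (gX P S),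
    ∀ y ∈ Subgroup.closure (gM P n S), g * y * g⁻¹ ∈ Subgroup.closure (gM P n S) := by
  refine norm_cl (gX_inv P S) ?_
  rintro _ ⟨i, hi, j, hj, r, hij, rfl⟩ _ ⟨k, hk, s, rfl⟩
  have hnk : n ≠ k := by rintro rfl; exact hn hk
  have hnj : n ≠ j := by rintro rfl; exact hn hj
  by_cases hki : k = i
  · subst hki
    have e := P.mul n k j hnk hij hnj s r
    have e2 : P.x k j r * P.x n k s * (P.x k j r)⁻¹ = P.x n j (-(s * r)) * P.x n k s := by
      rw [mul_inv_eq_iff_eq_mul, xneg P hnj, mul_assoc _ (P.x n k s), e]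
      group
    rw [e2]
    exact mul_mem (gM_mem P hj _) (gM_mem P hk _)
  · have e := P.comm n k i j hnk hij hki hnj s r
    rw [← e.eq, mul_inv_cancel_right]
    exact gM_mem P hk _

lemma normP {n : ι} {S : Finset ι} (hn : n ∉ S) : ∀ g ∈ Subgroup.closure (gX P S),
    ∀ y ∈ Subgroup.closure (gP P n S), g * y * g⁻¹ ∈ Subgroup.closure (gP P n S) := by
  refine norm_cl (gX_inv P S) ?_
  rintro _ ⟨i, hi, j, hj, r, hij, rfl⟩ _ ⟨k, hk, s, rfl⟩
  have hkn : k ≠ n := by rintro rfl; exact hn hk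
  have hin : i ≠ n := by rintro rfl; exact hn hi
  by_cases hkj : k = j
  · subst hkj
    have e := P.mul i k n hij hkn hin r s
    have e2 : P.x i k r * P.x k n s * (P.x i k r)⁻¹ = P.x i n (r * s) * P.x k n s := by
      rw [mul_inv_eq_iff_eq_mul, e]
    rw [e2]
    exact mul_mem (gP_mem P hi _) (gP_mem P hk _)
  · have e := P.comm i j k n hij hkn (Ne.symm hkj) hin r s
    rw [e.eq, mul_inv_cancel_right]
    exact gP_mem P hk _

variable (hT : Third ι) (c2 : C2P)

include hT c2

lemma h1 {i j : ι} (h : i ≠ j) : P.h i j 1 = 1 :=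
  (c2 ι R X P hT i j h 1).2.2.2.2.1

lemma hinv (hM : P.MulR) {i j : ι} (h : i ≠ j) (u : Rˣ) : (P.h i j u)⁻¹ = P.h i j u⁻¹ := by
  rw [inv_eq_iff_mul_eq_one, hM i j h, mul_inv_cancel, h1 P hT c2 h]

lemma hnM {n p : ι} {S : Finset ι} (hn : n ∉ S) (hp : p ∈ S) (u : Rˣ) :
    ∀ y ∈ Subgroup.closure (gM P n S),
      P.h p n u * y * (P.h p n u)⁻¹ ∈ Subgroup.closure (gM P n S) := by
  have hpn : p ≠ n := by rintro rfl; exact hn hp
  intro y hy
  induction hy using Subgroup.closure_induction with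
  | mem t ht =>
    obtain ⟨k, hk, a, rfl⟩ := ht
    have hkn : k ≠ n := by rintro rfl; exact hn hk
    by_cases hkp : k = p
    · subst hkp
      rw [((c2 ι R X P hT k n hpn u).1 a).2, mul_inv_cancel_right]
      exact gM_mem P hk _
    · rw [((c2 ι R X P hT p n hpn u).2.1 k hkp hkn a).2.1, mul_inv_cancel_right]
      exact gM_mem P hk _
  | one => simp [one_mem]
  | mul y z _ _ hy hz =>
    have e : P.h p n u * (y * z) * (P.h p n u)⁻¹ =
      (P.h p n u * y * (P.h p n u)⁻¹) * (P.h p n u * z * (P.h p n u)⁻¹) := by group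
    rw [e]; exact mul_mem hy hz
  | inv y _ hy =>
    have e : P.h p n u * y⁻¹ * (P.h p n u)⁻¹ = (P.h p n u * y * (P.h p n u)⁻¹)⁻¹ := by group
    rw [e]; exact inv_mem hy

lemma hnP {n p : ι} {S : Finset ι} (hn : n ∉ S) (hp : p ∈ S) (u : Rˣ) :
    ∀ y ∈ Subgroup.closure (gP P n S),
      P.h p n u * y * (P.h p n u)⁻¹ ∈ Subgroup.closure (gP P n S) := by
  have hpn : p ≠ n := by rintro rfl; exact hn hp
  intro y hy
  induction hy using Subgroup.closure_induction with
  | mem t ht =>
    obtain ⟨k, hk, a, rfl⟩ := ht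
    have hkn : k ≠ n := by rintro rfl; exact hn hk
    by_cases hkp : k = p
    · subst hkp
      rw [((c2 ι R X P hT k n hpn u).1 a).1, mul_inv_cancel_right]
      exact gP_mem P hk _
    · rw [((c2 ι R X P hT p n hpn u).2.1 k hkp hkn a).2.2.2, mul_inv_cancel_right]
      exact gP_mem P hk _
  | one => simp [one_mem]
  | mul y z _ _ hy hz =>
    have e : P.h p n u * (y * z) * (P.h p n u)⁻¹ =
      (P.h p n u * y * (P.h p n u)⁻¹) * (P.h p n u * z * (P.h p n u)⁻¹) := by group
    rw [e]; exact mul_mem hy hz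
  | inv y _ hy =>
    have e : P.h p n u * y⁻¹ * (P.h p n u)⁻¹ = (P.h p n u * y * (P.h p n u)⁻¹)⁻¹ := by group
    rw [e]; exact inv_mem hy

lemma hnX {n p : ι} {S : Finset ι} (hn : n ∉ S) (hp : p ∈ S) (u : Rˣ) :
    ∀ y ∈ Subgroup.closure (gX P S),
      P.h p n u * y * (P.h p n u)⁻¹ ∈ Subgroup.closure (gX P S) := by
  have hpn : p ≠ n := by rintro rfl; exact hn hp
  intro y hy
  induction hy using Subgroup.closure_induction with
  | mem t ht =>
    obtain ⟨i, hi, j, hj, a, hij, rfl⟩ := ht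
    have hin : i ≠ n := by rintro rfl; exact hn hi
    have hjn : j ≠ n := by rintro rfl; exact hn hj
    by_cases hip : i = p
    · subst hip
      rw [((c2 ι R X P hT i n hpn u).2.1 j (Ne.symm hij) hjn a).1, mul_inv_cancel_right]
      exact gX_mem P hi hj hij _
    · by_cases hjp : j = p
      · subst hjp
        rw [((c2 ι R X P hT j n hpn u).2.1 i hip hin a).2.2.1, mul_inv_cancel_right]
        exact gX_mem P hi hj hij _
      · rw [((c2 ι R X P hT p n hpn u).2.2.1 i j hip hin hjp hjn hij a).eq,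
          mul_inv_cancel_right]
        exact gX_mem P hi hj hij _
  | one => simp [one_mem]
  | mul y z _ _ hy hz =>
    have e : P.h p n u * (y * z) * (P.h p n u)⁻¹ =
      (P.h p n u * y * (P.h p n u)⁻¹) * (P.h p n u * z * (P.h p n u)⁻¹) := by group
    rw [e]; exact mul_mem hy hz
  | inv y _ hy =>
    have e : P.h p n u * y⁻¹ * (P.h p n u)⁻¹ = (P.h p n u * y * (P.h p n u)⁻¹)⁻¹ := by group
    rw [e]; exact inv_mem hy

end basics


section big

variable {ι R X : Type} [DecidableEq ι] [CommRing R] [Group X] (P : StRel ι R X)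

omit [DecidableEq ι] in
lemma cr {n i j : ι} (hni : n ≠ i) (hij : i ≠ j) (hnj : n ≠ j) (b c : R) :
    P.x i j c * P.x n i b * (P.x i j c)⁻¹ = P.x n j (-(b * c)) * P.x n i b := by
  have e := P.mul n i j hni hij hnj b c
  rw [mul_inv_eq_iff_eq_mul, xneg P hnj, mul_assoc _ (P.x n i b), e]
  group

lemma red_conj {n p j : ι} (hnp : n ≠ p) (hnj : n ≠ j) (hpj : p ≠ j) {a b : R} (h : Red a b) :
    ∃ g ∈ Subgroup.closure (gX P {p, j}), ∃ d,
      g * (P.x n p a * P.x n j b) * g⁻¹ = P.x n p d := by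
  have hp : p ∈ ({p, j} : Finset ι) := by simp
  have hj : j ∈ ({p, j} : Finset ι) := by simp
  induction h with
  | zero d => exact ⟨1, one_mem _, d, by rw [x0 P hnj]; simp⟩
  | left a b t _ ih =>
    obtain ⟨g, hg, d, e⟩ := ih
    refine ⟨g * P.x j p (-t), mul_mem hg (gX_mem P hj hp hpj.symm _), d, ?_⟩
    rw [← e]
    have e1 := cr P hnj hpj.symm hnp b (-t)
    have e2 := P.comm j p n p hpj.symm hnp hnp.symm hpj.symm (-t) a
    have e3 : P.x j p (-t) * (P.x n p a * P.x n j b) * (P.x j p (-t))⁻¹ =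
        P.x n p (a + t * b) * P.x n j b := by
      rw [← mul_assoc, e2.eq, mul_assoc (P.x n p a), mul_assoc (P.x n p a), e1, ← mul_assoc,
        ← P.add n p hnp]
      congr 2
      ring
    rw [← e3]
    group
  | right a b t _ ih =>
    obtain ⟨g, hg, d, e⟩ := ih
    refine ⟨g * P.x p j (-t), mul_mem hg (gX_mem P hp hj hpj _), d, ?_⟩
    rw [← e]
    have e1 := cr P hnp hpj hnj a (-t)
    have e2 := P.comm p j n j hpj hnj hnj.symm hpj (-t) b
    have e4 := P.comm n p n j hnp hnj hnp.symm hnj a (-(a * -t))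
    have e3 : P.x p j (-t) * (P.x n p a * P.x n j b) * (P.x p j (-t))⁻¹ =
        P.x n p a * P.x n j (b + t * a) := by
      have e5 : P.x p j (-t) * (P.x n p a * P.x n j b) * (P.x p j (-t))⁻¹ =
          (P.x p j (-t) * P.x n p a * (P.x p j (-t))⁻¹) *
            (P.x p j (-t) * P.x n j b * (P.x p j (-t))⁻¹) := by group
      rw [e5, e1, e2.eq, mul_inv_cancel_right, ← e4.eq, mul_assoc, ← P.add n j hnj]
      congr 2
      ring
    rw [← e3]
    group

omit [DecidableEq ι] in
lemma gX_mono {S T : Finset ι} (h : S ⊆ T) :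
    Subgroup.closure (gX P S) ≤ Subgroup.closure (gX P T) := by
  refine Subgroup.closure_mono ?_
  rintro _ ⟨i, hi, j, hj, a, hij, rfl⟩
  exact ⟨i, h hi, j, h hj, a, hij, rfl⟩

lemma reduce (hH : Herm R) {n p : ι} (hnp : n ≠ p) (T : Finset ι) (hnT : n ∉ T) (hpT : p ∉ T) :
    ∀ a ∈ Subgroup.closure (gM P n (insert p T)), ∃ g ∈ Subgroup.closure (gX P (insert p T)),
      ∃ s, g * a * g⁻¹ = P.x n p s := by
  induction T using Finset.induction_on with
  | empty =>
    intro a ha
    obtain ⟨d', hd', r, e, -⟩ := split (P.x n) ∅ p (P.add n p hnp) (by simp) a ha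
    have e0 : {z : X | ∃ k ∈ (∅ : Finset ι), ∃ a, z = P.x n k a} = ∅ := by
      ext z; simp
    rw [e0, Subgroup.closure_empty, Subgroup.mem_bot] at hd'
    exact ⟨1, one_mem _, r, by rw [e, hd']; simp⟩
  | insert j T hjT ih =>
    have hnj : n ≠ j := by rintro rfl; exact hnT (Finset.mem_insert_self _ _)
    have hpj : p ≠ j := by rintro rfl; exact hpT (Finset.mem_insert_self _ _)
    have hnT' : n ∉ T := fun h => hnT (Finset.mem_insert_of_mem h)
    have hpT' : p ∉ T := fun h => hpT (Finset.mem_insert_of_mem h)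
    intro a ha
    rw [Finset.insert_comm] at ha ⊢
    obtain ⟨a', ha', r, e, -⟩ := split (P.x n) (insert p T) j (P.add n j hnj) (by
      intro k hk x y
      have hnk : n ≠ k := by
        rintro rfl
        rcases Finset.mem_insert.1 hk with h | h
        · exact hnp h
        · exact hnT' h
      exact P.comm n k n j hnk hnj hnk.symm hnj x y) a ha
    obtain ⟨g, hg, s, e1⟩ := ih hnT' hpT' a' ha'
    have hgc : Commute g (P.x n j r) := by
      refine comm_cl (A := gX P (insert p T)) (T := {P.x n j r}) ?_ g hg _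
        (Subgroup.subset_closure rfl)
      rintro _ ⟨k, hk, l, hl, x, hkl, rfl⟩ _ rfl
      have hln : l ≠ n := by
        rintro rfl
        rcases Finset.mem_insert.1 hl with h | h
        · exact hnp h
        · exact hnT' h
      have hkj : k ≠ j := by
        rintro rfl
        rcases Finset.mem_insert.1 hk with h | h
        · exact hpj h.symm
        · exact hjT h
      exact P.comm k l n j hkl hnj hln hkj x r
    obtain ⟨g2, hg2, d, e2⟩ := red_conj P hnp hnj hpj (hH s r)
    refine ⟨g2 * g, mul_mem (gX_mono P ?_ hg2) (gX_mono P ?_ hg), d, ?_⟩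
    · intro i hi
      simp only [Finset.mem_insert, Finset.mem_singleton] at hi ⊢
      tauto
    · exact Finset.subset_insert _ _
    · rw [← e2, ← e1, e]
      have e3 : g * a' * g⁻¹ * P.x n j r = g * (a' * P.x n j r) * g⁻¹ := by
        rw [mul_assoc (g * a'), hgc.inv_left.eq]
        group
      rw [e3]
      group

/-- the big cell -/
def M (n p : ι) (S : Finset ι) : Set X :=
  {y | ∃ a ∈ Subgroup.closure (gM P n S), ∃ b ∈ Subgroup.closure (gP P n S),
    ∃ x ∈ Subgroup.closure (gX P S), ∃ u : Rˣ, ∃ c ∈ Subgroup.closure (gM P n S),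
    y = a * b * x * P.h p n u * c}

variable {P}

omit [DecidableEq ι] in
lemma leftM {n p : ι} {S : Finset ι} {a' m : X} (ha : a' ∈ Subgroup.closure (gM P n S))
    (hm : m ∈ M P n p S) : a' * m ∈ M P n p S := by
  obtain ⟨a, ha1, b, hb, x, hx, u, c, hc, rfl⟩ := hm
  exact ⟨a' * a, mul_mem ha ha1, b, hb, x, hx, u, c, hc, by group⟩

omit [DecidableEq ι] in
lemma leftX {n p : ι} {S : Finset ι} (hn : n ∉ S) {y m : X}
    (hy : y ∈ Subgroup.closure (gX P S)) (hm : m ∈ M P n p S) : y * m ∈ M P n p S := by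
  obtain ⟨a, ha, b, hb, x, hx, u, c, hc, rfl⟩ := hm
  exact ⟨y * a * y⁻¹, normM P hn y hy a ha, y * b * y⁻¹, normP P hn y hy b hb, y * x,
    mul_mem hy hx, u, c, hc, by group⟩

omit [DecidableEq ι] in
lemma right (hT : Third ι) (c2 : C2P) (hM : P.MulR) {n p : ι} {S : Finset ι} (hn : n ∉ S)
    (hp : p ∈ S) {m x c : X} (u : Rˣ)
    (hx : x ∈ Subgroup.closure (gX P S)) (hc : c ∈ Subgroup.closure (gM P n S))
    (hm : m ∈ M P n p S) : m * x * P.h p n u * c ∈ M P n p S := by
  have hpn : p ≠ n := by rintro rfl; exact hn hp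
  obtain ⟨a, ha, b, hb, x1, hx1, u1, c1, hc1, rfl⟩ := hm
  refine ⟨a, ha, b, hb, x1 * (P.h p n u1 * x * (P.h p n u1)⁻¹),
    mul_mem hx1 (hnX P hT c2 hn hp u1 x hx), u1 * u,
    (P.h p n u)⁻¹ * (x⁻¹ * c1 * x) * P.h p n u * c, mul_mem ?_ hc, ?_⟩
  · have e := hnM P hT c2 hn hp u⁻¹ (x⁻¹ * c1 * x) (by
      have := normM P hn x⁻¹ (inv_mem hx) c1 hc1
      rwa [inv_inv] at this)
    rw [← hinv P hT c2 hM hpn, inv_inv] at e
    exact e
  · rw [← hM p n hpn]
    group

omit [DecidableEq ι] in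
lemma colrow {n p : ι} (hnp : n ≠ p) (T : Finset ι) (hnT : n ∉ T) (hpT : p ∉ T) :
    (∀ g ∈ Subgroup.closure (gP P p T), ∀ z, Commute g (P.x n p z)) ∧
    ∀ b ∈ Subgroup.closure (gP P n T), ∀ z, ∃ g ∈ Subgroup.closure (gP P p T),
      b * P.x n p z = P.x n p z * g * b := by
  have hcb : ∀ g ∈ Subgroup.closure (gP P p T), ∀ b ∈ Subgroup.closure (gP P n T),
      Commute g b := by
    refine comm_cl ?_
    rintro _ ⟨j, hj, r, rfl⟩ _ ⟨k, hk, s, rfl⟩
    have hjp : j ≠ p := by rintro rfl; exact hpT hj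
    have hkn : k ≠ n := by rintro rfl; exact hnT hk
    have hpk : p ≠ k := by rintro rfl; exact hpT hk
    have hjn : j ≠ n := by rintro rfl; exact hnT hj
    exact P.comm j p k n hjp hkn hpk hjn r s
  have hcn : ∀ g ∈ Subgroup.closure (gP P p T), ∀ z, Commute g (P.x n p z) := by
    intro g hg z
    refine comm_cl (A := gP P p T) (T := {P.x n p z}) ?_ g hg _ (Subgroup.subset_closure rfl)
    rintro _ ⟨j, hj, r, rfl⟩ _ rfl
    have hjp : j ≠ p := by rintro rfl; exact hpT hj
    exact P.comm j p n p hjp hnp hnp.symm hjp r z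
  refine ⟨hcn, ?_⟩
  intro b hb
  induction hb using Subgroup.closure_induction with
  | mem t ht =>
    obtain ⟨j, hj, y, rfl⟩ := ht
    have hjp : j ≠ p := by rintro rfl; exact hpT hj
    have hjn : j ≠ n := by rintro rfl; exact hnT hj
    intro z
    refine ⟨P.x j p (y * z), gP_mem P hj _, ?_⟩
    rw [P.mul j n p hjn hnp hjp, (hcn _ (gP_mem P hj _) z).eq]
  | one => exact fun z => ⟨1, one_mem _, by simp⟩
  | mul b c hb hc ihb ihc =>
    intro z
    obtain ⟨g, hg, e⟩ := ihb z
    obtain ⟨k, hk, e'⟩ := ihc z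
    refine ⟨g * k, mul_mem hg hk, ?_⟩
    have e2 := (hcb k hk b hb).eq
    calc b * c * P.x n p z = b * (c * P.x n p z) := by group
      _ = (b * P.x n p z) * k * c := by rw [e']; group
      _ = P.x n p z * g * (b * k) * c := by rw [e]; group
      _ = P.x n p z * (g * k) * (b * c) := by rw [← e2]; group
  | inv b hb ihb =>
    intro z
    obtain ⟨g, hg, e⟩ := ihb z
    refine ⟨g⁻¹, inv_mem hg, ?_⟩
    have e2 := ((hcb g hg b hb).inv_inv).eq
    rw [mul_assoc, e2, inv_mul_eq_iff_eq_mul, ← mul_assoc, ← mul_assoc, e]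
    group

lemma star (hT : Third ι) (c2 : C2P) (hH : Herm R) (hM : P.MulR)
    (hK : ∀ i j, i ≠ j → ∀ a b c : R, ∃ (p q : R) (u : Rˣ) (r : R),
      P.x i j a * P.x j i b * P.x i j c = P.x j i p * P.x i j q * P.h i j u * P.x j i r)
    {n p : ι} {S : Finset ι} (hn : n ∉ S) (hp : p ∈ S) {b' a b : X}
    (hb' : b' ∈ Subgroup.closure (gP P n S)) (ha : a ∈ Subgroup.closure (gM P n S))
    (hb : b ∈ Subgroup.closure (gP P n S)) : b' * a * b ∈ M P n p S := by
  have hpn : p ≠ n := by rintro rfl; exact hn hp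
  have hT1 : insert p (S.erase p) = S := Finset.insert_erase hp
  have hpT : p ∉ S.erase p := Finset.notMem_erase p S
  have hnT : n ∉ S.erase p := fun h => hn (Finset.mem_of_mem_erase h)
  obtain ⟨hcn, hcr⟩ := colrow (P := P) hpn.symm (S.erase p) hnT hpT
  have hGX : Subgroup.closure (gP P p (S.erase p)) ≤ Subgroup.closure (gX P S) := by
    rw [Subgroup.closure_le]
    rintro _ ⟨j, hj, a, rfl⟩
    exact gX_mem P (Finset.mem_of_mem_erase hj) hp (Finset.ne_of_mem_erase hj) a
  have hPm : Subgroup.closure (gP P n (S.erase p)) ≤ Subgroup.closure (gP P n S) := by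
    refine Subgroup.closure_mono ?_
    rintro _ ⟨j, hj, a, rfl⟩
    exact ⟨j, Finset.mem_of_mem_erase hj, a, rfl⟩
  have hsp : ∀ d ∈ Subgroup.closure (gP P n S), ∃ d' ∈ Subgroup.closure (gP P n (S.erase p)),
      ∃ r, d = d' * P.x p n r ∧ Commute d' (P.x p n r) := by
    intro d hd
    rw [← hT1] at hd
    refine split (fun j => P.x j n) (S.erase p) p (P.add p n hpn) ?_ d hd
    intro k hk x y
    have hkn : k ≠ n := by rintro rfl; exact hnT hk
    exact P.comm k n p n hkn hpn hpn.symm hkn x y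
  -- the reduced case
  have key : ∀ B' ∈ Subgroup.closure (gP P n S), ∀ B ∈ Subgroup.closure (gP P n S), ∀ s,
      B' * P.x n p s * B ∈ M P n p S := by
    intro B' hB' B hB s
    obtain ⟨b1, hb1, y', rfl, -⟩ := hsp B' hB'
    obtain ⟨b2, hb2, y, rfl, hc2⟩ := hsp B hB
    obtain ⟨z1, z2, u, z3, e⟩ := hK p n hpn y' s y
    obtain ⟨g1, hg1, e1⟩ := hcr b1 hb1 z1
    obtain ⟨g3, hg3, e3⟩ := hcr b2 hb2 z3
    have e4 := (hcn g3 hg3 z3).eq
    -- x z3 * b2 = g3⁻¹ * b2 * x z3
    have e5 : P.x n p z3 * b2 = g3⁻¹ * b2 * P.x n p z3 := by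
      rw [mul_assoc g3⁻¹, e3, ← e4]
      group
    have e6 : b1 * P.x p n y' * P.x n p s * (b2 * P.x p n y) =
        P.x n p z1 * g1 * (b1 * P.x p n z2) * P.h p n u * (g3⁻¹ * b2 * P.x n p z3) := by
      rw [hc2.eq]
      calc b1 * P.x p n y' * P.x n p s * (P.x p n y * b2)
          = b1 * (P.x p n y' * P.x n p s * P.x p n y) * b2 := by group
        _ = (b1 * P.x n p z1) * P.x p n z2 * P.h p n u * (P.x n p z3 * b2) := by
            rw [e]; group
        _ = _ := by rw [e1, e5]; group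
    rw [e6]
    have hg1' := hGX hg1
    have hg3' := inv_mem (hGX hg3)
    have hBB : b1 * P.x p n z2 ∈ Subgroup.closure (gP P n S) :=
      mul_mem (hPm hb1) (gP_mem P hp _)
    have hm1 : P.x n p z1 ∈ Subgroup.closure (gM P n S) := gM_mem P hp _
    have hm3 : P.x n p z3 ∈ Subgroup.closure (gM P n S) := gM_mem P hp _
    have hG : g1 * (P.h p n u * g3⁻¹ * (P.h p n u)⁻¹) ∈ Subgroup.closure (gX P S) :=
      mul_mem hg1' (hnX P hT c2 hn hp u _ hg3')
    refine ⟨P.x n p z1, hm1, (g1 * (b1 * P.x p n z2) * g1⁻¹) *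
      (g1 * (P.h p n u * g3⁻¹ * (P.h p n u)⁻¹) * (P.h p n u * b2 * (P.h p n u)⁻¹) *
        (g1 * (P.h p n u * g3⁻¹ * (P.h p n u)⁻¹))⁻¹), mul_mem (normP P hn _ hg1' _ hBB)
        (normP P hn _ hG _ (hnP P hT c2 hn hp u _ (hPm hb2))),
      g1 * (P.h p n u * g3⁻¹ * (P.h p n u)⁻¹), hG, u, P.x n p z3, hm3, ?_⟩
    group
  rw [← hT1] at ha
  obtain ⟨g, hg, s, e⟩ := reduce P hH hpn.symm (S.erase p) hnT hpT a ha
  rw [hT1] at hg
  have e1 : b' * a * b = g⁻¹ * ((g * b' * g⁻¹) * P.x n p s * (g * b * g⁻¹)) * g *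
      P.h p n 1 * 1 := by
    rw [← e, h1 P hT c2 hpn]
    group
  rw [e1]
  exact right hT c2 hM hn hp 1 hg (one_mem _)
    (leftX hn (inv_mem hg) (key _ (normP P hn g hg b' hb') _ (normP P hn g hg b hb) s))

lemma leftP (hT : Third ι) (c2 : C2P) (hH : Herm R) (hM : P.MulR)
    (hK : ∀ i j, i ≠ j → ∀ a b c : R, ∃ (p q : R) (u : Rˣ) (r : R),
      P.x i j a * P.x j i b * P.x i j c = P.x j i p * P.x i j q * P.h i j u * P.x j i r)
    {n p : ι} {S : Finset ι} (hn : n ∉ S) (hp : p ∈ S) {b' m : X}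
    (hb' : b' ∈ Subgroup.closure (gP P n S)) (hm : m ∈ M P n p S) : b' * m ∈ M P n p S := by
  obtain ⟨a, ha, b, hb, x, hx, u, c, hc, rfl⟩ := hm
  have e : b' * (a * b * x * P.h p n u * c) = (b' * a * b) * x * P.h p n u * c := by group
  rw [e]
  exact right hT c2 hM hn hp u hx hc (star hT c2 hH hM hK hn hp hb' ha hb)

lemma all_mem (hT : Third ι) (c2 : C2P) (hH : Herm R) (hM : P.MulR)
    (hK : ∀ i j, i ≠ j → ∀ a b c : R, ∃ (p q : R) (u : Rˣ) (r : R),
      P.x i j a * P.x j i b * P.x i j c = P.x j i p * P.x i j q * P.h i j u * P.x j i r)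
    {n p : ι} {S : Finset ι} (hn : n ∉ S) (hp : p ∈ S) :
    ∀ y ∈ Subgroup.closure (gX P (insert n S)), y ∈ M P n p S := by
  have hpn : p ≠ n := by rintro rfl; exact hn hp
  have hgen : ∀ t ∈ gX P (insert n S), ∀ m ∈ M P n p S, t * m ∈ M P n p S := by
    rintro _ ⟨i, hi, j, hj, a, hij, rfl⟩ m hm
    rcases Finset.mem_insert.1 hi with rfl | hi
    · have hj' : j ∈ S := (Finset.mem_insert.1 hj).resolve_left hij.symm
      exact leftM (gM_mem P hj' a) hm
    · rcases Finset.mem_insert.1 hj with e | hj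
      · have hb : P.x i j a ∈ Subgroup.closure (gP P n S) := by
          rw [e]
          exact gP_mem P hi a
        exact leftP hT c2 hH hM hK hn hp hb hm
      · exact leftX hn (gX_mem P hi hj hij a) hm
  intro y hy
  induction hy using Subgroup.closure_induction_left with
  | one => exact ⟨1, one_mem _, 1, one_mem _, 1, one_mem _, 1, 1, one_mem _, by
      rw [h1 P hT c2 hpn]; simp⟩
  | mul_left t ht m _ hm => exact hgen t ht m hm
  | inv_mul_cancel t ht m _ hm => exact hgen _ (gX_inv P _ t ht) m hm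

end big

section mat

variable {ι R X : Type} [Fintype ι] [DecidableEq ι] [CommRing R] [Group X] (P : StRel ι R X)
  (π : X →* SpecialLinearGroup ι R)

/-- the matrix of an element -/
def fm : X →* Matrix ι ι R where
  toFun y := (π y : Matrix ι ι R)
  map_one' := by simp
  map_mul' := by simp

lemma fm_eq_one {y : X} : fm π y = 1 ↔ π y = 1 := by
  constructor
  · intro h
    exact Subtype.ext h
  · intro h
    show ((π y : SpecialLinearGroup ι R) : Matrix ι ι R) = 1
    rw [h]; rfl

open Matrix in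
lemma vm (i j : ι) (a : R) (v : ι → R) :
    v ᵥ* (1 + Matrix.single i j a) = v + Pi.single j (v i * a) := by
  rw [Matrix.vecMul_add, Matrix.vecMul_one]
  congr 1
  ext k
  simp only [Matrix.vecMul, dotProduct, Matrix.single_apply, Pi.single_apply, ite_and]
  by_cases h : j = k
  · subst h; simp
  · simp [h, Ne.symm h]

open Matrix in
lemma mv (i j : ι) (a : R) (v : ι → R) :
    (1 + Matrix.single i j a) *ᵥ v = v + Pi.single i (a * v j) := by
  rw [Matrix.add_mulVec, Matrix.one_mulVec]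
  congr 1
  ext k
  simp only [Matrix.mulVec, dotProduct, Matrix.single_apply, Pi.single_apply, ite_and]
  by_cases h : i = k
  · subst h; simp
  · simp [h, Ne.symm h]

variable (hπ : ∀ i j, i ≠ j → ∀ a, π (P.x i j a) = El i j a)

include hπ

lemma fx {i j : ι} (h : i ≠ j) (a : R) : fm π (P.x i j a) = 1 + Matrix.single i j a := by
  show ((π (P.x i j a) : SpecialLinearGroup ι R) : Matrix ι ι R) = _
  rw [hπ i j h, El, dif_neg h]
  rfl

open Matrix in
lemma rowX {n : ι} {S : Finset ι} (hn : n ∉ S) {x : X} (hx : x ∈ Subgroup.closure (gX P S)) :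
    Pi.single n (1 : R) ᵥ* fm π x = Pi.single n 1 := by
  induction hx using Subgroup.closure_induction with
  | mem t ht =>
    obtain ⟨i, hi, j, hj, a, hij, rfl⟩ := ht
    have hin : i ≠ n := by rintro rfl; exact hn hi
    rw [fx P π hπ hij, vm, Pi.single_eq_of_ne hin]
    simp
  | one => rw [map_one, Matrix.vecMul_one]
  | mul u v _ _ hu hv => rw [map_mul, ← Matrix.vecMul_vecMul, hu, hv]
  | inv u _ hu =>
    have e : Pi.single n (1 : R) ᵥ* fm π u ᵥ* fm π u⁻¹ = Pi.single n (1 : R) := by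
      rw [Matrix.vecMul_vecMul, ← map_mul, mul_inv_cancel, map_one, Matrix.vecMul_one]
    rwa [hu] at e

open Matrix in
lemma colX {n : ι} {S : Finset ι} (hn : n ∉ S) {x : X} (hx : x ∈ Subgroup.closure (gX P S)) :
    fm π x *ᵥ Pi.single n (1 : R) = Pi.single n 1 := by
  induction hx using Subgroup.closure_induction with
  | mem t ht =>
    obtain ⟨i, hi, j, hj, a, hij, rfl⟩ := ht
    have hjn : j ≠ n := by rintro rfl; exact hn hj
    rw [fx P π hπ hij, mv, Pi.single_eq_of_ne hjn]
    simp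
  | one => rw [map_one, Matrix.one_mulVec]
  | mul u v _ _ hu hv => rw [map_mul, ← Matrix.mulVec_mulVec, hv, hu]
  | inv u _ hu =>
    have e : fm π u⁻¹ *ᵥ (fm π u *ᵥ Pi.single n (1 : R)) = Pi.single n (1 : R) := by
      rw [Matrix.mulVec_mulVec, ← map_mul, inv_mul_cancel, map_one, Matrix.one_mulVec]
    rwa [hu] at e

open Matrix in
lemma rowP {n : ι} {S : Finset ι} (hn : n ∉ S) {x : X} (hx : x ∈ Subgroup.closure (gP P n S)) :
    Pi.single n (1 : R) ᵥ* fm π x = Pi.single n 1 := by
  induction hx using Subgroup.closure_induction with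
  | mem t ht =>
    obtain ⟨i, hi, a, rfl⟩ := ht
    have hin : i ≠ n := by rintro rfl; exact hn hi
    rw [fx P π hπ hin, vm, Pi.single_eq_of_ne hin]
    simp
  | one => rw [map_one, Matrix.vecMul_one]
  | mul u v _ _ hu hv => rw [map_mul, ← Matrix.vecMul_vecMul, hu, hv]
  | inv u _ hu =>
    have e : Pi.single n (1 : R) ᵥ* fm π u ᵥ* fm π u⁻¹ = Pi.single n (1 : R) := by
      rw [Matrix.vecMul_vecMul, ← map_mul, mul_inv_cancel, map_one, Matrix.vecMul_one]
    rwa [hu] at e

open Matrix in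
lemma rowh {n p : ι} (hpn : p ≠ n) (u : Rˣ) :
    Pi.single n (1 : R) ᵥ* fm π (P.h p n u) = Pi.single n ((u⁻¹ : Rˣ) : R) := by
  simp only [StRel.h, StRel.W, map_mul, ← Matrix.vecMul_vecMul, fx P π hπ hpn,
    fx P π hπ hpn.symm, vm]
  ext k
  by_cases h1 : k = n
  · subst h1
    simp [Pi.single_eq_of_ne hpn, Pi.single_eq_of_ne hpn.symm]
  · by_cases h2 : k = p
    · subst h2
      simp [Pi.single_eq_of_ne hpn, Pi.single_eq_of_ne hpn.symm]
    · simp [Pi.single_eq_of_ne hpn, Pi.single_eq_of_ne hpn.symm, Pi.single_eq_of_ne h1,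
        Pi.single_eq_of_ne h2]

lemma paramM {n : ι} {S : Finset ι} (hn : n ∉ S) {d : X}
    (hd : d ∈ Subgroup.closure (gM P n S)) : ∃ s : ι → R,
      fm π d = 1 + ∑ j ∈ S, Matrix.single n j (s j) ∧ ((∀ j ∈ S, s j = 0) → d = 1) := by
  have hne : ∀ j ∈ S, n ≠ j := by
    rintro j hj rfl
    exact hn hj
  refine param' (fm π) (P.x n) (fun j a => Matrix.single n j a) S
    (fun j hj => P.add n j (hne j hj)) ?_ (fun j hj a => fx P π hπ (hne j hj) a) ?_ d hd
  · intro j hj k hk a b
    exact P.comm n j n k (hne j hj) (hne k hk) (hne j hj).symm (hne k hk) a b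
  · intro j hj k hk a b
    exact Matrix.single_mul_single_of_ne a n j n (hne j hj).symm b

lemma paramP {n : ι} {S : Finset ι} (hn : n ∉ S) {d : X}
    (hd : d ∈ Subgroup.closure (gP P n S)) : ∃ s : ι → R,
      fm π d = 1 + ∑ j ∈ S, Matrix.single j n (s j) ∧ ((∀ j ∈ S, s j = 0) → d = 1) := by
  have hne : ∀ j ∈ S, j ≠ n := by
    rintro j hj rfl
    exact hn hj
  refine param' (fm π) (fun j => P.x j n) (fun j a => Matrix.single j n a) S
    (fun j hj => P.add j n (hne j hj)) ?_ (fun j hj a => fx P π hπ (hne j hj) a) ?_ d hd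
  · intro j hj k hk a b
    exact P.comm j n k n (hne j hj) (hne k hk) (hne k hk).symm (hne j hj) a b
  · intro j hj k hk a b
    exact Matrix.single_mul_single_of_ne a j n k (hne k hk).symm b

end mat

open Matrix in
theorem main (c2 : C2P) : K3Q := by
  intro ι R X _ _ _ _ P π hT hH hM hπ hK
  have key : ∀ S : Finset ι, ∀ y ∈ Subgroup.closure (gX P S), π y = 1 → y = 1 := by
    intro S
    induction S using Finset.induction_on with
    | empty =>
      intro y hy _
      have e0 : gX P (∅ : Finset ι) = ∅ := by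
        ext z; simp [gX]
      rwa [e0, Subgroup.closure_empty, Subgroup.mem_bot] at hy
    | insert n S hn ih =>
      intro y hy h
      rcases S.eq_empty_or_nonempty with rfl | ⟨p, hp⟩
      · have e0 : gX P (insert n (∅ : Finset ι)) = ∅ := by
          ext z; simp [gX]
        rwa [e0, Subgroup.closure_empty, Subgroup.mem_bot] at hy
      · have hpn : p ≠ n := by rintro rfl; exact hn hp
        obtain ⟨a, ha, b, hb, x, hx, u, c, hc, rfl⟩ := all_mem hT c2 hH hM hK hn hp y hy
        have hd : a⁻¹ * c⁻¹ ∈ Subgroup.closure (gM P n S) := mul_mem (inv_mem ha) (inv_mem hc)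
        have e1 : π (b * x * P.h p n u) = π (a⁻¹ * c⁻¹) := by
          have e : b * x * P.h p n u = a⁻¹ * (a * b * x * P.h p n u * c) * c⁻¹ := by group
          rw [e, map_mul, map_mul π a⁻¹, h, mul_one, ← map_mul]
        have e2 : fm π (b * x * P.h p n u) = fm π (a⁻¹ * c⁻¹) := by
          show ((π (b * x * P.h p n u) : SpecialLinearGroup ι R) : Matrix ι ι R) =
            ((π (a⁻¹ * c⁻¹) : SpecialLinearGroup ι R) : Matrix ι ι R)
          rw [e1]
        obtain ⟨s, hs, hs1⟩ := paramM P π hπ hn hd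
        have e3 : Pi.single n (1 : R) ᵥ* fm π (a⁻¹ * c⁻¹) = Pi.single n ((u⁻¹ : Rˣ) : R) := by
          rw [← e2, map_mul, map_mul, ← Matrix.vecMul_vecMul, ← Matrix.vecMul_vecMul,
            rowP P π hπ hn hb, rowX P π hπ hn hx, rowh P π hπ hpn]
        have e4 : ∀ k, (1 : Matrix ι ι R) n k + ∑ j ∈ S, Matrix.single n j (s j) n k =
            (Pi.single n ((u⁻¹ : Rˣ) : R) : ι → R) k := by
          intro k
          have := congrFun e3 k
          rw [Matrix.single_one_vecMul, hs] at this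
          simpa [Matrix.add_apply, Matrix.sum_apply] using this
        have e5 : ∀ j ∈ S, s j = 0 := by
          intro k hk
          have hkn : k ≠ n := by rintro rfl; exact hn hk
          have := e4 k
          rw [Matrix.one_apply_ne hkn.symm, Pi.single_eq_of_ne hkn, zero_add,
            Finset.sum_eq_single k] at this
          · simpa using this
          · intro j _ hjk
            exact Matrix.single_apply_of_col_ne n n hjk (s j)
          · intro h; exact absurd hk h
        have e6 : ((u⁻¹ : Rˣ) : R) = 1 := by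
          have := e4 n
          rw [Matrix.one_apply_eq, Pi.single_eq_same, Finset.sum_eq_zero, add_zero] at this
          · exact this.symm
          · intro j hj
            have hjn : j ≠ n := by rintro rfl; exact hn hj
            exact Matrix.single_apply_of_col_ne n n hjn (s j)
        have e7 : a⁻¹ * c⁻¹ = 1 := hs1 e5
        have e8 : u = 1 := by
          have : u⁻¹ = 1 := Units.ext e6
          exact inv_eq_one.1 this
        rw [e8, h1 P hT c2 hpn, mul_one, e7, map_one] at e1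
        obtain ⟨t, ht, ht1⟩ := paramP P π hπ hn hb
        have e9 : fm π b *ᵥ Pi.single n (1 : R) = Pi.single n 1 := by
          have e : fm π (b * x) *ᵥ Pi.single n (1 : R) = Pi.single n 1 := by
            rw [(fm_eq_one π).2 e1, Matrix.one_mulVec]
          rwa [map_mul, ← Matrix.mulVec_mulVec, colX P π hπ hn hx] at e
        have e10 : b = 1 := by
          apply ht1
          intro k hk
          have hkn : k ≠ n := by rintro rfl; exact hn hk
          have := congrFun e9 k
          rw [Matrix.mulVec_single_one, ht, Pi.single_eq_of_ne hkn] at this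
          have e : (1 : Matrix ι ι R) k n + ∑ j ∈ S, Matrix.single j n (t j) k n = 0 := by
            simpa [Matrix.add_apply, Matrix.sum_apply] using this
          rw [Matrix.one_apply_ne hkn, zero_add, Finset.sum_eq_single k] at e
          · simpa using e
          · intro j _ hjk
            exact Matrix.single_apply_of_row_ne hjk n n (t j)
          · intro h; exact absurd hk h
        rw [e10, one_mul] at e1
        have e11 : x = 1 := ih x hx e1
        rw [e10, e11, e8, h1 P hT c2 hpn]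
        have e12 : a⁻¹ = c := by
          rw [mul_eq_one_iff_eq_inv, inv_inv] at e7
          exact e7
        rw [← e12]
        group
  intro y hy h
  refine key Finset.univ y ?_ h
  have e : gX P (Finset.univ : Finset ι) = {y : X | ∃ i j a, i ≠ j ∧ y = P.x i j a} := by
    ext z; simp [gX]
  rwa [e]

end Pool.Agent.H742F.K3
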