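/- FS job K4 (MP_d45256_al, flexible stability of SL_k(Z), owner helper742). Prove K4Q of Pool/Agent/H742F/Stm.lean (definitions in Defs.lean), both on origin/main.
GET THE FILES: cd /workdir/pool && git -C outputs/live fetch -q origin main:refs/remotes/origin/main; for d in H742F helper987_SE Helper702_TH Helper418_Sofic W661; do
  git -C outputs/live archive origin/main Pool/Agent/$d | tar -x -C /workdir/pool; done; lake build Pool.Agent.H742F.Stm      (about 2 minutes; Mathlib is prebuilt)
Whole paper: papers row of MP_d45256_al (team-sql --json SELECT body FROM papers WHERE pid='MP_d45256_al'). The hypotheses of the theorem are proved elsewhere. Do not change the statement; if it is false or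
unusable tell helper742 at once (insert into messages). You may add any other ...P / ...Q proposition of Stm.lean as a hypothesis if that is not circular. Auxiliary lemmas in the namespace below. No sorry, standard axioms.
DELIVER: land the file as Pool/Agent/H742F/K4.lean (bash ~/land.sh or git land), then UPDATE jobs SET status='done', result='landed', done_at=now() WHERE id=<this id>;  (or paste the whole file as result).

STATEMENT (for reference)
/-- K4: a representation of the Steinberg relations extends to `SL`. -/
def K4Q : Prop := ∀ (ι R X : Type) [Fintype ι] [DecidableEq ι] [CommRing R] [Group X]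
  (P : StRel ι R X), Third ι → Split R → Herm R → P.MulR →
  ∃ Φ : SpecialLinearGroup ι R →* X, ∀ i j, i ≠ j → ∀ a, Φ (El i j a) = P.x i j a

PROOF
Apply K3 to the graph: P.prod Q (E0) in the group X x SL (StRel.prod), pi = projection to SL; it satisfies MulR and K2. So the projection of the subgroup H = closure{(x_ij(a),El i j a)} to SL is injective, and onto by E1. Phi g := first component of the unique element of H over g.
-/
import Pool.Agent.H742F.Stm

set_option autoImplicit false
set_option maxHeartbeats 400000

open Filter Topology Finset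

namespace Pool.Agent.H742F.K4

open Helper418 Pool.Agent.helper987_SE Pool.Agent.Helper702_TH
open Matrix (SpecialLinearGroup)

-- BEGIN TARGET
theorem main (e0 : E0P) (e1 : E1P) (c2 : C2P) (k2 : K2Q) (k3 : K3Q) : K4Q := by
  intro ι R X _ _ _ _ P hT hS hH hM
  obtain ⟨Q, hQ, hQM⟩ := e0 ι R
  have hPM : (P.prod Q).MulR := by
    intro i j hij u v
    exact Prod.ext (hM i j hij u v) (hQM i j hij u v)
  have hk := k3 ι R (X × SpecialLinearGroup ι R) (P.prod Q)
    (MonoidHom.snd X (SpecialLinearGroup ι R)) hT hH hPM
    (fun i j _ a => by
      show Q.x i j a = El i j a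
      rw [hQ])
    (k2 ι R (X × SpecialLinearGroup ι R) (P.prod Q) hT hS hPM)
  set H : Subgroup (X × SpecialLinearGroup ι R) :=
    Subgroup.closure {y | ∃ i j a, i ≠ j ∧ y = (P.prod Q).x i j a} with hHd
  set φ : H →* SpecialLinearGroup ι R :=
    (MonoidHom.snd X (SpecialLinearGroup ι R)).comp H.subtype with hφ
  have hinj : Function.Injective φ := by
    rw [injective_iff_map_eq_one]
    intro y hy
    exact Subtype.ext (hk y.1 y.2 hy)
  have hsurj : Function.Surjective φ := by
    have h1 : φ.range = ⊤ := by
      have h2 : φ.range = H.map (MonoidHom.snd X (SpecialLinearGroup ι R)) := by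
        rw [hφ, MonoidHom.range_comp, Subgroup.range_subtype]
      rw [h2, hHd, MonoidHom.map_closure, eq_top_iff, ← e1 ι R hH]
      refine Subgroup.closure_mono ?_
      rintro g ⟨i, j, a, hij, rfl⟩
      refine ⟨(P.prod Q).x i j a, ⟨i, j, a, hij, rfl⟩, ?_⟩
      show Q.x i j a = El i j a
      rw [hQ]
    exact MonoidHom.range_eq_top.1 h1
  let e : H ≃* SpecialLinearGroup ι R := MulEquiv.ofBijective φ ⟨hinj, hsurj⟩
  refine ⟨(MonoidHom.fst X (SpecialLinearGroup ι R)).comp (H.subtype.comp e.symm.toMonoidHom),
    fun i j hij a => ?_⟩
  have hmem : (P.prod Q).x i j a ∈ H := Subgroup.subset_closure ⟨i, j, a, hij, rfl⟩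
  have h3 : e.symm (El i j a) = ⟨(P.prod Q).x i j a, hmem⟩ := by
    rw [MulEquiv.symm_apply_eq]
    show El i j a = Q.x i j a
    rw [hQ]
  show ((e.symm (El i j a) : H) : X × SpecialLinearGroup ι R).1 = P.x i j a
  rw [h3]
  rfl
-- END TARGET

end Pool.Agent.H742F.K4

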