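/- FS job N1 (MP_d45256_al, flexible stability of SL_k(Z), owner helper742). Proof by helper586. -/
import Pool.Agent.H742F.Stm
import Pool.Agent.Helper702_TH.K

set_option autoImplicit false
set_option maxHeartbeats 400000

open Filter Topology Finset
open scoped Classical

namespace Pool.Agent.H742F.N1

open Helper418 Pool.Agent.helper987_SE Pool.Agent.Helper702_TH
open Matrix (SpecialLinearGroup)

noncomputable section

section
variable {S : Type} {V : S → Type} [∀ p, CommGroup (V p)]

/-- the element which is `g` on `X` and trivial outside -/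
def gX (g : ∀ p, V p) (X : Set S) : ∀ p, V p := fun p => if p ∈ X then g p else 1

theorem gX_insert (g : ∀ p, V p) (X : Set S) (p : S) (hp : p ∉ X) :
    gX g (insert p X) = gX g X * Pi.mulSingle p (g p) := by
  ext q
  unfold gX
  rw [Pi.mul_apply]
  by_cases hq : q = p
  · subst hq
    rw [if_pos (Set.mem_insert _ _), if_neg hp, Pi.mulSingle_eq_same, one_mul]
  · rw [Pi.mulSingle_eq_of_ne hq, mul_one]
    by_cases h : q ∈ X
    · rw [if_pos h, if_pos (Set.mem_insert_of_mem _ h)]
    · rw [if_neg h, if_neg]
      rintro (h1 | h1)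
      · exact hq h1
      · exact h h1

theorem gen [Finite S] (g : ∀ p, V p) (hg : ∀ p (v : V p), v ∈ Subgroup.zpowers (g p))
    (T : Subgroup (∀ p, V p)) (h : ∀ p, Pi.mulSingle p (g p) ∈ T) : T = ⊤ := by
  have : Fintype S := Fintype.ofFinite S
  rw [eq_top_iff]
  intro a _
  rw [← Finset.univ_prod_mulSingle a]
  apply Subgroup.prod_mem
  intro p _
  obtain ⟨z, hz⟩ := hg p (a p)
  have h1 : Pi.mulSingle p (a p) = (Pi.mulSingle p (g p) : ∀ p, V p) ^ z := by
    have h2 := map_zpow (MonoidHom.mulSingle V p) (g p) z
    have hz' : g p ^ z = a p := hz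
    rw [hz'] at h2
    exact h2
  rw [h1]
  exact T.zpow_mem (h p) z

/-- at most half of the `gX g X` lie in a proper subgroup -/
theorem half [Finite S] [Fintype (Set S)] (g : ∀ p, V p)
    (hg : ∀ p (v : V p), v ∈ Subgroup.zpowers (g p))
    (T : Subgroup (∀ p, V p)) (hT : T ≠ ⊤) :
    2 * (univ.filter fun X : Set S => gX g X ∈ T).card ≤ Fintype.card (Set S) := by
  obtain ⟨p, hp⟩ : ∃ p, Pi.mulSingle p (g p) ∉ T := by
    by_contra hcon
    push Not at hcon
    exact hT (gen g hg T hcon)
  have key : ∀ X : Set S, p ∉ X → ¬ (gX g X ∈ T ∧ gX g (insert p X) ∈ T) := by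
    intro X hX ⟨h1, h2⟩
    rw [gX_insert g X p hX] at h2
    exact hp ((Subgroup.mul_mem_cancel_left T h1).mp h2)
  have h1 : (univ.filter fun X : Set S => gX g X ∈ T).card ≤
      (univ.filter fun X : Set S => ¬ gX g X ∈ T).card := by
    apply Finset.card_le_card_of_injOn (fun X : Set S => symmDiff X {p})
    · intro X hX
      have hX' : gX g X ∈ T := by simpa using hX
      have goal : ¬ gX g (symmDiff X {p}) ∈ T := by
        intro hY
        by_cases hpX : p ∈ X
        · have e1 : symmDiff X {p} = X \ {p} := by
            ext q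
            simp only [Set.mem_symmDiff, Set.mem_singleton_iff, Set.mem_sdiff]
            constructor
            · rintro (⟨h1, h2⟩ | ⟨h1, h2⟩)
              · exact ⟨h1, h2⟩
              · exact absurd (h1 ▸ hpX) h2
            · rintro ⟨h1, h2⟩
              exact Or.inl ⟨h1, h2⟩
          have e2 : insert p (X \ {p}) = X := Set.insert_sdiff_self_of_mem hpX
          rw [e1] at hY
          refine key (X \ {p}) (by simp) ⟨hY, ?_⟩
          rw [e2]
          exact hX'
        · have e1 : symmDiff X {p} = insert p X := by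
            ext q
            simp only [Set.mem_symmDiff, Set.mem_singleton_iff, Set.mem_insert_iff]
            constructor
            · rintro (⟨h1, h2⟩ | ⟨h1, h2⟩)
              · exact Or.inr h1
              · exact Or.inl h1
            · rintro (h1 | h1)
              · exact Or.inr ⟨h1, h1 ▸ hpX⟩
              · exact Or.inl ⟨h1, fun h2 => hpX (h2 ▸ h1)⟩
          rw [e1] at hY
          exact key X hpX ⟨hX', hY⟩
      simpa using goal
    · intro X _ Y _ hXY
      exact symmDiff_left_injective _ hXY
  have h2 := Finset.card_filter_add_card_filter_not (s := (univ : Finset (Set S)))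
    (fun X : Set S => gX g X ∈ T)
  rw [Finset.card_univ] at h2
  omega

/-- the pointwise argument -/
theorem pt (k1 : K1P) [Finite S] [Fintype (Set S)] [Fintype (Additive (∀ p, V p))] (g : ∀ p, V p)
    (hg : ∀ p (v : V p), v ∈ Subgroup.zpowers (g p)) {X' : Type}
    (ψ : Additive (∀ p, V p) → Equiv.Perm X') (x : X')
    (h1 : gdf ψ (AddMonoidHom.id _) x)
    (h2 : 100 * (univ.filter fun X : Set S => ψ (Additive.ofMul (gX g X)) x ≠ x).card ≤
      Fintype.card (Set S))
    (h3 : 100 * (univ.filter fun q : Set S × Additive (∀ p, V p) =>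
      ψ (q.2 + Additive.ofMul (gX g q.1)) x ≠ ψ q.2 (ψ (Additive.ofMul (gX g q.1)) x)).card ≤
      Fintype.card (Set S × Additive (∀ p, V p)))
    (a : Additive (∀ p, V p))
    (h4 : 100 * (univ.filter fun k : Additive (∀ p, V p) => ψ (k + a) x ≠ ψ k (ψ a x)).card ≤
      Fintype.card (Additive (∀ p, V p))) : ψ a x = x := by
  obtain ⟨T, hT1, _, hT3⟩ := k1 (Additive (∀ p, V p)) X' ψ x h1
  have hpos : 0 < Fintype.card (Additive (∀ p, V p)) := Fintype.card_pos
  have hMpos : 0 < Fintype.card (Set S) := Fintype.card_pos
  have hT : T = ⊤ := by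
    by_contra hne
    have hne' : (AddSubgroup.toSubgroup' T) ≠ (⊤ : Subgroup (∀ p, V p)) := by
      intro h
      apply hne
      rw [eq_top_iff]
      intro d _
      have h5 : d.toMul ∈ (AddSubgroup.toSubgroup' T) := by
        rw [h]; exact Subgroup.mem_top _
      exact h5
    have hhalf := half g hg (AddSubgroup.toSubgroup' T) hne'
    set B1 := univ.filter fun X : Set S => ψ (Additive.ofMul (gX g X)) x ≠ x with hB1
    set N : Set S → ℕ := fun X => (univ.filter fun k : Additive (∀ p, V p) =>
      ψ (k + Additive.ofMul (gX g X)) x ≠ ψ k (ψ (Additive.ofMul (gX g X)) x)).card with hN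
    set B2 := univ.filter fun X : Set S => Fintype.card (Additive (∀ p, V p)) < 10 * N X with hB2
    have hgood : ∀ X : Set S, X ∉ B1 → X ∉ B2 → gX g X ∈ AddSubgroup.toSubgroup' T := by
      intro X hX1 hX2
      have e1 : ψ (Additive.ofMul (gX g X)) x = x := by
        by_contra h
        exact hX1 (by rw [hB1, mem_filter]; exact ⟨mem_univ _, h⟩)
      have e2 : 10 * N X ≤ Fintype.card (Additive (∀ p, V p)) := by
        by_contra h
        push Not at h
        exact hX2 (by rw [hB2, mem_filter]; exact ⟨mem_univ _, h⟩)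
      have e3 : Additive.ofMul (gX g X) ∈ T := by
        rw [hT1]
        have e4 : cnt ψ x (Additive.ofMul (gX g X)) + N X =
            Fintype.card (Additive (∀ p, V p)) := by
          rw [hN]
          unfold cnt
          simp only [e1]
          rw [Finset.card_filter_add_card_filter_not, Finset.card_univ]
        omega
      exact e3
    have hsum : (univ.filter fun q : Set S × Additive (∀ p, V p) =>
        ψ (q.2 + Additive.ofMul (gX g q.1)) x ≠
          ψ q.2 (ψ (Additive.ofMul (gX g q.1)) x)).card = ∑ X : Set S, N X := by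
      rw [hN]
      simp only [Finset.card_filter]
      rw [Fintype.sum_prod_type]
    have hB2c : 10 * B2.card ≤ Fintype.card (Set S) := by
      have e1 : B2.card * Fintype.card (Additive (∀ p, V p)) ≤ ∑ X ∈ B2, 10 * N X := by
        rw [← smul_eq_mul, ← Finset.sum_const]
        apply Finset.sum_le_sum
        intro X hX
        rw [hB2, mem_filter] at hX
        exact hX.2.le
      have e2 : ∑ X ∈ B2, 10 * N X ≤ ∑ X : Set S, 10 * N X :=
        Finset.sum_le_sum_of_subset (Finset.subset_univ _)
      have e2' : ∑ X : Set S, 10 * N X = 10 * (univ.filter fun q : Set S × Additive (∀ p, V p) =>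
          ψ (q.2 + Additive.ofMul (gX g q.1)) x ≠
            ψ q.2 (ψ (Additive.ofMul (gX g q.1)) x)).card := by
        rw [hsum, Finset.mul_sum]
      rw [e2'] at e2
      rw [Fintype.card_prod] at h3
      have e3 : 10 * B2.card * Fintype.card (Additive (∀ p, V p)) ≤
          Fintype.card (Set S) * Fintype.card (Additive (∀ p, V p)) := by
        calc 10 * B2.card * Fintype.card (Additive (∀ p, V p))
            = 10 * (B2.card * Fintype.card (Additive (∀ p, V p))) := by ring
          _ ≤ 10 * (10 * (univ.filter fun q : Set S × Additive (∀ p, V p) =>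
                ψ (q.2 + Additive.ofMul (gX g q.1)) x ≠
                  ψ q.2 (ψ (Additive.ofMul (gX g q.1)) x)).card) :=
              Nat.mul_le_mul_left _ (e1.trans e2)
          _ = 100 * (univ.filter fun q : Set S × Additive (∀ p, V p) =>
                ψ (q.2 + Additive.ofMul (gX g q.1)) x ≠
                  ψ q.2 (ψ (Additive.ofMul (gX g q.1)) x)).card := by ring
          _ ≤ _ := h3
      exact Nat.le_of_mul_le_mul_right e3 hpos
    have hcov : (univ : Finset (Set S)) ⊆
        ((univ.filter fun X : Set S => gX g X ∈ AddSubgroup.toSubgroup' T) ∪ B1) ∪ B2 := by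
      intro X _
      by_cases hX1 : X ∈ B1
      · exact mem_union_left _ (mem_union_right _ hX1)
      · by_cases hX2 : X ∈ B2
        · exact mem_union_right _ hX2
        · exact mem_union_left _ (mem_union_left _ (by
            rw [mem_filter]; exact ⟨mem_univ _, hgood X hX1 hX2⟩))
    have hc := (Finset.card_le_card hcov).trans
      ((Finset.card_union_le _ _).trans (Nat.add_le_add_right (Finset.card_union_le _ _) _))
    rw [Finset.card_univ] at hc
    omega
  exact hT3 a (by rw [hT]; exact AddSubgroup.mem_top _) (by omega)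

end

-- BEGIN TARGET
theorem main (k1 : K1P) : N1P := by
  intro A _ _ S _ V _ _ g r hg hr hmul hX a
  obtain ⟨ψ, hψ⟩ := hr
  have : ∀ n, Fintype (Additive (∀ p, V n p)) := fun n => Fintype.ofFinite _
  have : ∀ n, Fintype (Set (S n)) := fun n => Fintype.ofFinite _
  have hh : ∀ u v : ∀ n, ∀ p, V n p,
      ∀ᶠ x in ae A, ψ x.1 (u x.1 * v x.1) x.2 = ψ x.1 (u x.1) (ψ x.1 (v x.1) x.2) := by
    intro u v
    have h1 := hmul u v
    rw [hψ, hψ, hψ, K.cls_mul, K.cls_eq] at h1
    filter_upwards [h1] with x hx
    simpa using hx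
  have M1 := K.markov (A := A) (Q := fun n => Additive (∀ p, V n p) × Additive (∀ p, V n p))
    (fun n (q : Additive (∀ p, V n p) × Additive (∀ p, V n p)) x =>
      ψ n (q.1 + q.2).toMul x ≠ ψ n q.1.toMul (ψ n q.2.toMul x)) (by
      intro q
      filter_upwards [hh (fun n => (q n).1.toMul) (fun n => (q n).2.toMul)] with x hx
      simpa using hx)
  have M2 := K.markov (A := A) (Q := fun n => Set (S n))
    (fun n (X : Set (S n)) x => ψ n (gX (g n) X) x ≠ x) (by
      intro X
      have h1 := hX X
      rw [hψ] at h1
      have h2 : (1 : SS A) = cls (fun n => (1 : Equiv.Perm (A n))) := rfl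
      rw [h2, K.cls_eq] at h1
      filter_upwards [h1] with x hx
      intro hne
      exact hne hx)
  have M3 := K.markov (A := A) (Q := fun n => Set (S n) × Additive (∀ p, V n p))
    (fun n (q : Set (S n) × Additive (∀ p, V n p)) x =>
      ψ n (q.2 + Additive.ofMul (gX (g n) q.1)).toMul x ≠
        ψ n q.2.toMul (ψ n (gX (g n) q.1) x)) (by
      intro q
      filter_upwards [hh (fun n => (q n).2.toMul) (fun n => gX (g n) (q n).1)] with x hx
      simpa using hx)
  have M4 := K.markov (A := A) (Q := fun n => Additive (∀ p, V n p))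
    (fun n (k : Additive (∀ p, V n p)) x =>
      ψ n (k + Additive.ofMul (a n)).toMul x ≠ ψ n k.toMul (ψ n (a n) x)) (by
      intro q
      filter_upwards [hh (fun n => (q n).toMul) a] with x hx
      simpa using hx)
  rw [hψ]
  have h2 : (1 : SS A) = cls (fun n => (1 : Equiv.Perm (A n))) := rfl
  rw [h2, K.cls_eq]
  filter_upwards [M1, M2, M3, M4] with x m1 m2 m3 m4
  have h5 := pt k1 (g x.1) (hg x.1) (fun d : Additive (∀ p, V x.1 p) => ψ x.1 d.toMul) x.2
    (by
      unfold gdf
      rw [Fintype.card_prod, ← pow_two] at m1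
      convert m1 <;> rfl)
    (by convert m2 <;> rfl) (by convert m3 <;> rfl) (Additive.ofMul (a x.1))
    (by convert m4 <;> rfl)
  simpa using h5
-- END TARGET

end

end Pool.Agent.H742F.N1
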