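import Pool.Agent.H742F.Stm

set_option autoImplicit false
set_option maxHeartbeats 400000

open Filter Topology Finset

namespace Pool.Agent.H742F.N2

open Helper418 Pool.Agent.helper987_SE Pool.Agent.Helper702_TH
open Matrix (SpecialLinearGroup)

theorem nonsq_form {G : Type} [CommGroup G] (g : G) (hg : ∀ u : G, u ∈ Subgroup.zpowers g) (x : G)
    (hx : ∀ w : G, x ≠ w ^ 2) : ∃ s : G, x = g * s ^ 2 := by
  obtain ⟨k, hk⟩ := Subgroup.mem_zpowers_iff.1 (hg x)
  obtain ⟨m, h | h⟩ := Int.even_or_odd' k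
  · exfalso
    apply hx (g ^ m)
    rw [← hk, h, ← zpow_natCast, ← zpow_mul]
    congr 1
    push_cast
    ring
  · refine ⟨g ^ m, ?_⟩
    rw [← hk, h, ← zpow_natCast, ← zpow_mul, zpow_add, zpow_one, mul_comm]
    congr 2
    push_cast
    ring

/-- a nonsquare following a nonzero square -/
theorem exists_next (p : ℕ) (hp : p.Prime) (hp2 : p ≠ 2) :
    ∃ n : ℕ, 2 ≤ n ∧ n < p ∧ ¬ IsSquare (n : ZMod p) ∧ IsSquare ((n - 1 : ℕ) : ZMod p) := by
  have : Fact p.Prime := ⟨hp⟩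
  classical
  obtain ⟨a, ha⟩ := FiniteField.exists_nonsquare (F := ZMod p) (by rw [ZMod.ringChar_zmod_n]; exact hp2)
  have hex : ∃ n : ℕ, ¬ IsSquare (n : ZMod p) := ⟨a.val, by rwa [ZMod.natCast_zmod_val]⟩
  have h1 := Nat.find_spec hex
  have h2 : Nat.find hex ≤ a.val := Nat.find_min' hex (by rwa [ZMod.natCast_zmod_val])
  have h3 := ZMod.val_lt a
  have h4 : Nat.find hex ≠ 0 := fun h => by
    rw [h] at h1
    exact h1 ⟨0, by simp⟩
  have h5 : Nat.find hex ≠ 1 := fun h => by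
    rw [h] at h1
    exact h1 ⟨1, by simp⟩
  refine ⟨Nat.find hex, by omega, by omega, h1, ?_⟩
  by_contra h
  exact Nat.find_min hex (by omega : Nat.find hex - 1 < Nat.find hex) h

-- BEGIN TARGET
theorem main : N2P := by
  intro p e hp hp2
  rcases Nat.eq_zero_or_pos e with rfl | he
  · have : Subsingleton (ZMod (p ^ 0)) := by
      rw [pow_zero]
      exact inferInstanceAs (Subsingleton (Fin 1))
    refine ⟨1, 1, 1, 1, 1, fun u => ?_, by rw [one_pow, mul_one], by rw [one_pow, mul_one],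
      Subsingleton.elim _ _⟩
    have : u = 1 := Units.ext (Subsingleton.elim _ _)
    rw [this]
    exact one_mem _
  have : Fact p.Prime := ⟨hp⟩
  obtain ⟨n, hn2, hnp, hns, hsq⟩ := exists_next p hp hp2
  have hc1 : Nat.Coprime n (p ^ e) := by
    apply Nat.Coprime.pow_right
    exact (Nat.coprime_of_lt_prime (by omega) hnp hp).symm
  have hc2 : Nat.Coprime (n - 1) (p ^ e) := by
    apply Nat.Coprime.pow_right
    exact (Nat.coprime_of_lt_prime (by omega) (by omega) hp).symm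
  have hu : ((ZMod.unitOfCoprime n hc1 : (ZMod (p ^ e))ˣ) : ZMod (p ^ e)) = n := rfl
  have hv : ((ZMod.unitOfCoprime (n - 1) hc2 : (ZMod (p ^ e))ˣ) : ZMod (p ^ e)) = (n - 1 : ℕ) := rfl
  set u := ZMod.unitOfCoprime n hc1
  set v := ZMod.unitOfCoprime (n - 1) hc2
  have hdvd : p ∣ p ^ e := dvd_pow_self p (by omega)
  let φ := ZMod.castHom hdvd (ZMod p)
  have hn0 : ((n : ℕ) : ZMod p) ≠ 0 := fun h => hns (by rw [h]; exact ⟨0, by simp⟩)
  have hn1 : (((n - 1 : ℕ) : ℕ) : ZMod p) ≠ 0 := by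
    intro h
    rw [ZMod.natCast_eq_zero_iff] at h
    have := Nat.le_of_dvd (by omega) h
    omega
  have hcyc : IsCyclic (ZMod (p ^ e))ˣ := ZMod.isCyclic_units_of_prime_pow p hp hp2 e
  obtain ⟨g, hg⟩ := hcyc.exists_generator
  have hx : ∀ w : (ZMod (p ^ e))ˣ, u⁻¹ ≠ w ^ 2 := by
    intro w hw
    apply hns
    have h1 : u * w ^ 2 = 1 := by rw [← hw, mul_inv_cancel]
    have h2 : (n : ZMod (p ^ e)) * (w : ZMod (p ^ e)) ^ 2 = 1 := by
      rw [← hu, ← Units.val_pow_eq_pow_val, ← Units.val_mul, h1, Units.val_one]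
    have h3 : (n : ZMod p) * (φ w) ^ 2 = 1 := by
      have := congrArg φ h2
      rwa [map_mul, map_pow, map_natCast, map_one] at this
    have hw0 : φ w ≠ 0 := fun h => by
      rw [h] at h3
      simp at h3
    refine ⟨(φ w)⁻¹, ?_⟩
    field_simp
    linear_combination h3
  have hy : ∀ w : (ZMod (p ^ e))ˣ, v * u⁻¹ ≠ w ^ 2 := by
    intro w hw
    apply hns
    have h1 : u * w ^ 2 = v := by rw [← hw, mul_comm, inv_mul_cancel_right]
    have h2 : (n : ZMod (p ^ e)) * (w : ZMod (p ^ e)) ^ 2 = ((n - 1 : ℕ) : ZMod (p ^ e)) := by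
      rw [← hu, ← hv, ← Units.val_pow_eq_pow_val, ← Units.val_mul, h1]
    have h3 : (n : ZMod p) * (φ w) ^ 2 = ((n - 1 : ℕ) : ZMod p) := by
      have := congrArg φ h2
      rwa [map_mul, map_pow, map_natCast, map_natCast] at this
    have hw0 : φ w ≠ 0 := fun h => by
      rw [h] at h3
      apply hn1
      rw [← h3]
      simp
    obtain ⟨r, hr⟩ := hsq
    refine ⟨r * (φ w)⁻¹, ?_⟩
    field_simp
    rw [h3, hr]
    ring
  obtain ⟨s, hs⟩ := nonsq_form g hg _ hx
  obtain ⟨t, ht⟩ := nonsq_form g hg _ hy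
  refine ⟨g, u⁻¹, v * u⁻¹, s, t, hg, hs, ht, ?_⟩
  have h1 : (v : ZMod (p ^ e)) = u - 1 := by
    rw [hu, hv, Nat.cast_sub (by omega)]
    simp
  rw [Units.val_mul, h1, sub_mul, one_mul, Units.mul_inv]
-- END TARGET

end Pool.Agent.H742F.N2
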