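import Pool.Agent.H742F.Stm

set_option autoImplicit false
set_option maxHeartbeats 400000

open Filter Topology Finset

namespace Pool.Agent.H742F.N3

open Helper418 Pool.Agent.helper987_SE Pool.Agent.Helper702_TH
open Matrix (SpecialLinearGroup)

lemma small0 : ∀ u : (ZMod (2 ^ 0))ˣ, u = 1 ∨ u = -1 := by decide
lemma small1 : ∀ u : (ZMod (2 ^ 1))ˣ, u = 1 ∨ u = -1 := by decide
lemma small2 : ∀ u : (ZMod (2 ^ 2))ˣ, u = 1 ∨ u = -1 := by decide

lemma of_small {e : ℕ} (five u : (ZMod (2 ^ e))ˣ) (h : u = 1 ∨ u = -1) :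
    ∃ a b : ℕ, u = five ^ a * (-1) ^ b := by
  rcases h with h | h
  · exact ⟨0, 0, by simp [h]⟩
  · exact ⟨0, 1, by simp [h]⟩

lemma big (n : ℕ) (five : (ZMod (2 ^ (n + 3)))ˣ) (h5 : (five : ZMod (2 ^ (n + 3))) = 5)
    (u : (ZMod (2 ^ (n + 3)))ˣ) : ∃ a b : ℕ, u = five ^ a * (-1) ^ b := by
  haveI : NeZero (2 ^ (n + 3)) := ⟨by positivity⟩
  have hord : orderOf five = 2 ^ (n + 1) := by
    rw [← orderOf_units, h5, ZMod.orderOf_five]
  have hcard : Nat.card (ZMod (2 ^ (n + 3)))ˣ = 2 ^ (n + 2) := by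
    rw [Nat.card_eq_fintype_card, ZMod.card_units_eq_totient,
      Nat.totient_prime_pow Nat.prime_two (by omega)]
    simp
  set H : Subgroup (ZMod (2 ^ (n + 3)))ˣ := Subgroup.zpowers five with hH
  have hHc : Nat.card H = 2 ^ (n + 1) := by rw [hH, Nat.card_zpowers, hord]
  have hidx : H.index = 2 := by
    have h := Subgroup.card_mul_index H
    rw [hHc, hcard] at h
    have h2 : (2 : ℕ) ^ (n + 2) = 2 ^ (n + 1) * 2 := by ring
    rw [h2] at h
    exact Nat.eq_of_mul_eq_mul_left (by positivity) h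
  have hdvd : 4 ∣ 2 ^ (n + 3) := ⟨2 ^ (n + 1), by ring⟩
  have hneg : (-1 : (ZMod (2 ^ (n + 3)))ˣ) ∉ H := by
    intro hmem
    rw [hH, ← mem_powers_iff_mem_zpowers] at hmem
    obtain ⟨k, hk⟩ := hmem
    have hk1 : ((five ^ k : (ZMod (2 ^ (n + 3)))ˣ) : ZMod (2 ^ (n + 3))) = -1 := by
      have := congrArg (fun x : (ZMod (2 ^ (n + 3)))ˣ => (x : ZMod (2 ^ (n + 3)))) hk
      simpa using this
    have hk2 := congrArg (ZMod.castHom hdvd (ZMod 4)) hk1
    rw [Units.val_pow_eq_pow_val, h5, map_pow, map_neg, map_one] at hk2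
    have h54 : (ZMod.castHom hdvd (ZMod 4)) (5 : ZMod (2 ^ (n + 3))) = 1 := by
      have : (5 : ZMod (2 ^ (n + 3))) = ((5 : ℕ) : ZMod (2 ^ (n + 3))) := by norm_num
      rw [this, map_natCast]
      decide
    rw [h54, one_pow] at hk2
    exact absurd hk2 (by decide)
  by_cases hu : u ∈ H
  · rw [hH, ← mem_powers_iff_mem_zpowers] at hu
    obtain ⟨k, hk⟩ := hu
    exact ⟨k, 0, by simpa using hk.symm⟩
  · have h1 : u * (-1) ∈ H := (Subgroup.mul_mem_iff_of_index_two hidx).2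
      ⟨fun h => absurd h hu, fun h => absurd h hneg⟩
    rw [hH, ← mem_powers_iff_mem_zpowers] at h1
    obtain ⟨k, hk⟩ := h1
    refine ⟨k, 1, ?_⟩
    have hk' : five ^ k = u * (-1) := hk
    rw [hk', pow_one, mul_assoc]
    simp

-- BEGIN TARGET
theorem main : N3P := by
  intro e five h5 u
  match e, five, h5, u with
  | 0, five, h5, u => exact of_small five u (small0 u)
  | 1, five, h5, u => exact of_small five u (small1 u)
  | 2, five, h5, u => exact of_small five u (small2 u)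
  | (n + 3), five, h5, u => exact big n five h5 u
-- END TARGET

end Pool.Agent.H742F.N3
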