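import Pool.Agent.H742F.Stm

set_option autoImplicit false
set_option maxHeartbeats 400000

open Filter Topology Finset

namespace Pool.Agent.H742F.N4

open Helper418 Pool.Agent.helper987_SE Pool.Agent.Helper702_TH
open Matrix (SpecialLinearGroup)

section itn

variable {A : ℕ → Type} [∀ n, Fintype (A n)] {Q Q' : ℕ → Type}

theorem itn_const (s : SS A) : Itn (fun _ : ∀ n, Q n => s) := by
  obtain ⟨t, ht⟩ := QuotientGroup.mk_surjective s
  exact ⟨fun n _ => t n, fun a => ht.symm⟩

theorem itn_mul {F F' : (∀ n, Q n) → SS A} (h : Itn F) (h' : Itn F') :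
    Itn fun a => F a * F' a := by
  obtain ⟨ψ, hψ⟩ := h
  obtain ⟨ψ', hψ'⟩ := h'
  exact ⟨fun n q => ψ n q * ψ' n q, fun a => by
    show F a * F' a = _
    rw [hψ, hψ']
    rfl⟩

theorem itn_inv {F : (∀ n, Q n) → SS A} (h : Itn F) : Itn fun a => (F a)⁻¹ := by
  obtain ⟨ψ, hψ⟩ := h
  exact ⟨fun n q => (ψ n q)⁻¹, fun a => by
    show (F a)⁻¹ = _
    rw [hψ]
    rfl⟩

theorem itn_comp {F : (∀ n, Q' n) → SS A} (h : Itn F) (f : ∀ n, Q n → Q' n) :
    Itn fun a : ∀ n, Q n => F (fun n => f n (a n)) := by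
  obtain ⟨ψ, hψ⟩ := h
  exact ⟨fun n q => ψ n (f n q), fun a => hψ _⟩

end itn

section units

variable {S : ℕ → Type} {B : ∀ n, S n → Type} [∀ n p, CommRing (B n p)]

/-- units of the product -/
def U (w : ∀ n, ∀ p, (B n p)ˣ) : (∀ n, ∀ p, B n p)ˣ where
  val n p := w n p
  inv n p := ((w n p)⁻¹ : (B n p)ˣ)
  val_inv := by
    funext n p
    exact (w n p).mul_inv
  inv_val := by
    funext n p
    exact (w n p).inv_mul

theorem U_mul (w w' : ∀ n, ∀ p, (B n p)ˣ) : U (w * w') = U w * U w' := Units.ext rfl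

theorem U_surj (u : (∀ n, ∀ p, B n p)ˣ) : ∃ w, U w = u :=
  ⟨fun n p => ⟨u.val n p, u.inv n p, congrFun (congrFun u.val_inv n) p,
    congrFun (congrFun u.inv_val n) p⟩, Units.ext rfl⟩

variable {A : ℕ → Type} [∀ n, Fintype (A n)] {ι : Type}
  (P : StRel ι (∀ n, ∀ p, B n p) (SS A))

theorem itn_h (hP : P.Int) {i j : ι} (hij : i ≠ j) : Itn fun w => P.h i j (U w) := by
  have h1 : Itn fun w : ∀ n, ∀ p, (B n p)ˣ => P.x i j ((U w : (∀ n, ∀ p, B n p)ˣ) : ∀ n, ∀ p, B n p) :=
    itn_comp (hP i j hij) (fun n (q : ∀ p, (B n p)ˣ) p => (q p : B n p))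
  have h2 : Itn fun w : ∀ n, ∀ p, (B n p)ˣ =>
      P.x j i (-(((U w)⁻¹ : (∀ n, ∀ p, B n p)ˣ) : ∀ n, ∀ p, B n p)) :=
    itn_comp (hP j i hij.symm) (fun n (q : ∀ p, (B n p)ˣ) p => -(((q p)⁻¹ : (B n p)ˣ) : B n p))
  exact itn_mul (itn_mul (itn_mul h1 h2) h1) (itn_const _)

theorem itn_c1 (hP : P.Int) {i j : ι} (hij : i ≠ j) (b : ∀ n, ∀ p, (B n p)ˣ) :
    Itn fun a => P.c i j (U a) (U b) := by
  have h1 := itn_h P hP hij
  have h2 : Itn fun a => P.h i j (U a * U b) := by
    have h3 := itn_comp h1 (fun n (q : ∀ p, (B n p)ˣ) => q * b n)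
    have e : (fun a : ∀ n, ∀ p, (B n p)ˣ => P.h i j (U fun n => a n * b n)) =
        fun a => P.h i j (U a * U b) := by
      funext a
      rw [← U_mul]
      rfl
    rw [← e]
    exact h3
  exact itn_mul (itn_mul h1 (itn_const _)) (itn_inv h2)

theorem itn_c2 (hP : P.Int) {i j : ι} (hij : i ≠ j) (a : ∀ n, ∀ p, (B n p)ˣ) :
    Itn fun b => P.c i j (U a) (U b) := by
  have h1 := itn_h P hP hij
  have h2 : Itn fun b => P.h i j (U a * U b) := by
    have h3 := itn_comp h1 (fun n (q : ∀ p, (B n p)ˣ) => a n * q)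
    have e : (fun b : ∀ n, ∀ p, (B n p)ˣ => P.h i j (U fun n => a n * b n)) =
        fun b => P.h i j (U a * U b) := by
      funext b
      rw [← U_mul]
      rfl
    rw [← e]
    exact h3
  exact itn_mul (itn_mul (itn_const _) h1) (itn_inv h2)

end units

section comm

variable {R ι X : Type} [CommRing R] [Group X] (P : StRel ι R X)

theorem comm_W {i j : ι} (hij : i ≠ j) (z : X) (hz : ∀ a b, a ≠ b → ∀ r, Commute z (P.x a b r))
    (t t' : R) : Commute z (P.W i j t t') :=
  ((hz i j hij t).mul_right (hz j i hij.symm (-t'))).mul_right (hz i j hij t)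

theorem comm_h {i j : ι} (hij : i ≠ j) (z : X) (hz : ∀ a b, a ≠ b → ∀ r, Commute z (P.x a b r))
    (u : Rˣ) : Commute z (P.h i j u) :=
  (comm_W P hij z hz _ _).mul_right (comm_W P hij z hz _ _)

theorem comm_c {i j : ι} (hij : i ≠ j) (z : X) (hz : ∀ a b, a ≠ b → ∀ r, Commute z (P.x a b r))
    (u v : Rˣ) : Commute z (P.c i j u v) :=
  ((comm_h P hij z hz u).mul_right (comm_h P hij z hz v)).mul_right
    (comm_h P hij z hz (u * v)).inv_right

end comm

open scoped Classical in
/-- the part of an element on a family of sets -/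
noncomputable def ind {S : ℕ → Type} {V : ∀ n, S n → Type} [∀ n p, Group (V n p)]
    (X : ∀ n, Set (S n)) (w : ∀ n p, V n p) : ∀ n p, V n p :=
  fun n p => if p ∈ X n then w n p else 1

section abs

variable {S : ℕ → Type} {V : ∀ n, S n → Type} [∀ n p, CommGroup (V n p)] {Y : Type} [Group Y]

theorem ind_out {X : ∀ n, Set (S n)} (w : ∀ n p, V n p) {n : ℕ} {p : S n} (h : p ∉ X n) :
    ind X w n p = 1 := if_neg h

theorem ind_in {X : ∀ n, Set (S n)} (w : ∀ n p, V n p) {n : ℕ} {p : S n} (h : p ∈ X n) :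
    ind X w n p = w n p := if_pos h

theorem ind_mul (X : ∀ n, Set (S n)) (w w' : ∀ n p, V n p) :
    ind X (w * w') = ind X w * ind X w' := by
  funext n p
  show ind X (w * w') n p = ind X w n p * ind X w' n p
  by_cases h : p ∈ X n
  · rw [ind_in _ h, ind_in _ h, ind_in _ h]
    rfl
  · rw [ind_out _ h, ind_out _ h, ind_out _ h, one_mul]

theorem ind_split (X Z : ∀ n, Set (S n)) (w : ∀ n p, V n p) :
    ind X w = ind (fun n => X n \ Z n) w * ind (fun n => X n ∩ Z n) w := by
  funext n p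
  show ind X w n p = ind (fun n => X n \ Z n) w n p * ind (fun n => X n ∩ Z n) w n p
  by_cases h1 : p ∈ X n
  · by_cases h2 : p ∈ Z n
    · rw [ind_in w h1, ind_out (X := fun n => X n \ Z n) w (fun h => h.2 h2),
        ind_in (X := fun n => X n ∩ Z n) w ⟨h1, h2⟩, one_mul]
    · rw [ind_in w h1, ind_in (X := fun n => X n \ Z n) w ⟨h1, h2⟩,
        ind_out (X := fun n => X n ∩ Z n) w (fun h => h2 h.2), mul_one]
  · rw [ind_out w h1, ind_out (X := fun n => X n \ Z n) w (fun h => h1 h.1),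
      ind_out (X := fun n => X n ∩ Z n) w (fun h => h1 h.1), one_mul]

theorem abs_cross (C : (∀ n p, V n p) → (∀ n p, V n p) → Y)
    (h1 : ∀ a a' b, C (a * a') b = C a b * C a' b) (h2 : ∀ a b b', C a (b * b') = C a b * C a b')
    (h4 : ∀ (X : ∀ n, Set (S n)) a b, (∀ n p, p ∉ X n → a n p = 1) →
      (∀ n p, p ∈ X n → b n p = 1) → C a b = 1) (g : ∀ n p, V n p) (X Z : ∀ n, Set (S n)) :
    C (ind X g) (ind Z g) = C (ind (fun n => X n ∩ Z n) g) (ind (fun n => X n ∩ Z n) g) := by
  have e : (fun n => Z n ∩ X n) = fun n => X n ∩ Z n := by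
    funext n
    exact Set.inter_comm _ _
  have e1 := ind_split X Z g
  have e2 := ind_split Z X g
  rw [e] at e2
  rw [e1, e2, h1, h2, h2]
  have a1 : C (ind (fun n => X n \ Z n) g) (ind (fun n => Z n \ X n) g) = 1 :=
    h4 (fun n => X n \ Z n) _ _ (fun n p h => ind_out g h)
      (fun n p h => ind_out g fun h' => h.2 h'.1)
  have a2 : C (ind (fun n => X n \ Z n) g) (ind (fun n => X n ∩ Z n) g) = 1 :=
    h4 (fun n => X n \ Z n) _ _ (fun n p h => ind_out g h)
      (fun n p h => ind_out g fun h' => h.2 h'.2)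
  have a3 : C (ind (fun n => X n ∩ Z n) g) (ind (fun n => Z n \ X n) g) = 1 :=
    h4 (fun n => X n ∩ Z n) _ _ (fun n p h => ind_out g h)
      (fun n p h => ind_out g fun h' => h'.2 h.1)
  rw [a1, a2, a3, one_mul, one_mul, one_mul]

end abs

-- BEGIN TARGET
theorem main (c3 : C3P) (c4 : C4Q) (c6 : C6Q) (n1 : N1P) : N4P := by
  intro A _ _ S _ B _ _ ι P hth hk hP i j hij
  have H3 := c3 ι (∀ n, ∀ p, B n p) (SS A) P hth i j hij
  obtain ⟨Hc, -, Hm1, Hm2, Hsk, -⟩ := H3
  set C : (∀ n, ∀ p, (B n p)ˣ) → (∀ n, ∀ p, (B n p)ˣ) → SS A :=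
    fun a b => P.c i j (U a) (U b) with hC
  have h1 : ∀ a a' b, C (a * a') b = C a b * C a' b := fun a a' b => by
    show P.c i j (U (a * a')) (U b) = _
    rw [U_mul]
    exact Hm1 _ _ _
  have h2 : ∀ a b b', C a (b * b') = C a b * C a b' := fun a b b' => by
    show P.c i j (U a) (U (b * b')) = _
    rw [U_mul]
    exact Hm2 _ _ _
  have hsk : ∀ a b, C a b * C b a = 1 := fun a b => Hsk _ _
  have hcm : ∀ a b a' b', C a b * C a' b' = C a' b' * C a b := fun a b a' b' =>
    comm_c P hij _ (fun p q hpq r => Hc _ _ p q hpq r) _ _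
  have hI1 : ∀ b, Itn fun a => C a b := fun b => itn_c1 P hP hij b
  have hI2 : ∀ a, Itn fun b => C a b := fun a => itn_c2 P hP hij a
  choose g x y s t hg hx hy hxy using hk
  have h4 : ∀ (X : ∀ n, Set (S n)) a b, (∀ n p, p ∉ X n → a n p = 1) →
      (∀ n p, p ∈ X n → b n p = 1) → C a b = 1 := by
    intro X a b ha hb
    classical
    refine c4 ι (∀ n, ∀ p, B n p) (SS A) P hth i j hij
      (fun n p => if p ∈ X n then (1 : B n p) else 0) (U a) (U b) ?_ ?_ ?_
    · funext n p
      show (if p ∈ X n then (1 : B n p) else 0) * (if p ∈ X n then (1 : B n p) else 0) =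
        if p ∈ X n then (1 : B n p) else 0
      split_ifs <;> simp
    · funext n p
      show (1 - (if p ∈ X n then (1 : B n p) else 0)) * ((a n p : B n p) - 1) = 0
      split_ifs with h
      · simp
      · rw [ha n p h]
        simp
    · funext n p
      show (if p ∈ X n then (1 : B n p) else 0) * ((b n p : B n p) - 1) = 0
      split_ifs with h
      · rw [hb n p h]
        simp
      · simp
  have h6 : ∀ (X : ∀ n, Set (S n)), C (ind X x) (ind X y) = 1 := by
    intro X
    classical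
    refine c6 ι (∀ n, ∀ p, B n p) (SS A) P hth i j hij
      (fun n p => if p ∈ X n then (1 : B n p) else 0) (U (ind X x)) (U (ind X y)) ?_ ?_ ?_
        (Or.inl ?_)
    · funext n p
      show (if p ∈ X n then (1 : B n p) else 0) * (if p ∈ X n then (1 : B n p) else 0) =
        if p ∈ X n then (1 : B n p) else 0
      split_ifs <;> simp
    · funext n p
      show (1 - (if p ∈ X n then (1 : B n p) else 0)) * ((ind X x n p : B n p) - 1) = 0
      split_ifs with h
      · simp
      · rw [ind_out x h]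
        simp
    · funext n p
      show (1 - (if p ∈ X n then (1 : B n p) else 0)) * ((ind X y n p : B n p) - 1) = 0
      split_ifs with h
      · simp
      · rw [ind_out y h]
        simp
    · funext n p
      show (if p ∈ X n then (1 : B n p) else 0) * (ind X y n p : B n p) =
        (if p ∈ X n then (1 : B n p) else 0) * (1 - (ind X x n p : B n p))
      split_ifs with h
      · rw [ind_in x h, ind_in y h, hxy]
      · simp
  have hcross := fun X Z => abs_cross C h1 h2 h4 g X Z
  have N : ∀ r : (∀ n, ∀ p, (B n p)ˣ) → SS A, Itn r → (∀ a b, r (a * b) = r a * r b) →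
      (∀ X : ∀ n, Set (S n), r (ind X g) = 1) → ∀ a, r a = 1 := by
    intro r hr1 hr2 hr3
    exact n1 A S (fun n p => (B n p)ˣ) g r (fun n p v => hg n p v) hr1 hr2 hr3
  have hsqm : ∀ a b a' b', (C a b * C a' b') * (C a b * C a' b') =
      (C a b * C a b) * (C a' b' * C a' b') := by
    intro a b a' b'
    rw [mul_assoc, ← mul_assoc (C a' b'), ← hcm a b a' b', mul_assoc (C a b) (C a' b'),
      ← mul_assoc (C a b) (C a b)]
  have sq1 : ∀ (X : ∀ n, Set (S n)) b, C (ind X g) b * C (ind X g) b = 1 := by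
    intro X
    refine N (fun b => C (ind X g) b * C (ind X g) b) (itn_mul (hI2 _) (hI2 _)) ?_ ?_
    · intro b b'
      show C (ind X g) (b * b') * C (ind X g) (b * b') = _
      rw [h2]
      exact hsqm _ _ _ _
    · intro Z
      show C (ind X g) (ind Z g) * C (ind X g) (ind Z g) = 1
      rw [hcross]
      exact hsk _ _
  have sq : ∀ a b, C a b * C a b = 1 := by
    intro a b
    refine N (fun a => C a b * C a b) (itn_mul (hI1 _) (hI1 _)) ?_ ?_ a
    · intro a a'
      show C (a * a') b * C (a * a') b = _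
      rw [h1]
      exact hsqm _ _ _ _
    · intro X
      exact sq1 X b
  have hdiag : ∀ X : ∀ n, Set (S n), C (ind X g) (ind X g) = 1 := by
    intro X
    have ex : ind X x = ind X g * (ind X s * ind X s) := by
      rw [← ind_mul, ← ind_mul]
      congr 1
      funext n p
      show x n p = g n p * (s n p * s n p)
      rw [hx, pow_two]
    have ey : ind X y = ind X g * (ind X t * ind X t) := by
      rw [← ind_mul, ← ind_mul]
      congr 1
      funext n p
      show y n p = g n p * (t n p * t n p)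
      rw [hy, pow_two]
    have h7 := h6 X
    rw [ex, ey, h1, h2, h1, sq, mul_one, h2, sq, mul_one] at h7
    exact h7
  have hone1 : ∀ (X : ∀ n, Set (S n)) b, C (ind X g) b = 1 := by
    intro X
    refine N (fun b => C (ind X g) b) (hI2 _) (fun b b' => h2 _ _ _) ?_
    intro Z
    show C (ind X g) (ind Z g) = 1
    rw [hcross]
    exact hdiag _
  have hone : ∀ a b, C a b = 1 := by
    intro a b
    exact N (fun a => C a b) (hI1 _) (fun a a' => h1 _ _ _) (fun X => hone1 X b) a
  intro u v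
  obtain ⟨a, rfl⟩ := U_surj u
  obtain ⟨b, rfl⟩ := U_surj v
  have h8 : P.h i j (U a) * P.h i j (U b) * (P.h i j (U a * U b))⁻¹ = 1 := hone a b
  exact mul_inv_eq_one.1 h8
-- END TARGET

end Pool.Agent.H742F.N4
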