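import Pool.Agent.H742F.Stm

set_option autoImplicit false
set_option maxHeartbeats 400000

open Filter Topology Finset

namespace Pool.Agent.H742F.N5

open Helper418 Pool.Agent.helper987_SE Pool.Agent.Helper702_TH
open Matrix (SpecialLinearGroup)

/-! ### Internal maps -/

section Itn

variable {A : ℕ → Type} [∀ n, Fintype (A n)] {Q Q' : ℕ → Type}

theorem itn_mul {F G : (∀ n, Q n) → SS A} (hF : Itn F) (hG : Itn G) :
    Itn (fun a => F a * G a) := by
  obtain ⟨ψ, hψ⟩ := hF
  obtain ⟨χ, hχ⟩ := hG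
  exact ⟨fun n q => ψ n q * χ n q, fun a => by beta_reduce; rw [hψ, hχ]; rfl⟩

theorem itn_inv {F : (∀ n, Q n) → SS A} (hF : Itn F) : Itn (fun a => (F a)⁻¹) := by
  obtain ⟨ψ, hψ⟩ := hF
  exact ⟨fun n q => (ψ n q)⁻¹, fun a => by beta_reduce; rw [hψ]; rfl⟩

theorem itn_const (s : SS A) : Itn (fun _ : ∀ n, Q n => s) := by
  obtain ⟨t, rfl⟩ := QuotientGroup.mk_surjective s
  exact ⟨fun n _ => t n, fun a => rfl⟩

theorem itn_comp {F : (∀ n, Q n) → SS A} (hF : Itn F) (f : ∀ n, Q' n → Q n) :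
    Itn (fun a : ∀ n, Q' n => F (fun n => f n (a n))) := by
  obtain ⟨ψ, hψ⟩ := hF
  exact ⟨fun n q => ψ n (f n q), fun a => by beta_reduce; rw [hψ]⟩

end Itn

section Units

variable {Q : ℕ → Type} [∀ n, CommRing (Q n)]

/-- a unit from its components -/
def mkU (v : ∀ n, (Q n)ˣ) : (∀ n, Q n)ˣ where
  val n := (v n : Q n)
  inv n := ((v n)⁻¹ : (Q n)ˣ)
  val_inv := by funext n; simp
  inv_val := by funext n; simp

/-- the components of a unit -/
def prU (u : (∀ n, Q n)ˣ) (n : ℕ) : (Q n)ˣ where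
  val := (u : ∀ n, Q n) n
  inv := ((u⁻¹ : (∀ n, Q n)ˣ) : ∀ n, Q n) n
  val_inv := by
    have := congrFun (Units.mul_inv u) n
    simpa using this
  inv_val := by
    have := congrFun (Units.inv_mul u) n
    simpa using this

theorem mkU_prU (u : (∀ n, Q n)ˣ) : mkU (prU u) = u := by
  apply Units.ext
  funext n
  rfl

theorem mkU_mul (v w : ∀ n, (Q n)ˣ) : mkU (fun n => v n * w n) = mkU v * mkU w := by
  apply Units.ext
  funext n
  rfl

theorem mul_mkU (u : (∀ n, Q n)ˣ) (v : ∀ n, (Q n)ˣ) :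
    u * mkU v = mkU (fun n => prU u n * v n) := by
  apply Units.ext
  funext n
  rfl

variable {A : ℕ → Type} [∀ n, Fintype (A n)] {ι : Type} (P : StRel ι (∀ n, Q n) (SS A))

theorem itn_h (hP : P.Int) {i j : ι} (hij : i ≠ j) :
    Itn (fun v : ∀ n, (Q n)ˣ => P.h i j (mkU v)) := by
  have h1 : Itn (fun v : ∀ n, (Q n)ˣ => P.x i j ((mkU v : (∀ n, Q n)ˣ) : ∀ n, Q n)) :=
    itn_comp (hP i j hij) (fun n (v : (Q n)ˣ) => (v : Q n))
  have h2 : Itn (fun v : ∀ n, (Q n)ˣ => P.x j i (-(((mkU v)⁻¹ : (∀ n, Q n)ˣ) : ∀ n, Q n))) :=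
    itn_comp (hP j i hij.symm) (fun n (v : (Q n)ˣ) => -((v⁻¹ : (Q n)ˣ) : Q n))
  exact itn_mul (itn_mul (itn_mul h1 h2) h1) (itn_const _)

theorem itn_c_right (hP : P.Int) {i j : ι} (hij : i ≠ j) (u : (∀ n, Q n)ˣ) :
    Itn (fun v : ∀ n, (Q n)ˣ => P.c i j u (mkU v)) := by
  have h1 : Itn (fun v : ∀ n, (Q n)ˣ => P.h i j (u * mkU v)) := by
    have := itn_comp (itn_h P hP hij) (fun n (v : (Q n)ˣ) => prU u n * v)
    simpa only [mul_mkU] using this
  exact itn_mul (itn_mul (itn_const _) (itn_h P hP hij)) (itn_inv h1)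

theorem itn_c_left (hP : P.Int) {i j : ι} (hij : i ≠ j) (u : (∀ n, Q n)ˣ) :
    Itn (fun v : ∀ n, (Q n)ˣ => P.c i j (mkU v) u) := by
  have h1 : Itn (fun v : ∀ n, (Q n)ˣ => P.h i j (mkU v * u)) := by
    have := itn_comp (itn_h P hP hij) (fun n (v : (Q n)ˣ) => prU u n * v)
    have h2 : (fun v : ∀ n, (Q n)ˣ => P.h i j (mkU v * u)) =
        fun v => P.h i j (mkU fun n => prU u n * v n) := by
      funext v
      rw [mul_comm, mul_mkU]
    rw [h2]
    exact this
  exact itn_mul (itn_mul (itn_h P hP hij) (itn_const _)) (itn_inv h1)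

end Units

/-! ### Criterion -/

section Crit

variable {A : ℕ → Type} [∀ n, Fintype (A n)]

theorem glue {U : ℕ → Type} (r : (∀ n, U n) → SS A) (hr : Itn r) (a b c d : ∀ n, U n)
    (ha : r a = 1) (hb : r b = 1) (hc : r c = 1) (hd : r d = 1) (v : ∀ n, U n)
    (hv : ∀ n, v n = a n ∨ v n = b n ∨ v n = c n ∨ v n = d n) : r v = 1 := by
  obtain ⟨ψ, hψ⟩ := hr
  have key : ∀ w : ∀ n, U n, r w = 1 ↔ ∀ᶠ x in ae A, ψ x.1 (w x.1) x.2 = x.2 := by
    intro w
    rw [hψ w]
    have h1 : (cls (fun n => ψ n (w n)) : SS A) = 1 ↔ (fun n => ψ n (w n)) ∈ NN A :=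
      QuotientGroup.eq_one_iff _
    rw [h1]
    exact Iff.rfl
  rw [key] at ha hb hc hd ⊢
  filter_upwards [ha, hb, hc, hd] with x h1 h2 h3 h4
  rcases hv x.1 with h | h | h | h <;> rw [h] <;> assumption

theorem crit (n1 : N1P) (n3 : N3P) [∀ n, Nonempty (A n)] (e : ℕ → ℕ)
    (five : (∀ n, ZMod (2 ^ (e n)))ˣ) (hfive : ∀ n, (five : ∀ n, ZMod (2 ^ (e n))) n = 5)
    (r : (∀ n, ZMod (2 ^ (e n)))ˣ → SS A) (hr : Itn (fun v => r (mkU v)))
    (hmul : ∀ a b, r (a * b) = r a * r b) (h5 : r five = 1) (hm : r (-1) = 1) :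
    ∀ u, r u = 1 := by
  have h1 : r 1 = 1 := by
    have := hmul 1 1
    rw [mul_one] at this
    exact (left_eq_mul.mp this)
  have hm5 : r (-five) = 1 := by
    rw [← neg_one_mul, hmul, hm, h5, one_mul]
  -- the generators
  let g : ∀ (n : ℕ) (p : Bool), (ZMod (2 ^ (e n)))ˣ := fun n p => if p then -1 else prU five n
  have hglue := glue (fun v => r (mkU v)) hr (fun _ => 1) (prU five) (fun _ => -1)
    (fun n => -prU five n)
    (by
      have : mkU (fun n => (1 : (ZMod (2 ^ (e n)))ˣ)) = 1 := by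
        apply Units.ext
        funext n
        rfl
      show r (mkU fun n => (1 : (ZMod (2 ^ (e n)))ˣ)) = 1
      rw [this, h1])
    (by
      show r (mkU (prU five)) = 1
      rw [mkU_prU, h5])
    (by
      have : mkU (fun n => (-1 : (ZMod (2 ^ (e n)))ˣ)) = -1 := by
        apply Units.ext
        funext n
        rfl
      show r (mkU fun n => (-1 : (ZMod (2 ^ (e n)))ˣ)) = 1
      rw [this, hm])
    (by
      have : mkU (fun n => -prU five n) = -five := by
        apply Units.ext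
        funext n
        rfl
      show r (mkU fun n => -prU five n) = 1
      rw [this, hm5])
  have hN := n1 A (fun _ => Bool) (fun n p => Subgroup.zpowers (g n p))
    (fun n p => ⟨g n p, Subgroup.mem_zpowers _⟩)
    (fun w => r (mkU fun n => ((w n false : (ZMod (2 ^ (e n)))ˣ) * (w n true))))
    (by
      rintro n p ⟨v, hv⟩
      obtain ⟨k, rfl⟩ := Subgroup.mem_zpowers_iff.1 hv
      exact Subgroup.mem_zpowers_iff.2 ⟨k, Subtype.ext (by simp)⟩)
    (itn_comp hr (fun n (w : ∀ p, Subgroup.zpowers (g n p)) =>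
      ((w false : (ZMod (2 ^ (e n)))ˣ) * (w true))))
    (by
      intro a b
      rw [← hmul, ← mkU_mul]
      congr 2
      funext n
      simp only [Pi.mul_apply, Subgroup.coe_mul]
      exact mul_mul_mul_comm _ _ _ _)
    (by
      intro X
      refine hglue _ fun n => ?_
      by_cases hf : false ∈ X n <;> by_cases ht : true ∈ X n <;> simp [hf, ht, g])
  intro u
  have hdec : ∀ n, ∃ w : ∀ p, Subgroup.zpowers (g n p),
      prU u n = ((w false : (ZMod (2 ^ (e n)))ˣ) * (w true)) := by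
    intro n
    obtain ⟨a, b, hab⟩ := n3 (e n) (prU five n) (hfive n) (prU u n)
    refine ⟨fun p => ⟨g n p ^ (if p then b else a), Subgroup.npow_mem_zpowers _ _⟩, ?_⟩
    rw [hab]
    simp [g]
  choose w hw using hdec
  have := hN w
  rw [← mkU_prU u]
  have h2 : prU u = fun n => ((w n false : (ZMod (2 ^ (e n)))ˣ) * (w n true)) := funext hw
  rw [h2]
  exact this

end Crit

-- BEGIN TARGET
theorem main (c3 : C3P) (c6 : C6Q) (c7 : C7Q) (n1 : N1P) (n3 : N3P) : N5P := by
  intro A _ _ e ι P h3 hP hm i j hij u v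
  obtain ⟨hcen, -, hl, hr, hskew, -⟩ := c3 ι _ _ P h3 i j hij
  have cop : ∀ (m : ℕ), m.Coprime 2 → ∀ n, m.Coprime (2 ^ (e n)) := fun m h n =>
    Nat.Coprime.pow_right _ h
  let five : (∀ n, ZMod (2 ^ (e n)))ˣ :=
    mkU (fun n => ZMod.unitOfCoprime 5 (cop 5 (by norm_num) n))
  let three : (∀ n, ZMod (2 ^ (e n)))ˣ :=
    mkU (fun n => ZMod.unitOfCoprime 3 (cop 3 (by norm_num) n))
  have hfive : ∀ n, (five : ∀ n, ZMod (2 ^ (e n))) n = 5 := by
    intro n
    show ((ZMod.unitOfCoprime 5 (cop 5 (by norm_num) n) : (ZMod (2 ^ (e n)))ˣ) :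
      ZMod (2 ^ (e n))) = 5
    rw [ZMod.coe_unitOfCoprime]
    norm_num
  have hthree : ∀ n, (three : ∀ n, ZMod (2 ^ (e n))) n = 3 := by
    intro n
    show ((ZMod.unitOfCoprime 3 (cop 3 (by norm_num) n) : (ZMod (2 ^ (e n)))ˣ) :
      ZMod (2 ^ (e n))) = 3
    rw [ZMod.coe_unitOfCoprime]
    norm_num
  -- the symbols commute
  have hcomm : ∀ u v u' v', Commute (P.c i j u v) (P.c i j u' v') := by
    intro u v u' v'
    have hx1 : ∀ a, Commute (P.c i j u v) (P.x i j a) := fun a => hcen u v i j hij a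
    have hx2 : ∀ a, Commute (P.c i j u v) (P.x j i a) := fun a => hcen u v j i hij.symm a
    have hW : ∀ t t', Commute (P.c i j u v) (P.W i j t t') := fun t t' =>
      ((hx1 t).mul_right (hx2 (-t'))).mul_right (hx1 t)
    have hh : ∀ w, Commute (P.c i j u v) (P.h i j w) := fun w =>
      (hW _ _).mul_right (hW _ _)
    exact ((hh u').mul_right (hh v')).mul_right (hh (u' * v')).inv_right
  have hc1 : ∀ v, P.c i j 1 v = 1 := by
    intro v
    have := hl 1 1 v
    rw [mul_one] at this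
    exact (left_eq_mul.mp this)
  have hc1' : ∀ v, P.c i j v 1 = 1 := by
    intro v
    have := hr v 1 1
    rw [mul_one] at this
    exact (left_eq_mul.mp this)
  have hneg : (-1 : (∀ n, ZMod (2 ^ (e n)))ˣ) * (-1) = 1 := by
    rw [neg_mul_neg, one_mul]
  -- squares are trivial
  have hsq5 : ∀ v, P.c i j five v * P.c i j five v = 1 := by
    refine crit n1 n3 e five hfive (fun v => P.c i j five v * P.c i j five v)
      (itn_mul (itn_c_right P hP hij five) (itn_c_right P hP hij five)) ?_ (hskew five five) ?_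
    · intro a b
      show P.c i j five (a * b) * P.c i j five (a * b) = _
      rw [hr]
      exact (hcomm five b five a).mul_mul_mul_comm _ _
    · show P.c i j five (-1) * P.c i j five (-1) = 1
      rw [← hr, hneg, hc1']
  have hsq : ∀ u v, P.c i j u v * P.c i j u v = 1 := by
    intro u v
    refine crit n1 n3 e five hfive (fun u => P.c i j u v * P.c i j u v)
      (itn_mul (itn_c_left P hP hij v) (itn_c_left P hP hij v)) ?_ (hsq5 v) ?_ u
    · intro a b
      show P.c i j (a * b) v * P.c i j (a * b) v = _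
      rw [hl]
      exact (hcomm b v a v).mul_mul_mul_comm _ _
    · show P.c i j (-1) v * P.c i j (-1) v = 1
      rw [← hl, hneg, hc1]
  -- the generators
  have h5m : P.c i j five (-1) = 1 :=
    c7 ι _ _ P h3 i j hij three five (funext hthree) (funext hfive) hsq
  have h55 : P.c i j five five = 1 := by
    have h := c6 ι _ _ P h3 i j hij 1 five (-five) (by simp) (by simp) (by simp)
      (Or.inr (by simp))
    rw [← neg_one_mul, hr, h5m, one_mul] at h
    exact h
  have hm5 : P.c i j (-1) five = 1 := by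
    have := hskew five (-1)
    rwa [h5m, one_mul] at this
  have hc5 : ∀ v, P.c i j five v = 1 :=
    crit n1 n3 e five hfive (fun v => P.c i j five v) (itn_c_right P hP hij five)
      (fun a b => hr five a b) h55 h5m
  have hcm : ∀ v, P.c i j (-1) v = 1 :=
    crit n1 n3 e five hfive (fun v => P.c i j (-1) v) (itn_c_right P hP hij (-1))
      (fun a b => hr (-1) a b) hm5 (hm i j hij)
  have hc : P.c i j u v = 1 :=
    crit n1 n3 e five hfive (fun u => P.c i j u v) (itn_c_left P hP hij v)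
      (fun a b => hl a b v) (hc5 v) (hcm v) u
  exact mul_inv_eq_one.1 hc
-- END TARGET

end Pool.Agent.H742F.N5
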