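/-
FS N6 : symbols over the product of the rings ZMod N.
-/
import Pool.Agent.H742F.Stm

set_option autoImplicit false
set_option maxHeartbeats 400000

open Filter Topology Finset

namespace Pool.Agent.H742F.N6

open Helper418 Pool.Agent.helper987_SE Pool.Agent.Helper702_TH
open Matrix (SpecialLinearGroup)

section abs
variable {R R₂ R₁ : Type} [CommRing R] [CommRing R₂] [CommRing R₁]

/-- the first factor -/
def f2 (T : R ≃+* R₂ × R₁) : R₂ →ₙ+* R where
  toFun a := T.symm (a, 0)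
  map_mul' a b := by rw [← map_mul, Prod.mk_mul_mk, mul_zero]
  map_zero' := by rw [Prod.mk_zero_zero, map_zero]
  map_add' a b := by rw [← map_add, Prod.mk_add_mk, add_zero]

/-- the second factor -/
def f1 (T : R ≃+* R₂ × R₁) : R₁ →ₙ+* R where
  toFun a := T.symm (0, a)
  map_mul' a b := by rw [← map_mul, Prod.mk_mul_mk, mul_zero]
  map_zero' := by rw [Prod.mk_zero_zero, map_zero]
  map_add' a b := by rw [← map_add, Prod.mk_add_mk, add_zero]

/-- units of the first factor -/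
def i2 (T : R ≃+* R₂ × R₁) (u : R₂ˣ) : Rˣ :=
  ⟨T.symm (u, 1), T.symm ((u⁻¹ : R₂ˣ), 1), by
    rw [← map_mul, Prod.mk_mul_mk, Units.mul_inv, mul_one, Prod.mk_one_one, map_one], by
    rw [← map_mul, Prod.mk_mul_mk, Units.inv_mul, mul_one, Prod.mk_one_one, map_one]⟩

/-- units of the second factor -/
def i1 (T : R ≃+* R₂ × R₁) (u : R₁ˣ) : Rˣ :=
  ⟨T.symm (1, u), T.symm (1, (u⁻¹ : R₁ˣ)), by
    rw [← map_mul, Prod.mk_mul_mk, Units.mul_inv, mul_one, Prod.mk_one_one, map_one], by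
    rw [← map_mul, Prod.mk_mul_mk, Units.inv_mul, mul_one, Prod.mk_one_one, map_one]⟩

lemma i2_val (T : R ≃+* R₂ × R₁) (u : R₂ˣ) : ((i2 T u : Rˣ) : R) = f2 T u + (1 - f2 T 1) := by
  show T.symm (u, 1) = T.symm (u, 0) + (1 - T.symm (1, 0))
  apply T.injective
  rw [map_add, map_sub, map_one]
  simp only [RingEquiv.apply_symm_apply]
  ext <;> simp

lemma i1_val (T : R ≃+* R₂ × R₁) (u : R₁ˣ) : ((i1 T u : Rˣ) : R) = f1 T u + (1 - f1 T 1) := by
  show T.symm (1, u) = T.symm (0, u) + (1 - T.symm (0, 1))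
  apply T.injective
  rw [map_add, map_sub, map_one]
  simp only [RingEquiv.apply_symm_apply]
  ext <;> simp

lemma i2_mul (T : R ≃+* R₂ × R₁) (u v : R₂ˣ) : i2 T (u * v) = i2 T u * i2 T v := by
  ext
  show T.symm ((u * v : R₂ˣ), 1) = T.symm (u, 1) * T.symm (v, 1)
  rw [← map_mul, Prod.mk_mul_mk, mul_one, Units.val_mul]

lemma i1_mul (T : R ≃+* R₂ × R₁) (u v : R₁ˣ) : i1 T (u * v) = i1 T u * i1 T v := by
  ext
  show T.symm (1, (u * v : R₁ˣ)) = T.symm (1, u) * T.symm (1, v)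
  rw [← map_mul, Prod.mk_mul_mk, mul_one, Units.val_mul]

lemma dec (T : R ≃+* R₂ × R₁) (u : Rˣ) : ∃ (u2 : R₂ˣ) (u1 : R₁ˣ), u = i2 T u2 * i1 T u1 := by
  refine ⟨Units.map ((RingHom.fst R₂ R₁).comp (T : R →+* R₂ × R₁)).toMonoidHom u,
    Units.map ((RingHom.snd R₂ R₁).comp (T : R →+* R₂ × R₁)).toMonoidHom u, ?_⟩
  ext
  show (u : R) = T.symm ((T u).1, 1) * T.symm (1, (T u).2)
  rw [← map_mul, Prod.mk_mul_mk, mul_one, one_mul]
  apply T.injective
  rw [RingEquiv.apply_symm_apply]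

lemma neg_one_dec (T : R ≃+* R₂ × R₁) : (-1 : Rˣ) = i2 T (-1) * i1 T (-1) := by
  ext
  show ((-1 : Rˣ) : R) = T.symm (((-1 : R₂ˣ) : R₂), 1) * T.symm (1, ((-1 : R₁ˣ) : R₁))
  rw [← map_mul, Prod.mk_mul_mk, mul_one, one_mul]
  apply T.injective
  rw [RingEquiv.apply_symm_apply]
  push_cast
  rw [map_neg, map_one]
  rfl

variable {ι X : Type} [Group X]

lemma c_i2 (c8 : C8Q) (T : R ≃+* R₂ × R₁) (P : StRel ι R X) (ht : Third ι) (i j : ι) (hij : i ≠ j) (u v : R₂ˣ) :
    P.c i j (i2 T u) (i2 T v) = (P.comap (f2 T)).c i j u v := by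
  have h := c8 ι R R₂ X P (f2 T) ht i j hij
  unfold StRel.c
  rw [h u _ (i2_val T u), h v _ (i2_val T v), h (u * v) _ (i2_val T (u * v)), i2_mul]

lemma c_i1 (c8 : C8Q) (T : R ≃+* R₂ × R₁) (P : StRel ι R X) (ht : Third ι) (i j : ι) (hij : i ≠ j) (u v : R₁ˣ) :
    P.c i j (i1 T u) (i1 T v) = (P.comap (f1 T)).c i j u v := by
  have h := c8 ι R R₁ X P (f1 T) ht i j hij
  unfold StRel.c
  rw [h u _ (i1_val T u), h v _ (i1_val T v), h (u * v) _ (i1_val T (u * v)), i1_mul]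

lemma c_12 (c4 : C4Q) (T : R ≃+* R₂ × R₁) (P : StRel ι R X) (ht : Third ι) (i j : ι) (hij : i ≠ j) (u : R₂ˣ)
    (v : R₁ˣ) : P.c i j (i2 T u) (i1 T v) = 1 ∧ P.c i j (i1 T v) (i2 T u) = 1 := by
  constructor
  · refine c4 ι R X P ht i j hij (f2 T 1) _ _ ?_ ?_ ?_
    · rw [← map_mul, mul_one]
    · rw [i2_val]
      show (1 - T.symm (1, 0)) * (T.symm ((u : R₂), 0) + (1 - T.symm (1, 0)) - 1) = 0
      apply T.injective
      simp only [map_mul, map_sub, map_add, map_one, map_zero, RingEquiv.apply_symm_apply]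
      ext <;> simp
    · rw [i1_val]
      show T.symm (1, 0) * (T.symm (0, (v : R₁)) + (1 - T.symm (0, 1)) - 1) = 0
      apply T.injective
      simp only [map_mul, map_sub, map_add, map_one, map_zero, RingEquiv.apply_symm_apply]
      ext <;> simp
  · refine c4 ι R X P ht i j hij (f1 T 1) _ _ ?_ ?_ ?_
    · rw [← map_mul, mul_one]
    · rw [i1_val]
      show (1 - T.symm (0, 1)) * (T.symm (0, (v : R₁)) + (1 - T.symm (0, 1)) - 1) = 0
      apply T.injective
      simp only [map_mul, map_sub, map_add, map_one, map_zero, RingEquiv.apply_symm_apply]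
      ext <;> simp
    · rw [i2_val]
      show T.symm (0, 1) * (T.symm ((u : R₂), 0) + (1 - T.symm (1, 0)) - 1) = 0
      apply T.injective
      simp only [map_mul, map_sub, map_add, map_one, map_zero, RingEquiv.apply_symm_apply]
      ext <;> simp

lemma c_gen (c3 : C3P) (c4 : C4Q) (c8 : C8Q) (T : R ≃+* R₂ × R₁) (P : StRel ι R X) (ht : Third ι) (i j : ι)
    (hij : i ≠ j) (u v : R₂ˣ) (u' v' : R₁ˣ) :
    P.c i j (i2 T u * i1 T u') (i2 T v * i1 T v') = (P.comap (f2 T)).c i j u v * (P.comap (f1 T)).c i j u' v' := by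
  obtain ⟨-, -, h1, h2, -, -⟩ := c3 ι R X P ht i j hij
  rw [h1, h2, h2, c_i2 c8 T P ht i j hij, c_i1 c8 T P ht i j hij, (c_12 c4 T P ht i j hij u v').1,
    (c_12 c4 T P ht i j hij v u').2, mul_one, one_mul]

lemma mulR_c {R : Type} [CommRing R] (P : StRel ι R X) : P.MulR ↔ ∀ i j, i ≠ j → ∀ u v, P.c i j u v = 1 := by
  unfold StRel.MulR StRel.c
  simp only [mul_inv_eq_one]

lemma key (c3 : C3P) (c4 : C4Q) (c8 : C8Q) (T : R ≃+* R₂ × R₁) (P : StRel ι R X) (ht : Third ι)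
    (h1 : (P.comap (f1 T)).MulR) (hc : ∀ i j, i ≠ j → P.c i j (-1) (-1) = 1)
    (h2 : (∀ i j, i ≠ j → (P.comap (f2 T)).c i j (-1) (-1) = 1) → (P.comap (f2 T)).MulR) : P.MulR := by
  rw [mulR_c] at h1
  have h3 : ∀ i j, i ≠ j → (P.comap (f2 T)).c i j (-1) (-1) = 1 := by
    intro i j hij
    have h := hc i j hij
    rw [neg_one_dec T, c_gen c3 c4 c8 T P ht i j hij, h1 i j hij, mul_one] at h
    exact h
  have h4 := (mulR_c _).1 (h2 h3)
  rw [mulR_c]
  intro i j hij u v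
  obtain ⟨u2, u1, rfl⟩ := dec T u
  obtain ⟨v2, v1, rfl⟩ := dec T v
  rw [c_gen c3 c4 c8 T P ht i j hij, h1 i j hij, h4 i j hij, mul_one]

end abs

/-- the odd part -/
def Mo (N : ℕ) : ℕ := N / 2 ^ (N.factorization 2)

lemma Mo_ne (N : ℕ) (hN : 0 < N) : Mo N ≠ 0 := by
  unfold Mo
  exact (Nat.ordCompl_pos 2 hN.ne').ne'

lemma Mo_mul (N : ℕ) : 2 ^ (N.factorization 2) * Mo N = N := Nat.ordProj_mul_ordCompl_eq_self N 2

lemma Mo_cop (N : ℕ) (hN : 0 < N) : Nat.Coprime (2 ^ (N.factorization 2)) (Mo N) := by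
  apply Nat.Coprime.pow_left
  exact Nat.coprime_ordCompl Nat.prime_two hN.ne'

/-- the factors -/
abbrev BB (N : ℕ) (p : (Mo N).primeFactors) : Type := ZMod ((p : ℕ) ^ ((Mo N).factorization p))

/-- the decomposition -/
noncomputable def Tn (N : ℕ) (hN : 0 < N) : ZMod N ≃+* ZMod (2 ^ (N.factorization 2)) × (∀ p, BB N p) :=
  (ZMod.ringEquivCongr (Mo_mul N).symm).trans ((ZMod.chineseRemainder (Mo_cop N hN)).trans
    (RingEquiv.prodCongr (RingEquiv.refl _) (ZMod.equivPi (Mo N) (Mo_ne N hN))))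

/-- the decomposition of the product -/
noncomputable def TT (N : ℕ → ℕ) (hN : ∀ n, 0 < N n) :
    (∀ n, ZMod (N n)) ≃+* (∀ n, ZMod (2 ^ ((N n).factorization 2))) × (∀ n, ∀ p, BB (N n) p) where
  toFun a := (fun n => (Tn (N n) (hN n) (a n)).1, fun n => (Tn (N n) (hN n) (a n)).2)
  invFun b := fun n => (Tn (N n) (hN n)).symm (b.1 n, b.2 n)
  left_inv a := by
    funext n
    exact (Tn (N n) (hN n)).symm_apply_apply (a n)
  right_inv b := by
    ext1
    · funext n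
      simp only [RingEquiv.apply_symm_apply]
    · funext n
      simp only [RingEquiv.apply_symm_apply]
  map_mul' a b := by
    ext1
    · funext n
      simp only [Pi.mul_apply, map_mul, Prod.fst_mul]
    · funext n
      simp only [Pi.mul_apply, map_mul, Prod.snd_mul]
  map_add' a b := by
    ext1
    · funext n
      simp only [Pi.add_apply, map_add, Prod.fst_add]
    · funext n
      simp only [Pi.add_apply, map_add, Prod.snd_add]

-- BEGIN TARGET
theorem main (c3 : C3P) (c4 : C4Q) (c8 : C8Q) (n2 : N2P) (n4 : N4P) (n5 : N5P) : N6P := by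
  intro A _ _ N ι P ht hN hP hc
  refine key c3 c4 c8 (TT N hN) P ht ?_ hc ?_
  · have : ∀ n, ∀ p, Finite (BB (N n) p) := by
      intro n p
      have hp := Nat.prime_of_mem_primeFactors p.2
      have : NeZero ((p : ℕ) ^ ((Mo (N n)).factorization p)) := ⟨(pow_pos hp.pos _).ne'⟩
      exact inferInstanceAs (Finite (ZMod _))
    refine n4 A (fun n => (Mo (N n)).primeFactors) (fun n p => BB (N n) p) ι _ ht ?_ ?_
    · intro n p
      have hp := Nat.prime_of_mem_primeFactors p.2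
      refine n2 p _ hp ?_
      intro h2
      have h3 := Nat.dvd_of_mem_primeFactors p.2
      rw [h2] at h3
      exact Nat.not_dvd_ordCompl Nat.prime_two (hN n).ne' h3
    · intro i j hij
      obtain ⟨ψ, hψ⟩ := hP i j hij
      exact ⟨fun n b => ψ n ((Tn (N n) (hN n)).symm (0, b)), fun a => hψ _⟩
  · intro h
    refine n5 A (fun n => (N n).factorization 2) ι _ ht ?_ h
    intro i j hij
    obtain ⟨ψ, hψ⟩ := hP i j hij
    exact ⟨fun n b => ψ n ((Tn (N n) (hN n)).symm (b, 0)), fun a => hψ _⟩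
-- END TARGET

end Pool.Agent.H742F.N6
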