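import Pool.Agent.H742F.Stm

set_option autoImplicit false
set_option maxHeartbeats 400000

open Filter Topology Finset

namespace Pool.Agent.H742F.R1

open Helper418 Pool.Agent.helper987_SE Pool.Agent.Helper702_TH
open Matrix (SpecialLinearGroup)

/-- a coprime pair has a combination coprime to a given number -/
theorem exists_coprime (a b N : ℕ) (hN : N ≠ 0) (hab : a.Coprime b) :
    ∃ k : ℕ, (a + k * b).Coprime N := by
  let ps : Finset ℕ := {p ∈ N.primeFactors | ¬p ∣ a}
  refine ⟨ps.prod id, ?_⟩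
  apply Nat.coprime_of_dvd
  intro p pp hp hpn
  by_cases hpx : p ∣ a
  · have h : p ∣ ps.prod id * b := (Nat.dvd_add_right hpx).mp hp
    rcases pp.dvd_mul.mp h with h | h
    · have ⟨q, hq, hq'⟩ := (pp.prime.dvd_finsetProd_iff id).mp h
      rw [Finset.mem_filter, Nat.mem_primeFactors,
        ← (Nat.prime_dvd_prime_iff_eq pp hq.1.1).mp hq'] at hq
      exact hq.2 hpx
    · exact Nat.Prime.not_coprime_iff_dvd.mpr ⟨p, pp, hpx, h⟩ hab
  · have pps : p ∈ ps := Finset.mem_filter.mpr ⟨Nat.mem_primeFactors.mpr ⟨pp, hpn, hN⟩, hpx⟩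
    have h1 : p ∣ ps.prod id * b := (Finset.dvd_prod_of_mem id pps).mul_right b
    exact hpx ((Nat.dvd_add_left h1).mp hp)

theorem herm_int_aux (n : ℕ) : ∀ a b : ℤ, b.natAbs ≤ n → Red a b := by
  induction n with
  | zero =>
    intro a b hb
    have : b = 0 := by omega
    subst this
    exact Red.zero a
  | succ n ih =>
    intro a b hb
    by_cases hb0 : b = 0
    · subst hb0
      exact Red.zero a
    · refine Red.left a b (-(a / b)) ?_
      have h1 : a + -(a / b) * b = a % b := by
        have := Int.emod_add_mul_ediv a b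
        linarith [mul_comm b (a / b)]
      rw [h1]
      set r := a % b with hr
      have hr0 : 0 ≤ r := Int.emod_nonneg a hb0
      have hr1 : r < |b| := Int.emod_lt_abs a hb0
      by_cases hrz : r = 0
      · rw [hrz]
        refine Red.left 0 b 1 ?_
        have : (0 : ℤ) + 1 * b = b := by ring
        rw [this]
        refine Red.right b b (-1) ?_
        have : b + -1 * b = 0 := by ring
        rw [this]
        exact Red.zero b
      · refine Red.right r b (-(b / r)) ?_
        have h2 : b + -(b / r) * r = b % r := by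
          have := Int.emod_add_mul_ediv b r
          linarith [mul_comm r (b / r)]
        rw [h2]
        apply ih
        have h3 : 0 ≤ b % r := Int.emod_nonneg b hrz
        have h4 : b % r < r := Int.emod_lt_of_pos b (lt_of_le_of_ne hr0 (Ne.symm hrz))
        have h5 : |b| = (b.natAbs : ℤ) := Int.abs_eq_natAbs b
        omega

theorem zmod_step (N : ℕ) (hN : 0 < N) (a b : ZMod N) : ∃ t s : ZMod N, b = s * (a + t * b) := by
  have : NeZero N := ⟨hN.ne'⟩
  obtain ⟨a0, ha0⟩ : ∃ a0 : ℕ, (a0 : ZMod N) = a := ⟨a.val, ZMod.natCast_zmod_val a⟩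
  obtain ⟨b0, hb0⟩ : ∃ b0 : ℕ, (b0 : ZMod N) = b := ⟨b.val, ZMod.natCast_zmod_val b⟩
  rcases Nat.eq_zero_or_pos (Nat.gcd a0 b0) with hg | hg
  · have h2 : b0 = 0 := (Nat.gcd_eq_zero_iff.mp hg).2
    refine ⟨0, 0, ?_⟩
    rw [← hb0, h2]
    simp
  · obtain ⟨a', b', hcop, ha', hb'⟩ := Nat.exists_coprime a0 b0
    obtain ⟨k, hk⟩ := exists_coprime a' b' N hN.ne' hcop
    set g := Nat.gcd a0 b0 with hgdef
    have hu : ((a' + k * b' : ℕ) : ZMod N) * ((a' + k * b' : ℕ) : ZMod N)⁻¹ = 1 :=
      ZMod.coe_mul_inv_eq_one _ hk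
    refine ⟨(k : ZMod N), (b' : ZMod N) * ((a' + k * b' : ℕ) : ZMod N)⁻¹, ?_⟩
    have e1 : a + (k : ZMod N) * b = ((a' + k * b' : ℕ) : ZMod N) * (g : ZMod N) := by
      rw [← ha0, ← hb0, ha', hb']
      push_cast
      ring
    have e2 : b = (b' : ZMod N) * (g : ZMod N) := by
      rw [← hb0, hb']
      push_cast
      ring
    rw [e1]
    calc b = (b' : ZMod N) * (g : ZMod N) := e2
      _ = (b' : ZMod N) * (((a' + k * b' : ℕ) : ZMod N) * ((a' + k * b' : ℕ) : ZMod N)⁻¹) *
            (g : ZMod N) := by rw [hu, mul_one]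
      _ = (b' : ZMod N) * ((a' + k * b' : ℕ) : ZMod N)⁻¹ *
            (((a' + k * b' : ℕ) : ZMod N) * (g : ZMod N)) := by ring

theorem herm_of_step {R : Type} [CommRing R] (h : ∀ a b : R, ∃ t s : R, b = s * (a + t * b)) :
    Herm R := by
  intro a b
  obtain ⟨t, s, hts⟩ := h a b
  refine Red.left a b t ?_
  refine Red.right (a + t * b) b (-s) ?_
  have h0 : b + -s * (a + t * b) = 0 := by
    have : -s * (a + t * b) = -(s * (a + t * b)) := by ring
    rw [this, ← hts]
    ring
  rw [h0]
  exact Red.zero _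

-- BEGIN TARGET
theorem main : R1P := by
  refine ⟨fun a b => herm_int_aux b.natAbs a b le_rfl, fun N hN => ?_⟩
  refine herm_of_step fun a b => ?_
  choose t s hts using fun n => zmod_step (N n) (hN n) (a n) (b n)
  exact ⟨t, s, funext fun n => by simpa using hts n⟩
-- END TARGET

end Pool.Agent.H742F.R1
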