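import Pool.Agent.H742F.Stm

set_option autoImplicit false
set_option maxHeartbeats 400000

open Filter Topology Finset

namespace Pool.Agent.H742F.R2

open Helper418 Pool.Agent.helper987_SE Pool.Agent.Helper702_TH
open Matrix (SpecialLinearGroup)

/-- some positive power of an element of a finite monoid is idempotent -/
theorem idem_pow {R : Type} [CommRing R] [Finite R] (a : R) :
    ∃ m : ℕ, 0 < m ∧ a ^ m * a ^ m = a ^ m := by
  obtain ⟨i, j, hne, hij⟩ := Finite.exists_ne_map_eq_of_infinite (fun n : ℕ => a ^ n)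
  wlog hlt : i < j generalizing i j
  · exact this j i hne.symm hij.symm (by omega)
  obtain ⟨p, hp⟩ : ∃ p, j = i + p := ⟨j - i, by omega⟩
  have hp0 : 0 < p := by omega
  have hij' : a ^ i = a ^ (i + p) := by rw [← hp]; exact hij
  have h1 : ∀ n, i ≤ n → a ^ (n + p) = a ^ n := by
    intro n hn
    obtain ⟨t, rfl⟩ : ∃ t, n = i + t := ⟨n - i, by omega⟩
    rw [show i + t + p = (i + p) + t by ring, pow_add, ← hij', ← pow_add]
  have h2 : ∀ k n, i ≤ n → a ^ (n + k * p) = a ^ n := by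
    intro k
    induction k with
    | zero => intro n _; simp
    | succ k ih =>
      intro n hn
      rw [show n + (k + 1) * p = (n + k * p) + p by ring, h1 _ (by omega), ih n hn]
  refine ⟨(i + 1) * p, by positivity, ?_⟩
  rw [← pow_add]
  exact h2 (i + 1) _ (by nlinarith)

theorem split_fin {R : Type} [CommRing R] [Finite R] (a : R) :
    ∃ e a' : R, e * e = e ∧ a * a' = e ∧ a' * e = a' ∧ ∀ b, IsUnit (1 + (1 - e) * a * b) := by
  obtain ⟨m, hm, hidem⟩ := idem_pow a
  obtain ⟨k, rfl⟩ : ∃ k, m = k + 1 := ⟨m - 1, by omega⟩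
  refine ⟨a ^ (k + 1), a ^ k * a ^ (k + 1), hidem, ?_, ?_, fun b => ?_⟩
  · rw [← mul_assoc, ← pow_succ', hidem]
  · rw [mul_assoc, hidem]
  · have hn : IsNilpotent ((1 - a ^ (k + 1)) * a * b) := by
      refine ⟨k + 1, ?_⟩
      rw [mul_pow, mul_pow, pow_succ (1 - a ^ (k + 1)) k]
      have : (1 - a ^ (k + 1)) * a ^ (k + 1) = 0 := by rw [sub_mul, one_mul, hidem, sub_self]
      calc (1 - a ^ (k + 1)) ^ k * (1 - a ^ (k + 1)) * a ^ (k + 1) * b ^ (k + 1)
          = (1 - a ^ (k + 1)) ^ k * ((1 - a ^ (k + 1)) * a ^ (k + 1)) * b ^ (k + 1) := by ring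
        _ = 0 := by rw [this]; ring
    exact hn.isUnit_one_add

-- BEGIN TARGET
theorem main : R2P := by
  intro N hN a
  have h : ∀ n, ∃ e a' : ZMod (N n), e * e = e ∧ a n * a' = e ∧ a' * e = a' ∧
      ∀ b, IsUnit (1 + (1 - e) * a n * b) := by
    intro n
    haveI : NeZero (N n) := ⟨(hN n).ne'⟩
    exact split_fin (a n)
  choose e a' h1 h2 h3 h4 using h
  refine ⟨e, a', funext h1, funext h2, funext h3, fun b => ?_⟩
  rw [Pi.isUnit_iff]
  intro n
  exact h4 n (b n)
-- END TARGET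

end Pool.Agent.H742F.R2
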