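import Pool.Agent.H742F.Stm2

/-!
# Project FS (helper742), part S1 (helper869): existence of the exact powers
-/

set_option autoImplicit false
set_option maxHeartbeats 400000

open Filter Topology Finset

namespace Pool.Agent.H742F.S1b

open Helper418 Pool.Agent.helper987_SE Pool.Agent.Helper702_TH
open Matrix (SpecialLinearGroup)

theorem x_zero {ι R X : Type} [CommRing R] [Group X] (P : StRel ι R X) {i j : ι} (h : i ≠ j) :
    P.x i j 0 = 1 := by
  have := P.add i j h 0 0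
  rw [add_zero] at this
  exact (left_eq_mul.mp this)

theorem x_neg {ι R X : Type} [CommRing R] [Group X] (P : StRel ι R X) {i j : ι} (h : i ≠ j)
    (a : R) : P.x i j (-a) = (P.x i j a)⁻¹ := by
  rw [eq_inv_iff_mul_eq_one, ← P.add i j h, neg_add_cancel, x_zero P h]

/-- the relations of the Kazhdan groups from the Steinberg relations -/
def trel {ι J G : Type} [Group G] (P : StRel ι ℤ G) (i : ι) (d : Fin 3 → ι) (c : J → ι)
    (hd : Function.Injective d) (hdi : ∀ q, d q ≠ i) (hci : ∀ b, c b ≠ i)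
    (hcd : ∀ b q, c b ≠ d q) : TRel J G where
  e p q := P.x (d p) (d q) 1
  x p := P.x i (d p) 1
  y p b := P.x (d p) (c b) 1
  z b := P.x i (c b) 1
  ee k l m h1 h2 h3 := by
    have := P.mul (d k) (d l) (d m) (hd.ne h1) (hd.ne h2) (hd.ne h3) 1 1
    rwa [mul_one] at this
  ee_comm k l k' l' h1 h2 h3 h4 := P.comm _ _ _ _ (hd.ne h1) (hd.ne h2) (hd.ne h3) (hd.ne h4) _ _
  xx k l := P.comm _ _ _ _ (hdi k).symm (hdi l).symm (hdi k) (hdi l).symm _ _
  xe k l h := by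
    have := P.mul i (d k) (d l) (hdi k).symm (hd.ne h) (hdi l).symm 1 1
    rwa [mul_one] at this
  xe_comm k l m h1 h2 := P.comm _ _ _ _ (hdi k).symm (hd.ne h1) (hd.ne h2) (hdi m).symm _ _
  ey k l j h := by
    have := P.mul (d k) (d l) (c j) (hd.ne h) (hcd j l).symm (hcd j k).symm 1 1
    rwa [mul_one] at this
  ey_comm k l m j h1 h2 := P.comm _ _ _ _ (hd.ne h1) (hcd j m).symm (hd.ne h2) (hcd j k).symm _ _
  yy k l i j := P.comm _ _ _ _ (hcd i k).symm (hcd j l).symm (hcd i l) (hcd j k).symm _ _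
  xy k j := by
    have := P.mul i (d k) (c j) (hdi k).symm (hcd j k).symm (hci j).symm 1 1
    rwa [mul_one] at this
  xy_comm k l j h := P.comm _ _ _ _ (hdi k).symm (hcd j l).symm (hd.ne h) (hci j).symm _ _
  ze j k l h := P.comm _ _ _ _ (hci j).symm (hd.ne h) (hcd j k) (hdi l).symm _ _
  zx j k := P.comm _ _ _ _ (hci j).symm (hdi k).symm (hci j) (hdi k).symm _ _
  zy i k j := P.comm _ _ _ _ (hci i).symm (hcd j k).symm (hcd i k) (hci j).symm _ _
  zz i j := P.comm _ _ _ _ (hci i).symm (hci j).symm (hci i) (hci j).symm _ _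

/-- commuting with the image of a generating set -/
theorem comm_closure {G X : Type} [Group G] [Group X] (α : G →* X) (S : Set G) (s : X)
    (h : ∀ g ∈ S, Commute s (α g)) : ∀ t ∈ Subgroup.closure S, Commute s (α t) := by
  have hle : Subgroup.closure S ≤ (Subgroup.centralizer {s}).comap α := by
    rw [Subgroup.closure_le]
    intro g hg
    rw [SetLike.mem_coe, Subgroup.mem_comap, Subgroup.mem_centralizer_singleton_iff]
    exact (h g hg).symm.eq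
  intro t ht
  have := hle ht
  rw [Subgroup.mem_comap, Subgroup.mem_centralizer_singleton_iff] at this
  exact Commute.symm this

/-- uniqueness of the powers -/
theorem uniq (a2 : A2P) (A : ℕ → Type) [∀ n, Fintype (A n)] (r r' : (ℕ → ℤ) → SS A)
    (h : IsI r) (h' : IsI r') (hc : ∀ a b, Commute (r a) (r' b))
    (h1 : r (fun _ => 1) = r' (fun _ => 1)) : ∀ m, r m = r' m := by
  obtain ⟨hm, ψ, hψ⟩ := h
  obtain ⟨hm', ψ', hψ'⟩ := h'
  have hI : IsI (fun m => r m * (r' m)⁻¹) := by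
    refine ⟨fun a b => ?_, fun n m => ψ n m * (ψ' n m)⁻¹, fun a => ?_⟩
    · have e1 : r' (a + b) = r' b * r' a := by rw [add_comm, hm']
      show r (a + b) * (r' (a + b))⁻¹ = r a * (r' a)⁻¹ * (r b * (r' b)⁻¹)
      rw [hm, e1, mul_inv_rev]
      have c1 : Commute (r b) (r' a)⁻¹ := (hc b a).inv_right
      have c2 : r' a * r' b = r' b * r' a := by rw [← hm', ← hm', add_comm]
      have c3 : (r' a)⁻¹ * (r' b)⁻¹ = (r' b)⁻¹ * (r' a)⁻¹ := by
        rw [← mul_inv_rev, ← mul_inv_rev, c2]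
      calc r a * r b * ((r' a)⁻¹ * (r' b)⁻¹) = r a * (r b * (r' a)⁻¹) * (r' b)⁻¹ := by group
        _ = r a * ((r' a)⁻¹ * r b) * (r' b)⁻¹ := by rw [c1.eq]
        _ = _ := by group
    · show r a * (r' a)⁻¹ = _
      rw [hψ, hψ']
      rfl
  intro m
  have := a2 A (fun m => r m * (r' m)⁻¹) hI (by show r _ * (r' _)⁻¹ = 1; rw [h1, mul_inv_cancel]) m
  exact mul_inv_eq_one.mp this

/-- exact powers relative to a set -/
structure PwS {A : ℕ → Type} [∀ n, Fintype (A n)] {G : Type} [Group G] (α : G →* SS A)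
    (S : Set G) (v : G) (r : (ℕ → ℤ) → SS A) : Prop where
  int : IsI r
  one : r (fun _ => 1) = α v
  glob : ∀ s, (∀ t ∈ S, Commute s (α t)) → ∀ m, Commute (r m) s

theorem ext (a2 : A2P) (pw : PWP) {A : ℕ → Type} [∀ n, Fintype (A n)] [∀ n, Nonempty (A n)]
    {J G : Type} [Finite J] [Group G] (α : G →* SS A) {S : Set G} {v : G}
    {r : (ℕ → ℤ) → SS A} (hr : PwS α S v r) (P : TRel J G) (hS : ∀ g ∈ S, g ∈ P.T)
    (hv : v ∈ P.T) (hc : ∀ t ∈ P.T, Commute v t) :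
    ∀ m, ∀ t ∈ P.T, Commute (r m) (α t) := by
  obtain ⟨r1, hr1⟩ := pw A J G P α v hv hc
  have h1 : ∀ a b, Commute (r a) (r1 b) := fun a b =>
    hr.glob (r1 b) (fun t ht => hr1.cen b t (hS t ht)) a
  have h2 := uniq a2 A r r1 hr.int hr1.int h1 (by rw [hr.one, hr1.one])
  intro m t ht
  rw [h2 m]
  exact hr1.cen m t ht

/-- the generators without `E_ij` -/
def gs {ι G : Type} [Group G] (P : StRel ι ℤ G) (i j : ι) (d : Fin 3 → ι) : Set G :=
  {g | (∃ p q, p ≠ q ∧ g = P.x (d p) (d q) 1) ∨ (∃ q, g = P.x i (d q) 1) ∨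
    ∃ q, g = P.x (d q) j 1}

/-- commutators -/
theorem x_comm {ι G : Type} [Group G] (P : StRel ι ℤ G) {i l j : ι} (h1 : i ≠ l) (h2 : l ≠ j)
    (h3 : i ≠ j) :
    P.x i j 1 = P.x i l 1 * P.x l j 1 * (P.x i l 1)⁻¹ * (P.x l j 1)⁻¹ := by
  have := P.mul i l j h1 h2 h3 1 1
  rw [mul_one] at this
  rw [this]
  group

section
variable {A : ℕ → Type} [∀ n, Fintype (A n)] [∀ n, Nonempty (A n)]
  {ι G : Type} [Group G] (P : StRel ι ℤ G) (α : G →* SS A)

theorem exists_pw (pw : PWP) (i j : ι) (hij : i ≠ j) (d : Fin 3 → ι) (hd : Function.Injective d)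
    (hdi : ∀ q, d q ≠ i) (hdj : ∀ q, d q ≠ j) :
    ∃ r, PwS α (gs P i j d) (P.x i j 1) r := by
  have hci : ∀ _ : Fin 1, j ≠ i := fun _ => hij.symm
  have hcd : ∀ (_ : Fin 1) q, j ≠ d q := fun _ q => (hdj q).symm
  let Q : TRel (Fin 1) G := trel P i d (fun _ => j) hd hdi hci hcd
  have hv : P.x i j 1 ∈ Q.T := Subgroup.subset_closure (Or.inr (Or.inr (Or.inr ⟨0, rfl⟩)))
  have hcen : ∀ t ∈ Q.T, Commute (P.x i j 1) t := by
    have := comm_closure (MonoidHom.id G) Q.gens (P.x i j 1) ?_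
    · exact this
    · rintro g (⟨k, l, hkl, rfl⟩ | ⟨k, rfl⟩ | ⟨k, b, rfl⟩ | ⟨b, rfl⟩)
      · exact Q.ze 0 k l hkl
      · exact Q.zx 0 k
      · exact Q.zy 0 k b
      · exact Q.zz 0 b
  obtain ⟨r, hr⟩ := pw A (Fin 1) G Q α (P.x i j 1) hv hcen
  refine ⟨r, hr.int, hr.one, ?_⟩
  intro s hs m
  apply hr.glob s
  apply comm_closure
  rintro g (⟨k, l, hkl, rfl⟩ | ⟨k, rfl⟩ | ⟨k, b, rfl⟩ | ⟨b, rfl⟩)
  · exact hs _ (Or.inl ⟨k, l, hkl, rfl⟩)
  · exact hs _ (Or.inr (Or.inl ⟨k, rfl⟩))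
  · exact hs _ (Or.inr (Or.inr ⟨k, rfl⟩))
  · show Commute s (α (P.x i j 1))
    rw [x_comm P (hdi 0).symm (hdj 0) hij, map_mul, map_mul, map_mul, map_inv, map_inv]
    have c1 : Commute s (α (P.x i (d 0) 1)) := hs _ (Or.inr (Or.inl ⟨0, rfl⟩))
    have c2 : Commute s (α (P.x (d 0) j 1)) := hs _ (Or.inr (Or.inr ⟨0, rfl⟩))
    exact ((c1.mul_right c2).mul_right c1.inv_right).mul_right c2.inv_right

/-- columns -/
theorem cols (a2 : A2P) (pw : PWP) (i j : ι) (hij : i ≠ j) (d : Fin 3 → ι)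
    (hd : Function.Injective d) (hdi : ∀ q, d q ≠ i) (hdj : ∀ q, d q ≠ j)
    {r : (ℕ → ℤ) → SS A} (hr : PwS α (gs P i j d) (P.x i j 1) r) (b : ι) (hbi : b ≠ i)
    (hbd : ∀ q, d q ≠ b) :
    ∀ m, (∀ p q, p ≠ q → Commute (r m) (α (P.x (d p) (d q) 1))) ∧
      (∀ q, Commute (r m) (α (P.x i (d q) 1))) ∧ (∀ q, Commute (r m) (α (P.x (d q) j 1))) ∧
      Commute (r m) (α (P.x i j 1)) ∧
      (∀ q, Commute (r m) (α (P.x (d q) b 1))) ∧ Commute (r m) (α (P.x i b 1)) := by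
  have hci : ∀ t : Fin 2, ![j, b] t ≠ i := by
    intro t; fin_cases t
    · exact hij.symm
    · exact hbi
  have hcd : ∀ (t : Fin 2) q, ![j, b] t ≠ d q := by
    intro t q; fin_cases t
    · exact (hdj q).symm
    · exact (hbd q).symm
  let Q : TRel (Fin 2) G := trel P i d ![j, b] hd hdi hci hcd
  have g1 : ∀ p q, p ≠ q → P.x (d p) (d q) 1 ∈ Q.T := fun p q h =>
    Subgroup.subset_closure (Or.inl ⟨p, q, h, rfl⟩)
  have g2 : ∀ q, P.x i (d q) 1 ∈ Q.T := fun q =>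
    Subgroup.subset_closure (Or.inr (Or.inl ⟨q, rfl⟩))
  have g3 : ∀ q, P.x (d q) j 1 ∈ Q.T := fun q =>
    Subgroup.subset_closure (Or.inr (Or.inr (Or.inl ⟨q, 0, rfl⟩)))
  have g4 : P.x i j 1 ∈ Q.T := Subgroup.subset_closure (Or.inr (Or.inr (Or.inr ⟨0, rfl⟩)))
  have g5 : ∀ q, P.x (d q) b 1 ∈ Q.T := fun q =>
    Subgroup.subset_closure (Or.inr (Or.inr (Or.inl ⟨q, 1, rfl⟩)))
  have g6 : P.x i b 1 ∈ Q.T := Subgroup.subset_closure (Or.inr (Or.inr (Or.inr ⟨1, rfl⟩)))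
  have hcen : ∀ t ∈ Q.T, Commute (P.x i j 1) t := by
    have := comm_closure (MonoidHom.id G) Q.gens (P.x i j 1) ?_
    · exact this
    · rintro g (⟨k, l, hkl, rfl⟩ | ⟨k, rfl⟩ | ⟨k, b, rfl⟩ | ⟨b, rfl⟩)
      · exact Q.ze 0 k l hkl
      · exact Q.zx 0 k
      · exact Q.zy 0 k b
      · exact Q.zz 0 b
  have hS : ∀ g ∈ gs P i j d, g ∈ Q.T := by
    rintro g (⟨p, q, hpq, rfl⟩ | ⟨q, rfl⟩ | ⟨q, rfl⟩)
    · exact g1 p q hpq
    · exact g2 q
    · exact g3 q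
  have := ext a2 pw α hr Q hS g4 hcen
  intro m
  exact ⟨fun p q h => this m _ (g1 p q h), fun q => this m _ (g2 q), fun q => this m _ (g3 q),
    this m _ g4, fun q => this m _ (g5 q), this m _ g6⟩

/-- rows -/
theorem rows (a2 : A2P) (pw : PWP) (i j : ι) (hij : i ≠ j) (d : Fin 3 → ι)
    (hd : Function.Injective d) (hdi : ∀ q, d q ≠ i) (hdj : ∀ q, d q ≠ j)
    {r : (ℕ → ℤ) → SS A} (hr : PwS α (gs P i j d) (P.x i j 1) r) (a : ι) (haj : a ≠ j)
    (had : ∀ q, d q ≠ a) :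
    ∀ m, (∀ q, Commute (r m) (α (P.x a (d q) 1))) ∧ Commute (r m) (α (P.x a j 1)) := by
  have hci : ∀ t : Fin 2, ![i, a] t ≠ j := by
    intro t; fin_cases t
    · exact hij
    · exact haj
  have hcd : ∀ (t : Fin 2) q, ![i, a] t ≠ d q := by
    intro t q; fin_cases t
    · exact (hdi q).symm
    · exact (had q).symm
  let Q : TRel (Fin 2) G := trel P.tr j d ![i, a] hd hdj hci hcd
  have hinv : ∀ s t : ι, s ≠ t → P.tr.x t s 1 ∈ Q.T → P.x s t 1 ∈ Q.T := by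
    intro s t hst h
    have e : P.tr.x t s 1 = (P.x s t 1)⁻¹ := x_neg P hst 1
    rw [e, inv_mem_iff] at h
    exact h
  have g1 : ∀ p q, p ≠ q → P.x (d p) (d q) 1 ∈ Q.T := fun p q h =>
    hinv _ _ (hd.ne h) (Subgroup.subset_closure (Or.inl ⟨q, p, h.symm, rfl⟩))
  have g2 : ∀ q, P.x i (d q) 1 ∈ Q.T := fun q =>
    hinv _ _ (hdi q).symm (Subgroup.subset_closure (Or.inr (Or.inr (Or.inl ⟨q, 0, rfl⟩))))
  have g3 : ∀ q, P.x (d q) j 1 ∈ Q.T := fun q =>
    hinv _ _ (hdj q) (Subgroup.subset_closure (Or.inr (Or.inl ⟨q, rfl⟩)))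
  have g4 : P.x i j 1 ∈ Q.T :=
    hinv _ _ hij (Subgroup.subset_closure (Or.inr (Or.inr (Or.inr ⟨0, rfl⟩))))
  have g5 : ∀ q, P.x a (d q) 1 ∈ Q.T := fun q =>
    hinv _ _ (had q).symm (Subgroup.subset_closure (Or.inr (Or.inr (Or.inl ⟨q, 1, rfl⟩))))
  have g6 : P.x a j 1 ∈ Q.T :=
    hinv _ _ haj (Subgroup.subset_closure (Or.inr (Or.inr (Or.inr ⟨1, rfl⟩))))
  have hcen0 : ∀ t ∈ Q.T, Commute (P.tr.x j i 1) t := by
    have := comm_closure (MonoidHom.id G) Q.gens (P.tr.x j i 1) ?_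
    · exact this
    · rintro g (⟨k, l, hkl, rfl⟩ | ⟨k, rfl⟩ | ⟨k, b, rfl⟩ | ⟨b, rfl⟩)
      · exact Q.ze 0 k l hkl
      · exact Q.zx 0 k
      · exact Q.zy 0 k b
      · exact Q.zz 0 b
  have hcen : ∀ t ∈ Q.T, Commute (P.x i j 1) t := by
    intro t ht
    have e : P.tr.x j i 1 = (P.x i j 1)⁻¹ := x_neg P hij 1
    have := hcen0 t ht
    rw [e] at this
    exact Commute.inv_left_iff.mp this
  have hS : ∀ g ∈ gs P i j d, g ∈ Q.T := by
    rintro g (⟨p, q, hpq, rfl⟩ | ⟨q, rfl⟩ | ⟨q, rfl⟩)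
    · exact g1 p q hpq
    · exact g2 q
    · exact g3 q
  have := ext a2 pw α hr Q hS g4 hcen
  intro m
  exact ⟨fun q => this m _ (g5 q), this m _ g6⟩

/-- centrality -/
theorem cen (a2 : A2P) (pw : PWP) (i j : ι) (hij : i ≠ j) (d : Fin 3 → ι)
    (hd : Function.Injective d) (hdi : ∀ q, d q ≠ i) (hdj : ∀ q, d q ≠ j)
    {r : (ℕ → ℤ) → SS A} (hr : PwS α (gs P i j d) (P.x i j 1) r) (a b : ι) (hab : a ≠ b)
    (haj : a ≠ j) (hbi : b ≠ i) (m : ℕ → ℤ) : Commute (r m) (α (P.x a b 1)) := by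
  have base := cols P α a2 pw i j hij d hd hdi hdj hr j hij.symm hdj m
  by_cases ha : ∃ p, d p = a
  · obtain ⟨p, rfl⟩ := ha
    by_cases hb : ∃ q, d q = b
    · obtain ⟨q, rfl⟩ := hb
      exact base.1 p q (fun h => hab (by rw [h]))
    · have hb' : ∀ q, d q ≠ b := fun q h => hb ⟨q, h⟩
      exact (cols P α a2 pw i j hij d hd hdi hdj hr b hbi hb' m).2.2.2.2.1 p
  · have ha' : ∀ q, d q ≠ a := fun q h => ha ⟨q, h⟩
    by_cases hb : ∃ q, d q = b
    · obtain ⟨q, rfl⟩ := hb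
      exact (rows P α a2 pw i j hij d hd hdi hdj hr a haj ha' m).1 q
    · have hb' : ∀ q, d q ≠ b := fun q h => hb ⟨q, h⟩
      rw [x_comm P (ha' 0).symm (hb' 0) hab, map_mul, map_mul, map_mul, map_inv, map_inv]
      have c1 : Commute (r m) (α (P.x a (d 0) 1)) :=
        (rows P α a2 pw i j hij d hd hdi hdj hr a haj ha' m).1 0
      have c2 : Commute (r m) (α (P.x (d 0) b 1)) :=
        (cols P α a2 pw i j hij d hd hdi hdj hr b hbi hb' m).2.2.2.2.1 0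
      exact ((c1.mul_right c2).mul_right c1.inv_right).mul_right c2.inv_right

/-- the global property for all triples -/
theorem glob (a2 : A2P) (pw : PWP) (i j : ι) (hij : i ≠ j) (d : Fin 3 → ι)
    (hd : Function.Injective d) (hdi : ∀ q, d q ≠ i) (hdj : ∀ q, d q ≠ j)
    {r : (ℕ → ℤ) → SS A} (hr : PwS α (gs P i j d) (P.x i j 1) r) (d' : Fin 3 → ι)
    (hd' : Function.Injective d') (hdi' : ∀ q, d' q ≠ i) (hdj' : ∀ q, d' q ≠ j) :
    PwS α (gs P i j d') (P.x i j 1) r := by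
  obtain ⟨r', hr'⟩ := exists_pw P α pw i j hij d' hd' hdi' hdj'
  have hc : ∀ l m, Commute (r' l) (r m) := by
    intro l m
    refine hr'.glob (r m) ?_ l
    rintro g (⟨p, q, hpq, rfl⟩ | ⟨q, rfl⟩ | ⟨q, rfl⟩)
    · exact cen P α a2 pw i j hij d hd hdi hdj hr _ _ (hd'.ne hpq) (hdj' p) (hdi' q) m
    · exact cen P α a2 pw i j hij d hd hdi hdj hr _ _ (hdi' q).symm hij (hdi' q) m
    · exact cen P α a2 pw i j hij d hd hdi hdj hr _ _ (hdj' q) (hdj' q) hij.symm m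
  have hu := uniq a2 A r' r hr'.int hr.int hc (by rw [hr'.one, hr.one])
  refine ⟨hr.int, hr.one, fun s hs m => ?_⟩
  rw [← hu m]
  exact hr'.glob s hs m

end

theorem exists_d {k : ℕ} (hk : 5 ≤ k) (i j : Fin k) :
    ∃ d : Fin 3 → Fin k, Function.Injective d ∧ (∀ q, d q ≠ i) ∧ ∀ q, d q ≠ j := by
  classical
  have hcard : Fintype.card (Fin 3) ≤ Fintype.card {x : Fin k // x ≠ i ∧ x ≠ j} := by
    rw [Fintype.card_fin, Fintype.card_subtype]
    have h1 : (univ.filter fun x : Fin k => x ≠ i ∧ x ≠ j) = (univ.erase i).erase j := by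
      ext x
      simp only [mem_filter, mem_univ, true_and, mem_erase, and_true]
      tauto
    rw [h1]
    have h2 : (univ.erase i).card = k - 1 := by
      rw [card_erase_of_mem (mem_univ _), card_univ, Fintype.card_fin]
    have h3 := pred_card_le_card_erase (s := univ.erase i) (a := j)
    omega
  obtain ⟨f⟩ := Function.Embedding.nonempty_of_card_le hcard
  exact ⟨fun q => (f q).1, fun p q h => f.injective (Subtype.ext h), fun q => (f q).2.1,
    fun q => (f q).2.2⟩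

theorem main (a2 : A2P) (pw : PWP) (e0 : E0P) : S1R := by
  intro A _ _ k hk α
  obtain ⟨P, hP, -⟩ := e0 (Fin k) ℤ
  have hex : ∀ i j : Fin k, ∃ r : (ℕ → ℤ) → SS A, i ≠ j → ∃ d : Fin 3 → Fin k,
      Function.Injective d ∧ (∀ q, d q ≠ i) ∧ (∀ q, d q ≠ j) ∧
      PwS α (gs P i j d) (P.x i j 1) r := by
    intro i j
    by_cases hij : i = j
    · exact ⟨fun _ => 1, fun h => absurd hij h⟩
    · obtain ⟨d, hd, hdi, hdj⟩ := exists_d (by omega) i j
      obtain ⟨r, hr⟩ := exists_pw P α pw i j hij d hd hdi hdj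
      exact ⟨r, fun _ => ⟨d, hd, hdi, hdj, hr⟩⟩
  choose e he using hex
  refine ⟨⟨e, ?_, ?_, ?_, ?_⟩⟩
  · intro i j hij
    obtain ⟨d, hd, hdi, hdj, hr⟩ := he i j hij
    exact hr.int
  · intro i j hij
    obtain ⟨d, hd, hdi, hdj, hr⟩ := he i j hij
    rw [hr.one, hP]
  · intro i j a b hij hab haj hbi m
    obtain ⟨d, hd, hdi, hdj, hr⟩ := he i j hij
    rw [← hP]
    exact cen P α a2 pw i j hij d hd hdi hdj hr a b hab haj hbi m
  · intro i j hij d' hd' hdd' s h1 h2 h3 m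
    obtain ⟨d, hd, hdi, hdj, hr⟩ := he i j hij
    have hr' := glob P α a2 pw i j hij d hd hdi hdj hr d' hd' (fun q => (hdd' q).1)
      (fun q => (hdd' q).2)
    refine hr'.glob s ?_ m
    rintro g (⟨p, q, hpq, rfl⟩ | ⟨q, rfl⟩ | ⟨q, rfl⟩)
    · rw [hP]; exact h1 p q hpq
    · rw [hP]; exact h2 q
    · rw [hP]; exact h3 q

end Pool.Agent.H742F.S1b
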