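/- FS job S2 (MP_d45256_al, flexible stability of SL_k(Z), owner helper742). Prove SP of Pool/Agent/H742F/Stm.lean (definitions in Defs.lean), both on origin/main.
GET THE FILES: cd /workdir/pool && git -C outputs/live fetch -q origin main:refs/remotes/origin/main; for d in H742F helper987_SE Helper702_TH Helper418_Sofic W661; do
  git -C outputs/live archive origin/main Pool/Agent/$d | tar -x -C /workdir/pool; done; lake build Pool.Agent.H742F.Stm      (about 2 minutes; Mathlib is prebuilt)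
Whole paper: papers row of MP_d45256_al (team-sql --json SELECT body FROM papers WHERE pid='MP_d45256_al'). The hypotheses of the theorem are proved elsewhere. Do not change the statement; if it is false or
unusable tell helper742 at once (insert into messages). You may add any other ...P / ...Q proposition of Stm.lean as a hypothesis if that is not circular. Auxiliary lemmas in the namespace below. No sorry, standard axioms.
DELIVER: land the file as Pool/Agent/H742F/S2.lean (bash ~/land.sh or git land), then UPDATE jobs SET status='done', result='landed', done_at=now() WHERE id=<this id>;  (or paste the whole file as result).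

STATEMENT (for reference)
/-- S2: for `k ≥ 7`. -/
def SP : Prop := ∀ (A : ℕ → Type) [∀ n, Fintype (A n)] [∀ n, Nonempty (A n)] (k : ℕ), 7 ≤ k →
  ∀ α : SpecialLinearGroup (Fin k) ℤ →* SS A,
    ∃ P : StRel (Fin k) (ℕ → ℤ) (SS A), (∀ i j, i ≠ j → IsI (P.x i j)) ∧
      ∀ i j, i ≠ j → P.x i j (fun _ => 1) = α (El i j 1)

PROOF
e = EPow. UNIQUENESS as in S1. Write E_ab = El a b 1. All D below: three indices avoiding the named ones (k >= 7).
(4) e_ij(l), e_pq(m) commute if i!=j, p!=q, j != p, i != q: D avoiding i,j,p,q. Use glob of e_pq with s = e_ij(l): s commutes with alpha(E_dd'), alpha(E_pd), alpha(E_dq) by cen of e_ij (p != j, q != i, d != i,j).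
(3) For p not in {i,j}: alpha(E_jp) e_ij(m) alpha(E_jp)^-1 = e_ij(m) e_ip(-m). Both sides are IsI in m (e_ij, e_ip commute by (4)), and agree at 1:
E_jp E_ij E_jp^-1 = E_ij E_ip^-1. LHS s = r'(m) commutes with e_ij(l), e_ip(l): D avoiding i,j,p; by glob it is enough that r'(m) commutes with alpha of E_dd', E_id, E_dj, E_dp, i.e. e_ij(m) commutes with
alpha(E_jp^-1 t E_jp), which is E_dd', E_id, E_dj E_dp^{+-1}, E_dp: by cen. So (UNIQUENESS) equality. Equivalently e_ij(l) alpha(E_jp) = e_ip(l) alpha(E_jp) e_ij(l).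
(5) e_ij(l) e_jp(m) = e_ip(lm) e_jp(m) e_ij(l) for i,j,p distinct. s = e_ij(l), r1(m) = s e_jp(m) s^-1, r2(m) = e_ip(lm) e_jp(m) (IsI by (4)); r1(1) = r2(1) by (3). r1, r2 commute: enough that s^-1 r2(m) s commutes
with e_jp(m'); by glob of e_jp (D avoiding i,j,p) enough: r2(m) commutes with s alpha(t) s^-1 for t = E_dd', E_jd, E_dp. s alpha(E_dd') s^-1 = alpha(E_dd'), s alpha(E_dp) s^-1 = alpha(E_dp) (cen), s alpha(E_jd) s^-1 = e_id(l) alpha(E_jd) (by (3)).
e_jp(m), e_ip(lm) commute with alpha(E_dd'), alpha(E_dp), alpha(E_jd) by cen, and with e_id(l) by (4).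
The StRel: x i j = e i j; add from IsI, mul = (5), comm = (4).
-/
import Pool.Agent.H742F.Stm

set_option autoImplicit false
set_option maxHeartbeats 400000

open Filter Topology Finset

namespace Pool.Agent.H742F.S2

open Helper418 Pool.Agent.helper987_SE Pool.Agent.Helper702_TH
open Matrix (SpecialLinearGroup)


theorem cls_mul' {A : ℕ → Type} [∀ n, Fintype (A n)] (s t : ∀ n, Equiv.Perm (A n)) :
    (cls s : SS A) * cls t = cls (fun n => s n * t n) := rfl

theorem cls_inv' {A : ℕ → Type} [∀ n, Fintype (A n)] (s : ∀ n, Equiv.Perm (A n)) :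
    (cls s : SS A)⁻¹ = cls (fun n => (s n)⁻¹) := rfl

theorem isI_mul' {A : ℕ → Type} [∀ n, Fintype (A n)] {r s : (ℕ → ℤ) → SS A} (hr : IsI r)
    (hs : IsI s) (hc : ∀ l m, Commute (r l) (s m)) : IsI (fun m => r m * s m) := by
  obtain ⟨hr1, ψ, hψ⟩ := hr
  obtain ⟨hs1, φ, hφ⟩ := hs
  refine ⟨?_, fun n k => ψ n k * φ n k, ?_⟩
  · intro a b
    show r (a + b) * s (a + b) = r a * s a * (r b * s b)
    rw [hr1, hs1]
    have := (hc b a).eq
    calc r a * r b * (s a * s b) = r a * (r b * s a) * s b := by simp only [mul_assoc]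
      _ = r a * (s a * r b) * s b := by rw [this]
      _ = r a * s a * (r b * s b) := by simp only [mul_assoc]
  · intro a
    show r a * s a = _
    rw [hψ, hφ]
    exact cls_mul' _ _

theorem isI_conj' {A : ℕ → Type} [∀ n, Fintype (A n)] {r : (ℕ → ℤ) → SS A} (hr : IsI r)
    (g : SS A) : IsI (fun m => g * r m * g⁻¹) := by
  obtain ⟨hr1, ψ, hψ⟩ := hr
  obtain ⟨γ, rfl⟩ : ∃ γ : ∀ n, Equiv.Perm (A n), cls γ = g := QuotientGroup.mk_surjective g
  refine ⟨?_, fun n k => γ n * ψ n k * (γ n)⁻¹, ?_⟩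
  · intro a b
    show cls γ * r (a + b) * (cls γ)⁻¹ = cls γ * r a * (cls γ)⁻¹ * (cls γ * r b * (cls γ)⁻¹)
    rw [hr1]
    group
  · intro a
    show cls γ * r a * (cls γ)⁻¹ = _
    rw [hψ, cls_inv', cls_mul', cls_mul']

theorem isI_inv' {A : ℕ → Type} [∀ n, Fintype (A n)] {r : (ℕ → ℤ) → SS A} (hr : IsI r) :
    IsI (fun m => (r m)⁻¹) := by
  obtain ⟨hr1, ψ, hψ⟩ := hr
  refine ⟨?_, fun n k => (ψ n k)⁻¹, ?_⟩
  · intro a b
    show (r (a + b))⁻¹ = (r a)⁻¹ * (r b)⁻¹
    rw [add_comm, hr1, mul_inv_rev]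
  · intro a
    show (r a)⁻¹ = _
    rw [hψ, cls_inv']

theorem isI_smul' {A : ℕ → Type} [∀ n, Fintype (A n)] {r : (ℕ → ℤ) → SS A} (hr : IsI r)
    (l : ℕ → ℤ) : IsI (fun m => r (l * m)) := by
  obtain ⟨hr1, ψ, hψ⟩ := hr
  refine ⟨?_, fun n k => ψ n (l n * k), ?_⟩
  · intro a b
    show r (l * (a + b)) = r (l * a) * r (l * b)
    rw [mul_add, hr1]
  · intro a
    show r (l * a) = _
    rw [hψ]
    rfl

theorem unq (a2 : A2P) {A : ℕ → Type} [∀ n, Fintype (A n)] {r r' : (ℕ → ℤ) → SS A} (hr : IsI r)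
    (hr' : IsI r') (hc : ∀ l m, Commute (r l) (r' m))
    (h1 : r (fun _ => 1) = r' (fun _ => 1)) (m : ℕ → ℤ) : r m = r' m := by
  have hI : IsI (fun m => r m * (r' m)⁻¹) := isI_mul' hr (isI_inv' hr') (fun l m => (hc l m).inv_right)
  have h := a2 A _ hI (by
    show r (fun _ => 1) * (r' (fun _ => 1))⁻¹ = 1
    rw [h1, mul_inv_cancel]) m
  exact mul_inv_eq_one.1 h

/-! ### elementary matrices -/

section El
variable {ι R : Type} [Fintype ι] [DecidableEq ι] [CommRing R]

theorem El_val (i j : ι) (h : i ≠ j) (a : R) :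
    ((El i j a : SpecialLinearGroup ι R) : Matrix ι ι R) = 1 + Matrix.single i j a := by
  unfold El
  rw [dif_neg h]
  rfl

theorem El_mul (i j k : ι) (h1 : i ≠ j) (h2 : j ≠ k) (h3 : i ≠ k) (a b : R) :
    (El i j a : SpecialLinearGroup ι R) * El j k b = El i k (a * b) * El j k b * El i j a := by
  apply Subtype.ext
  show ((El i j a : SpecialLinearGroup ι R) : Matrix ι ι R) * (El j k b : SpecialLinearGroup ι R) =
    ((El i k (a * b) : SpecialLinearGroup ι R) : Matrix ι ι R) * (El j k b : SpecialLinearGroup ι R) *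
      (El i j a : SpecialLinearGroup ι R)
  rw [El_val i j h1, El_val j k h2, El_val i k h3]
  have e1 : (Matrix.single i j a : Matrix ι ι R) * Matrix.single j k b = Matrix.single i k (a * b) :=
    Matrix.single_mul_single_same ..
  have e2 : (Matrix.single j k b : Matrix ι ι R) * Matrix.single i j a = 0 :=
    Matrix.single_mul_single_of_ne _ _ _ _ h3.symm _
  have e3 : (Matrix.single i k (a * b) : Matrix ι ι R) * Matrix.single j k b = 0 :=
    Matrix.single_mul_single_of_ne _ _ _ _ h2.symm _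
  have e4 : (Matrix.single i k (a * b) : Matrix ι ι R) * Matrix.single i j a = 0 :=
    Matrix.single_mul_single_of_ne _ _ _ _ h3.symm _
  simp only [mul_add, add_mul, mul_one, one_mul, e1, e2, e3, e4, zero_mul, add_zero, zero_add]
  abel

theorem El_comm (i j k l : ι) (h1 : i ≠ j) (h2 : k ≠ l) (h3 : j ≠ k) (h4 : i ≠ l) (a b : R) :
    Commute (El i j a : SpecialLinearGroup ι R) (El k l b) := by
  apply Subtype.ext
  show ((El i j a : SpecialLinearGroup ι R) : Matrix ι ι R) * (El k l b : SpecialLinearGroup ι R) =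
    ((El k l b : SpecialLinearGroup ι R) : Matrix ι ι R) * (El i j a : SpecialLinearGroup ι R)
  rw [El_val i j h1, El_val k l h2]
  have e1 : (Matrix.single i j a : Matrix ι ι R) * Matrix.single k l b = 0 :=
    Matrix.single_mul_single_of_ne _ _ _ _ h3 _
  have e2 : (Matrix.single k l b : Matrix ι ι R) * Matrix.single i j a = 0 :=
    Matrix.single_mul_single_of_ne _ _ _ _ h4.symm _
  simp only [mul_add, add_mul, mul_one, one_mul, e1, e2, add_zero]
  abel

end El

theorem avoid {k : ℕ} (hk : 7 ≤ k) (a b c e : Fin k) : ∃ d : Fin 3 → Fin k, Function.Injective d ∧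
    ∀ q, d q ≠ a ∧ d q ≠ b ∧ d q ≠ c ∧ d q ≠ e := by
  classical
  obtain ⟨T, hT⟩ : ∃ T : Finset (Fin k), T = ({a, b, c, e} : Finset (Fin k))ᶜ := ⟨_, rfl⟩
  have hc : 3 ≤ T.card := by
    rw [hT, card_compl, Fintype.card_fin]
    have h4 : ({a, b, c, e} : Finset (Fin k)).card ≤ 4 := card_le_four
    omega
  have hn : Nonempty (Fin 3 ↪ {x // x ∈ T}) := by
    apply Function.Embedding.nonempty_of_card_le
    rw [Fintype.card_fin, Fintype.card_coe]
    exact hc
  obtain ⟨f⟩ := hn
  refine ⟨fun q => (f q : Fin k), fun x y hxy => f.injective (Subtype.ext hxy), fun q => ?_⟩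
  have h : ((f q : Fin k)) ∈ ({a, b, c, e} : Finset (Fin k))ᶜ := by
    have h0 := (f q).2
    exact (Finset.ext_iff.1 hT _).1 h0
  rw [mem_compl] at h
  simp only [mem_insert, mem_singleton, not_or] at h
  exact h

section main
variable {A : ℕ → Type} [∀ n, Fintype (A n)] {k : ℕ} {α : SpecialLinearGroup (Fin k) ℤ →* SS A}

theorem comm4 (hk : 7 ≤ k) (e : EPow k α) (i j p q : Fin k) (h1 : i ≠ j) (h2 : p ≠ q) (h3 : j ≠ p)
    (h4 : i ≠ q) (l m : ℕ → ℤ) : Commute (e.e i j l) (e.e p q m) := by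
  obtain ⟨d, hd, hav⟩ := avoid hk i j p q
  refine (e.glob p q h2 d hd (fun x => ⟨(hav x).2.2.1, (hav x).2.2.2⟩) (e.e i j l) ?_ ?_ ?_ m).symm
  · intro x y hxy
    exact e.cen i j _ _ h1 (fun h => hxy (hd h)) (hav x).2.1 (hav y).1 l
  · intro x
    exact e.cen i j _ _ h1 (hav x).2.2.1.symm h3.symm (hav x).1 l
  · intro x
    exact e.cen i j _ _ h1 (hav x).2.2.2 (hav x).2.1 h4.symm l

/-- (3) -/
theorem step3 (a2 : A2P) (hk : 7 ≤ k) (e : EPow k α) (i j p : Fin k) (h1 : i ≠ j) (h2 : j ≠ p)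
    (h3 : i ≠ p) (m : ℕ → ℤ) :
    e.e i j m * α (El j p 1) = e.e i p m * α (El j p 1) * e.e i j m := by
  obtain ⟨d, hd, hav⟩ := avoid hk i j p p
  obtain ⟨g, hg⟩ : ∃ g, g = α (El j p 1) := ⟨_, rfl⟩
  rw [← hg]
  -- commutation of `g e g⁻¹`
  have hdd : ∀ m x y, x ≠ y → Commute (g * e.e i j m * g⁻¹) (α (El (d x) (d y) 1)) := by
    intro m x y hxy
    have k1 : Commute g (α (El (d x) (d y) 1)) := by
      rw [hg]
      exact (El_comm j p (d x) (d y) h2 (fun h => hxy (hd h)) (hav x).2.2.1.symm (hav y).2.1.symm 1 1).map α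
    exact (k1.mul_left (e.cen i j _ _ h1 (fun h => hxy (hd h)) (hav x).2.1 (hav y).1 m)).mul_left
      k1.inv_left
  have hid : ∀ m x, Commute (g * e.e i j m * g⁻¹) (α (El i (d x) 1)) := by
    intro m x
    have k1 : Commute g (α (El i (d x) 1)) := by
      rw [hg]
      exact (El_comm j p i (d x) h2 (hav x).1.symm h3.symm (hav x).2.1.symm 1 1).map α
    exact (k1.mul_left (e.cen i j _ _ h1 (hav x).1.symm h1 (hav x).1 m)).mul_left k1.inv_left
  have hdp : ∀ m x, Commute (g * e.e i j m * g⁻¹) (α (El (d x) p 1)) := by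
    intro m x
    have k1 : Commute g (α (El (d x) p 1)) := by
      rw [hg]
      exact (El_comm j p (d x) p h2 (hav x).2.2.1 (hav x).2.2.1.symm h2 1 1).map α
    exact (k1.mul_left (e.cen i j _ _ h1 (hav x).2.2.1 (hav x).2.1 h3.symm m)).mul_left k1.inv_left
  have hdj : ∀ m x, Commute (g * e.e i j m * g⁻¹) (α (El (d x) j 1)) := by
    intro m x
    have k1 : Commute g (α (El (d x) p 1)) := by
      rw [hg]
      exact (El_comm j p (d x) p h2 (hav x).2.2.1 (hav x).2.2.1.symm h2 1 1).map α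
    have k2 : g⁻¹ * α (El (d x) j 1) * g = α (El (d x) p 1) * α (El (d x) j 1) := by
      have k3 := El_mul (d x) j p (hav x).2.1 h2 (hav x).2.2.1 (1 : ℤ) 1
      rw [mul_one] at k3
      have k4 := congrArg α k3
      rw [map_mul, map_mul, map_mul, ← hg] at k4
      rw [mul_assoc, k4, k1.symm.eq]
      group
    have k5 : Commute (e.e i j m) (g⁻¹ * α (El (d x) j 1) * g) := by
      rw [k2]
      exact (e.cen i j _ _ h1 (hav x).2.2.1 (hav x).2.1 h3.symm m).mul_right
        (e.cen i j _ _ h1 (hav x).2.1 (hav x).2.1 h1.symm m)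
    have k6 := k5.eq
    show g * e.e i j m * g⁻¹ * α (El (d x) j 1) = α (El (d x) j 1) * (g * e.e i j m * g⁻¹)
    calc g * e.e i j m * g⁻¹ * α (El (d x) j 1)
        = g * (e.e i j m * (g⁻¹ * α (El (d x) j 1) * g)) * g⁻¹ := by group
      _ = g * (g⁻¹ * α (El (d x) j 1) * g * e.e i j m) * g⁻¹ := by rw [k6]
      _ = α (El (d x) j 1) * (g * e.e i j m * g⁻¹) := by group
  have c1 : ∀ l m, Commute (g * e.e i j l * g⁻¹) (e.e i j m) := by
    intro l m
    exact (e.glob i j h1 d hd (fun x => ⟨(hav x).1, (hav x).2.1⟩) _ (fun x y hxy => hdd l x y hxy)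
      (hid l) (hdj l) m).symm
  have c2 : ∀ l m, Commute (g * e.e i j l * g⁻¹) (e.e i p m) := by
    intro l m
    exact (e.glob i p h3 d hd (fun x => ⟨(hav x).1, (hav x).2.2.1⟩) _ (fun x y hxy => hdd l x y hxy)
      (hid l) (hdp l) m).symm
  have c3 : ∀ l m, Commute (e.e i j l) (e.e i p m) := fun l m => comm4 hk e i j i p h1 h3 h1.symm h3 l m
  have I1 : IsI (fun m => g * e.e i j m * g⁻¹) := isI_conj' (e.int i j h1) g
  have I2 : IsI (fun m => e.e i j m * (e.e i p m)⁻¹) :=
    isI_mul' (e.int i j h1) (isI_inv' (e.int i p h3)) (fun l m => (c3 l m).inv_right)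
  have key := unq a2 I1 I2 (fun l m => (c1 l m).mul_right (c2 l m).inv_right) (by
    show g * e.e i j (fun _ => 1) * g⁻¹ = e.e i j (fun _ => 1) * (e.e i p (fun _ => 1))⁻¹
    have k3 := El_mul i j p h1 h2 h3 (1 : ℤ) 1
    rw [mul_one] at k3
    have k4 := congrArg α k3
    rw [map_mul, map_mul, map_mul, ← hg] at k4
    rw [e.one i j h1, e.one i p h3]
    have k5 : Commute (α (El i j 1)) (α (El i p 1)) :=
      (El_comm i j i p h1 h3 h1.symm h3 1 1).map α
    rw [mul_inv_eq_iff_eq_mul]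
    calc g * α (El i j 1) = (α (El i p 1))⁻¹ * (α (El i p 1) * g * α (El i j 1)) := by group
      _ = (α (El i p 1))⁻¹ * (α (El i j 1) * g) := by rw [k4]
      _ = (α (El i p 1))⁻¹ * α (El i j 1) * g := by group
      _ = α (El i j 1) * (α (El i p 1))⁻¹ * g := by rw [k5.symm.inv_left.eq]) m
  have key' : g * e.e i j m * g⁻¹ = e.e i j m * (e.e i p m)⁻¹ := key
  have c4 : Commute (e.e i p m) g := by
    rw [hg]
    exact e.cen i p j p h3 h2 h2 h3.symm m
  have k9 := (c3 m m).symm.eq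
  symm
  calc e.e i p m * g * e.e i j m = e.e i p m * (g * e.e i j m * g⁻¹) * g := by group
    _ = e.e i p m * (e.e i j m * (e.e i p m)⁻¹) * g := by rw [key']
    _ = e.e i p m * e.e i j m * (e.e i p m)⁻¹ * g := by group
    _ = e.e i j m * e.e i p m * (e.e i p m)⁻¹ * g := by rw [k9]
    _ = e.e i j m * g := by group

/-- (5) -/
theorem step5 (a2 : A2P) (hk : 7 ≤ k) (e : EPow k α) (i j p : Fin k) (h1 : i ≠ j) (h2 : j ≠ p)
    (h3 : i ≠ p) (l m : ℕ → ℤ) :
    e.e i j l * e.e j p m = e.e i p (l * m) * e.e j p m * e.e i j l := by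
  obtain ⟨d, hd, hav⟩ := avoid hk i j p p
  obtain ⟨s, hs⟩ : ∃ s, s = e.e i j l := ⟨_, rfl⟩
  rw [← hs]
  have c0 : ∀ a b, Commute (e.e i p (l * a)) (e.e j p b) :=
    fun a b => comm4 hk e i p j p h3 h2 h2.symm h3 _ _
  have I1 : IsI (fun m => s * e.e j p m * s⁻¹) := isI_conj' (e.int j p h2) s
  have I2 : IsI (fun m => e.e i p (l * m) * e.e j p m) :=
    isI_mul' (isI_smul' (e.int i p h3) l) (e.int j p h2) c0
  -- commutation of `s⁻¹ r2 s`
  have hcj : ∀ (b : ℕ → ℤ) (t : SS A), Commute (e.e i p (l * b) * e.e j p b) (s * t * s⁻¹) →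
      Commute (s⁻¹ * (e.e i p (l * b) * e.e j p b) * s) t := by
    intro b t hc
    have hc' := hc.eq
    show s⁻¹ * (e.e i p (l * b) * e.e j p b) * s * t = t * (s⁻¹ * (e.e i p (l * b) * e.e j p b) * s)
    calc s⁻¹ * (e.e i p (l * b) * e.e j p b) * s * t
        = s⁻¹ * ((e.e i p (l * b) * e.e j p b) * (s * t * s⁻¹)) * s := by group
      _ = s⁻¹ * ((s * t * s⁻¹) * (e.e i p (l * b) * e.e j p b)) * s := by rw [hc']
      _ = t * (s⁻¹ * (e.e i p (l * b) * e.e j p b) * s) := by group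
  have hself : ∀ t : SS A, Commute s t → s * t * s⁻¹ = t := by
    intro t ht
    rw [ht.eq, mul_assoc, mul_inv_cancel, mul_one]
  have hdd : ∀ b x y, x ≠ y → Commute (s⁻¹ * (e.e i p (l * b) * e.e j p b) * s)
      (α (El (d x) (d y) 1)) := by
    intro b x y hxy
    apply hcj
    rw [hself _ (by rw [hs]; exact e.cen i j _ _ h1 (fun h => hxy (hd h)) (hav x).2.1 (hav y).1 l)]
    exact (e.cen i p _ _ h3 (fun h => hxy (hd h)) (hav x).2.2.1 (hav y).1 _).mul_left
      (e.cen j p _ _ h2 (fun h => hxy (hd h)) (hav x).2.2.1 (hav y).2.1 _)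
  have hdp : ∀ b x, Commute (s⁻¹ * (e.e i p (l * b) * e.e j p b) * s) (α (El (d x) p 1)) := by
    intro b x
    apply hcj
    rw [hself _ (by rw [hs]; exact e.cen i j _ _ h1 (hav x).2.2.1 (hav x).2.1 h3.symm l)]
    exact (e.cen i p _ _ h3 (hav x).2.2.1 (hav x).2.2.1 h3.symm _).mul_left
      (e.cen j p _ _ h2 (hav x).2.2.1 (hav x).2.2.1 h2.symm _)
  have hjd : ∀ b x, Commute (s⁻¹ * (e.e i p (l * b) * e.e j p b) * s) (α (El j (d x) 1)) := by
    intro b x
    apply hcj
    have k1 := step3 a2 hk e i j (d x) h1 (hav x).2.1.symm (hav x).1.symm l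
    rw [← hs] at k1
    have k2 : s * α (El j (d x) 1) * s⁻¹ = e.e i (d x) l * α (El j (d x) 1) := by
      rw [k1]
      group
    rw [k2]
    have n1 : Commute (e.e i p (l * b)) (e.e i (d x) l) :=
      comm4 hk e i p i (d x) h3 (hav x).1.symm h3.symm (hav x).1.symm _ _
    have n2 : Commute (e.e j p b) (e.e i (d x) l) :=
      comm4 hk e j p i (d x) h2 (hav x).1.symm h3.symm (hav x).2.1.symm _ _
    have n3 : Commute (e.e i p (l * b)) (α (El j (d x) 1)) :=
      e.cen i p j (d x) h3 (hav x).2.1.symm h2 (hav x).1 _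
    have n4 : Commute (e.e j p b) (α (El j (d x) 1)) :=
      e.cen j p j (d x) h2 (hav x).2.1.symm h2 (hav x).2.1 _
    exact (n1.mul_left n2).mul_right (n3.mul_left n4)
  have c1 : ∀ a b, Commute (s * e.e j p a * s⁻¹) (e.e i p (l * b) * e.e j p b) := by
    intro a b
    have k1 := (e.glob j p h2 d hd (fun x => ⟨(hav x).2.1, (hav x).2.2.1⟩) _
      (fun x y hxy => hdd b x y hxy) (hjd b) (hdp b) a).eq
    show s * e.e j p a * s⁻¹ * (e.e i p (l * b) * e.e j p b) =
      e.e i p (l * b) * e.e j p b * (s * e.e j p a * s⁻¹)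
    calc s * e.e j p a * s⁻¹ * (e.e i p (l * b) * e.e j p b)
        = s * (e.e j p a * (s⁻¹ * (e.e i p (l * b) * e.e j p b) * s)) * s⁻¹ := by group
      _ = s * ((s⁻¹ * (e.e i p (l * b) * e.e j p b) * s) * e.e j p a) * s⁻¹ := by rw [k1]
      _ = _ := by group
  have key := unq a2 I1 I2 c1 (by
    show s * e.e j p (fun _ => 1) * s⁻¹ = e.e i p (l * (fun _ => 1)) * e.e j p (fun _ => 1)
    have k1 := step3 a2 hk e i j p h1 h2 h3 l
    rw [← hs] at k1
    have k2 : l * (fun _ => 1) = l := by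
      funext n
      show l n * 1 = l n
      rw [mul_one]
    rw [k2, e.one j p h2, k1]
    group) m
  have key' : s * e.e j p m * s⁻¹ = e.e i p (l * m) * e.e j p m := key
  rw [← key']
  group

end main

-- BEGIN TARGET
theorem main (a2 : A2P) (s1 : S1P) : SP := by
  intro A _ _ k hk α
  obtain ⟨e⟩ := s1 A k hk α
  refine ⟨{ x := e.e, add := ?_, mul := ?_, comm := ?_ }, e.int, e.one⟩
  · intro i j h a b
    exact (e.int i j h).1 a b
  · intro i j p h1 h2 h3 a b
    exact step5 a2 hk e i j p h1 h2 h3 a b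
  · intro i j p q h1 h2 h3 h4 a b
    exact comm4 hk e i j p q h1 h2 h3 h4 a b
-- END TARGET

end Pool.Agent.H742F.S2
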