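import Pool.Agent.H742F.Stm2

/-!
# Project FS (helper742), part S3 (helper586): commutation of the exact powers
-/

set_option autoImplicit false
set_option maxHeartbeats 400000

open Filter Topology Finset

namespace Pool.Agent.H742F.S3

open Helper418 Pool.Agent.helper987_SE Pool.Agent.Helper702_TH
open Matrix (SpecialLinearGroup)

theorem x_zero {ι R X : Type} [CommRing R] [Group X] (P : StRel ι R X) {i j : ι} (h : i ≠ j) :
    P.x i j 0 = 1 := by
  have := P.add i j h 0 0
  rw [add_zero] at this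
  exact (left_eq_mul.mp this)

theorem x_neg {ι R X : Type} [CommRing R] [Group X] (P : StRel ι R X) {i j : ι} (h : i ≠ j)
    (a : R) : P.x i j (-a) = (P.x i j a)⁻¹ := by
  rw [eq_inv_iff_mul_eq_one, ← P.add i j h, neg_add_cancel, x_zero P h]

/-- the relations of the Kazhdan group generated by some elementary matrices and one more column -/
def trel {ι G : Type} [Group G] (P : StRel ι ℤ G) (q p i : ι) (d : Fin 3 → ι) (f : ι → G)
    (hqp : q ≠ p) (hqi : q ≠ i)
    (hd : Function.Injective d) (hdq : ∀ t, d t ≠ q) (hdp : ∀ t, d t ≠ p) (hdi : ∀ t, d t ≠ i)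
    (hff : ∀ a b, a ≠ i → b ≠ i → Commute (f a) (f b))
    (hfc : ∀ a b c, a ≠ i → b ≠ i → b ≠ c → c ≠ a → Commute (f a) (P.x b c 1))
    (hf3 : ∀ a b, a ≠ i → b ≠ i → a ≠ b → P.x b a 1 * f a = f b * f a * P.x b a 1) :
    TRel Bool G where
  e s t := P.x (d s) (d t) 1
  x s := P.x q (d s) 1
  y s b := bif b then f (d s) else P.x (d s) p 1
  z b := bif b then f q else P.x q p 1
  ee k l m h1 h2 h3 := by
    have := P.mul (d k) (d l) (d m) (hd.ne h1) (hd.ne h2) (hd.ne h3) 1 1
    rwa [mul_one] at this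
  ee_comm k l k' l' h1 h2 h3 h4 := P.comm _ _ _ _ (hd.ne h1) (hd.ne h2) (hd.ne h3) (hd.ne h4) _ _
  xx k l := P.comm _ _ _ _ (hdq k).symm (hdq l).symm (hdq k) (hdq l).symm _ _
  xe k l h := by
    have := P.mul q (d k) (d l) (hdq k).symm (hd.ne h) (hdq l).symm 1 1
    rwa [mul_one] at this
  xe_comm k l m h1 h2 := P.comm _ _ _ _ (hdq k).symm (hd.ne h1) (hd.ne h2) (hdq m).symm _ _
  ey k l j h := by
    cases j with
    | false =>
      have := P.mul (d k) (d l) p (hd.ne h) (hdp l) (hdp k) 1 1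
      rw [mul_one] at this
      exact this
    | true => exact hf3 (d l) (d k) (hdi l) (hdi k) (hd.ne h.symm)
  ey_comm k l m j h1 h2 := by
    cases j with
    | false => exact P.comm _ _ _ _ (hd.ne h1) (hdp m) (hd.ne h2) (hdp k) _ _
    | true => exact (hfc (d m) (d k) (d l) (hdi m) (hdi k) (hd.ne h1) (hd.ne h2)).symm
  yy k l i j := by
    cases i with
    | false =>
      cases j with
      | false => exact P.comm _ _ _ _ (hdp k) (hdp l) (hdp l).symm (hdp k) _ _
      | true => exact (hfc (d l) (d k) p (hdi l) (hdi k) (hdp k) (hdp l).symm).symm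
    | true =>
      cases j with
      | false => exact hfc (d k) (d l) p (hdi k) (hdi l) (hdp l) (hdp k).symm
      | true => exact hff _ _ (hdi k) (hdi l)
  xy k j := by
    cases j with
    | false =>
      have := P.mul q (d k) p (hdq k).symm (hdp k) hqp 1 1
      rw [mul_one] at this
      exact this
    | true => exact hf3 (d k) q (hdi k) hqi (hdq k)
  xy_comm k l j h := by
    cases j with
    | false => exact P.comm _ _ _ _ (hdq k).symm (hdp l) (hd.ne h) hqp _ _
    | true => exact (hfc (d l) q (d k) (hdi l) hqi (hdq k).symm (hd.ne h)).symm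
  ze j k l h := by
    cases j with
    | false => exact P.comm _ _ _ _ hqp (hd.ne h) (hdp k).symm (hdq l).symm _ _
    | true => exact hfc q (d k) (d l) hqi (hdi k) (hd.ne h) (hdq l)
  zx j k := by
    cases j with
    | false => exact P.comm _ _ _ _ hqp (hdq k).symm hqp.symm (hdq k).symm _ _
    | true => exact hfc q q (d k) hqi hqi (hdq k).symm (hdq k)
  zy i k j := by
    cases i with
    | false =>
      cases j with
      | false => exact P.comm _ _ _ _ hqp (hdp k) (hdp k).symm hqp _ _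
      | true => exact (hfc (d k) q p (hdi k) hqi hqp (hdp k).symm).symm
    | true =>
      cases j with
      | false => exact hfc q (d k) p hqi (hdi k) (hdp k) hqp.symm
      | true => exact hff _ _ hqi (hdi k)
  zz i j := by
    cases i with
    | false =>
      cases j with
      | false => exact Commute.refl _
      | true => exact (hfc q q p hqi hqi hqp hqp.symm).symm
    | true =>
      cases j with
      | false => exact hfc q q p hqi hqi hqp hqp.symm
      | true => exact Commute.refl _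

/-- commuting with the image of a generating set -/
theorem comm_closure {G X : Type} [Group G] [Group X] (α : G →* X) (S : Set G) (s : X)
    (h : ∀ g ∈ S, Commute s (α g)) : ∀ t ∈ Subgroup.closure S, Commute s (α t) := by
  have hle : Subgroup.closure S ≤ (Subgroup.centralizer {s}).comap α := by
    rw [Subgroup.closure_le]
    intro g hg
    rw [SetLike.mem_coe, Subgroup.mem_comap, Subgroup.mem_centralizer_singleton_iff]
    exact (h g hg).symm.eq
  intro t ht
  have := hle ht
  rw [Subgroup.mem_comap, Subgroup.mem_centralizer_singleton_iff] at this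
  exact Commute.symm this

/-- uniqueness of the powers -/
theorem uniq (a2 : A2P) (A : ℕ → Type) [∀ n, Fintype (A n)] (r r' : (ℕ → ℤ) → SS A)
    (h : IsI r) (h' : IsI r') (hc : ∀ a b, Commute (r a) (r' b))
    (h1 : r (fun _ => 1) = r' (fun _ => 1)) : ∀ m, r m = r' m := by
  obtain ⟨hm, ψ, hψ⟩ := h
  obtain ⟨hm', ψ', hψ'⟩ := h'
  have hI : IsI (fun m => r m * (r' m)⁻¹) := by
    refine ⟨fun a b => ?_, fun n m => ψ n m * (ψ' n m)⁻¹, fun a => ?_⟩
    · have e1 : r' (a + b) = r' b * r' a := by rw [add_comm, hm']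
      show r (a + b) * (r' (a + b))⁻¹ = r a * (r' a)⁻¹ * (r b * (r' b)⁻¹)
      rw [hm, e1, mul_inv_rev]
      have c1 : Commute (r b) (r' a)⁻¹ := (hc b a).inv_right
      have c2 : r' a * r' b = r' b * r' a := by rw [← hm', ← hm', add_comm]
      have c3 : (r' a)⁻¹ * (r' b)⁻¹ = (r' b)⁻¹ * (r' a)⁻¹ := by
        rw [← mul_inv_rev, ← mul_inv_rev, c2]
      calc r a * r b * ((r' a)⁻¹ * (r' b)⁻¹) = r a * (r b * (r' a)⁻¹) * (r' b)⁻¹ := by group
        _ = r a * ((r' a)⁻¹ * r b) * (r' b)⁻¹ := by rw [c1.eq]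
        _ = _ := by group
    · show r a * (r' a)⁻¹ = _
      rw [hψ, hψ']
      rfl
  intro m
  have := a2 A (fun m => r m * (r' m)⁻¹) hI (by show r _ * (r' _)⁻¹ = 1; rw [h1, mul_inv_cancel]) m
  exact mul_inv_eq_one.mp this

theorem I_zero {A : ℕ → Type} [∀ n, Fintype (A n)] {r : (ℕ → ℤ) → SS A} (h : IsI r) :
    r 0 = 1 := by
  have := h.1 0 0
  rw [add_zero] at this
  exact (left_eq_mul.mp this)

theorem I_neg {A : ℕ → Type} [∀ n, Fintype (A n)] {r : (ℕ → ℤ) → SS A} (h : IsI r)
    (m : ℕ → ℤ) : r (-m) = (r m)⁻¹ := by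
  have := h.1 (-m) m
  rw [neg_add_cancel, I_zero h] at this
  exact eq_inv_of_mul_eq_one_left this.symm

/-- four distinct indices, `k ≥ 6`: there are two more -/
theorem exists_two {k : ℕ} (hk : 6 ≤ k) (i j p q : Fin k) :
    ∃ a b : Fin k, a ≠ b ∧ (a ≠ i ∧ a ≠ j ∧ a ≠ p ∧ a ≠ q) ∧ (b ≠ i ∧ b ≠ j ∧ b ≠ p ∧ b ≠ q) := by
  classical
  have h4 : ({i, j, p, q} : Finset (Fin k)).card ≤ 4 := Finset.card_le_four
  have hc : 1 < (({i, j, p, q} : Finset (Fin k))ᶜ).card := by
    rw [Finset.card_compl, Fintype.card_fin]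
    omega
  obtain ⟨a, ha, b, hb, hab⟩ := Finset.one_lt_card.mp hc
  simp only [Finset.mem_compl, Finset.mem_insert, Finset.mem_singleton, not_or] at ha hb
  exact ⟨a, b, hab, ha, hb⟩

/-- the case of four distinct indices -/
theorem four (e0 : E0P) (a2 : A2P) (pw : PWP) (s4 : S4R)
    (A : ℕ → Type) [∀ n, Fintype (A n)] [∀ n, Nonempty (A n)] (k : ℕ) (hk : 6 ≤ k)
    (α : SpecialLinearGroup (Fin k) ℤ →* SS A) (E : EPow k α) (i j p q : Fin k)
    (hij : i ≠ j) (hpq : p ≠ q) (hjp : j ≠ p) (hiq : i ≠ q) (_hip : i ≠ p) (hjq : j ≠ q)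
    (l m : ℕ → ℤ) : Commute (E.e i j (-l)) (E.e p q (-m)) := by
  obtain ⟨P0, hP0, -⟩ := e0 (Fin k) ℤ
  obtain ⟨a, b, hab, ⟨ai, aj, ap, aq⟩, bi, bj, bp, bq⟩ := exists_two hk i j p q
  let P : StRel (Fin k) ℤ (SS A) := P0.tr.map α
  have hPx : ∀ s t c, P.x s t c = α (El t s (-c)) := by
    intro s t c
    show α (P0.x t s (-c)) = _
    rw [hP0]
  have hPi : ∀ s t, s ≠ t → P.x s t 1 = (α (El t s 1))⁻¹ := by
    intro s t hst
    have h1 : El t s (1 : ℤ) = P0.x t s 1 := by rw [hP0]
    have h2 : El t s (-1 : ℤ) = P0.x t s (-1) := by rw [hP0]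
    rw [hPx, h2, x_neg P0 hst.symm, map_inv, h1]
  let d : Fin 3 → Fin k := ![j, a, b]
  have hd : Function.Injective d := by
    intro s t h
    fin_cases s <;> fin_cases t <;> simp_all [d]
  have hdq : ∀ t, d t ≠ q := by
    intro t; fin_cases t
    · exact hjq
    · exact aq
    · exact bq
  have hdp : ∀ t, d t ≠ p := by
    intro t; fin_cases t
    · exact hjp
    · exact ap
    · exact bp
  have hdi : ∀ t, d t ≠ i := by
    intro t; fin_cases t
    · exact hij.symm
    · exact ai
    · exact bi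
  let f : Fin k → SS A := fun s => E.e i s (-l)
  have hff : ∀ s t, s ≠ i → t ≠ i → Commute (f s) (f t) := by
    intro s t hs ht
    by_cases hst : s = t
    · subst hst; exact Commute.refl _
    · exact (s4 A k hk α E i s t hs.symm hst ht.symm).1 (-l) (-l)
  have hfc : ∀ s t c, s ≠ i → t ≠ i → t ≠ c → c ≠ s → Commute (f s) (P.x t c 1) := by
    intro s t c hs ht htc hcs
    rw [hPi t c htc]
    exact (E.cen i s c t hs.symm htc.symm hcs ht (-l)).inv_right
  have hf3 : ∀ s t, s ≠ i → t ≠ i → s ≠ t → P.x t s 1 * f s = f t * f s * P.x t s 1 := by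
    intro s t hs ht hst
    have h1 := (s4 A k hk α E i s t hs.symm hst ht.symm).2.2 (-l)
    have h2 : Commute (f t) (α (El s t 1)) := E.cen i t s t ht.symm hst hst ht (-l)
    rw [hPi t s hst.symm]
    set g := α (El s t 1) with hg
    have h3 : f s * g = f t * g * f s := h1
    have h4 : f s = f t * g * f s * g⁻¹ := by rw [← h3]; group
    calc g⁻¹ * f s = g⁻¹ * (f t * g * f s * g⁻¹) := by rw [← h4]
      _ = g⁻¹ * (g * f t * f s * g⁻¹) := by rw [h2.eq]
      _ = f t * f s * g⁻¹ := by group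
  let Q : TRel Bool (SS A) := trel P q p i d f hpq.symm hiq.symm hd hdq hdp hdi hff hfc hf3
  have hv : Q.z false ∈ Q.T := Subgroup.subset_closure (Or.inr (Or.inr (Or.inr ⟨false, rfl⟩)))
  have hcen : ∀ t ∈ Q.T, Commute (Q.z false) t := by
    have := comm_closure (MonoidHom.id (SS A)) Q.gens (Q.z false) ?_
    · exact this
    · rintro g (⟨s, t, hst, rfl⟩ | ⟨s, rfl⟩ | ⟨s, c, rfl⟩ | ⟨c, rfl⟩)
      · exact Q.ze false s t hst
      · exact Q.zx false s
      · exact Q.zy false s c
      · exact Q.zz false c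
  obtain ⟨r', hr'⟩ := pw A Bool (SS A) Q (MonoidHom.id (SS A)) (Q.z false) hv hcen
  have hI := E.int p q hpq
  have hIn : IsI (fun m => E.e p q (-m)) := by
    obtain ⟨h1, ψ, h2⟩ := hI
    refine ⟨fun a b => ?_, fun n c => ψ n (-c), fun a => ?_⟩
    · show E.e p q (-(a + b)) = E.e p q (-a) * E.e p q (-b)
      rw [neg_add, h1]
    · show E.e p q (-a) = _
      rw [h2]
      rfl
  have hone : E.e p q (-(fun _ => 1)) = r' (fun _ => 1) := by
    rw [hr'.one, I_neg hI, E.one p q hpq]
    show _ = P.x q p 1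
    rw [hPi q p hpq.symm]
  have hcomm : ∀ s t, Commute (E.e p q (-s)) (r' t) := by
    intro s t
    have key : ∀ g ∈ Q.T, Commute (r' t) g := fun g hg => hr'.cen t g hg
    refine E.glob p q hpq d hd (fun t => ⟨hdp t, hdq t⟩) (r' t) ?_ ?_ ?_ (-s)
    · intro u v huv
      have h1 : Q.e v u ∈ Q.T := Subgroup.subset_closure (Or.inl ⟨v, u, huv.symm, rfl⟩)
      have h2 : Q.e v u = (α (El (d u) (d v) 1))⁻¹ := hPi (d v) (d u) (hd.ne huv.symm)
      have h3 := key _ h1
      rw [h2] at h3
      exact (Commute.inv_right_iff).mp h3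
    · intro u
      have h1 : Q.y u false ∈ Q.T :=
        Subgroup.subset_closure (Or.inr (Or.inr (Or.inl ⟨u, false, rfl⟩)))
      have h2 : Q.y u false = (α (El p (d u) 1))⁻¹ := hPi (d u) p (hdp u)
      have h3 := key _ h1
      rw [h2] at h3
      exact (Commute.inv_right_iff).mp h3
    · intro u
      have h1 : Q.x u ∈ Q.T := Subgroup.subset_closure (Or.inr (Or.inl ⟨u, rfl⟩))
      have h2 : Q.x u = (α (El (d u) q 1))⁻¹ := hPi q (d u) (hdq u).symm
      have h3 := key _ h1
      rw [h2] at h3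
      exact (Commute.inv_right_iff).mp h3
  have heq := uniq a2 A (fun m => E.e p q (-m)) r' hIn hr'.int hcomm hone m
  have hy : Q.y 0 true ∈ Q.T :=
    Subgroup.subset_closure (Or.inr (Or.inr (Or.inl ⟨0, true, rfl⟩)))
  have hfin : Commute (r' m) (Q.y 0 true) := hr'.cen m _ hy
  have heq' : E.e p q (-m) = r' m := heq
  rw [← heq'] at hfin
  exact hfin.symm

-- BEGIN TARGET
theorem main (e0 : E0P) (a2 : A2P) (pw : PWP) (s4 : S4R) : S3R := by
  intro A _ _ k hk α E i j p q hij hpq hjp hiq l m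
  by_cases hip : i = p
  · subst hip
    by_cases hjq : j = q
    · subst hjq
      have h := (E.int i j hij).1
      show E.e i j l * E.e i j m = E.e i j m * E.e i j l
      rw [← h, ← h, add_comm]
    · exact (s4 A k hk α E i j q hij hjq hiq).1 l m
  · by_cases hjq : j = q
    · subst hjq
      exact (s4 A k hk α E i p j hip hpq hij).2.1 l m
    · have := four e0 a2 pw s4 A k hk α E i j p q hij hpq hjp hiq hip hjq (-l) (-m)
      rwa [neg_neg, neg_neg] at this
-- END TARGET

end Pool.Agent.H742F.S3
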