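import Pool.Agent.H742F.Stm2
import Pool.Agent.H742F.E0

set_option autoImplicit false
set_option maxHeartbeats 400000

open Filter Topology Finset

namespace Pool.Agent.H742F.S4

open Helper418 Pool.Agent.helper987_SE Pool.Agent.Helper702_TH
open Matrix (SpecialLinearGroup)

theorem exists_d {k : ℕ} (hk : 6 ≤ k) (i j p : Fin k) :
    ∃ d : Fin 3 → Fin k, Function.Injective d ∧ ∀ q, d q ≠ i ∧ d q ≠ j ∧ d q ≠ p := by
  have h1 : 3 ≤ ((univ : Finset (Fin k)) \ {i, j, p}).card := by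
    have h2 := Finset.le_card_sdiff ({i, j, p} : Finset (Fin k)) univ
    have h3 : ({i, j, p} : Finset (Fin k)).card ≤ 3 := Finset.card_le_three
    rw [card_univ, Fintype.card_fin] at h2
    omega
  refine ⟨fun q => Finset.orderEmbOfCardLe _ h1 q, (Finset.orderEmbOfCardLe _ h1).injective,
    fun q => ?_⟩
  have := Finset.orderEmbOfCardLe_mem _ h1 q
  have h4 := (Finset.mem_sdiff.1 this).2
  change Finset.orderEmbOfCardLe _ h1 q ≠ i ∧ Finset.orderEmbOfCardLe _ h1 q ≠ j ∧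
    Finset.orderEmbOfCardLe _ h1 q ≠ p
  generalize Finset.orderEmbOfCardLe _ h1 q = z at h4 ⊢
  refine ⟨fun h => h4 ?_, fun h => h4 ?_, fun h => h4 ?_⟩
  · rw [h]; exact Finset.mem_insert_self _ _
  · rw [h]; exact Finset.mem_insert_of_mem (Finset.mem_insert_self _ _)
  · rw [h]; exact Finset.mem_insert_of_mem (Finset.mem_insert_of_mem (Finset.mem_singleton_self _))

section
variable {A : ℕ → Type} [∀ n, Fintype (A n)]

theorem IsI.zero {r : (ℕ → ℤ) → SS A} (h : IsI r) : r 0 = 1 := by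
  have := h.1 0 0
  rw [add_zero] at this
  exact (left_eq_mul.mp this)

theorem IsI.neg {r : (ℕ → ℤ) → SS A} (h : IsI r) (m : ℕ → ℤ) : r (-m) = (r m)⁻¹ := by
  have := h.1 (-m) m
  rw [neg_add_cancel, IsI.zero h] at this
  exact (inv_eq_of_mul_eq_one_left this.symm).symm

theorem IsI.conj {r : (ℕ → ℤ) → SS A} (h : IsI r) (t : SS A) :
    IsI (fun m => t * r m * t⁻¹) := by
  refine ⟨fun a b => ?_, ?_⟩
  · show t * r (a + b) * t⁻¹ = t * r a * t⁻¹ * (t * r b * t⁻¹)
    rw [h.1]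
    group
  · obtain ⟨ψ, hψ⟩ := h.2
    obtain ⟨τ, rfl⟩ := QuotientGroup.mk_surjective t
    refine ⟨fun n x => τ n * ψ n x * (τ n)⁻¹, fun a => ?_⟩
    show _ * r a * _ = _
    rw [hψ]
    rfl

theorem IsI.mul {r r' : (ℕ → ℤ) → SS A} (h : IsI r) (h' : IsI r')
    (hc : ∀ a b, Commute (r a) (r' b)) : IsI (fun m => r m * r' m) := by
  refine ⟨fun a b => ?_, ?_⟩
  · show r (a + b) * r' (a + b) = r a * r' a * (r b * r' b)
    rw [h.1, h'.1, mul_assoc, mul_assoc, ← mul_assoc (r b), (hc b a).eq, mul_assoc]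
  · obtain ⟨ψ, hψ⟩ := h.2
    obtain ⟨ψ', hψ'⟩ := h'.2
    refine ⟨fun n x => ψ n x * ψ' n x, fun a => ?_⟩
    show r a * r' a = _
    rw [hψ, hψ']
    rfl

theorem IsI.compneg {r : (ℕ → ℤ) → SS A} (h : IsI r) : IsI (fun m => r (-m)) := by
  refine ⟨fun a b => ?_, ?_⟩
  · show r (-(a + b)) = r (-a) * r (-b)
    rw [neg_add, h.1]
  · obtain ⟨ψ, hψ⟩ := h.2
    exact ⟨fun n x => ψ n (-x), fun a => hψ (-a)⟩

theorem uniq (a2 : A2P) {r r' : (ℕ → ℤ) → SS A} (h : IsI r) (h' : IsI r')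
    (hc : ∀ a b, Commute (r a) (r' b)) (h1 : r (fun _ => 1) = r' (fun _ => 1)) (m : ℕ → ℤ) :
    r m = r' m := by
  have hn := IsI.compneg h'
  have hI : IsI (fun m => r m * r' (-m)) := IsI.mul h hn (fun a b => hc a (-b))
  have h2 := a2 A _ hI (by
    show r (fun _ => 1) * r' (-(fun _ => 1)) = 1
    rw [IsI.neg h', h1, mul_inv_cancel]) m
  have h3 : r m * r' (-m) = 1 := h2
  rw [IsI.neg h'] at h3
  exact mul_inv_eq_one.1 h3

end

-- BEGIN TARGET
theorem main (a2 : A2P) : S4R := by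
  intro A _ _ k hk α E i j p hij hjp hip
  obtain ⟨d, hd, hdn⟩ := exists_d hk i j p
  obtain ⟨P, hP, -⟩ := E0.main (Fin k) ℤ
  have hSc : ∀ a b c e : Fin k, a ≠ b → c ≠ e → b ≠ c → a ≠ e →
      Commute (El a b (1 : ℤ)) (El c e (1 : ℤ)) := by
    intro a b c e h1 h2 h3 h4
    have := P.comm a b c e h1 h2 h3 h4 1 1
    rwa [hP] at this
  have hSm : ∀ a b c : Fin k, a ≠ b → b ≠ c → a ≠ c →
      (El a b (1 : ℤ) * El b c (1 : ℤ) : SpecialLinearGroup (Fin k) ℤ) =
        El a c 1 * El b c 1 * El a b 1 := by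
    intro a b c h1 h2 h3
    have := P.mul a b c h1 h2 h3 1 1
    rwa [hP, one_mul] at this
  have hda : ∀ a b, a ≠ b → d a ≠ d b := fun a b h h' => h (hd h')
  -- (a)
  have ha : ∀ l m, Commute (E.e i j l) (E.e i p m) := by
    intro l m
    refine (E.glob i p hip d hd (fun q => ⟨(hdn q).1, (hdn q).2.2⟩) (E.e i j l) ?_ ?_ ?_ m).symm
    · intro a b hab
      exact E.cen i j (d a) (d b) hij (hda a b hab) (hdn a).2.1 (hdn b).1 l
    · intro q
      exact E.cen i j i (d q) hij (hdn q).1.symm hij (hdn q).1 l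
    · intro q
      exact E.cen i j (d q) p hij (hdn q).2.2 (hdn q).2.1 hip.symm l
  -- (b)
  have hb : ∀ l m, Commute (E.e i p l) (E.e j p m) := by
    intro l m
    refine (E.glob j p hjp d hd (fun q => ⟨(hdn q).2.1, (hdn q).2.2⟩) (E.e i p l) ?_ ?_ ?_ m).symm
    · intro a b hab
      exact E.cen i p (d a) (d b) hip (hda a b hab) (hdn a).2.2 (hdn b).1 l
    · intro q
      exact E.cen i p j (d q) hip (hdn q).2.1.symm hjp (hdn q).1 l
    · intro q
      exact E.cen i p (d q) p hip (hdn q).2.2 (hdn q).2.2 hip.symm l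
  refine ⟨ha, hb, ?_⟩
  -- (c)
  set t : SS A := α (El j p 1) with ht
  -- elements commuting with `t` and with `e_ij`
  have key : ∀ (s : SS A) (a : ℕ → ℤ), Commute s t → Commute (E.e i j a) s →
      Commute (t * E.e i j a * t⁻¹) s := by
    intro s a h1 h2
    exact (h1.symm.mul_left h2).mul_left h1.symm.inv_left
  have hdd : ∀ (x : ℕ → ℤ) a b, a ≠ b →
      Commute (t * E.e i j x * t⁻¹) (α (El (d a) (d b) 1)) := by
    intro x a b hab
    refine key _ x ?_ (E.cen i j (d a) (d b) hij (hda a b hab) (hdn a).2.1 (hdn b).1 x)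
    exact (hSc (d a) (d b) j p (hda a b hab) hjp (hdn b).2.1 (hdn a).2.2).map α
  have hid : ∀ (x : ℕ → ℤ) q, Commute (t * E.e i j x * t⁻¹) (α (El i (d q) 1)) := by
    intro x q
    refine key _ x ?_ (E.cen i j i (d q) hij (hdn q).1.symm hij (hdn q).1 x)
    exact (hSc i (d q) j p (hdn q).1.symm hjp (hdn q).2.1 hip).map α
  have hdp : ∀ (x : ℕ → ℤ) q, Commute (t * E.e i j x * t⁻¹) (α (El (d q) p 1)) := by
    intro x q
    refine key _ x ?_ (E.cen i j (d q) p hij (hdn q).2.2 (hdn q).2.1 hip.symm x)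
    exact (hSc (d q) p j p (hdn q).2.2 hjp hjp.symm (hdn q).2.2).map α
  have hdj : ∀ (x : ℕ → ℤ) q, Commute (t * E.e i j x * t⁻¹) (α (El (d q) j 1)) := by
    intro x q
    -- `t⁻¹ E_dj t = E_dp E_dj`
    have h1 : (El (d q) j (1 : ℤ) * El j p (1 : ℤ) : SpecialLinearGroup (Fin k) ℤ) =
        El j p 1 * (El (d q) p 1 * El (d q) j 1) := by
      rw [hSm (d q) j p (hdn q).2.1 hjp (hdn q).2.2,
        (hSc (d q) p j p (hdn q).2.2 hjp hjp.symm (hdn q).2.2).eq, mul_assoc]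
    have h2 : α (El (d q) j 1) * t = t * (α (El (d q) p 1) * α (El (d q) j 1)) := by
      rw [ht, ← map_mul, h1, map_mul, map_mul]
    have h3 : Commute (E.e i j x) (α (El (d q) p 1) * α (El (d q) j 1)) :=
      (E.cen i j (d q) p hij (hdn q).2.2 (hdn q).2.1 hip.symm x).mul_right
        (E.cen i j (d q) j hij (hdn q).2.1 (hdn q).2.1 hij.symm x)
    set u : SS A := α (El (d q) p 1) * α (El (d q) j 1) with hu
    have h4 : α (El (d q) j 1) = t * u * t⁻¹ := by
      rw [← h2]; group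
    rw [h4]
    show t * E.e i j x * t⁻¹ * (t * u * t⁻¹) = t * u * t⁻¹ * (t * E.e i j x * t⁻¹)
    calc t * E.e i j x * t⁻¹ * (t * u * t⁻¹) = t * (E.e i j x * u) * t⁻¹ := by group
      _ = t * (u * E.e i j x) * t⁻¹ := by rw [h3.eq]
      _ = _ := by group
  have hcij : ∀ x b, Commute (t * E.e i j x * t⁻¹) (E.e i j b) := by
    intro x b
    exact (E.glob i j hij d hd (fun q => ⟨(hdn q).1, (hdn q).2.1⟩) _ (fun a b => hdd x a b)
      (hid x) (hdj x) b).symm
  have hcip : ∀ x b, Commute (t * E.e i j x * t⁻¹) (E.e i p b) := by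
    intro x b
    exact (E.glob i p hip d hd (fun q => ⟨(hdn q).1, (hdn q).2.2⟩) _ (fun a b => hdd x a b)
      (hid x) (hdp x) b).symm
  have I1 := IsI.conj (E.int i j hij) t
  have I2 := IsI.mul (E.int i j hij) (IsI.compneg (E.int i p hip)) (fun a b => ha a (-b))
  have hU := uniq a2 I1 I2 (fun a b => (hcij a b).mul_right (hcip a (-b))) (by
    show t * E.e i j (fun _ => 1) * t⁻¹ = E.e i j (fun _ => 1) * E.e i p (-(fun _ => 1))
    rw [IsI.neg (E.int i p hip), E.one i j hij, E.one i p hip]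
    have h1 := congrArg α (hSm i j p hij hjp hip)
    rw [map_mul, map_mul, map_mul] at h1
    have h2 : Commute (α (El i j 1)) (α (El i p 1)) :=
      (hSc i j i p hij hip hij.symm hip).map α
    have h3 : Commute (α (El i p 1)) t := (hSc i p j p hip hjp hjp.symm hip).map α
    rw [← ht] at h1
    -- h1 : e t = f t e
    have h4 : t * α (El i j 1) = (α (El i p 1))⁻¹ * (α (El i j 1) * t) := by
      rw [h1, mul_assoc, inv_mul_cancel_left]
    rw [h4, mul_assoc, mul_assoc, mul_inv_cancel, mul_one]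
    exact h2.inv_right.eq.symm)
  intro m
  have h5 : t * E.e i j m * t⁻¹ = E.e i j m * E.e i p (-m) := hU m
  rw [IsI.neg (E.int i p hip)] at h5
  have h6 : t * E.e i j m = E.e i j m * (E.e i p m)⁻¹ * t := by
    rw [← h5]; group
  have hc : Commute (E.e i p m) (E.e i j m) := (ha m m).symm
  calc E.e i j m * t = E.e i p m * (E.e i j m * (E.e i p m)⁻¹) * t := by
        rw [← mul_assoc, hc.eq, mul_inv_cancel_right]
    _ = E.e i p m * (E.e i j m * (E.e i p m)⁻¹ * t) := by simp only [mul_assoc]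
    _ = E.e i p m * (t * E.e i j m) := by rw [h6]
    _ = _ := by rw [mul_assoc]
-- END TARGET

end Pool.Agent.H742F.S4
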