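import Pool.Agent.H742F.Stm

/-!
# Project FS (helper742): part S for `k ≥ 6`
-/

set_option autoImplicit false
set_option maxHeartbeats 400000

open Filter Topology Finset

namespace Pool.Agent.H742F

open Helper418 Pool.Agent.helper987_SE Pool.Agent.Helper702_TH
open Matrix (SpecialLinearGroup)

/-- S1 for `k ≥ 6`. -/
def S1R : Prop := ∀ (A : ℕ → Type) [∀ n, Fintype (A n)] [∀ n, Nonempty (A n)] (k : ℕ), 6 ≤ k →
  ∀ α : SpecialLinearGroup (Fin k) ℤ →* SS A, Nonempty (EPow k α)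

/-- S4: rows and columns commute, and the relation (3). -/
def S4R : Prop := ∀ (A : ℕ → Type) [∀ n, Fintype (A n)] [∀ n, Nonempty (A n)] (k : ℕ), 6 ≤ k →
  ∀ (α : SpecialLinearGroup (Fin k) ℤ →* SS A) (E : EPow k α) (i j p : Fin k),
    i ≠ j → j ≠ p → i ≠ p →
    (∀ l m, Commute (E.e i j l) (E.e i p m)) ∧ (∀ l m, Commute (E.e i p l) (E.e j p m)) ∧
    ∀ m, E.e i j m * α (El j p 1) = E.e i p m * α (El j p 1) * E.e i j m

/-- S3: commutation. -/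
def S3R : Prop := ∀ (A : ℕ → Type) [∀ n, Fintype (A n)] [∀ n, Nonempty (A n)] (k : ℕ), 6 ≤ k →
  ∀ (α : SpecialLinearGroup (Fin k) ℤ →* SS A) (E : EPow k α) (i j p q : Fin k),
    i ≠ j → p ≠ q → j ≠ p → i ≠ q → ∀ l m, Commute (E.e i j l) (E.e p q m)

/-- S2 for `k ≥ 6`. -/
def SPR : Prop := ∀ (A : ℕ → Type) [∀ n, Fintype (A n)] [∀ n, Nonempty (A n)] (k : ℕ), 6 ≤ k →
  ∀ α : SpecialLinearGroup (Fin k) ℤ →* SS A,
    ∃ P : StRel (Fin k) (ℕ → ℤ) (SS A), (∀ i j, i ≠ j → IsI (P.x i j)) ∧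
      ∀ i j, i ≠ j → P.x i j (fun _ => 1) = α (El i j 1)

/-- Z: the main theorem. -/
def ZR : Prop := ∀ k : ℕ, 6 ≤ k → FlexStable (SpecialLinearGroup (Fin k) ℤ)

end Pool.Agent.H742F
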