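import Pool.Agent.H742F.Stm

/-!
# Project FS (helper742), part T (helper328): torsion

An internal representation of the Steinberg relations over all sequences of integers factors
through a product of finite cyclic rings.
-/

set_option autoImplicit false
set_option maxHeartbeats 400000

open Filter Topology Finset

namespace Pool.Agent.H742F.T

open Helper418 Pool.Agent.helper987_SE Pool.Agent.Helper702_TH
open Matrix (SpecialLinearGroup)

theorem main (a3 : A3P) : TP := by
  intro A _ k hk P hP
  have h3 : ∀ i j : Fin k, ∃ o : ℕ → ℤ, (∀ n, 0 < o n) ∧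
      (i ≠ j → ∀ m, P.x i j (o * m) = 1) := by
    intro i j
    by_cases hij : i = j
    · exact ⟨fun _ => 1, fun _ => one_pos, fun h => absurd hij h⟩
    · obtain ⟨o, ho, h⟩ := a3 A (P.x i j) (hP i j hij)
      exact ⟨o, ho, fun _ => h⟩
  choose o ho hx using h3
  obtain ⟨O, hOdef⟩ : ∃ O : ℕ → ℤ, ∀ n, O n = ∏ i : Fin k, ∏ j : Fin k, o i j n :=
    ⟨fun n => ∏ i : Fin k, ∏ j : Fin k, o i j n, fun _ => rfl⟩
  have hO : ∀ n, 0 < O n := fun n => by
    rw [hOdef]
    exact Finset.prod_pos fun i _ => Finset.prod_pos fun j _ => ho i j n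
  obtain ⟨N, hN⟩ : ∃ N : ℕ → ℕ, ∀ n, (N n : ℤ) = O n :=
    ⟨fun n => (O n).toNat, fun n => Int.toNat_of_nonneg (hO n).le⟩
  have hN0 : ∀ n, 0 < N n := by
    intro n
    have h1 := hO n
    have h2 := hN n
    omega
  have hxO : ∀ i j, i ≠ j → ∀ m : ℕ → ℤ, P.x i j (fun n => (N n : ℤ) * m n) = 1 := by
    intro i j hij m
    have hd : ∀ n, ∃ q, O n = o i j n * q := by
      intro n
      rw [hOdef]
      exact (Finset.dvd_prod_of_mem (fun j => o i j n) (Finset.mem_univ j)).trans
        (Finset.dvd_prod_of_mem (fun i => ∏ j : Fin k, o i j n) (Finset.mem_univ i))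
    choose q hq using hd
    have he : (fun n => (N n : ℤ) * m n) = o i j * fun n => q n * m n := by
      funext n
      rw [hN, hq, Pi.mul_apply, mul_assoc]
    rw [he]
    exact hx i j hij _
  have hcong : ∀ i j, i ≠ j → ∀ a b : ℕ → ℤ,
      (∀ n, ((a n : ℤ) : ZMod (N n)) = ((b n : ℤ) : ZMod (N n))) → P.x i j a = P.x i j b := by
    intro i j hij a b hab
    have hq : ∀ n, ∃ q, a n = b n + (N n : ℤ) * q := by
      intro n
      have h1 := hab n
      rw [eq_comm, ZMod.intCast_eq_intCast_iff_dvd_sub] at h1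
      obtain ⟨q, hq⟩ := h1
      exact ⟨q, by linarith⟩
    choose q hq using hq
    have he : a = b + fun n => (N n : ℤ) * q n := funext hq
    rw [he, P.add i j hij, hxO i j hij, mul_one]
  have hL : ∀ n (a : ZMod (N n)), (((a.cast : ℤ)) : ZMod (N n)) = a := fun n a =>
    ZMod.intCast_zmod_cast a
  let P' : StRel (Fin k) (∀ n, ZMod (N n)) (SS A) :=
    { x := fun i j a => P.x i j (fun n => ((a n).cast : ℤ))
      add := by
        intro i j hij a b
        rw [← P.add i j hij]
        refine hcong i j hij _ _ fun n => ?_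
        rw [Pi.add_apply, Pi.add_apply, Int.cast_add, hL, hL, hL]
      mul := by
        intro i j l h1 h2 h3 a b
        rw [P.mul i j l h1 h2 h3]
        congr 2
        refine hcong i l h3 _ _ fun n => ?_
        rw [Pi.mul_apply, Pi.mul_apply, Int.cast_mul, hL, hL, hL]
      comm := fun i j l m h1 h2 h3 h4 a b => P.comm i j l m h1 h2 h3 h4 _ _ }
  refine ⟨N, hN0, P', ?_, ?_⟩
  · intro i j hij
    obtain ⟨-, ψ, hψ⟩ := hP i j hij
    exact ⟨fun n a => ψ n (a.cast : ℤ), fun a => hψ _⟩
  · intro i j hij m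
    exact hcong i j hij _ _ fun n => hL n _

end Pool.Agent.H742F.T
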