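import Pool.Agent.H742F.Stm

/-!
# Project FS (helper742), part U: homomorphisms of `SL` over a product ring are internal
(proved by helper937)
-/

set_option autoImplicit false
set_option maxHeartbeats 400000

open Filter Topology Finset

namespace Pool.Agent.H742F.U

open Helper418 Pool.Agent.helper987_SE Pool.Agent.Helper702_TH
open Matrix (SpecialLinearGroup)

section El

variable {ι R : Type} [Fintype ι] [DecidableEq ι] [CommRing R]

theorem El_ne (i j : ι) (h : i ≠ j) (a : R) : El i j a =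
    (⟨Matrix.transvection i j a, Matrix.det_transvection_of_ne i j h a⟩ :
      SpecialLinearGroup ι R) := dif_neg h

theorem El_self (i : ι) (a : R) : El i i a = (1 : SpecialLinearGroup ι R) := dif_pos rfl

theorem El_zero (i j : ι) : (El i j 0 : SpecialLinearGroup ι R) = 1 := by
  by_cases h : i = j
  · rw [h, El_self]
  · rw [El_ne i j h]
    apply Subtype.ext
    simp [Matrix.transvection]

theorem El_mul (i j : ι) (a b : R) : El i j a * El i j b = El i j (a + b) := by
  by_cases h : i = j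
  · rw [h, El_self, El_self, El_self, one_mul]
  · rw [El_ne i j h, El_ne i j h, El_ne i j h]
    apply Subtype.ext
    exact Matrix.transvection_mul_transvection_same i j h a b

theorem El_inv (i j : ι) (a : R) : (El i j a)⁻¹ = El i j (-a) := by
  rw [inv_eq_iff_mul_eq_one, El_mul, add_neg_cancel, El_zero]

/-- representation in a list of pairs -/
def Rp : List (ι × ι) → SpecialLinearGroup ι R → Prop
  | [], g => g = 1
  | p :: l, g => ∃ (a : R) (g' : SpecialLinearGroup ι R), g = El p.1 p.2 a * g' ∧ Rp l g'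

theorem Rp_one (l : List (ι × ι)) : Rp l (1 : SpecialLinearGroup ι R) := by
  induction l with
  | nil => rfl
  | cons p l ih => exact ⟨0, 1, by rw [El_zero, one_mul], ih⟩

theorem Rp_append (l l' : List (ι × ι)) (g g' : SpecialLinearGroup ι R) (h : Rp l g)
    (h' : Rp l' g') : Rp (l ++ l') (g * g') := by
  induction l generalizing g with
  | nil =>
    have : g = 1 := h
    rw [this, one_mul]
    exact h'
  | cons p l ih =>
    obtain ⟨a, g1, e, h1⟩ := h
    exact ⟨a, g1 * g', by rw [e, mul_assoc], ih g1 h1⟩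

theorem Rp_mem (l : List (ι × ι)) (i j : ι) (h : (i, j) ∈ l) (a : R) :
    Rp l (El i j a) := by
  obtain ⟨s, t, rfl⟩ := List.append_of_mem h
  have h1 : Rp ([(i, j)] : List (ι × ι)) (El i j a : SpecialLinearGroup ι R) :=
    ⟨a, 1, by simp, rfl⟩
  have h2 := Rp_append _ _ _ _ (Rp_one (R := R) s) (Rp_append _ _ _ _ h1 (Rp_one (R := R) t))
  simpa using h2

variable (ι) in
/-- `m` copies of the list of all pairs -/
noncomputable def LL : ℕ → List (ι × ι)
  | 0 => []
  | m + 1 => (Finset.univ : Finset (ι × ι)).toList ++ LL m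

omit [DecidableEq ι] in
theorem LL_add (m m' : ℕ) : LL ι (m + m') = LL ι m ++ LL ι m' := by
  induction m with
  | zero => simp [LL]
  | succ m ih =>
    rw [Nat.add_right_comm]
    simp [LL, ih]

theorem Rp_mono (m m' : ℕ) (h : m ≤ m') (g : SpecialLinearGroup ι R) (hg : Rp (LL ι m) g) :
    Rp (LL ι m') g := by
  obtain ⟨k, rfl⟩ := Nat.exists_eq_add_of_le h
  rw [LL_add]
  simpa using Rp_append _ _ _ _ hg (Rp_one (R := R) (LL ι k))

end El

section Prod

variable {ι : Type} [Fintype ι] [DecidableEq ι] {Q : ℕ → Type} [∀ n, CommRing (Q n)]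

theorem cmp_apply (n : ℕ) (g : SpecialLinearGroup ι (∀ n, Q n)) (i j : ι) :
    (cmp n g : SpecialLinearGroup ι (Q n)) i j = g i j n := by
  rfl

theorem cmp_El (n : ℕ) (i j : ι) (a : ∀ n, Q n) :
    cmp n (El i j a) = El i j (a n) := by
  by_cases h : i = j
  · rw [h, El_self, El_self, map_one]
  · rw [El_ne i j h, El_ne i j h]
    apply Matrix.SpecialLinearGroup.ext
    intro k l
    show Matrix.transvection i j a k l n = Matrix.transvection i j (a n) k l
    simp only [Matrix.transvection, Matrix.add_apply,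
      Matrix.one_apply, Matrix.single_apply, Pi.add_apply]
    split_ifs <;> simp

theorem ext_cmp (g g' : SpecialLinearGroup ι (∀ n, Q n)) (h : ∀ n, cmp n g = cmp n g') :
    g = g' := by
  apply Matrix.SpecialLinearGroup.ext
  intro i j
  funext n
  rw [← cmp_apply, ← cmp_apply, h]

/-- gluing matrices -/
theorem glue (g : ∀ n, SpecialLinearGroup ι (Q n)) :
    ∃ G : SpecialLinearGroup ι (∀ n, Q n), ∀ n, cmp n G = g n := by
  let M : Matrix ι ι (∀ n, Q n) := fun i j n => g n i j
  have hM : M.det = 1 := by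
    funext n
    have h1 : (Pi.evalRingHom Q n) M.det = ((Pi.evalRingHom Q n).mapMatrix M).det :=
      RingHom.map_det _ _
    have h2 : (Pi.evalRingHom Q n).mapMatrix M = (g n : Matrix ι ι (Q n)) := by
      ext i j
      rfl
    rw [h2, (g n).det_coe] at h1
    exact h1
  refine ⟨⟨M, hM⟩, fun n => ?_⟩
  apply Matrix.SpecialLinearGroup.ext
  intro i j
  rfl

theorem bdd (hE : Subgroup.closure (Els ι (∀ n, Q n)) = ⊤)
    (G : SpecialLinearGroup ι (∀ n, Q n)) : ∃ m, ∀ n, Rp (LL ι m) (cmp n G) := by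
  have h : G ∈ Subgroup.closure (Els ι (∀ n, Q n)) := by rw [hE]; trivial
  have st : ∀ (i j : ι) (a : ∀ n, Q n) (y : SpecialLinearGroup ι (∀ n, Q n)),
      (∃ m, ∀ n, Rp (LL ι m) (cmp n y)) → ∃ m, ∀ n, Rp (LL ι m) (cmp n (El i j a * y)) := by
    rintro i j a y ⟨m, hm⟩
    refine ⟨m + 1, fun n => ?_⟩
    rw [map_mul, cmp_El]
    exact Rp_append _ _ _ _ (Rp_mem _ i j (by simp) (a n)) (hm n)
  induction h using Subgroup.closure_induction_left with
  | one => exact ⟨0, fun n => by rw [map_one]; exact Rp_one _⟩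
  | mul_left x hx y hy ih =>
    obtain ⟨i, j, a, _, rfl⟩ := hx
    exact st i j a y ih
  | inv_mul_cancel x hx y hy ih =>
    obtain ⟨i, j, a, _, rfl⟩ := hx
    rw [El_inv]
    exact st i j (-a) y ih

theorem bdd_all [∀ n, Finite (Q n)] (hE : Subgroup.closure (Els ι (∀ n, Q n)) = ⊤) :
    ∃ m, ∀ n, ∀ h : SpecialLinearGroup ι (Q n), Rp (LL ι m) h := by
  classical
  have ex : ∀ n, ∀ h : SpecialLinearGroup ι (Q n), ∃ m, Rp (LL ι m) h := by
    intro n h
    obtain ⟨G, hG⟩ := glue (Q := Q) (ι := ι) (Function.update (fun _ => 1) n h)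
    obtain ⟨m, hm⟩ := bdd hE G
    refine ⟨m, ?_⟩
    have := hm n
    rwa [hG, Function.update_self] at this
  have mx : ∀ n, ∃ g : SpecialLinearGroup ι (Q n), ∀ h : SpecialLinearGroup ι (Q n),
      Nat.find (ex n h) ≤ Nat.find (ex n g) := by
    intro n
    have : Finite (SpecialLinearGroup ι (Q n)) := by
      have h1 : Finite (Matrix ι ι (Q n)) := by
        unfold Matrix
        infer_instance
      exact Finite.of_injective (fun g : SpecialLinearGroup ι (Q n) => (g : Matrix ι ι (Q n)))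
        Subtype.val_injective
    exact Finite.exists_max fun h => Nat.find (ex n h)
  choose g hg using mx
  obtain ⟨G, hG⟩ := glue g
  obtain ⟨m, hm⟩ := bdd hE G
  refine ⟨m, fun n h => ?_⟩
  have h1 : Nat.find (ex n (g n)) ≤ m := Nat.find_min' _ (by rw [← hG]; exact hm n)
  exact Rp_mono _ _ ((hg n h).trans h1) _ (Nat.find_spec (ex n h))

end Prod

theorem key {A : ℕ → Type} [∀ n, Fintype (A n)] {ι : Type} [Fintype ι] [DecidableEq ι]
    {Q : ℕ → Type} [∀ n, CommRing (Q n)]
    (Φ : SpecialLinearGroup ι (∀ n, Q n) →* SS A)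
    (hI : ∀ i j, i ≠ j → Itn (fun a => Φ (El i j a))) (l : List (ι × ι)) :
    ∃ F : ∀ n, SpecialLinearGroup ι (Q n) → Equiv.Perm (A n),
      ∀ g, (∀ n, Rp l (cmp n g)) → Φ g = cls fun n => F n (cmp n g) := by
  classical
  induction l with
  | nil =>
    refine ⟨fun _ _ => 1, fun g hg => ?_⟩
    have h1 : g = 1 := ext_cmp _ _ fun n => by
      rw [map_one]
      exact hg n
    rw [h1, map_one]
    rfl
  | cons p l ih =>
    obtain ⟨F, hF⟩ := ih
    have hp : ∃ ψ : ∀ n, Q n → Equiv.Perm (A n), ∀ a : ∀ n, Q n,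
        Φ (El p.1 p.2 a) = cls fun n => ψ n (a n) := by
      by_cases h : p.1 = p.2
      · refine ⟨fun _ _ => 1, fun a => ?_⟩
        rw [h, El_self, map_one]
        rfl
      · exact hI _ _ h
    obtain ⟨ψ, hψ⟩ := hp
    have ch : ∀ n, ∀ h : SpecialLinearGroup ι (Q n), ∃ (a : Q n)
        (g' : SpecialLinearGroup ι (Q n)), Rp (p :: l) h →
          h = El p.1 p.2 a * g' ∧ Rp l g' := by
      intro n h
      by_cases hh : Rp (p :: l) h
      · obtain ⟨a, g', h1, h2⟩ := hh
        exact ⟨a, g', fun _ => ⟨h1, h2⟩⟩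
      · exact ⟨0, 1, fun h' => absurd h' hh⟩
    choose a g' hag using ch
    refine ⟨fun n h => ψ n (a n h) * F n (g' n h), fun g hg => ?_⟩
    set b : ∀ n, Q n := fun n => a n (cmp n g) with hb
    have h1 : ∀ n, cmp n ((El p.1 p.2 b)⁻¹ * g) = g' n (cmp n g) := by
      intro n
      rw [map_mul, map_inv, cmp_El, inv_mul_eq_iff_eq_mul]
      exact (hag n _ (hg n)).1
    have h2 := hF ((El p.1 p.2 b)⁻¹ * g) (fun n => by rw [h1]; exact (hag n _ (hg n)).2)
    have h3 : Φ g = Φ (El p.1 p.2 b) * Φ ((El p.1 p.2 b)⁻¹ * g) := by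
      rw [← map_mul, mul_inv_cancel_left]
    rw [h3, h2, hψ]
    simp only [h1]
    rfl

-- BEGIN TARGET
theorem main : UP := by
  intro A _ ι _ _ Q _ _ Φ hE hI
  obtain ⟨m, hm⟩ := bdd_all hE
  obtain ⟨F, hF⟩ := key Φ hI (LL ι m)
  exact ⟨F, fun g => hF g fun n => hm n _⟩
-- END TARGET

end Pool.Agent.H742F.U
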